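import Mathlib

/-!
Commutative algebras of linear maps normalised by a strongly irreducible group.
-/

set_option autoImplicit false

open Set

namespace Pool.Agent.P8H83

section
variable {G E : Type} [Group G] [AddCommGroup E] [Module ℝ E]

/-- no subgroup of finite index preserves a proper nonzero subspace -/
def SIrr (ρ : G →* Module.End ℝ E) : Prop :=
  ∀ H : Subgroup G, H.FiniteIndex → ∀ W : Submodule ℝ E, (∀ g ∈ H, ∀ v ∈ W, ρ g v ∈ W) →
    W = ⊥ ∨ W = ⊤

variable (ρ : G →* Module.End ℝ E)

theorem rho_inv_apply (g : G) (v : E) : ρ g⁻¹ (ρ g v) = v := by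
  have : (ρ g⁻¹ * ρ g) v = v := by rw [← map_mul, inv_mul_cancel, map_one]; rfl
  exact this

theorem rho_apply_inv (g : G) (v : E) : ρ g (ρ g⁻¹ v) = v := by
  have : (ρ g * ρ g⁻¹) v = v := by rw [← map_mul, mul_inv_cancel, map_one]; rfl
  exact this

/-- the action on subspaces -/
@[instance_reducible]
def subAct : MulAction G (Submodule ℝ E) where
  smul g V := V.map (ρ g)
  one_smul V := by
    show V.map (ρ 1) = V
    rw [map_one]
    exact Submodule.map_id V
  mul_smul g h V := by
    show V.map (ρ (g * h)) = (V.map (ρ h)).map (ρ g)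
    rw [map_mul, ← Submodule.map_comp]
    rfl

theorem finiteIndex_stab {V : Submodule ℝ E} {S : Set (Submodule ℝ E)} (hS : S.Finite)
    (h : ∀ g, V.map (ρ g) ∈ S) : ∃ H : Subgroup G, H.FiniteIndex ∧ ∀ g ∈ H, V.map (ρ g) = V := by
  let := subAct ρ
  refine ⟨MulAction.stabilizer G V, ⟨?_⟩, fun g hg => hg⟩
  rw [MulAction.index_stabilizer]
  have h1 : (MulAction.orbit G V).Finite := by
    refine hS.subset ?_
    rintro _ ⟨g, rfl⟩
    exact h g
  exact ((Set.ncard_pos h1).2 ⟨V, MulAction.mem_orbit_self V⟩).ne'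

variable [FiniteDimensional ℝ E]

theorem comm_field (hirr : SIrr ρ) (C : Submodule ℝ (Module.End ℝ E))
    (hmul : ∀ x ∈ C, ∀ y ∈ C, x * y ∈ C) (hcomm : ∀ x ∈ C, ∀ y ∈ C, x * y = y * x)
    (hconj : ∀ g, ∀ x ∈ C, ρ g * x * ρ g⁻¹ ∈ C) : ∀ x ∈ C, x ≠ 0 → Function.Injective x := by
  classical
  by_contra hcon
  push Not at hcon
  obtain ⟨x1, hx1C, hx1, hx1i⟩ := hcon
  -- the rank
  let rk : Module.End ℝ E → ℕ := fun x => Module.finrank ℝ (LinearMap.range x)
  have hex : ∃ n, ∃ x ∈ C, x ≠ 0 ∧ rk x = n := ⟨_, x1, hx1C, hx1, rfl⟩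
  obtain ⟨x, hxC, hx, hxn⟩ := Nat.find_spec hex
  have hmin : ∀ y ∈ C, y ≠ 0 → rk x ≤ rk y := fun y hy hy0 => by
    rw [hxn]; exact Nat.find_min' hex ⟨y, hy, hy0, rfl⟩
  have hrle : ∀ a b : Module.End ℝ E, LinearMap.range (a * b) ≤ LinearMap.range a := by
    rintro a b _ ⟨v, rfl⟩
    exact ⟨b v, rfl⟩
  -- products with elements of minimal rank
  have hprod : ∀ a ∈ C, rk a = rk x → ∀ b ∈ C, a * b ≠ 0 → LinearMap.range (a * b) = LinearMap.range a := by
    intro a ha hra b hb hab
    refine Submodule.eq_of_le_of_finrank_le (hrle a b) ?_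
    have := hmin _ (hmul a ha b hb) hab
    show rk a ≤ rk (a * b)
    rw [hra]
    exact this
  have hproper : LinearMap.range x ≠ ⊤ := by
    intro h
    have h1 : rk x = Module.finrank ℝ E := by
      show Module.finrank ℝ (LinearMap.range x) = _
      rw [h, finrank_top]
    have h2 : LinearMap.range x1 = ⊤ := by
      apply Submodule.eq_top_of_finrank_eq
      have h3 := hmin x1 hx1C hx1
      have h4 : rk x1 ≤ Module.finrank ℝ E := Submodule.finrank_le _
      show rk x1 = _
      omega
    exact hx1i (LinearMap.injective_iff_surjective.2 (LinearMap.range_eq_top.1 h2))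
  have hne : LinearMap.range x ≠ ⊥ := fun h => hx (LinearMap.range_eq_bot.1 h)
  by_cases hsq : x * x = 0
  · -- nilpotent elements
    let K : Submodule ℝ E := sInf {K | ∃ y ∈ C, IsNilpotent y ∧ K = LinearMap.ker y}
    have hK : ∀ v, v ∈ K ↔ ∀ y ∈ C, IsNilpotent y → y v = 0 := by
      intro v
      rw [Submodule.mem_sInf]
      constructor
      · intro h y hy hyn
        exact LinearMap.mem_ker.1 (h _ ⟨y, hy, hyn, rfl⟩)
      · rintro h _ ⟨y, hy, hyn, rfl⟩
        exact h y hy hyn
    have hKinv : ∀ g ∈ (⊤ : Subgroup G), ∀ v ∈ K, ρ g v ∈ K := by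
      intro g _ v hv
      rw [hK] at hv ⊢
      intro y hy hyn
      have h1 := hconj g⁻¹ y hy
      rw [inv_inv] at h1
      have h2 : IsNilpotent (ρ g⁻¹ * y * ρ g) := by
        obtain ⟨k, hk⟩ := hyn
        refine ⟨k, ?_⟩
        have h3 : ∀ j : ℕ, (ρ g⁻¹ * y * ρ g) ^ j = ρ g⁻¹ * y ^ j * ρ g := by
          intro j
          induction j with
          | zero =>
            rw [pow_zero, pow_zero, mul_one, ← map_mul, inv_mul_cancel, map_one]
          | succ j ih =>
            rw [pow_succ, ih, pow_succ]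
            have h4 : ρ g * ρ g⁻¹ = 1 := by rw [← map_mul, mul_inv_cancel, map_one]
            calc ρ g⁻¹ * y ^ j * ρ g * (ρ g⁻¹ * y * ρ g)
                = ρ g⁻¹ * y ^ j * (ρ g * ρ g⁻¹) * y * ρ g := by noncomm_ring
              _ = _ := by rw [h4]; noncomm_ring
        rw [h3, hk, mul_zero, zero_mul]
      have h3 := hv _ h1 h2
      have h4 : ρ g (ρ g⁻¹ (y (ρ g v))) = 0 := by
        have : ρ g⁻¹ (y (ρ g v)) = 0 := h3
        rw [this, map_zero]
      rwa [rho_apply_inv] at h4
    have hxK : LinearMap.range x ≤ K := by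
      rintro _ ⟨v, rfl⟩
      rw [hK]
      intro y hy hyn
      by_contra hyx
      have h1 : x * y ≠ 0 := by
        intro h
        apply hyx
        have : (y * x) v = 0 := by rw [hcomm y hy x hxC, h]; rfl
        exact this
      obtain ⟨k, hk⟩ := hyn
      have h2 : ∀ j : ℕ, LinearMap.range (y ^ j * x) = LinearMap.range x := by
        intro j
        induction j with
        | zero => rw [pow_zero, one_mul]
        | succ j ih =>
          have e1 : LinearMap.range (y ^ (j + 1) * x) = (LinearMap.range (y ^ j * x)).map y := by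
            rw [pow_succ', mul_assoc]
            exact LinearMap.range_comp _ _
          have e2 : (LinearMap.range x).map y = LinearMap.range (y * x) :=
            (LinearMap.range_comp _ _).symm
          rw [e1, ih, e2, hcomm y hy x hxC]
          exact hprod x hxC rfl y hy h1
      have h3 := h2 k
      rw [hk, zero_mul, LinearMap.range_zero] at h3
      exact hne h3.symm
    rcases hirr ⊤ inferInstance K hKinv with h | h
    · rw [h, le_bot_iff] at hxK
      exact hne hxK
    · have h1 : LinearMap.ker x = ⊤ := by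
        rw [eq_top_iff, ← h]
        intro v hv
        exact LinearMap.mem_ker.2 ((hK v).1 hv x hxC ⟨2, by rw [pow_two, hsq]⟩)
      exact hx (LinearMap.ker_eq_top.1 h1)
  · -- idempotent type elements
    let xg : G → Module.End ℝ E := fun g => ρ g * x * ρ g⁻¹
    have hxg : ∀ g, xg g ∈ C := fun g => hconj g x hxC
    have hrange : ∀ g, LinearMap.range (xg g) = (LinearMap.range x).map (ρ g) := by
      intro g
      ext v
      constructor
      · rintro ⟨w, rfl⟩
        exact ⟨x (ρ g⁻¹ w), ⟨_, rfl⟩, rfl⟩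
      · rintro ⟨_, ⟨w, rfl⟩, rfl⟩
        refine ⟨ρ g w, ?_⟩
        show ρ g (x (ρ g⁻¹ (ρ g w))) = _
        rw [rho_inv_apply]
    have hginj : ∀ g, Function.Injective (ρ g) := fun g =>
      Function.LeftInverse.injective (g := ρ g⁻¹) (rho_inv_apply ρ g)
    have hrk : ∀ g, rk (xg g) = rk x := by
      intro g
      show Module.finrank ℝ (LinearMap.range (xg g)) = _
      rw [hrange]
      exact LinearEquiv.finrank_map_eq (LinearEquiv.ofInjectiveEndo (ρ g) (hginj g)) _
    have hsqg : ∀ g, xg g * xg g ≠ 0 := by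
      intro g h
      apply hsq
      have e1 : xg g * xg g = ρ g * (x * x) * ρ g⁻¹ := by
        have h4 : ρ g⁻¹ * ρ g = 1 := by rw [← map_mul, inv_mul_cancel, map_one]
        calc xg g * xg g = ρ g * x * (ρ g⁻¹ * ρ g) * x * ρ g⁻¹ := by
              simp only [xg]; noncomm_ring
          _ = _ := by rw [h4]; noncomm_ring
      rw [e1] at h
      refine LinearMap.ext fun v => ?_
      have h5 : (ρ g * (x * x) * ρ g⁻¹) (ρ g v) = 0 := by rw [h]; rfl
      have h6 : ρ g ((x * x) (ρ g⁻¹ (ρ g v))) = 0 := h5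
      rw [rho_inv_apply] at h6
      apply hginj g
      rw [h6]
      exact (map_zero _).symm
    have hdis : ∀ g, Disjoint (LinearMap.range (xg g)) (LinearMap.ker (xg g)) := by
      intro g
      have h1 := hprod (xg g) (hxg g) (hrk g) (xg g) (hxg g) (hsqg g)
      have h2 : (LinearMap.range (xg g)).map (xg g) = LinearMap.range (xg g) := by
        rw [← LinearMap.range_comp]; exact h1
      -- the restriction of `xg g` to its range is surjective, hence injective
      let r : LinearMap.range (xg g) →ₗ[ℝ] LinearMap.range (xg g) :=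
        (xg g).restrict fun v _ => LinearMap.mem_range_self _ v
      have hsur : Function.Surjective r := by
        rintro ⟨w, hw⟩
        rw [← h2] at hw
        obtain ⟨v, hv, hvw⟩ := hw
        exact ⟨⟨v, hv⟩, Subtype.ext hvw⟩
      have hinj := LinearMap.injective_iff_surjective.2 hsur
      rw [Submodule.disjoint_def]
      intro v hv hv'
      have h3 : r ⟨v, hv⟩ = 0 := Subtype.ext (LinearMap.mem_ker.1 hv')
      have h4 : (⟨v, hv⟩ : LinearMap.range (xg g)) = 0 := hinj (by rw [h3, map_zero])
      exact congrArg Subtype.val h4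
    have hann : ∀ g h, LinearMap.range (xg g) ≠ LinearMap.range (xg h) → xg g * xg h = 0 := by
      intro g h hgh
      by_contra hne
      have h1 := hprod (xg g) (hxg g) (hrk g) (xg h) (hxg h) hne
      have h2 : xg h * xg g ≠ 0 := by rwa [hcomm _ (hxg h) _ (hxg g)]
      have h3 := hprod (xg h) (hxg h) (hrk h) (xg g) (hxg g) h2
      rw [hcomm _ (hxg h) _ (hxg g)] at h3
      exact hgh (h1.symm.trans h3)
    have hindep : sSupIndep (range fun g => LinearMap.range (xg g)) := by
      rintro _ ⟨g, rfl⟩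
      beta_reduce
      refine (hdis g).mono_right (sSup_le ?_)
      rintro _ ⟨⟨h, rfl⟩, hne⟩
      rw [mem_singleton_iff] at hne
      rintro _ ⟨w, rfl⟩
      have h1 : (xg g * xg h) w = 0 := by rw [hann g h (Ne.symm hne)]; rfl
      exact LinearMap.mem_ker.2 h1
    have hfin : (range fun g => LinearMap.range (xg g)).Finite :=
      WellFoundedGT.finite_of_sSupIndep hindep
    obtain ⟨H, hH, hHW⟩ := finiteIndex_stab ρ (V := LinearMap.range x) hfin
      fun g => ⟨g, hrange g⟩
    rcases hirr H hH (LinearMap.range x) (fun g hg v hv => by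
      rw [← hHW g hg]; exact ⟨v, hv, rfl⟩) with h | h
    · exact hne h
    · exact hproper h

end

end Pool.Agent.P8H83
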