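import Pool.Agent.P8H83.Unf
import Pool.Agent.P8H83.Alg
import Pool.Agent.W689.Mk.Star

/-!
Strongly irreducible linear holonomy and injective developing map: the linear holonomy is faithful
and discrete.
-/

set_option autoImplicit false

open Set Filter Topology Metric
open Pool.Agent.W689.Mk

namespace Pool.Agent.P8H83

section
variable {Γ E : Type} [Group Γ] [NormedAddCommGroup E] [NormedSpace ℝ E] [FiniteDimensional ℝ E]

/-- linear holonomy, as a homomorphism to linear maps -/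
def lh (hol : Γ →* (E ≃ᵃ[ℝ] E)) : Γ →* Module.End ℝ E where
  toFun γ := ((hol γ).linear : E →ₗ[ℝ] E)
  map_one' := by rw [map_one]; rfl
  map_mul' γ δ := by rw [map_mul]; rfl

theorem lh_apply (hol : Γ →* (E ≃ᵃ[ℝ] E)) (γ : Γ) (v : E) : lh hol γ v = cl hol γ v := rfl

/-- linear holonomy, as a homomorphism to continuous linear maps -/
noncomputable def clh (hol : Γ →* (E ≃ᵃ[ℝ] E)) : Γ →* (E →L[ℝ] E) where
  toFun γ := cl hol γ
  map_one' := by
    refine ContinuousLinearMap.ext fun v => ?_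
    show (hol 1).linear v = v
    rw [map_one]; rfl
  map_mul' γ δ := ContinuousLinearMap.ext fun v => cl_mul γ δ v

theorem clh_apply (hol : Γ →* (E ≃ᵃ[ℝ] E)) (γ : Γ) : clh hol γ = cl hol γ := rfl

/-- dilation of the second factor -/
noncomputable def scMap (E : Type) [NormedAddCommGroup E] [NormedSpace ℝ E] (t : ℝ) :
    (E × ℝ) →L[ℝ] (E × ℝ) :=
  (ContinuousLinearMap.fst ℝ E ℝ).prod (t • ContinuousLinearMap.snd ℝ E ℝ)

omit [FiniteDimensional ℝ E] in
theorem scMap_mul (s t : ℝ) (h : s * t = 1) : scMap E s * scMap E t = 1 := by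
  refine ContinuousLinearMap.ext fun p => Prod.ext rfl ?_
  show s * (t * p.2) = p.2
  rw [← mul_assoc, h, one_mul]

noncomputable def scU (E : Type) [NormedAddCommGroup E] [NormedSpace ℝ E] (t : ℝ) (ht : t ≠ 0) :
    ((E × ℝ) →L[ℝ] (E × ℝ))ˣ where
  val := scMap E t
  inv := scMap E t⁻¹
  val_inv := scMap_mul _ _ (mul_inv_cancel₀ ht)
  inv_val := scMap_mul _ _ (inv_mul_cancel₀ ht)

theorem cj_sc_apply (hol : Γ →* (E ≃ᵃ[ℝ] E)) {t : ℝ} (ht : t ≠ 0) (γ : Γ) (v : E) (s : ℝ) :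
    cj (hm hol) (scU E t ht) γ (v, s) = (cl hol γ v + (t * s) • hol γ 0, s) := by
  show (cl hol γ v + (t * s) • hol γ 0, t⁻¹ * (t * s)) = _
  rw [← mul_assoc, inv_mul_cancel₀ ht, one_mul]

theorem norm_cj_sc_le (hol : Γ →* (E ≃ᵃ[ℝ] E)) {t : ℝ} (ht : t ≠ 0) (γ : Γ) :
    ‖cj (hm hol) (scU E t ht) γ - 1‖ ≤ ‖cl hol γ - 1‖ + |t| * ‖hol γ 0‖ := by
  refine ContinuousLinearMap.opNorm_le_bound _ (by positivity) fun p => ?_
  obtain ⟨v, s⟩ := p
  have e1 : (cj (hm hol) (scU E t ht) γ - 1) (v, s) = ((cl hol γ - 1) v + (t * s) • hol γ 0, 0) := by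
    show cj (hm hol) (scU E t ht) γ (v, s) - (v, s) = _
    rw [cj_sc_apply, Prod.mk_sub_mk, sub_self]
    congr 1
    show cl hol γ v + (t * s) • hol γ 0 - v = cl hol γ v - v + (t * s) • hol γ 0
    abel
  rw [e1, Prod.norm_def]
  show max ‖(cl hol γ - 1) v + (t * s) • hol γ 0‖ ‖(0 : ℝ)‖ ≤ _
  have hv : ‖v‖ ≤ ‖(v, s)‖ := by rw [Prod.norm_def]; exact le_max_left _ _
  have hs : |s| ≤ ‖(v, s)‖ := by rw [Prod.norm_def]; exact le_max_right _ _
  rw [norm_zero]
  apply max_le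
  · refine (norm_add_le _ _).trans ?_
    have h1 : ‖(cl hol γ - 1) v‖ ≤ ‖cl hol γ - 1‖ * ‖(v, s)‖ :=
      ((cl hol γ - 1).le_opNorm v).trans (mul_le_mul_of_nonneg_left hv (norm_nonneg _))
    have h2 : ‖(t * s) • hol γ 0‖ ≤ |t| * ‖hol γ 0‖ * ‖(v, s)‖ := by
      rw [norm_smul, Real.norm_eq_abs, abs_mul]
      calc |t| * |s| * ‖hol γ 0‖ = |t| * ‖hol γ 0‖ * |s| := by ring
        _ ≤ _ := mul_le_mul_of_nonneg_left hs (by positivity)
    rw [add_mul]
    exact add_le_add h1 h2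
  · positivity

theorem norm_cl_le_cj (hol : Γ →* (E ≃ᵃ[ℝ] E)) {t : ℝ} (ht : t ≠ 0) (γ : Γ) :
    ‖cl hol γ - 1‖ ≤ ‖cj (hm hol) (scU E t ht) γ - 1‖ := by
  refine ContinuousLinearMap.opNorm_le_bound _ (norm_nonneg _) fun v => ?_
  have e1 : (cj (hm hol) (scU E t ht) γ - 1) (v, 0) = ((cl hol γ - 1) v, 0) := by
    show cj (hm hol) (scU E t ht) γ (v, 0) - (v, 0) = _
    rw [cj_sc_apply, Prod.mk_sub_mk, sub_self, mul_zero, zero_smul, add_zero]
    rfl
  have h1 := (cj (hm hol) (scU E t ht) γ - 1).le_opNorm (v, 0)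
  rw [e1] at h1
  have h2 : ‖((cl hol γ - 1) v, (0 : ℝ))‖ = ‖(cl hol γ - 1) v‖ := by
    rw [Prod.norm_def]
    show max ‖(cl hol γ - 1) v‖ ‖(0 : ℝ)‖ = _
    rw [norm_zero, max_eq_left (norm_nonneg _)]
  have h3 : ‖(v, (0 : ℝ))‖ = ‖v‖ := by
    rw [Prod.norm_def]
    show max ‖v‖ ‖(0 : ℝ)‖ = _
    rw [norm_zero, max_eq_left (norm_nonneg _)]
  rwa [h2, h3] at h1

end

section
variable {X Γ E : Type} [NormedAddCommGroup E] [NormedSpace ℝ E] [FiniteDimensional ℝ E]
    [TopologicalSpace X] [T2Space X] [Group Γ] [MulAction Γ X]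
    {dev : X → E} {hol : Γ →* (E ≃ᵃ[ℝ] E)}

/-- finite linear holonomy is not strongly irreducible -/
theorem not_sirr_of_finite (hfin : (range (cl hol)).Finite) (h2 : 2 ≤ Module.finrank ℝ E) :
    ¬ SIrr (lh hol) := by
  intro hirr
  let f : Γ →* (E ≃ₗ[ℝ] E) := AffineEquiv.linearHom.comp hol
  have h1 : (range f).Finite := by
    have h3 : (fun g : E ≃ₗ[ℝ] E => LinearMap.toContinuousLinearMap (g : E →ₗ[ℝ] E)) '' (range f) ⊆
        range (cl hol) := by
      rintro _ ⟨_, ⟨γ, rfl⟩, rfl⟩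
      exact ⟨γ, rfl⟩
    refine Finite.of_finite_image (hfin.subset h3) ?_
    intro a _ b _ hab
    refine LinearEquiv.ext fun v => ?_
    exact congrArg (fun g : E →L[ℝ] E => g v) hab
  have : Finite f.range := h1.to_subtype
  have hker : f.ker.FiniteIndex := inferInstance
  have hnt : Nontrivial E := Module.nontrivial_of_finrank_pos (R := ℝ) (by omega)
  obtain ⟨v, hv⟩ := exists_ne (0 : E)
  rcases hirr f.ker hker (Submodule.span ℝ {v}) (fun γ hγ w hw => by
    have h3 : f γ = 1 := hγ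
    have h4 : lh hol γ w = w := congrArg (fun g : E ≃ₗ[ℝ] E => g w) h3
    rwa [h4]) with h | h
  · exact hv (Submodule.span_singleton_eq_bot.1 h)
  · have h3 := finrank_span_singleton (K := ℝ) hv
    rw [h, finrank_top] at h3
    omega

/-- strongly irreducible: no translations -/
theorem Tv_bot (D : AffData X Γ E dev hol) (hinj : Function.Injective dev) [Nonempty X]
    (h2 : 2 ≤ Module.finrank ℝ E) (hirr : SIrr (lh hol)) {t : E} (ht : t ∈ Tv hol) : t = 0 := by
  rcases hirr ⊤ inferInstance (Submodule.span ℝ (Tv hol : Set E)) (fun γ _ v hv => by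
    have h1 : (Submodule.span ℝ (Tv hol : Set E)).map (lh hol γ) ≤
        Submodule.span ℝ (Tv hol : Set E) := by
      rw [Submodule.map_span]
      refine Submodule.span_mono ?_
      rintro _ ⟨s, hs, rfl⟩
      exact Tv_inv hol γ hs
    exact h1 ⟨v, hv, rfl⟩) with h | h
  · have h3 : t ∈ Submodule.span ℝ (Tv hol : Set E) := Submodule.subset_span ht
    rw [h] at h3
    exact (Submodule.mem_bot ℝ).1 h3
  · exact absurd hirr (not_sirr_of_finite (finite_of_lattice D hinj h) h2)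

/-- strongly irreducible: the linear holonomy is faithful -/
theorem faithful_irr (D : AffData X Γ E dev hol) (hinj : Function.Injective dev) [Nonempty X]
    (h2 : 2 ≤ Module.finrank ℝ E) (hirr : SIrr (lh hol)) {γ : Γ} (hγ : cl hol γ = 1) :
    hol γ = 1 := by
  have h1 : ∀ p, hol γ p = p + hol γ 0 := fun p => by
    rw [hol_eq, hγ]; rfl
  have h3 := Tv_bot D hinj h2 hirr ⟨γ, h1⟩
  refine AffineEquiv.ext fun p => ?_
  rw [h1, h3, add_zero]
  rfl

theorem comm_of_cl (D : AffData X Γ E dev hol) (hinj : Function.Injective dev) [Nonempty X]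
    (h2 : 2 ≤ Module.finrank ℝ E) (hirr : SIrr (lh hol)) {γ δ : Γ}
    (h : cl hol γ * cl hol δ = cl hol δ * cl hol γ) : hol (γ * δ) = hol (δ * γ) := by
  have h1 : cl hol (γ * δ * (δ * γ)⁻¹) = 1 := by
    have h3 : clh hol (γ * δ * (δ * γ)⁻¹) = 1 := by
      rw [map_mul, map_mul]
      show cl hol γ * cl hol δ * clh hol (δ * γ)⁻¹ = 1
      rw [h]
      show clh hol δ * clh hol γ * clh hol (δ * γ)⁻¹ = 1
      rw [← map_mul, ← map_mul, mul_inv_cancel, map_one]
    exact h3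
  have h3 := faithful_irr D hinj h2 hirr h1
  rw [map_mul, map_inv] at h3
  exact mul_inv_eq_one.1 h3

/-- strongly irreducible: the linear holonomy is discrete -/
theorem disc_irr (D : AffData X Γ E dev hol) (hinj : Function.Injective dev) [Nonempty X]
    [SecondCountableTopology X] (h2 : 2 ≤ Module.finrank ℝ E) (hirr : SIrr (lh hol)) :
    ∃ ε > 0, ∀ γ, ‖cl hol γ - 1‖ < ε → hol γ = 1 := by
  classical
  have hnt : Nontrivial E := Module.nontrivial_of_finrank_pos (R := ℝ) (by omega)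
  by_contra hcon
  push Not at hcon
  -- the spans
  let S : ℝ → Set (E →L[ℝ] E) := fun ε => {A | ∃ γ, cl hol γ = A ∧ ‖A - 1‖ ≤ ε}
  let 𝒜 : ℝ → Submodule ℝ (E →L[ℝ] E) := fun ε => Submodule.span ℝ (S ε)
  have hmono : ∀ {a b : ℝ}, a ≤ b → 𝒜 a ≤ 𝒜 b := by
    intro a b hab
    refine Submodule.span_mono ?_
    rintro A ⟨γ, h1, h2⟩
    exact ⟨γ, h1, h2.trans hab⟩
  obtain ⟨V, ⟨ε0, hε0, hε1, rfl⟩, hmin⟩ := (wellFounded_lt (α := Submodule ℝ (E →L[ℝ] E))).has_min
    {V | ∃ ε, 0 < ε ∧ ε ≤ 1 / 16 ∧ V = 𝒜 ε} ⟨_, 1 / 16, by norm_num, le_rfl, rfl⟩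
  have hstab : ∀ ε, 0 < ε → ε ≤ ε0 → 𝒜 ε = 𝒜 ε0 := by
    intro ε h1 h2
    by_contra hne
    exact hmin _ ⟨ε, h1, h2.trans hε1, rfl⟩ (lt_of_le_of_ne (hmono h2) hne)
  -- products
  have hmul : ∀ a ∈ 𝒜 ε0, ∀ b ∈ 𝒜 ε0, a * b ∈ 𝒜 ε0 := by
    have h1 : ∀ a ∈ S (ε0 / 3), ∀ b ∈ S (ε0 / 3), a * b ∈ S ε0 := by
      rintro _ ⟨γ, rfl, hγ⟩ _ ⟨δ, rfl, hδ⟩
      refine ⟨γ * δ, ContinuousLinearMap.ext fun v => cl_mul γ δ v, ?_⟩
      have e1 : cl hol γ * cl hol δ - 1 =
          (cl hol γ - 1) * (cl hol δ - 1) + (cl hol γ - 1) + (cl hol δ - 1) := by noncomm_ring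
      rw [e1]
      refine (norm_add₃_le).trans ?_
      have h3 : ‖(cl hol γ - 1) * (cl hol δ - 1)‖ ≤ ε0 / 3 * (ε0 / 3) :=
        (norm_mul_le _ _).trans (mul_le_mul hγ hδ (norm_nonneg _) (by positivity))
      nlinarith
    intro a ha b hb
    rw [← hstab (ε0 / 3) (by positivity) (by linarith)] at ha hb
    have h3 : 𝒜 (ε0 / 3) * 𝒜 (ε0 / 3) ≤ 𝒜 ε0 := by
      show Submodule.span ℝ _ * Submodule.span ℝ _ ≤ _
      rw [Submodule.span_mul_span]
      refine Submodule.span_mono ?_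
      rintro _ ⟨x, hx, y, hy, rfl⟩
      exact h1 x hx y hy
    exact h3 (Submodule.mul_mem_mul ha hb)
  have hone : (1 : E →L[ℝ] E) ∈ 𝒜 ε0 := by
    refine Submodule.subset_span ⟨1, (clh hol).map_one, ?_⟩
    rw [sub_self, norm_zero]
    exact hε0.le
  -- conjugation
  have hconj : ∀ g : Γ, ∀ a ∈ 𝒜 ε0, cl hol g * a * cl hol g⁻¹ ∈ 𝒜 ε0 := by
    intro g a ha
    set κ := ‖cl hol g‖ * ‖cl hol g⁻¹‖ + 1 with hκ
    have hκ1 : 1 ≤ κ := by
      have : 0 ≤ ‖cl hol g‖ * ‖cl hol g⁻¹‖ := by positivity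
      linarith
    have hκ0 : 0 < κ := by linarith
    rw [← hstab (ε0 / κ) (by positivity) (div_le_self hε0.le hκ1)] at ha
    let cm : (E →L[ℝ] E) →ₗ[ℝ] (E →L[ℝ] E) :=
      { toFun := fun a => cl hol g * a * cl hol g⁻¹
        map_add' := fun a b => by rw [mul_add, add_mul]
        map_smul' := fun t a => by
          rw [mul_smul_comm, smul_mul_assoc, RingHom.id_apply] }
    have h1 : (𝒜 (ε0 / κ)).map cm ≤ 𝒜 ε0 := by
      rw [Submodule.map_span]
      refine Submodule.span_mono ?_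
      rintro _ ⟨_, ⟨γ, rfl, hγ⟩, rfl⟩
      refine ⟨g * γ * g⁻¹, ?_, ?_⟩
      · show clh hol (g * γ * g⁻¹) = cl hol g * cl hol γ * cl hol g⁻¹
        rw [map_mul, map_mul]; rfl
      · have e1 : cm (cl hol γ) - 1 = cl hol g * (cl hol γ - 1) * cl hol g⁻¹ := by
          have h3 : cl hol g * cl hol g⁻¹ = 1 := map_mul_inv (clh hol) g
          show cl hol g * cl hol γ * cl hol g⁻¹ - 1 = _
          rw [mul_sub, sub_mul, mul_one, h3]
        rw [e1]
        have h3 : ‖cl hol g * (cl hol γ - 1) * cl hol g⁻¹‖ ≤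
            ‖cl hol g‖ * ‖cl hol γ - 1‖ * ‖cl hol g⁻¹‖ :=
          (norm_mul_le _ _).trans (mul_le_mul_of_nonneg_right (norm_mul_le _ _) (norm_nonneg _))
        have h4 : ‖cl hol g‖ * ‖cl hol γ - 1‖ * ‖cl hol g⁻¹‖ ≤
            ‖cl hol g‖ * (ε0 / κ) * ‖cl hol g⁻¹‖ :=
          mul_le_mul_of_nonneg_right (mul_le_mul_of_nonneg_left hγ (norm_nonneg _)) (norm_nonneg _)
        have h5 : ‖cl hol g‖ * (ε0 / κ) * ‖cl hol g⁻¹‖ = (κ - 1) * (ε0 / κ) := by rw [hκ]; ring
        have h6 : (κ - 1) * (ε0 / κ) = ε0 - ε0 / κ := by field_simp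
        have h7 : 0 < ε0 / κ := by positivity
        linarith
    exact h1 ⟨a, ha, rfl⟩
  -- a finite spanning set close to one
  obtain ⟨F, hFS, hF⟩ := (Submodule.fg_span_iff_fg_span_finset_subset (R := ℝ) (S (ε0 / 2))).1
    (IsNoetherian.noetherian _)
  have hF' : Submodule.span ℝ (F : Set (E →L[ℝ] E)) = 𝒜 ε0 := by
    rw [← hF]; exact hstab _ (by positivity) (by linarith)
  have hlift : ∀ A ∈ F, ∃ γ, cl hol γ = A ∧ ‖A - 1‖ ≤ ε0 / 2 := fun A hA => hFS hA
  choose! s hs1 hs2 using hlift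
  obtain ⟨g0, hg0, hg0'⟩ := hcon (ε0 / 2) (by positivity)
  -- the scale
  have ev1 : ∀ x : E, ∀ᶠ t : ℝ in 𝓝[>] 0, |t| * ‖x‖ ≤ ε0 / 2 := by
    intro x
    have h1 : Tendsto (fun t : ℝ => |t| * ‖x‖) (𝓝 0) (𝓝 (|0| * ‖x‖)) :=
      (continuous_abs.tendsto 0).mul_const _
    rw [abs_zero, zero_mul] at h1
    exact (h1.eventually_le_const (by positivity)).filter_mono nhdsWithin_le_nhds
  have ev2 : ∀ᶠ t : ℝ in 𝓝[>] 0, ∀ A ∈ F, |t| * ‖hol (s A) 0‖ ≤ ε0 / 2 := by
    rw [Filter.eventually_all_finset]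
    intro A _
    exact ev1 _
  obtain ⟨t, ⟨ht1, ht2⟩, ht0⟩ := ((ev2.and (ev1 (hol g0 0))).and self_mem_nhdsWithin).exists
  have ht : t ≠ 0 := (ne_of_gt ht0)
  have hiso : Iso (cj (hm hol) (scU E t ht)) := (iso_hm D hinj).cj _
  obtain ⟨c, hc1, hc2, hc3⟩ := exists_central _ hiso hε1 ⟨g0, by
    rw [Ne, cj_eq_one_iff, hm_eq_one_iff]
    exact hg0', (norm_cj_sc_le hol ht g0).trans (by linarith)⟩
  rw [Ne, cj_eq_one_iff, hm_eq_one_iff] at hc1
  have hcA : cl hol c ∈ 𝒜 ε0 :=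
    Submodule.subset_span ⟨c, rfl, (norm_cl_le_cj hol ht c).trans hc2⟩
  have hcomm : ∀ a ∈ 𝒜 ε0, a * cl hol c = cl hol c * a := by
    intro a ha
    rw [← hF'] at ha
    induction ha using Submodule.span_induction with
    | mem A hA =>
      have h1 := hc3 (s A) ((norm_cj_sc_le hol ht _).trans (by
        rw [hs1 A hA]
        have h3 := hs2 A hA
        have h4 := ht1 A hA
        linarith))
      rw [cj_eq_iff, hm_eq_iff] at h1
      have h3 : cl hol (s A * c) = cl hol (c * s A) := by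
        refine ContinuousLinearMap.ext fun v => ?_
        show (hol (s A * c)).linear v = (hol (c * s A)).linear v
        rw [h1]
      rw [← hs1 A hA]
      refine ContinuousLinearMap.ext fun v => ?_
      have h4 := congrArg (fun g : E →L[ℝ] E => g v) h3
      beta_reduce at h4
      rw [cl_mul, cl_mul] at h4
      exact h4
    | zero => rw [zero_mul, mul_zero]
    | add a b _ _ ha hb => rw [add_mul, mul_add, ha, hb]
    | smul r a _ ha => rw [smul_mul_assoc, mul_smul_comm, ha]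
  -- the center
  let C : Submodule ℝ (Module.End ℝ E) :=
    { carrier := {x | LinearMap.toContinuousLinearMap x ∈ 𝒜 ε0 ∧
        ∀ a ∈ 𝒜 ε0, LinearMap.toContinuousLinearMap x * a = a * LinearMap.toContinuousLinearMap x}
      add_mem' := by
        rintro x y ⟨h1, h2⟩ ⟨h3, h4⟩
        refine ⟨by rw [map_add]; exact add_mem h1 h3, fun a ha => ?_⟩
        rw [map_add, add_mul, mul_add, h2 a ha, h4 a ha]
      zero_mem' := ⟨by rw [map_zero]; exact zero_mem _, fun a _ => by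
        rw [map_zero, zero_mul, mul_zero]⟩
      smul_mem' := by
        rintro r x ⟨h1, h2⟩
        refine ⟨by rw [map_smul]; exact Submodule.smul_mem _ _ h1, fun a ha => ?_⟩
        rw [map_smul, smul_mul_assoc, mul_smul_comm, h2 a ha] }
  have hCmem : ∀ x, x ∈ C ↔ LinearMap.toContinuousLinearMap x ∈ 𝒜 ε0 ∧
        ∀ a ∈ 𝒜 ε0, LinearMap.toContinuousLinearMap x * a = a * LinearMap.toContinuousLinearMap x :=
    fun x => Iff.rfl
  have htm : ∀ x y : Module.End ℝ E, LinearMap.toContinuousLinearMap (x * y) =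
      LinearMap.toContinuousLinearMap x * LinearMap.toContinuousLinearMap y := fun _ _ => rfl
  have hlhc : ∀ γ, LinearMap.toContinuousLinearMap (lh hol γ) = cl hol γ := fun _ => rfl
  have key := comm_field (lh hol) hirr C (by
      intro x hx y hy
      rw [hCmem] at hx hy ⊢
      refine ⟨by rw [htm]; exact hmul _ hx.1 _ hy.1, fun a ha => ?_⟩
      rw [htm, mul_assoc, hy.2 a ha, ← mul_assoc, hx.2 a ha, mul_assoc])
    (by
      intro x hx y hy
      rw [hCmem] at hx hy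
      have h1 := hx.2 _ hy.1
      rw [← htm, ← htm] at h1
      exact LinearMap.toContinuousLinearMap.injective h1)
    (by
      intro g x hx
      rw [hCmem] at hx ⊢
      rw [htm, htm, hlhc, hlhc]
      refine ⟨hconj g _ hx.1, fun a ha => ?_⟩
      have h1 := hx.2 _ (hconj g⁻¹ a ha)
      rw [inv_inv] at h1
      have h3 : cl hol g * cl hol g⁻¹ = 1 := map_mul_inv (clh hol) g
      have h4 : cl hol g⁻¹ * cl hol g = 1 := map_inv_mul (clh hol) g
      set x' := LinearMap.toContinuousLinearMap x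
      calc cl hol g * x' * cl hol g⁻¹ * a
          = cl hol g * (x' * (cl hol g⁻¹ * a * cl hol g)) * cl hol g⁻¹ := by
            calc _ = cl hol g * x' * cl hol g⁻¹ * a * 1 := by rw [mul_one]
              _ = cl hol g * x' * cl hol g⁻¹ * a * (cl hol g * cl hol g⁻¹) := by rw [h3]
              _ = _ := by noncomm_ring
        _ = cl hol g * (cl hol g⁻¹ * a * cl hol g * x') * cl hol g⁻¹ := by rw [h1]
        _ = (cl hol g * cl hol g⁻¹) * a * (cl hol g * x' * cl hol g⁻¹) := by noncomm_ring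
        _ = _ := by rw [h3, one_mul])
  -- the element `1 - c`
  have hcC : lh hol c ∈ C := (hCmem _).2 ⟨hcA, fun a ha => (hcomm a ha).symm⟩
  have h1C : (1 : Module.End ℝ E) ∈ C := by
    refine (hCmem _).2 ⟨hone, fun a _ => ?_⟩
    show (1 : E →L[ℝ] E) * a = a * 1
    rw [one_mul, mul_one]
  have hx0 : (1 : Module.End ℝ E) - lh hol c ≠ 0 := by
    intro h
    apply hc1
    apply faithful_irr D hinj h2 hirr
    refine ContinuousLinearMap.ext fun v => ?_
    have h3 := congrArg (fun g : Module.End ℝ E => g v) h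
    have h4 : v - cl hol c v = 0 := h3
    exact (sub_eq_zero.1 h4).symm
  have hxinj := key _ (C.sub_mem h1C hcC) hx0
  have hxsur : Function.Surjective ((1 : Module.End ℝ E) - lh hol c) :=
    LinearMap.injective_iff_surjective.1 hxinj
  obtain ⟨p, hp⟩ := hxsur (hol c 0)
  have hp' : p - cl hol c p = hol c 0 := hp
  have hfix : hol c p = p := by
    rw [hol_eq, ← hp']; abel
  have huniq : ∀ q, hol c q = q → q = p := by
    intro q hq
    have h3 : cl hol c (q - p) = q - p := by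
      have := hol_sub (hol := hol) c q p
      rw [hq, hfix] at this
      exact this.symm
    have h4 : ((1 : Module.End ℝ E) - lh hol c) (q - p) = 0 := by
      show (q - p) - cl hol c (q - p) = 0
      rw [h3, sub_self]
    exact sub_eq_zero.1 (hxinj (by rw [h4, map_zero]))
  -- the whole group fixes `p`
  have hall : ∀ g : Γ, hol g p = p := by
    intro g
    apply huniq
    -- `g⁻¹ c g` commutes with `c`
    have h3 : lh hol (g⁻¹ * c * g) ∈ C := by
      have h4 : ∀ x ∈ C, lh hol g⁻¹ * x * lh hol g ∈ C := by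
        intro x hx
        rw [hCmem] at hx ⊢
        rw [htm, htm, hlhc, hlhc]
        have h5 := hconj g⁻¹ _ hx.1
        rw [inv_inv] at h5
        refine ⟨h5, fun a ha => ?_⟩
        have h1 := hx.2 _ (hconj g a ha)
        have h3 : cl hol g * cl hol g⁻¹ = 1 := map_mul_inv (clh hol) g
        have h4 : cl hol g⁻¹ * cl hol g = 1 := map_inv_mul (clh hol) g
        set x' := LinearMap.toContinuousLinearMap x
        calc cl hol g⁻¹ * x' * cl hol g * a
            = cl hol g⁻¹ * (x' * (cl hol g * a * cl hol g⁻¹)) * cl hol g := by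
              calc _ = cl hol g⁻¹ * x' * cl hol g * a * 1 := by rw [mul_one]
                _ = cl hol g⁻¹ * x' * cl hol g * a * (cl hol g⁻¹ * cl hol g) := by rw [h4]
                _ = _ := by noncomm_ring
          _ = cl hol g⁻¹ * (cl hol g * a * cl hol g⁻¹ * x') * cl hol g := by rw [h1]
          _ = (cl hol g⁻¹ * cl hol g) * a * (cl hol g⁻¹ * x' * cl hol g) := by noncomm_ring
          _ = _ := by rw [h4, one_mul]
      rw [map_mul, map_mul]
      exact h4 _ hcC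
    have h4 : cl hol (g⁻¹ * c * g) * cl hol c = cl hol c * cl hol (g⁻¹ * c * g) :=
      (hcomm _ ((hCmem _).1 h3).1)
    have h5 := comm_of_cl D hinj h2 hirr h4
    have h6 : hol (g⁻¹ * c * g) p = p := by
      apply huniq
      have h7 : hol (c * (g⁻¹ * c * g)) p = hol (g⁻¹ * c * g * c) p := by rw [h5]
      rw [map_mul, map_mul _ _ c] at h7
      have h8 : hol c (hol (g⁻¹ * c * g) p) = hol (g⁻¹ * c * g) (hol c p) := h7
      rw [h8, hfix]
    rw [map_mul, map_mul] at h6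
    have h7 : hol g⁻¹ (hol c (hol g p)) = p := h6
    have h8 := congrArg (hol g) h7
    rwa [hol_apply_inv] at h8
  have h3 := star_univ D (C := {p}) (p := p) (mem_singleton p) (starConvex_singleton p)
    (by rintro γ q rfl; exact hall γ)
  obtain ⟨q, hq⟩ := exists_ne p
  have h4 : q ∈ ({p} : Set E) := by rw [h3]; trivial
  exact hq h4

end

end Pool.Agent.P8H83
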