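import Pool.Agent.P8H83.CaseC
import Pool.Agent.P8H83.Irr
import Pool.Agent.Y449.MK.Sub

/-!
Dimension three, reducible linear holonomy.
-/

set_option autoImplicit false

open Set Filter Topology Metric
open Pool.Agent.W689.Mk

namespace Pool.Agent.P8H83

section
variable {E : Type} [NormedAddCommGroup E] [NormedSpace ℝ E] [FiniteDimensional ℝ E]

/-- bases adapted to a subspace -/
theorem exists_basis_sum {k l : ℕ} (hE : Module.finrank ℝ E = k + l) (W : Submodule ℝ E)
    (hW : Module.finrank ℝ W = k) : ∃ b : Module.Basis (Fin k ⊕ Fin l) ℝ E,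
      ∀ v, v ∈ W ↔ ∀ j, b.repr v (Sum.inr j) = 0 := by
  obtain ⟨C, hC⟩ := W.exists_isCompl
  have hCf : Module.finrank ℝ C = l := by
    have := Submodule.finrank_add_eq_of_isCompl hC
    omega
  let e := Submodule.prodEquivOfIsCompl W C hC
  let bW := Module.finBasisOfFinrankEq ℝ W hW
  let bC := Module.finBasisOfFinrankEq ℝ C hCf
  refine ⟨(bW.prod bC).map e, fun v => ?_⟩
  have h1 : ∀ j, ((bW.prod bC).map e).repr v (Sum.inr j) = bC.repr (e.symm v).2 j := by
    intro j
    simp
  have h2 : v ∈ W ↔ (e.symm v).2 = 0 :=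
    (Submodule.prodEquivOfIsCompl_symm_apply_snd_eq_zero (h := hC)).symm
  rw [h2]
  constructor
  · intro h j
    rw [h1, h, map_zero]; rfl
  · intro h
    rw [← bC.repr.map_eq_zero_iff]
    ext j
    rw [← h1, h]; rfl

theorem exists_basis_plane (hE : Module.finrank ℝ E = 3) (W : Submodule ℝ E)
    (hW : Module.finrank ℝ W = 2) : ∃ b : Module.Basis (Fin 3) ℝ E, ∀ v, v ∈ W ↔ b.repr v 2 = 0 := by
  obtain ⟨b, hb⟩ := exists_basis_sum (k := 2) (l := 1) hE W hW
  refine ⟨b.reindex finSumFinEquiv, fun v => ?_⟩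
  rw [hb]
  have h1 : (b.reindex finSumFinEquiv).repr v 2 = b.repr v (Sum.inr 0) := by
    rw [Module.Basis.repr_reindex_apply]
    rfl
  rw [h1]
  constructor
  · intro h; exact h 0
  · intro h j
    fin_cases j
    exact h

theorem exists_basis_line (hE : Module.finrank ℝ E = 3) (W : Submodule ℝ E)
    (hW : Module.finrank ℝ W = 1) : ∃ b : Module.Basis (Fin 3) ℝ E,
      ∀ v, v ∈ W ↔ b.repr v 0 = 0 ∧ b.repr v 1 = 0 := by
  obtain ⟨b, hb⟩ := exists_basis_sum (k := 1) (l := 2) hE W hW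
  let e : Fin 1 ⊕ Fin 2 ≃ Fin 3 := (Equiv.sumComm _ _).trans finSumFinEquiv
  refine ⟨b.reindex e, fun v => ?_⟩
  rw [hb]
  have h0 : (b.reindex e).repr v 0 = b.repr v (Sum.inr 0) := by
    rw [Module.Basis.repr_reindex_apply]
    rfl
  have h1 : (b.reindex e).repr v 1 = b.repr v (Sum.inr 1) := by
    rw [Module.Basis.repr_reindex_apply]
    rfl
  rw [h0, h1]
  constructor
  · intro h; exact ⟨h 0, h 1⟩
  · intro h j
    fin_cases j
    · exact h.1
    · exact h.2

end

section
variable {G : Type} [Group G]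

/-- the kernel of a character of modulus one -/
theorem ker_index (χ : G →* ℝ) (h : ∀ g, |χ g| = 1) : χ.ker.FiniteIndex := by
  have h1 : χ.ker = (MonoidHom.toHomUnits χ).ker := by
    ext g
    rw [MonoidHom.mem_ker, MonoidHom.mem_ker, Units.ext_iff]
    rfl
  rw [h1]
  have h2 : Finite (MonoidHom.toHomUnits χ).range := by
    have h3 : (Set.range fun g : G => (MonoidHom.toHomUnits χ g)).Finite := by
      refine ((Set.toFinite ({1, -1} : Set ℝ)).preimage
        (Units.val_injective (α := ℝ)).injOn).subset ?_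
      rintro _ ⟨g, rfl⟩
      show χ g ∈ ({1, -1} : Set ℝ)
      rcases eq_or_eq_neg_of_abs_eq (h g) with h4 | h4
      · rw [h4]; simp
      · rw [h4]; simp
    exact h3.to_subtype
  exact Subgroup.finiteIndex_ker _

end

section
variable {X Γ E : Type} [NormedAddCommGroup E] [NormedSpace ℝ E] [FiniteDimensional ℝ E]
    [TopologicalSpace X] [T2Space X] [Group Γ]
    [MulAction Γ X] {dev : X → E} {hol : Γ →* (E ≃ᵃ[ℝ] E)}

/-- the two outcomes of the analysis -/
def Out (hol : Γ →* (E ≃ᵃ[ℝ] E)) : Prop :=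
  (∃ H : Subgroup Γ, H.FiniteIndex ∧ ∃ W : Submodule ℝ E, Module.finrank ℝ W = 2 ∧
    ∀ γ ∈ H, ∀ v : E, (hol γ).linear v - v ∈ W) ∨
  ∃ H : Subgroup Γ, H.FiniteIndex ∧ Group.IsSolvable (H.map (AffineEquiv.linearHom.comp hol))

omit [TopologicalSpace X] [T2Space X] [MulAction Γ X] in
theorem Out.of_sub (H : Subgroup Γ) (hH : H.FiniteIndex) (h : Out (hol.comp H.subtype)) :
    Out hol := by
  have hfin : ∀ K : Subgroup H, K.FiniteIndex → (K.map H.subtype).FiniteIndex := by
    intro K hK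
    refine ⟨?_⟩
    rw [Subgroup.index_map_subtype]
    exact mul_ne_zero hK.index_ne_zero hH.index_ne_zero
  rcases h with ⟨K, hK, W, hW2, hW⟩ | ⟨K, hK, hs⟩
  · refine Or.inl ⟨K.map H.subtype, hfin K hK, W, hW2, ?_⟩
    rintro _ ⟨γ, hγ, rfl⟩ v
    exact hW γ hγ v
  · refine Or.inr ⟨K.map H.subtype, hfin K hK, ?_⟩
    rw [Subgroup.map_map]
    exact hs

theorem kerM4 (hol : Γ →* (E ≃ᵃ[ℝ] E)) (b : Module.Basis (Fin 3) ℝ E)
    (h : derivedSeries Γ 5 ≤ (M4 hol b).ker) : Out hol := by
  refine Or.inr ⟨⊤, inferInstance, solv_map_top _ 5 ?_⟩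
  intro g hg
  have h1 := h hg
  rw [MonoidHom.mem_ker, M4_eq_one_iff] at h1
  rw [MonoidHom.mem_ker]
  show AffineEquiv.linearHom (hol g) = 1
  rw [h1, map_one]

variable [SecondCountableTopology X] [ConnectedSpace X]

/-- an invariant plane -/
theorem out_plane (D : AffData X Γ E dev hol) (hinj : Function.Injective dev)
    (h3 : Module.finrank ℝ E = 3) (W : Submodule ℝ E) (hW2 : Module.finrank ℝ W = 2)
    (hW : ∀ γ, ∀ v ∈ W, cl hol γ v ∈ W) : Out hol := by
  obtain ⟨b, hb⟩ := exists_basis_plane h3 W hW2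
  have hA : PlA (M4 hol b) := by
    intro γ
    constructor
    · have := M4_col hol b γ 2 0
      rw [← (hb _).1 (hW γ (b 0) ((hb _).2 (by simp)))]
      exact this
    · have := M4_col hol b γ 2 1
      rw [← (hb _).1 (hW γ (b 1) ((hb _).2 (by simp)))]
      exact this
  by_cases hNE : NE (BA (aff4 hol b) hA) (CA (aff4 hol b) hA).ker
  · have hχ : ∀ γ, |chA (aff4 hol b) hA γ| = 1 := fun γ => caseA D hinj b hA hNE γ
    refine Or.inl ⟨(chA (aff4 hol b) hA).ker, ker_index _ hχ, W, hW2, fun γ hγ v => ?_⟩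
    have h1 : M4 hol b γ 2 2 = 1 := hγ
    obtain ⟨a1, a2⟩ := hA γ
    rw [hb, map_sub, Finsupp.sub_apply]
    have h2 := coord_cl hol b γ v 2
    have h3 : b.repr (cl hol γ v) 2 = M4 hol b γ 2 0 * b.repr v 0 + M4 hol b γ 2 1 * b.repr v 1 +
      M4 hol b γ 2 2 * b.repr v 2 := h2
    rw [a1, a2, h1] at h3
    have h4 : b.repr ((hol γ).linear v) 2 = b.repr (cl hol γ v) 2 := rfl
    rw [h4, h3]; ring
  · exact kerM4 hol b (solvA _ _ hNE)

/-- an invariant line -/
theorem out_line (D : AffData X Γ E dev hol) (hinj : Function.Injective dev)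
    (h3 : Module.finrank ℝ E = 3) (W : Submodule ℝ E) (hW1 : Module.finrank ℝ W = 1)
    (hW : ∀ γ, ∀ v ∈ W, cl hol γ v ∈ W) : Out hol := by
  obtain ⟨b, hb⟩ := exists_basis_line h3 W hW1
  have hB : LiB (M4 hol b) := by
    intro γ
    have h1 := (hb _).1 (hW γ (b 2) ((hb _).2 (by simp)))
    constructor
    · have := M4_col hol b γ 0 2
      rw [← h1.1]
      exact this
    · have := M4_col hol b γ 1 2
      rw [← h1.2]
      exact this
  by_cases hNE : NE (BB (aff4 hol b) hB) (chB (aff4 hol b) hB).ker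
  · rcases caseB D hinj b hB hNE with ⟨c, hc0, hc⟩ | ⟨P, hP2, hP⟩ | hfin
    · exfalso
      have hb2 : b 2 ≠ 0 := b.ne_zero 2
      have hcl : ∀ γ, cl hol γ (c • b 2) = chB (aff4 hol b) hB γ • (c • b 2) := by
        intro γ
        obtain ⟨a1, a2⟩ := hB γ
        have h1 : cl hol γ (b 2) = M4 hol b γ 2 2 • b 2 := by
          apply b.repr.injective
          ext i
          rw [coord_cl]
          fin_cases i
          · show M4 hol b γ 0 0 * b.repr (b 2) 0 + M4 hol b γ 0 1 * b.repr (b 2) 1 +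
              M4 hol b γ 0 2 * b.repr (b 2) 2 = b.repr (M4 hol b γ 2 2 • b 2) 0
            rw [a1]; simp
          · show M4 hol b γ 1 0 * b.repr (b 2) 0 + M4 hol b γ 1 1 * b.repr (b 2) 1 +
              M4 hol b γ 1 2 * b.repr (b 2) 2 = b.repr (M4 hol b γ 2 2 • b 2) 1
            rw [a2]; simp
          · show M4 hol b γ 2 0 * b.repr (b 2) 0 + M4 hol b γ 2 1 * b.repr (b 2) 1 +
              M4 hol b γ 2 2 * b.repr (b 2) 2 = b.repr (M4 hol b γ 2 2 • b 2) 2
            simp
        rw [map_smul, h1, chB_apply, smul_comm]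
      have hχ : ∀ γ, |chB (aff4 hol b) hB γ| = 1 :=
        chi_of_transl D hinj hc (smul_ne_zero hc0 hb2) _ hcl
      obtain ⟨H, hH⟩ : ∃ H : Subgroup Γ, H = (chB (aff4 hol b) hB).ker := ⟨_, rfl⟩
      have hHi : H.FiniteIndex := by rw [hH]; exact ker_index _ hχ
      have D' := Pool.Agent.Y449.MK.restrict D H hHi
      have hM : ∀ γ : H, M4 (hol.comp H.subtype) b γ = M4 hol b γ := fun γ => rfl
      have hB' : LiB (M4 (hol.comp H.subtype) b) := fun γ => hB γ
      have hχ' : ∀ γ : H, M4 (hol.comp H.subtype) b γ 2 2 = 1 := by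
        rintro ⟨γ, hγ⟩
        rw [hH] at hγ
        exact hγ
      refine caseC D' hinj b hB' hχ' ?_ hc0 ?_
      · intro Y hY hY0
        obtain ⟨n, hn, hn'⟩ := hNE Y hY hY0
        exact ⟨⟨n, by rw [hH]; exact hn⟩, Subgroup.mem_top _, hn'⟩
      · obtain ⟨δ, hδ⟩ := hc
        have hδ1 : cl hol δ = 1 := by
          refine ContinuousLinearMap.ext fun v => ?_
          show (hol δ).linear v = v
          have h5 : (hol δ).linear v = hol δ v - hol δ 0 := by
            have := hol_sub (hol := hol) δ v 0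
            rw [sub_zero] at this
            exact this.symm
          rw [h5, hδ, hδ]
          abel
        refine ⟨⟨δ, ?_⟩, hδ⟩
        rw [hH]
        show M4 hol b δ 2 2 = 1
        have h6 := M4_col hol b δ 2 2
        rw [hδ1] at h6
        have h7 : b.repr ((1 : E →L[ℝ] E) (b 2)) 2 = 1 := by simp
        exact h6.trans h7
    · exact out_plane D hinj h3 P hP2 hP
    · obtain ⟨f, hf⟩ : ∃ f : Γ →* (E ≃ₗ[ℝ] E), f = AffineEquiv.linearHom.comp hol := ⟨_, rfl⟩
      have h1 : (range f).Finite := by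
        have h3 : (fun g : E ≃ₗ[ℝ] E => LinearMap.toContinuousLinearMap (g : E →ₗ[ℝ] E)) ''
            (range f) ⊆ range (cl hol) := by
          rintro _ ⟨_, ⟨γ, rfl⟩, rfl⟩
          rw [hf]
          exact ⟨γ, rfl⟩
        refine Set.Finite.of_finite_image (hfin.subset h3) ?_
        intro g _ g' _ hgg'
        have h4 := congrArg (fun T : E →L[ℝ] E => (T : E →ₗ[ℝ] E)) hgg'
        exact LinearEquiv.toLinearMap_injective h4
      have h2 : Finite f.range := h1.to_subtype
      refine Or.inr ⟨f.ker, Subgroup.finiteIndex_ker f, ?_⟩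
      rw [← hf]
      have h5 : f.ker.map f = ⊥ := by
        rw [eq_bot_iff]
        rintro _ ⟨g, hg, rfl⟩
        exact hg
      rw [h5]
      infer_instance
  · exact kerM4 hol b (solvB _ _ hNE)

/-- dimension three: an invariant subspace of a subgroup of finite index -/
theorem out_red (D : AffData X Γ E dev hol) (hinj : Function.Injective dev)
    (h3 : Module.finrank ℝ E = 3) (hirr : ¬ SIrr (lh hol)) : Out hol := by
  unfold SIrr at hirr
  push Not at hirr
  obtain ⟨H, hH, W, hW, hW0, hW1⟩ := hirr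
  refine Out.of_sub H hH ?_
  have D' := Pool.Agent.Y449.MK.restrict D H hH
  have hlt : Module.finrank ℝ W < 3 := by
    rw [← h3]
    exact Submodule.finrank_lt hW1
  have hpos : 0 < Module.finrank ℝ W := by
    have : Nontrivial W := Submodule.nontrivial_iff_ne_bot.2 hW0
    exact Module.finrank_pos
  have hW' : ∀ γ : H, ∀ v ∈ W, cl (hol.comp H.subtype) γ v ∈ W := fun γ v hv => hW γ γ.2 v hv
  obtain h1 | h2 : Module.finrank ℝ W = 1 ∨ Module.finrank ℝ W = 2 := by omega
  · exact out_line D' hinj h3 W h1 hW'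
  · exact out_plane D' hinj h3 W h2 hW'

end

end Pool.Agent.P8H83
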