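import Pool.Agent.P8H83.Quo
import Pool.Agent.P8H83.Red3
import Pool.Agent.N520.RO.Plane
import Pool.Agent.Y449.MS.All
import Pool.Agent.R774.MK4

/-!
Iterating the quotient by the translations.
-/

set_option autoImplicit false

open Set Filter Topology Metric
open Pool.Agent.W689.Mk Pool.Agent.TH94.MK

namespace Pool.Agent.P8H83

section
variable {Γ E : Type} [Group Γ] [NormedAddCommGroup E] [NormedSpace ℝ E] [FiniteDimensional ℝ E]

/-- splittings exist -/
theorem exists_spl (hol : Γ →* (E ≃ᵃ[ℝ] E)) : ∃ (C : Submodule ℝ E) (π : E →L[ℝ] C)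
    (σ : C →L[ℝ] E), Spl hol π σ ∧ Module.finrank ℝ (Vt hol) + Module.finrank ℝ C =
      Module.finrank ℝ E := by
  obtain ⟨C, hC⟩ := (Vt hol).exists_isCompl
  refine ⟨C, LinearMap.toContinuousLinearMap (C.projectionOnto (Vt hol) hC.symm), C.subtypeL,
    ⟨fun q => ?_, fun v => ?_⟩, Submodule.finrank_add_eq_of_isCompl hC⟩
  · show C.projectionOnto (Vt hol) hC.symm q = q
    simp
  · show C.projectionOnto (Vt hol) hC.symm v = 0 ↔ _
    simp

end

/-- the quotient of the domain by the translations -/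
def QuoStmt (X Γ E : Type) [NormedAddCommGroup E] [NormedSpace ℝ E]
    [Group Γ] (dev : X → E) (hol : Γ →* (E ≃ᵃ[ℝ] E)) : Prop :=
  ∃ (Q : Type) (_ : NormedAddCommGroup Q) (_ : NormedSpace ℝ Q) (_ : FiniteDimensional ℝ Q)
    (π : E →L[ℝ] Q) (holQ : Γ →* (Q ≃ᵃ[ℝ] Q)) (G : Subgroup (Q ≃ᵃ[ℝ] Q)) (U : Set Q),
    Function.Surjective π ∧ (∀ γ p, π (hol γ p) = holQ γ (π p)) ∧ holQ.range = G ∧
    U = π '' range dev ∧ (∀ p, π p ∈ U → p ∈ range dev) ∧
    (∃ _ : MulAction G U, AffData U G Q Subtype.val G.subtype) ∧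
    ∀ g ∈ G, g.linear = LinearEquiv.refl ℝ Q → g = 1

theorem quo_base {X Γ E : Type} [NormedAddCommGroup E] [NormedSpace ℝ E]
    [FiniteDimensional ℝ E] [TopologicalSpace X] [T2Space X] [Nonempty X] [Group Γ]
    [MulAction Γ X] {dev : X → E} {hol : Γ →* (E ≃ᵃ[ℝ] E)} (D : AffData X Γ E dev hol)
    (hinj : Function.Injective dev) (hV : Vt hol = ⊥) : QuoStmt X Γ E dev hol := by
  obtain ⟨C, π, σ, h, -⟩ := exists_spl hol
  obtain ⟨hU, act, D'⟩ := quo_data D hinj h
  refine ⟨C, inferInstance, inferInstance, inferInstance, π, qh h, (qh h).range, π '' range dev,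
    fun q => ⟨σ q, h.sec q⟩, fun γ p => qh_equi h γ p, rfl, rfl, hU, ⟨act, D'⟩, ?_⟩
  rintro _ ⟨γ, rfl⟩ hγ
  have hπ : ∀ v, π v = 0 → v = 0 := by
    intro v hv
    have := (h.ker v).1 hv
    rwa [hV, Submodule.mem_bot] at this
  have hπσ : ∀ p, σ (π p) = p := by
    intro p
    have h1 := hπ (σ (π p) - p) (by rw [map_sub, h.sec, sub_self])
    exact sub_eq_zero.1 h1
  have h1 : ∀ v, cl hol γ v = v := by
    intro v
    have h2 : (qh h γ).linear (π v) = π v := by rw [hγ]; rfl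
    rw [qh_linear, hπσ] at h2
    have h3 := hπ (cl hol γ v - v) (by rw [map_sub, h2, sub_self])
    exact sub_eq_zero.1 h3
  have h2 : ∀ p, hol γ p = p + hol γ 0 := fun p => by
    rw [hol_eq, h1]
  have h3 : hol γ 0 ∈ Vt hol := Submodule.subset_span ⟨γ, h2⟩
  rw [hV, Submodule.mem_bot] at h3
  refine AffineEquiv.ext fun q => ?_
  rw [qh_apply, h2, h3, add_zero, h.sec]
  rfl

theorem quo_all (n : ℕ) : ∀ (X Γ E : Type) [NormedAddCommGroup E] [NormedSpace ℝ E]
    [FiniteDimensional ℝ E] [TopologicalSpace X] [T2Space X] [Nonempty X] [Group Γ]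
    [MulAction Γ X] (dev : X → E) (hol : Γ →* (E ≃ᵃ[ℝ] E)), AffData X Γ E dev hol →
    Function.Injective dev → Module.finrank ℝ E ≤ n → QuoStmt X Γ E dev hol := by
  induction n with
  | zero =>
    intro X Γ E _ _ _ _ _ _ _ _ dev hol D hinj hn
    refine quo_base D hinj ?_
    have h1 : Module.finrank ℝ (Vt hol) ≤ Module.finrank ℝ E := Submodule.finrank_le _
    exact Submodule.finrank_eq_zero.1 (by omega)
  | succ n ih =>
    intro X Γ E _ _ _ _ _ _ _ _ dev hol D hinj hn
    by_cases hV : Vt hol = ⊥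
    · exact quo_base D hinj hV
    obtain ⟨C, π, σ, h, hC⟩ := exists_spl hol
    obtain ⟨hU, act, D'⟩ := quo_data D hinj h
    have hpos : 0 < Module.finrank ℝ (Vt hol) :=
      Nat.pos_of_ne_zero fun h0 => hV (Submodule.finrank_eq_zero.1 h0)
    have hne : Nonempty (π '' range dev) := by
      obtain ⟨x⟩ := ‹Nonempty X›
      exact ⟨⟨π (dev x), mem_image_of_mem _ ⟨x, rfl⟩⟩⟩
    obtain ⟨Q, i1, i2, i3, π', holQ, G, U, a1, a2, a3, a4, a5, a6, a7⟩ :=
      ih (π '' range dev) (qh h).range C Subtype.val (qh h).range.subtype D'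
        Subtype.val_injective (by omega)
    rw [Subtype.range_coe] at a4
    have hsurj : Function.Surjective π := fun q => ⟨σ q, h.sec q⟩
    refine ⟨Q, i1, i2, i3, π'.comp π, holQ.comp (qh h).rangeRestrict, G, U, a1.comp hsurj, ?_, ?_,
      ?_, ?_, a6, a7⟩
    · intro γ p
      have h1 := a2 ((qh h).rangeRestrict γ) (π p)
      have h2 : π' (π (hol γ p)) = π' (qh h γ (π p)) := by rw [qh_equi h]
      exact h2.trans h1
    · rw [← a3]
      ext g
      constructor
      · rintro ⟨γ, rfl⟩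
        exact ⟨_, rfl⟩
      · rintro ⟨g', rfl⟩
        obtain ⟨γ, rfl⟩ := (qh h).rangeRestrict_surjective g'
        exact ⟨γ, rfl⟩
    · rw [a4, image_image]
      rfl
    · intro p hp
      have h1 := a5 (π p) hp
      rw [Subtype.range_coe] at h1
      exact hU p h1

theorem homeo_iff {X Γ E Q : Type} [NormedAddCommGroup E] [NormedSpace ℝ E]
    [TopologicalSpace X] [Group Γ] [MulAction Γ X] {dev : X → E} {hol : Γ →* (E ≃ᵃ[ℝ] E)}
    (D : AffData X Γ E dev hol) (hinj : Function.Injective dev) {π : E → Q} {U : Set Q}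
    (hsurj : Function.Surjective π) (hU : U = π '' range dev)
    (hUs : ∀ p, π p ∈ U → p ∈ range dev) : IsHomeomorph dev ↔ U = univ := by
  constructor
  · intro h
    rw [hU, h.surjective.range_eq, image_univ, hsurj.range_eq]
  · intro h
    exact ⟨D.loc.continuous, D.loc.isOpenMap, hinj, fun p => hUs p (by rw [h]; trivial)⟩

/-- the linear group of a line is commutative -/
theorem comm_one {Q : Type} [NormedAddCommGroup Q] [NormedSpace ℝ Q] [FiniteDimensional ℝ Q]
    (h1 : Module.finrank ℝ Q ≤ 1) (A B : Q ≃ₗ[ℝ] Q) : A * B = B * A := by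
  refine LinearEquiv.ext fun q => ?_
  show A (B q) = B (A q)
  obtain ⟨v, hv⟩ := finrank_le_one_iff.1 h1
  obtain ⟨a, ha⟩ := hv (A v)
  obtain ⟨b, hb⟩ := hv (B v)
  obtain ⟨c, hc⟩ := hv q
  have e1 : A (B (c • v)) = c • b • a • v := by rw [map_smul, ← hb, map_smul, map_smul, ← ha]
  have e2 : B (A (c • v)) = c • a • b • v := by rw [map_smul, ← ha, map_smul, map_smul, ← hb]
  rw [← hc, e1, e2, smul_comm a b]

/-- quotients of domains of dimension at most two -/
theorem low_dim {X Γ Q : Type} [NormedAddCommGroup Q] [NormedSpace ℝ Q] [FiniteDimensional ℝ Q]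
    [TopologicalSpace X] [T2Space X] [SecondCountableTopology X] [ConnectedSpace X] [Group Γ]
    [MulAction Γ X] {dev : X → Q} {hol : Γ →* (Q ≃ᵃ[ℝ] Q)} (D : AffData X Γ Q dev hol)
    (hinj : Function.Injective dev) (h2 : Module.finrank ℝ Q ≤ 2) : IsHomeomorph dev := by
  rcases Nat.lt_or_ge (Module.finrank ℝ Q) 2 with h | h
  · refine Pool.Agent.Y449.MS.Wrap.main Pool.Agent.Y449.MS.All.finv X Γ Q dev hol D hinj ⊤
      inferInstance ?_
    refine Group.isSolvable_of_comm fun a b => Subtype.ext ?_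
    exact comm_one (by omega) _ _
  · have h2' : Module.finrank ℝ Q = 2 := le_antisymm h2 h
    exact Pool.Agent.R774.MK.complete (K := ℝ) D hinj
      (fun γ => ⟨RingEquiv.refl ℝ, fun a v => LinearEquiv.map_smul _ _ _⟩) (δ := 1 / 2)
      (by norm_num) fun γ => Pool.Agent.R774.MK.two_dim (K := ℝ) (σ := RingEquiv.refl ℝ) h2'
        (fun a v => LinearEquiv.map_smul _ _ _) (D.unimod γ)

end Pool.Agent.P8H83
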