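import Pool.Agent.P8H83.Core2

/-!
Hyperbolic elements in groups of two by two matrices.
-/

set_option autoImplicit false

open Set Filter Topology

namespace Pool.Agent.P8H83

theorem cayley (A : M2) : A * A = A.trace • A - A.det • (1 : M2) := by
  refine M2.ext' ?_ ?_ ?_ ?_ <;>
    simp [Matrix.mul_apply, Fin.sum_univ_two, Matrix.trace_fin_two, Matrix.det_fin_two] <;> ring

theorem pow_ne_one_of_trace {A : M2} (hdet : A.det = 1) (htr : 2 < A.trace) (k : ℕ) (hk : 0 < k) :
    A ^ k ≠ 1 := by
  have hrec : ∀ j : ℕ, (A ^ (j + 2)).trace = A.trace * (A ^ (j + 1)).trace - (A ^ j).trace := by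
    intro j
    have e1 : A ^ (j + 2) = A ^ j * (A * A) := by rw [pow_add, pow_two]
    rw [e1, cayley, hdet, one_smul, mul_sub, mul_one, mul_smul_comm, ← pow_succ, Matrix.trace_sub,
      Matrix.trace_smul, smul_eq_mul]
  have key : ∀ j : ℕ, 2 ≤ (A ^ j).trace ∧ (A ^ j).trace < (A ^ (j + 1)).trace := by
    intro j
    induction j with
    | zero =>
      rw [pow_zero, zero_add, pow_one]
      simp only [Matrix.trace_one, Fintype.card_fin, Nat.cast_ofNat]
      exact ⟨le_rfl, htr⟩
    | succ j ih =>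
      obtain ⟨h1, h2⟩ := ih
      refine ⟨by linarith, ?_⟩
      rw [hrec j]
      nlinarith
  intro h
  obtain ⟨j, rfl⟩ : ∃ j, k = j + 1 := ⟨k - 1, by omega⟩
  have h1 := key j
  rw [h] at h1
  simp only [Matrix.trace_one, Fintype.card_fin, Nat.cast_ofNat] at h1
  linarith [h1.1, h1.2]

theorem pow_ne_one_of_abs_trace {A : M2} (hdet : A.det = 1) (htr : 2 < |A.trace|) (k : ℕ)
    (hk : 0 < k) : A ^ k ≠ 1 := by
  intro h
  have h1 : (A * A).det = 1 := by rw [Matrix.det_mul, hdet, one_mul]
  have h2 : 2 < (A * A).trace := by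
    have e : (A * A).trace = A.trace ^ 2 - 2 := by
      rw [cayley, hdet, one_smul, Matrix.trace_sub, Matrix.trace_smul, smul_eq_mul]
      simp only [Matrix.trace_one, Fintype.card_fin, Nat.cast_ofNat]
      ring
    rw [e]
    have h3 : 2 ^ 2 < |A.trace| ^ 2 := by
      apply pow_lt_pow_left₀ htr (by norm_num) two_ne_zero
    rw [sq_abs] at h3
    linarith
  apply pow_ne_one_of_trace h1 h2 k hk
  rw [← pow_two, ← pow_mul, mul_comm, pow_mul, h, one_pow]

/-- parallel trace free parts -/
theorem parallel_ell {a b c a' b' c' D : ℝ} (h1 : a ^ 2 + b * c = D) (h2 : a' ^ 2 + b' * c' = D)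
    (hD : D < 0) (h3 : |a * a' + (b * c' + c * b') / 2| ≤ -D) :
    ∃ t : ℝ, a' = t * a ∧ b' = t * b ∧ c' = t * c := by
  have hb : b ≠ 0 := by
    rintro rfl
    rw [zero_mul, add_zero] at h1
    nlinarith [sq_nonneg a]
  have hk : (a * a' + (b * c' + c * b') / 2) ^ 2 ≤ D * D := by
    rw [← sq_abs]
    have := abs_nonneg (a * a' + (b * c' + c * b') / 2)
    nlinarith
  have hid : b ^ 2 * ((a * a' + (b * c' + c * b') / 2) ^ 2 - D * D) =
      (b * (b * c' - c * b') / 2 - a * (a * b' - a' * b)) ^ 2 - D * (a * b' - a' * b) ^ 2 := by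
    have e1 : D * D = (a ^ 2 + b * c) * (a' ^ 2 + b' * c') := by rw [h1, h2]
    rw [e1, ← h1]
    ring
  have h4 : (b * (b * c' - c * b') / 2 - a * (a * b' - a' * b)) ^ 2 - D * (a * b' - a' * b) ^ 2 ≤ 0 := by
    rw [← hid]
    have : 0 ≤ b ^ 2 := sq_nonneg b
    nlinarith
  have hu : a * b' - a' * b = 0 := by
    have h5 : (a * b' - a' * b) ^ 2 ≤ 0 := by
      have h6 := sq_nonneg (b * (b * c' - c * b') / 2 - a * (a * b' - a' * b))
      have h7 : -D * (a * b' - a' * b) ^ 2 ≤ 0 := by linarith
      have h8 : 0 < -D := by linarith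
      by_contra hcon
      push Not at hcon
      nlinarith
    exact pow_eq_zero_iff two_ne_zero |>.1 (le_antisymm h5 (sq_nonneg _))
  have hp : b * c' - c * b' = 0 := by
    rw [hu] at h4
    have h5 : (b * (b * c' - c * b') / 2) ^ 2 ≤ 0 := by
      have e : (b * (b * c' - c * b') / 2 - a * 0) ^ 2 - D * 0 ^ 2 =
        (b * (b * c' - c * b') / 2) ^ 2 := by ring
      rwa [e] at h4
    have h6 : b * (b * c' - c * b') / 2 = 0 :=
      pow_eq_zero_iff two_ne_zero |>.1 (le_antisymm h5 (sq_nonneg _))
    have h7 : b * (b * c' - c * b') = 0 := by linarith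
    exact (mul_eq_zero.1 h7).resolve_left hb
  refine ⟨b' / b, ?_, ?_, ?_⟩
  · field_simp; linarith
  · field_simp
  · field_simp; linarith

section
variable {G : Type} [Group G] {B : G →* M2}

theorem inv_eq_adj {g : G} (h : (B g).det = 1) : B g⁻¹ = (B g).adjugate := by
  have e1 : B g * (B g).adjugate = 1 := by rw [Matrix.mul_adjugate, h, one_smul]
  calc B g⁻¹ = B g⁻¹ * (B g * (B g).adjugate) := by rw [e1, mul_one]
    _ = (B g⁻¹ * B g) * (B g).adjugate := by rw [mul_assoc]
    _ = _ := by rw [map_inv_mul, one_mul]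

/-- a group preserving no line of trace free matrices contains a hyperbolic element -/
theorem hyp_exists (hNE : NE B ⊤) (hdet : ∀ g, |(B g).det| = 1) :
    ∃ g, (B g).det = 1 ∧ 2 < |(B g).trace| := by
  by_contra hcon
  push Not at hcon
  -- all elements of determinant one are scalar
  have hsc : ∀ g, (B g).det = 1 → tf (B g) = 0 := by
    intro g hg
    by_contra hne
    obtain ⟨h, -, hh⟩ := hNE (tf (B g)) (tf_trace _) hne
    set A := B g with hA
    set u := tf A with hu
    set u' := B h * u * B h⁻¹ with hu'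
    set α := A.trace / 2 with hα
    have hA1 : A = α • (1 : M2) + u := by
      refine M2.ext' ?_ ?_ ?_ ?_ <;> simp [hu, hα, tf, Matrix.trace_fin_two] <;> ring
    have hadj : A.adjugate = α • (1 : M2) - u := by
      rw [M2.eq A.adjugate, Matrix.adjugate_fin_two A]
      refine M2.ext' ?_ ?_ ?_ ?_ <;> simp [hu, hα, tf, Matrix.trace_fin_two] <;> ring
    have hA' : B (h * g * h⁻¹) = α • (1 : M2) + u' := by
      rw [map_mul, map_mul, ← hA, hA1, mul_add, add_mul, mul_smul_comm, mul_one, smul_mul_assoc,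
        map_mul_inv]
    have hA'' : B (h * g⁻¹ * h⁻¹) = α • (1 : M2) - u' := by
      rw [map_mul, map_mul, inv_eq_adj hg, hadj, mul_sub, sub_mul, mul_smul_comm, mul_one,
        smul_mul_assoc, map_mul_inv]
    have hBh : (B h).det * (B h⁻¹).det = 1 := by
      rw [← Matrix.det_mul, map_mul_inv, Matrix.det_one]
    have hdg : (B g⁻¹).det = 1 := by
      have : (B g).det * (B g⁻¹).det = 1 := by
        rw [← Matrix.det_mul, map_mul_inv, Matrix.det_one]
      rwa [hg, one_mul] at this
    have hd1 : (B (g * (h * g * h⁻¹))).det = 1 := by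
      rw [map_mul, map_mul, map_mul, Matrix.det_mul, Matrix.det_mul, Matrix.det_mul, ← hA, hg]
      calc 1 * ((B h).det * 1 * (B h⁻¹).det) = (B h).det * (B h⁻¹).det := by ring
        _ = 1 := hBh
    have hd2 : (B (g * (h * g⁻¹ * h⁻¹))).det = 1 := by
      rw [map_mul, map_mul, map_mul, Matrix.det_mul, Matrix.det_mul, Matrix.det_mul, ← hA, hg, hdg]
      calc 1 * ((B h).det * 1 * (B h⁻¹).det) = (B h).det * (B h⁻¹).det := by ring
        _ = 1 := hBh
    have ht1 := hcon _ hd1
    have ht2 := hcon _ hd2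
    rw [map_mul, hA', ← hA, hA1] at ht1
    rw [map_mul, hA'', ← hA, hA1] at ht2
    have hut : u.trace = 0 := tf_trace A
    have hut' : u'.trace = 0 := by
      rw [hu', Matrix.trace_mul_comm, ← mul_assoc, map_inv_mul, one_mul, hut]
    have e1 : ((α • (1 : M2) + u) * (α • (1 : M2) + u')).trace = 2 * α ^ 2 + (u * u').trace := by
      have : (α • (1 : M2) + u) * (α • (1 : M2) + u') = (α * α) • (1 : M2) + α • u' + α • u + u * u' := by
        rw [add_mul, mul_add, mul_add, smul_mul_smul_comm, mul_one, smul_mul_assoc, one_mul,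
          mul_smul_comm, mul_one]
        abel
      rw [this, Matrix.trace_add, Matrix.trace_add, Matrix.trace_add, Matrix.trace_smul,
        Matrix.trace_smul, Matrix.trace_smul, hut, hut', trace_one', smul_zero, smul_eq_mul]
      ring
    have e2 : ((α • (1 : M2) + u) * (α • (1 : M2) - u')).trace = 2 * α ^ 2 - (u * u').trace := by
      have : (α • (1 : M2) + u) * (α • (1 : M2) - u') = (α * α) • (1 : M2) - α • u' + α • u - u * u' := by
        rw [add_mul, mul_sub, mul_sub, smul_mul_smul_comm, mul_one, smul_mul_assoc, one_mul,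
          mul_smul_comm, mul_one]
        abel
      rw [this, Matrix.trace_sub, Matrix.trace_add, Matrix.trace_sub, Matrix.trace_smul,
        Matrix.trace_smul, Matrix.trace_smul, hut, hut', trace_one', smul_zero, smul_eq_mul]
      ring
    rw [e1] at ht1
    rw [e2] at ht2
    set D := dsc A with hD
    have hD1 : D = α ^ 2 - 1 := by rw [hD, dsc_eq, hg]
    -- entries
    have v1 : u 1 1 = -(u 0 0) := by rw [Matrix.trace_fin_two] at hut; linarith
    have v2 : u' 1 1 = -(u' 0 0) := by rw [Matrix.trace_fin_two] at hut'; linarith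
    have huu : u * u = D • (1 : M2) := tf_mul_self A
    have huu' : u' * u' = D • (1 : M2) := by
      calc u' * u' = B h * u * (B h⁻¹ * B h) * u * B h⁻¹ := by rw [hu']; noncomm_ring
        _ = B h * (u * u) * B h⁻¹ := by rw [map_inv_mul]; noncomm_ring
        _ = _ := by rw [huu, mul_smul_comm, mul_one, smul_mul_assoc, map_mul_inv]
    have w1 : (u 0 0) ^ 2 + u 0 1 * u 1 0 = D := by
      have := congrFun (congrFun huu 0) 0
      simp [Matrix.mul_apply, Fin.sum_univ_two] at this
      linarith
    have w2 : (u' 0 0) ^ 2 + u' 0 1 * u' 1 0 = D := by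
      have := congrFun (congrFun huu' 0) 0
      simp [Matrix.mul_apply, Fin.sum_univ_two] at this
      linarith
    have w3 : (u * u').trace = 2 * (u 0 0 * u' 0 0 + (u 0 1 * u' 1 0 + u 1 0 * u' 0 1) / 2) := by
      simp only [Matrix.trace_fin_two, Matrix.mul_apply, Fin.sum_univ_two]
      rw [v1, v2]; ring
    rw [w3, abs_le] at ht1 ht2
    have w4 : |u 0 0 * u' 0 0 + (u 0 1 * u' 1 0 + u 1 0 * u' 0 1) / 2| ≤ -D := by
      rw [abs_le, hD1]
      constructor <;> linarith [ht1.1, ht1.2, ht2.1, ht2.2]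
    have hDle : D ≤ 0 := by
      have := abs_nonneg (u 0 0 * u' 0 0 + (u 0 1 * u' 1 0 + u 1 0 * u' 0 1) / 2)
      linarith
    obtain ⟨t, g1, g2, g3⟩ : ∃ t : ℝ, u' 0 0 = t * u 0 0 ∧ u' 0 1 = t * u 0 1 ∧
        u' 1 0 = t * u 1 0 := by
      rcases eq_or_lt_of_le hDle with h0 | h0
      · rw [h0] at w1 w2 w4
        rw [neg_zero] at w4
        have w5 := abs_nonpos_iff.1 w4
        refine parallel_nil w1 w2 (by linarith) ?_
        rintro ⟨z1, z2, z3⟩
        apply hne
        refine M2.ext' z1 z2 z3 ?_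
        rw [v1, z1, neg_zero]; rfl
      · exact parallel_ell w1 w2 h0 w4
    have hpar : u' = t • u := by
      refine M2.ext' g1 g2 g3 ?_
      rw [v2, g1]
      show _ = t * u 1 1
      rw [v1]; ring
    apply hh t
    calc B h * u = B h * u * (B h⁻¹ * B h) := by rw [map_inv_mul, mul_one]
      _ = u' * B h := by rw [hu']; noncomm_ring
      _ = _ := by rw [hpar, smul_mul_assoc]
  -- all elements commute with a fixed one
  by_cases hr : ∃ r, (B r).det ≠ 1
  · obtain ⟨r, hr⟩ := hr
    have hrd : (B r).det = -1 := by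
      rcases eq_or_eq_neg_of_abs_eq (hdet r) with h | h
      · exact absurd h hr
      · exact h
    have htf : tf (B r) ≠ 0 := by
      intro h
      rw [tf_eq_zero_iff] at h
      rw [h, Matrix.det_smul, Matrix.det_one, Fintype.card_fin, mul_one] at hrd
      have h5 := sq_nonneg ((B r).trace / 2)
      linarith
    obtain ⟨h, -, hh⟩ := hNE _ (tf_trace (B r)) htf
    apply hh 1
    rw [one_smul, ← comm_tf_iff]
    rcases eq_or_eq_neg_of_abs_eq (hdet h) with hd | hd
    · have h1 := (tf_eq_zero_iff _).1 (hsc h hd)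
      rw [h1, smul_mul_assoc, mul_smul_comm, one_mul, mul_one]
    · have hd' : (B (h * r⁻¹)).det = 1 := by
        have : (B r).det * (B r⁻¹).det = 1 := by
          rw [← Matrix.det_mul, map_mul_inv, Matrix.det_one]
        rw [hrd] at this
        rw [map_mul, Matrix.det_mul, hd]
        linarith
      have h1 := (tf_eq_zero_iff _).1 (hsc _ hd')
      set s := (B (h * r⁻¹)).trace / 2
      have h2 : B h = s • B r := by
        calc B h = B h * (B r⁻¹ * B r) := by rw [map_inv_mul, mul_one]
          _ = B (h * r⁻¹) * B r := by rw [map_mul]; noncomm_ring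
          _ = _ := by rw [h1, smul_mul_assoc, one_mul]
      rw [h2, smul_mul_assoc, mul_smul_comm]
  · push Not at hr
    obtain ⟨h, -, hh⟩ := hNE !![0, 1; 0, 0] (by simp [Matrix.trace_fin_two]) (by
      intro h0
      have := congrFun (congrFun h0 0) 1
      simp at this)
    apply hh 1
    have h1 := (tf_eq_zero_iff _).1 (hsc h (hr h))
    rw [h1, one_smul, smul_mul_assoc, mul_smul_comm, one_mul, mul_one]

end

end Pool.Agent.P8H83
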