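import Mathlib

/-!
Groups of affine maps with solvable linear parts.
-/

set_option autoImplicit false

namespace Pool.Agent.P8H83

variable {Γ E : Type} [Group Γ] [NormedAddCommGroup E] [NormedSpace ℝ E]

theorem solv_of_lin (hol : Γ →* (E ≃ᵃ[ℝ] E)) (H : Subgroup Γ)
    (hs : Group.IsSolvable (H.map (AffineEquiv.linearHom.comp hol))) :
    Group.IsSolvable (H.map hol) := by
  let G : Subgroup (E ≃ᵃ[ℝ] E) := H.map hol
  let L : G →* (H.map (AffineEquiv.linearHom.comp hol)) :=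
    { toFun := fun g => ⟨AffineEquiv.linearHom (g : E ≃ᵃ[ℝ] E), by
        obtain ⟨γ, hγ, hg⟩ := g.2
        refine ⟨γ, hγ, ?_⟩
        rw [← hg]
        rfl⟩
      map_one' := Subtype.ext (map_one AffineEquiv.linearHom)
      map_mul' := fun g g' => Subtype.ext (map_mul AffineEquiv.linearHom _ _) }
  have hker : Group.IsSolvable L.ker := by
    refine Group.isSolvable_of_comm fun a b => ?_
    have key : ∀ a : L.ker, ∀ v : E, ((a : G) : E ≃ᵃ[ℝ] E) v = v + ((a : G) : E ≃ᵃ[ℝ] E) 0 := by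
      intro a v
      have h1 : L (a : G) = 1 := a.2
      have h2 : AffineEquiv.linearHom ((a : G) : E ≃ᵃ[ℝ] E) = 1 := congrArg Subtype.val h1
      have h3 : ((a : G) : E ≃ᵃ[ℝ] E).linear = LinearEquiv.refl ℝ E := h2
      have h4 := ((a : G) : E ≃ᵃ[ℝ] E).map_vadd 0 v
      rw [h3] at h4
      rw [vadd_eq_add, vadd_eq_add, add_zero] at h4
      exact h4
    apply Subtype.ext
    apply Subtype.ext
    refine AffineEquiv.ext fun v => ?_
    show ((a : G) : E ≃ᵃ[ℝ] E) (((b : G) : E ≃ᵃ[ℝ] E) v) =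
      ((b : G) : E ≃ᵃ[ℝ] E) (((a : G) : E ≃ᵃ[ℝ] E) v)
    have e1 := key a (((b : G) : E ≃ᵃ[ℝ] E) v)
    have e2 := key b (((a : G) : E ≃ᵃ[ℝ] E) v)
    rw [e1, e2, key a v, key b v]
    abel
  exact Group.isSolvable_of_ker_le_range L.ker.subtype L (by rw [Subgroup.range_subtype])

end Pool.Agent.P8H83
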