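import Pool.Agent.P8H83.Form

/-!
Discrete strongly irreducible groups of determinant one: solvable normal subgroups are finite.
-/

set_option autoImplicit false

open Set Filter Topology Metric
open Pool.Agent.W689.Mk

namespace Pool.Agent.P8H83

section
variable {E : Type} [NormedAddCommGroup E] [NormedSpace ℝ E] [FiniteDimensional ℝ E]

/-- in a field of linear maps, elements of determinant one are bounded -/
theorem det_bound (h1 : 0 < Module.finrank ℝ E) (C : Submodule ℝ (E →L[ℝ] E))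
    (hC : ∀ x ∈ C, x ≠ 0 → Function.Injective x) :
    ∃ R, ∀ x ∈ C, |LinearMap.det (x : E →ₗ[ℝ] E)| = 1 → ‖x‖ ≤ R := by
  have hcont : Continuous fun x : E →L[ℝ] E => |LinearMap.det (x : E →ₗ[ℝ] E)| :=
    (ContinuousLinearMap.continuous_det (E := E) (𝕜 := ℝ)).abs
  have hS : IsCompact (sphere (0 : E →L[ℝ] E) 1 ∩ C) :=
    (isCompact_sphere _ _).inter_right (Submodule.closed_of_finiteDimensional C)
  have hpos : ∀ x ∈ sphere (0 : E →L[ℝ] E) 1 ∩ C, 0 < |LinearMap.det (x : E →ₗ[ℝ] E)| := by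
    rintro x ⟨hx1, hx2⟩
    have hx0 : x ≠ 0 := by
      rintro rfl
      rw [mem_sphere_zero_iff_norm, norm_zero] at hx1
      exact zero_ne_one hx1
    have h3 := hC x hx2 hx0
    rw [abs_pos]
    have h4 : LinearMap.ker (x : E →ₗ[ℝ] E) = ⊥ := LinearMap.ker_eq_bot.2 h3
    intro h5
    exact (LinearMap.bot_lt_ker_of_det_eq_zero h5).ne' h4
  obtain ⟨c, hc, hcS⟩ : ∃ c : ℝ, 0 < c ∧ ∀ x ∈ sphere (0 : E →L[ℝ] E) 1 ∩ C,
      c ≤ |LinearMap.det (x : E →ₗ[ℝ] E)| := by
    rcases (sphere (0 : E →L[ℝ] E) 1 ∩ (C : Set (E →L[ℝ] E))).eq_empty_or_nonempty with h | h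
    · exact ⟨1, one_pos, fun x hx => by rw [h] at hx; exact absurd hx (notMem_empty x)⟩
    · obtain ⟨x, hx, hmin⟩ := hS.exists_isMinOn h hcont.continuousOn
      exact ⟨_, hpos x hx, fun y hy => hmin hy⟩
  refine ⟨max 1 (1 / c), fun x hx hdet => ?_⟩
  by_contra hcon
  rw [not_le, max_lt_iff] at hcon
  obtain ⟨hx1, hxc⟩ := hcon
  have hx0 : 0 < ‖x‖ := one_pos.trans hx1
  have hy := hcS (‖x‖⁻¹ • x) ⟨by
    rw [mem_sphere_zero_iff_norm, norm_smul, norm_inv, norm_norm, inv_mul_cancel₀ hx0.ne'],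
    C.smul_mem _ hx⟩
  have h3 : LinearMap.det ((‖x‖⁻¹ • x : E →L[ℝ] E) : E →ₗ[ℝ] E) =
      ‖x‖⁻¹ ^ Module.finrank ℝ E * LinearMap.det (x : E →ₗ[ℝ] E) :=
    LinearMap.det_smul _ _
  rw [h3, abs_mul, hdet, mul_one, abs_pow, abs_inv, abs_norm] at hy
  have h4 : ‖x‖⁻¹ ^ Module.finrank ℝ E ≤ ‖x‖⁻¹ := by
    refine pow_le_of_le_one (by positivity) ?_ h1.ne'
    exact inv_le_one_of_one_le₀ hx1.le
  have h5 : ‖x‖⁻¹ < c := by
    rw [inv_lt_comm₀ hx0 hc]
    rwa [one_div] at hxc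
  linarith

variable {G : Type} [Group G]

/-- the linear maps underlying continuous linear maps -/
def lM (M : G →* (E →L[ℝ] E)) : G →* Module.End ℝ E where
  toFun g := (M g : E →ₗ[ℝ] E)
  map_one' := by rw [map_one]; rfl
  map_mul' g h := by rw [map_mul]; rfl

/-- normal subgroups with commuting image are finite -/
theorem comm_finite {M : G →* (E →L[ℝ] E)} (hM : Iso M)
    (hdet : ∀ g, |LinearMap.det (M g : E →ₗ[ℝ] E)| = 1) (hirr : SIrr (lM M))
    (h1 : 0 < Module.finrank ℝ E) (N : Subgroup G) (hN : N.Normal)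
    (hc : ∀ a ∈ N, ∀ b ∈ N, M a * M b = M b * M a) : (M '' N).Finite := by
  obtain ⟨C0, hC0⟩ : ∃ C0 : Submodule ℝ (Module.End ℝ E),
      C0 = Submodule.span ℝ (lM M '' (N : Set G)) := ⟨_, rfl⟩
  have hmem : ∀ a ∈ N, lM M a ∈ C0 := fun a ha => by
    rw [hC0]; exact Submodule.subset_span ⟨a, ha, rfl⟩
  have hmul : ∀ x ∈ C0, ∀ y ∈ C0, x * y ∈ C0 := by
    intro x hx y hy
    have h3 : C0 * C0 ≤ C0 := by
      rw [hC0]
      show Submodule.span ℝ _ * Submodule.span ℝ _ ≤ _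
      rw [Submodule.span_mul_span]
      refine Submodule.span_mono ?_
      rintro _ ⟨_, ⟨a, ha, rfl⟩, _, ⟨b, hb, rfl⟩, rfl⟩
      exact ⟨a * b, N.mul_mem ha hb, map_mul _ a b⟩
    exact h3 (Submodule.mul_mem_mul hx hy)
  have hcomm : ∀ x ∈ C0, ∀ y ∈ C0, x * y = y * x := by
    have h3 : ∀ a ∈ N, ∀ y ∈ C0, lM M a * y = y * lM M a := by
      intro a ha y hy
      rw [hC0] at hy
      induction hy using Submodule.span_induction with
      | mem z hz =>
        obtain ⟨b, hb, rfl⟩ := hz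
        have h4 := congrArg (fun g : E →L[ℝ] E => (g : E →ₗ[ℝ] E)) (hc a ha b hb)
        exact h4
      | zero => rw [zero_mul, mul_zero]
      | add a b _ _ ha hb => rw [add_mul, mul_add, ha, hb]
      | smul r a _ ha => rw [smul_mul_assoc, mul_smul_comm, ha]
    intro x hx y hy
    rw [hC0] at hx
    induction hx using Submodule.span_induction with
    | mem z hz =>
      obtain ⟨a, ha, rfl⟩ := hz
      exact h3 a ha y hy
    | zero => rw [zero_mul, mul_zero]
    | add a b _ _ ha hb => rw [add_mul, mul_add, ha, hb]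
    | smul r a _ ha => rw [smul_mul_assoc, mul_smul_comm, ha]
  have hconj : ∀ g, ∀ x ∈ C0, lM M g * x * lM M g⁻¹ ∈ C0 := by
    intro g x hx
    rw [hC0] at hx
    induction hx using Submodule.span_induction with
    | mem z hz =>
      obtain ⟨a, ha, rfl⟩ := hz
      rw [← map_mul, ← map_mul]
      exact hmem _ (hN.conj_mem a ha g)
    | zero => rw [mul_zero, zero_mul]; exact C0.zero_mem
    | add a b _ _ ha hb => rw [mul_add, add_mul]; exact C0.add_mem ha hb
    | smul r a _ ha => rw [mul_smul_comm, smul_mul_assoc]; exact C0.smul_mem _ ha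
  have key := comm_field (lM M) hirr C0 hmul hcomm hconj
  obtain ⟨R, hR⟩ := det_bound h1
    (C0.map (LinearMap.toContinuousLinearMap : (E →ₗ[ℝ] E) ≃ₗ[ℝ] (E →L[ℝ] E)).toLinearMap) (by
      rintro _ ⟨x, hx, rfl⟩ hx0
      refine key x hx ?_
      rintro rfl
      exact hx0 (map_zero _))
  have hb : ∀ a ∈ N, ‖M a‖ ≤ R := by
    intro a ha
    refine hR (M a) ⟨lM M a, hmem a ha, ?_⟩ (hdet a)
    exact ContinuousLinearMap.ext fun v => rfl
  refine (finite_bdd M hM R).subset ?_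
  rintro _ ⟨a, ha, rfl⟩
  exact ⟨a, rfl, hb a ha, hb _ (N.inv_mem ha)⟩

/-- derived series of a subgroup -/
def dser (N : Subgroup G) : ℕ → Subgroup G
  | 0 => N
  | n + 1 => ⁅dser N n, dser N n⁆

theorem dser_succ (N : Subgroup G) (n : ℕ) : dser N (n + 1) = dser ⁅N, N⁆ n := by
  induction n with
  | zero => rfl
  | succ n ih =>
    show ⁅dser N (n + 1), dser N (n + 1)⁆ = ⁅dser ⁅N, N⁆ n, dser ⁅N, N⁆ n⁆
    rw [ih]

theorem dser_map (N : Subgroup G) (n : ℕ) : (derivedSeries N n).map N.subtype = dser N n := by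
  induction n with
  | zero =>
    show (⊤ : Subgroup N).map N.subtype = N
    rw [← MonoidHom.range_eq_map, Subgroup.range_subtype]
  | succ n ih =>
    show (⁅derivedSeries N n, derivedSeries N n⁆ : Subgroup N).map N.subtype =
      ⁅dser N n, dser N n⁆
    rw [Subgroup.map_commutator, ih]

theorem solv_finite {M : G →* (E →L[ℝ] E)} (hM : Iso M)
    (hdet : ∀ g, |LinearMap.det (M g : E →ₗ[ℝ] E)| = 1) (hirr : SIrr (lM M))
    (h1 : 0 < Module.finrank ℝ E) (n : ℕ) : ∀ N : Subgroup G, N.Normal → dser N n = ⊥ →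
    (M '' (N : Set G)).Finite := by
  classical
  induction n with
  | zero =>
    intro N _ h
    have h3 : N = ⊥ := h
    rw [h3, Subgroup.coe_bot]
    exact (finite_singleton 1).image _
  | succ n ih =>
    intro N hN h
    rw [dser_succ] at h
    have hfin := ih ⁅N, N⁆ (Subgroup.commutator_normal N N) h
    -- spanning elements
    obtain ⟨F, hFS, hF⟩ := (Submodule.fg_span_iff_fg_span_finset_subset (R := ℝ)
      (M '' (N : Set G))).1 (IsNoetherian.noetherian _)
    have hlift : ∀ A ∈ F, ∃ a ∈ N, M a = A := fun A hA => hFS hA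
    choose! s hs1 hs2 using hlift
    -- the centre
    obtain ⟨Z, hZ⟩ : ∃ Z : Subgroup G, ∀ z, z ∈ Z ↔ z ∈ N ∧ ∀ a ∈ N, M z * M a = M a * M z := by
      refine ⟨{ carrier := {z | z ∈ N ∧ ∀ a ∈ N, M z * M a = M a * M z}
                mul_mem' := ?_
                one_mem' := ⟨N.one_mem, fun a _ => by rw [map_one, one_mul, mul_one]⟩
                inv_mem' := ?_ }, fun z => Iff.rfl⟩
      · rintro z w ⟨hz1, hz2⟩ ⟨hw1, hw2⟩
        refine ⟨N.mul_mem hz1 hw1, fun a ha => ?_⟩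
        rw [map_mul, mul_assoc, hw2 a ha, ← mul_assoc, hz2 a ha, mul_assoc]
      · rintro z ⟨hz1, hz2⟩
        refine ⟨N.inv_mem hz1, fun a ha => ?_⟩
        have h3 : M z⁻¹ * M z = 1 := by rw [← map_mul, inv_mul_cancel, map_one]
        have h4 : M z * M z⁻¹ = 1 := by rw [← map_mul, mul_inv_cancel, map_one]
        calc M z⁻¹ * M a = M z⁻¹ * (M a * M z) * M z⁻¹ := by
              rw [mul_assoc, mul_assoc, h4, mul_one]
          _ = M z⁻¹ * (M z * M a) * M z⁻¹ := by rw [hz2 a ha]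
          _ = M a * M z⁻¹ := by rw [← mul_assoc, h3, one_mul]
    have hZN : Z.Normal := by
      refine ⟨fun z hz g => ?_⟩
      rw [hZ] at hz ⊢
      refine ⟨hN.conj_mem z hz.1 g, fun a ha => ?_⟩
      have h3 := hz.2 (g⁻¹ * a * g) (by
        have := hN.conj_mem a ha g⁻¹
        rwa [inv_inv] at this)
      rw [← map_mul, ← map_mul] at h3 ⊢
      have h4 := congrArg (fun x => M g * x * M g⁻¹) h3
      beta_reduce at h4
      rw [← map_mul, ← map_mul, ← map_mul, ← map_mul] at h4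
      have e1 : g * (z * (g⁻¹ * a * g)) * g⁻¹ = g * z * g⁻¹ * a := by group
      have e2 : g * (g⁻¹ * a * g * z) * g⁻¹ = a * (g * z * g⁻¹) := by group
      rw [e1, e2] at h4
      exact h4
    have hZfin := comm_finite hM hdet hirr h1 Z hZN fun a ha b hb =>
      ((hZ a).1 ha).2 b ((hZ b).1 hb).1
    -- commutators
    have hcen : ∀ z ∈ N, (∀ A ∈ F, M z * A = A * M z) → z ∈ Z := by
      intro z hz h3
      rw [hZ]
      refine ⟨hz, fun a ha => ?_⟩
      have h4 : M a ∈ Submodule.span ℝ (F : Set (E →L[ℝ] E)) := by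
        rw [← hF]
        exact Submodule.subset_span ⟨a, ha, rfl⟩
      generalize M a = B at h4 ⊢
      induction h4 using Submodule.span_induction with
      | mem A hA => exact h3 A hA
      | zero => rw [zero_mul, mul_zero]
      | add a b _ _ ha hb => rw [add_mul, mul_add, ha, hb]
      | smul r a _ ha => rw [smul_mul_assoc, mul_smul_comm, ha]
    let κ : G → (F → (E →L[ℝ] E)) := fun t A => M (t * s A * t⁻¹ * (s A)⁻¹)
    have hκ : (κ '' (N : Set G)).Finite := by
      refine (Set.Finite.pi' (fun _ : F => hfin)).subset ?_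
      rintro _ ⟨t, ht, rfl⟩ A
      exact ⟨_, Subgroup.commutator_mem_commutator ht (hs1 A.1 A.2), rfl⟩
    have hκeq : ∀ t ∈ N, ∀ r ∈ N, κ t = κ r → r⁻¹ * t ∈ Z := by
      intro t ht r hr h3
      refine hcen _ (N.mul_mem (N.inv_mem hr) ht) fun A hA => ?_
      have h4 : M (t * s A * t⁻¹ * (s A)⁻¹) = M (r * s A * r⁻¹ * (s A)⁻¹) := congrFun h3 ⟨A, hA⟩
      have h5 := congrArg (fun x => M r⁻¹ * x * (M (s A) * M t)) h4
      beta_reduce at h5
      rw [← map_mul, ← map_mul, ← map_mul, ← map_mul, ← map_mul] at h5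
      have e1 : r⁻¹ * (t * s A * t⁻¹ * (s A)⁻¹) * (s A * t) = r⁻¹ * t * s A := by group
      have e2 : r⁻¹ * (r * s A * r⁻¹ * (s A)⁻¹) * (s A * t) = s A * (r⁻¹ * t) := by group
      rw [e1, e2, map_mul, map_mul (M) (s A), hs2 A hA] at h5
      exact h5
    -- finite union
    have hsec : ∀ k ∈ κ '' (N : Set G), ∃ r ∈ N, κ r = k := fun k hk => hk
    choose! r hr1 hr2 using hsec
    refine (hκ.biUnion (t := fun k => (fun x => M (r k) * x) '' (M '' (Z : Set G))) fun k _ =>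
      hZfin.image _).subset ?_
    rintro _ ⟨t, ht, rfl⟩
    have hk : κ t ∈ κ '' (N : Set G) := ⟨t, ht, rfl⟩
    refine mem_iUnion₂.2 ⟨κ t, hk, M ((r (κ t))⁻¹ * t), ⟨_, ?_, rfl⟩, ?_⟩
    · exact hκeq t ht _ (hr1 _ hk) (hr2 _ hk).symm
    · show M (r (κ t)) * M ((r (κ t))⁻¹ * t) = M t
      rw [← map_mul, mul_inv_cancel_left]

end

section
variable {X Γ E : Type} [NormedAddCommGroup E] [NormedSpace ℝ E] [FiniteDimensional ℝ E]
    [TopologicalSpace X] [T2Space X] [Group Γ]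
    [MulAction Γ X] {dev : X → E} {hol : Γ →* (E ≃ᵃ[ℝ] E)}
    [Nonempty X] [SecondCountableTopology X]

/-- strongly irreducible: solvable normal subgroups are finite -/
theorem normal_finite (D : AffData X Γ E dev hol) (hinj : Function.Injective dev)
    (h2 : 2 ≤ Module.finrank ℝ E) (hirr : SIrr (lh hol)) (N : Subgroup Γ) (hN : N.Normal)
    (hs : Group.IsSolvable N) : (N : Set Γ).Finite := by
  obtain ⟨n, hn⟩ := hs
  have h3 : dser N n = ⊥ := by rw [← dser_map, hn, Subgroup.map_bot]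
  have h4 := solv_finite (iso_clh D hinj h2 hirr) (fun γ => cl_det_ne D γ) hirr (by omega) n N hN h3
  have h5 : (hol '' (N : Set Γ)).Finite := by
    refine Set.Finite.of_injOn (f := fun g : E ≃ᵃ[ℝ] E =>
      LinearMap.toContinuousLinearMap (g.linear : E →ₗ[ℝ] E)) (t := clh hol '' (N : Set Γ)) ?_ ?_ h4
    · rintro _ ⟨γ, hγ, rfl⟩
      exact ⟨γ, hγ, rfl⟩
    · rintro _ ⟨γ, hγ, rfl⟩ _ ⟨δ, hδ, rfl⟩ he
      have he' : clh hol γ = clh hol δ := he
      have h6 : cl hol (γ * δ⁻¹) = 1 := by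
        show clh hol (γ * δ⁻¹) = 1
        rw [map_mul, he', ← map_mul, mul_inv_cancel, map_one]
      have h7 := faithful_irr D hinj h2 hirr h6
      rw [map_mul, map_inv] at h7
      exact mul_inv_eq_one.1 h7
  refine (fiber_finite D hinj h5).subset ?_
  intro γ hγ
  exact ⟨γ, hγ, rfl⟩

end

end Pool.Agent.P8H83
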