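import Pool.Agent.P8H83.Ring
import Pool.Agent.W689.Mk.Half
import Pool.Agent.Y449.MS.Wrap

/-!
The affine holonomy group as a group of linear maps of `E × ℝ`, and its discreteness when the
developing map is injective.
-/

set_option autoImplicit false

open Set Filter Topology Metric
open Pool.Agent.W689.Mk

namespace Pool.Agent.P8H83

section
variable {Γ E : Type} [Group Γ] [NormedAddCommGroup E] [NormedSpace ℝ E] [FiniteDimensional ℝ E]

theorem hol_eq (hol : Γ →* (E ≃ᵃ[ℝ] E)) (γ : Γ) (p : E) : hol γ p = cl hol γ p + hol γ 0 := by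
  have h := hol_add (hol := hol) γ 0 p
  rw [zero_add] at h
  rw [h, add_comm]
  rfl

theorem hol_mul_zero (hol : Γ →* (E ≃ᵃ[ℝ] E)) (γ δ : Γ) :
    hol (γ * δ) 0 = cl hol γ (hol δ 0) + hol γ 0 := by
  rw [← hol_eq, map_mul]
  rfl

/-- the linear maps of `E × ℝ` given by the holonomy -/
noncomputable def hm (hol : Γ →* (E ≃ᵃ[ℝ] E)) : Γ →* ((E × ℝ) →L[ℝ] (E × ℝ)) where
  toFun γ := ((cl hol γ).comp (ContinuousLinearMap.fst ℝ E ℝ) +
    (ContinuousLinearMap.snd ℝ E ℝ).smulRight (hol γ 0)).prod (ContinuousLinearMap.snd ℝ E ℝ)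
  map_one' := by
    refine ContinuousLinearMap.ext fun p => ?_
    have h1 : cl hol 1 p.1 = p.1 := by
      rw [cl_apply]
      show (hol 1).linear p.1 = p.1
      rw [map_one]; rfl
    have h2 : hol 1 (0 : E) = 0 := by rw [map_one]; rfl
    refine Prod.ext ?_ rfl
    show cl hol 1 p.1 + p.2 • hol 1 0 = p.1
    rw [h1, h2, smul_zero, add_zero]
  map_mul' γ δ := by
    refine ContinuousLinearMap.ext fun p => Prod.ext ?_ rfl
    show cl hol (γ * δ) p.1 + p.2 • hol (γ * δ) 0 =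
      cl hol γ (cl hol δ p.1 + p.2 • hol δ 0) + p.2 • hol γ 0
    rw [hol_mul_zero, cl_mul, map_add, map_smul, smul_add, add_assoc]

theorem hm_apply (hol : Γ →* (E ≃ᵃ[ℝ] E)) (γ : Γ) (v : E) (s : ℝ) :
    hm hol γ (v, s) = (cl hol γ v + s • hol γ 0, s) := rfl

theorem hm_point (hol : Γ →* (E ≃ᵃ[ℝ] E)) (γ : Γ) (p : E) : hm hol γ (p, 1) = (hol γ p, 1) := by
  rw [hm_apply, one_smul, ← hol_eq]

theorem hm_eq_iff (hol : Γ →* (E ≃ᵃ[ℝ] E)) (γ δ : Γ) : hm hol γ = hm hol δ ↔ hol γ = hol δ := by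
  constructor
  · intro h
    refine AffineEquiv.ext fun p => ?_
    have h1 := hm_point hol γ p
    rw [h, hm_point] at h1
    exact (congrArg Prod.fst h1).symm
  · intro h
    refine ContinuousLinearMap.ext fun p => ?_
    obtain ⟨v, s⟩ := p
    have h2 : cl hol γ v = cl hol δ v := by
      rw [cl_apply, cl_apply]
      show (hol γ).linear v = (hol δ).linear v
      rw [h]
    rw [hm_apply, hm_apply, h2, h]

theorem hm_eq_one_iff (hol : Γ →* (E ≃ᵃ[ℝ] E)) (γ : Γ) : hm hol γ = 1 ↔ hol γ = 1 := by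
  have := hm_eq_iff hol γ 1
  rwa [map_one, map_one] at this

/-- conjugation of a homomorphism by a unit -/
def cj {G A : Type*} [Group G] [Ring A] (M : G →* A) (u : Aˣ) : G →* A where
  toFun g := ↑u⁻¹ * M g * ↑u
  map_one' := by rw [map_one, mul_one, Units.inv_mul]
  map_mul' g h := by
    rw [map_mul]
    calc (↑u⁻¹ : A) * (M g * M h) * ↑u = ↑u⁻¹ * M g * (↑u * ↑u⁻¹) * (M h * ↑u) := by
          rw [Units.mul_inv, mul_one]; noncomm_ring
      _ = _ := by noncomm_ring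

theorem cj_apply {G A : Type*} [Group G] [Ring A] (M : G →* A) (u : Aˣ) (g : G) :
    cj M u g = ↑u⁻¹ * M g * ↑u := rfl

theorem cj_eq_iff {G A : Type*} [Group G] [Ring A] (M : G →* A) (u : Aˣ) (g h : G) :
    cj M u g = cj M u h ↔ M g = M h := by
  rw [cj_apply, cj_apply]
  constructor
  · intro h1
    have h2 := (Units.mul_left_inj u).1 h1
    exact (Units.mul_right_inj u⁻¹).1 h2
  · intro h1
    rw [h1]

theorem cj_eq_one_iff {G A : Type*} [Group G] [Ring A] (M : G →* A) (u : Aˣ) (g : G) :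
    cj M u g = 1 ↔ M g = 1 := by
  have := cj_eq_iff M u g 1
  rwa [map_one, map_one] at this

theorem Iso.cj {G A : Type*} [Group G] [NormedRing A] {M : G →* A} (hM : Iso M) (u : Aˣ) :
    Iso (cj M u) := by
  obtain ⟨ε, hε, H⟩ := hM
  have hpos : 0 < ‖(u : A)‖ * ‖(↑u⁻¹ : A)‖ + 1 := by positivity
  refine ⟨ε / (‖(u : A)‖ * ‖(↑u⁻¹ : A)‖ + 1), by positivity, fun g hg => ?_⟩
  rw [cj_eq_one_iff]
  apply H
  rw [lt_div_iff₀ hpos] at hg
  have e1 : M g - 1 = ↑u * (Pool.Agent.P8H83.cj M u g - 1) * ↑u⁻¹ := by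
    rw [cj_apply, mul_sub, sub_mul, mul_one, Units.mul_inv]
    congr 1
    calc M g = (↑u * ↑u⁻¹) * M g * (↑u * ↑u⁻¹) := by rw [Units.mul_inv, one_mul, mul_one]
      _ = _ := by noncomm_ring
  rw [e1]
  refine (norm_mul_le _ _).trans_lt ?_
  have h1 : ‖(u : A) * (Pool.Agent.P8H83.cj M u g - 1)‖ ≤
      ‖(u : A)‖ * ‖Pool.Agent.P8H83.cj M u g - 1‖ := norm_mul_le _ _
  have h2 : ‖(u : A) * (Pool.Agent.P8H83.cj M u g - 1)‖ * ‖(↑u⁻¹ : A)‖ ≤
      ‖(u : A)‖ * ‖Pool.Agent.P8H83.cj M u g - 1‖ * ‖(↑u⁻¹ : A)‖ :=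
    mul_le_mul_of_nonneg_right h1 (norm_nonneg _)
  have h3 : 0 ≤ ‖Pool.Agent.P8H83.cj M u g - 1‖ := norm_nonneg _
  nlinarith

end

section
variable {X Γ E : Type} [NormedAddCommGroup E] [NormedSpace ℝ E] [FiniteDimensional ℝ E]
    [TopologicalSpace X] [T2Space X] [Group Γ] [MulAction Γ X]
    {dev : X → E} {hol : Γ →* (E ≃ᵃ[ℝ] E)}

/-- properness at a point: only finitely many elements move a point of `range dev` a little -/
theorem near_finite (D : AffData X Γ E dev hol) (hinj : Function.Injective dev) (x : X) :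
    ∃ r > 0, {γ : Γ | ∃ y, dist (dev y) (dev x) < r ∧ dist (hol γ (dev y)) (dev x) < r}.Finite := by
  obtain ⟨N, hN, hNc⟩ := exists_cpt_nhd D x
  have h1 : dev '' N ∈ 𝓝 (dev x) := by
    rw [← D.loc.map_nhds_eq x]
    exact image_mem_map hN
  obtain ⟨r, hr, hrN⟩ := Metric.mem_nhds_iff.1 h1
  refine ⟨r, hr, (D.pd N hNc).subset ?_⟩
  rintro γ ⟨y, hy1, hy2⟩
  obtain ⟨z, hz, hzy⟩ := hrN (mem_ball.2 hy1)
  obtain ⟨w, hw, hwy⟩ := hrN (mem_ball.2 hy2)
  have e1 : z = y := hinj hzy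
  rw [← D.equi] at hwy
  have e2 : w = γ • y := hinj hwy
  exact ⟨y, e1 ▸ hz, e2 ▸ hw⟩

theorem near_finite' (D : AffData X Γ E dev hol) (hinj : Function.Injective dev) (x : X) :
    ∃ r > 0, {γ : Γ | dist (hol γ (dev x)) (dev x) < r}.Finite := by
  obtain ⟨r, hr, h⟩ := near_finite D hinj x
  exact ⟨r, hr, h.subset fun γ hγ => ⟨x, by rwa [dist_self], hγ⟩⟩

theorem iso_hm (D : AffData X Γ E dev hol) (hinj : Function.Injective dev) [Nonempty X] :
    Iso (hm hol) := by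
  obtain ⟨x⟩ := ‹Nonempty X›
  obtain ⟨r, hr, hF⟩ := near_finite' D hinj x
  set F := {γ : Γ | dist (hol γ (dev x)) (dev x) < r} with hFdef
  have ev : ∀ᶠ ε : ℝ in 𝓝[>] 0, ∀ γ ∈ F, hm hol γ ≠ 1 → ε < ‖hm hol γ - 1‖ := by
    rw [eventually_all_finite hF]
    intro γ _
    by_cases h : hm hol γ = 1
    · exact Eventually.of_forall fun _ h' => absurd h h'
    · have h1 : 0 < ‖hm hol γ - 1‖ := norm_pos_iff.2 (sub_ne_zero.2 h)
      have h2 : ∀ᶠ ε : ℝ in 𝓝 0, ε < ‖hm hol γ - 1‖ := eventually_lt_nhds h1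
      filter_upwards [h2.filter_mono nhdsWithin_le_nhds] with ε hε _ using hε
  have hpos : 0 < ‖(dev x, (1 : ℝ))‖ + 1 := by positivity
  have h2 : ∀ᶠ ε : ℝ in 𝓝[>] 0, ε * (‖(dev x, (1 : ℝ))‖ + 1) < r := by
    have h1 : Tendsto (fun ε : ℝ => ε * (‖(dev x, (1 : ℝ))‖ + 1)) (𝓝 0) (𝓝 (0 * _)) :=
      tendsto_id.mul_const _
    rw [zero_mul] at h1
    exact (h1.eventually_lt_const hr).filter_mono nhdsWithin_le_nhds
  obtain ⟨ε, ⟨h1, h2⟩, h3⟩ := ((ev.and h2).and self_mem_nhdsWithin).exists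
  refine ⟨ε, h3, fun γ hγ => ?_⟩
  by_contra hne
  have hmem : γ ∈ F := by
    rw [hFdef, mem_setOf_eq, dist_eq_norm]
    have e1 : (hol γ (dev x) - dev x, (0 : ℝ)) = (hm hol γ - 1) (dev x, 1) := by
      rw [ContinuousLinearMap.sub_apply, hm_point]
      show _ = (hol γ (dev x), (1 : ℝ)) - (dev x, 1)
      rw [Prod.mk_sub_mk, sub_self]
    have h4 : ‖hol γ (dev x) - dev x‖ ≤ ‖(hol γ (dev x) - dev x, (0 : ℝ))‖ := by
      rw [Prod.norm_def]; exact le_max_left _ _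
    rw [e1] at h4
    have h5 := ((hm hol γ - 1)).le_opNorm (dev x, 1)
    have h6 : ‖hm hol γ - 1‖ * ‖(dev x, (1 : ℝ))‖ ≤ ε * ‖(dev x, (1 : ℝ))‖ :=
      mul_le_mul_of_nonneg_right hγ.le (norm_nonneg _)
    have h7 : (0 : ℝ) < ε := h3
    nlinarith
  exact lt_asymm hγ (h1 γ hmem hne)

/-- the elements with trivial holonomy are finite in number -/
theorem ker_finite (D : AffData X Γ E dev hol) (hinj : Function.Injective dev) [Nonempty X] :
    {γ : Γ | hol γ = 1}.Finite := by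
  obtain ⟨x⟩ := ‹Nonempty X›
  obtain ⟨r, hr, hF⟩ := near_finite' D hinj x
  refine hF.subset fun γ hγ => ?_
  have h1 : hol γ = 1 := hγ
  rw [mem_setOf_eq, h1]
  show dist (dev x) (dev x) < r
  rwa [dist_self]

theorem fiber_finite (D : AffData X Γ E dev hol) (hinj : Function.Injective dev) [Nonempty X]
    {S : Set (E ≃ᵃ[ℝ] E)} (hS : S.Finite) : {γ : Γ | hol γ ∈ S}.Finite := by
  refine hS.preimage' fun g _ => ?_
  by_cases h : ∃ γ₀, hol γ₀ = g
  · obtain ⟨γ₀, hγ₀⟩ := h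
    refine ((ker_finite D hinj).image fun γ => γ₀ * γ).subset ?_
    intro γ hγ
    have h1 : hol γ = g := hγ
    refine ⟨γ₀⁻¹ * γ, ?_, by group⟩
    show hol (γ₀⁻¹ * γ) = 1
    rw [map_mul, map_inv, hγ₀, h1, inv_mul_cancel]
  · convert Set.finite_empty
    ext γ
    simp only [mem_preimage, mem_singleton_iff, mem_empty_iff_false, iff_false]
    exact fun hγ => h ⟨γ, hγ⟩

/-- an element of infinite order modulo trivial holonomy has no fixed point -/
theorem stab_finite (D : AffData X Γ E dev hol) (hinj : Function.Injective dev) (x : X) :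
    {γ : Γ | hol γ (dev x) = dev x}.Finite := by
  obtain ⟨r, hr, hF⟩ := near_finite' D hinj x
  refine hF.subset fun γ hγ => ?_
  have h1 : hol γ (dev x) = dev x := hγ
  rw [mem_setOf_eq, h1, dist_self]
  exact hr

end

end Pool.Agent.P8H83
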