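import Pool.Agent.P8H83.Rp

/-!
Block triangular four by four matrices: the homomorphisms to the blocks.
-/

set_option autoImplicit false

open Set Filter Topology Metric
open Pool.Agent.W689.Mk
open scoped commutatorElement

namespace Pool.Agent.P8H83

/-- upper left block -/
def ulb (A : M4t) : M2 := !![A 0 0, A 0 1; A 1 0, A 1 1]

/-- lower right block -/
def lrb (A : M4t) : M2 := !![A 2 2, A 2 3; A 3 2, A 3 3]

section
variable {G : Type} [Group G] (m : G →* M4t)

theorem m_mul (g h : G) (i j : Fin 4) : m (g * h) i j =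
    m g i 0 * m h 0 j + m g i 1 * m h 1 j + m g i 2 * m h 2 j + m g i 3 * m h 3 j := by
  rw [map_mul, Matrix.mul_apply, Fin.sum_univ_four]

/-- the last row of affine maps -/
def Aff4 : Prop := ∀ g, m g 3 0 = 0 ∧ m g 3 1 = 0 ∧ m g 3 2 = 0 ∧ m g 3 3 = 1

/-- an invariant plane -/
def PlA : Prop := ∀ g, m g 2 0 = 0 ∧ m g 2 1 = 0

/-- an invariant line -/
def LiB : Prop := ∀ g, m g 0 2 = 0 ∧ m g 1 2 = 0

variable {m}

/-- the action on the plane -/
noncomputable def BA (ha : Aff4 m) (hA : PlA m) : G →* M2 where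
  toFun g := ulb (m g)
  map_one' := by
    rw [map_one]
    refine M2.ext' ?_ ?_ ?_ ?_ <;> simp [ulb]
  map_mul' g h := by
    obtain ⟨a1, a2⟩ := hA h
    obtain ⟨b1, b2, b3, b4⟩ := ha h
    refine M2.ext' ?_ ?_ ?_ ?_ <;>
      simp [ulb, Matrix.mul_apply, Fin.sum_univ_two, Fin.sum_univ_four, a1, a2, b1, b2]

theorem BA_apply (ha : Aff4 m) (hA : PlA m) (g : G) : BA ha hA g = ulb (m g) := rfl

/-- the action on the quotient line, as affine maps -/
noncomputable def CA (ha : Aff4 m) (hA : PlA m) : G →* M2 where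
  toFun g := lrb (m g)
  map_one' := by
    rw [map_one]
    refine M2.ext' ?_ ?_ ?_ ?_ <;> simp [lrb]
  map_mul' g h := by
    obtain ⟨a1, a2⟩ := hA g
    obtain ⟨b1, b2, b3, b4⟩ := ha g
    refine M2.ext' ?_ ?_ ?_ ?_ <;>
      simp [lrb, Matrix.mul_apply, Fin.sum_univ_two, Fin.sum_univ_four, a1, a2, b1, b2]

theorem CA_apply (ha : Aff4 m) (hA : PlA m) (g : G) : CA ha hA g = lrb (m g) := rfl

/-- the character on the quotient line -/
noncomputable def chA (ha : Aff4 m) (hA : PlA m) : G →* ℝ where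
  toFun g := m g 2 2
  map_one' := by rw [map_one]; simp
  map_mul' g h := by
    obtain ⟨a1, a2⟩ := hA g
    obtain ⟨b1, b2, b3, b4⟩ := ha h
    rw [m_mul, a1, a2, b3]; ring

theorem chA_apply (ha : Aff4 m) (hA : PlA m) (g : G) : chA ha hA g = m g 2 2 := rfl

/-- the action on the quotient by the line -/
noncomputable def BB (ha : Aff4 m) (hB : LiB m) : G →* M2 where
  toFun g := ulb (m g)
  map_one' := by
    rw [map_one]
    refine M2.ext' ?_ ?_ ?_ ?_ <;> simp [ulb]
  map_mul' g h := by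
    obtain ⟨a1, a2⟩ := hB g
    obtain ⟨b1, b2, b3, b4⟩ := ha h
    refine M2.ext' ?_ ?_ ?_ ?_ <;>
      simp [ulb, Matrix.mul_apply, Fin.sum_univ_two, Fin.sum_univ_four, a1, a2, b1, b2]

theorem BB_apply (ha : Aff4 m) (hB : LiB m) (g : G) : BB ha hB g = ulb (m g) := rfl

/-- the character on the line -/
noncomputable def chB (ha : Aff4 m) (hB : LiB m) : G →* ℝ where
  toFun g := m g 2 2
  map_one' := by rw [map_one]; simp
  map_mul' g h := by
    obtain ⟨a1, a2⟩ := hB h
    obtain ⟨b1, b2, b3, b4⟩ := ha h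
    rw [m_mul, a1, a2, b3]; ring

theorem chB_apply (ha : Aff4 m) (hB : LiB m) (g : G) : chB ha hB g = m g 2 2 := rfl

theorem comm_ker {M : Type} [Monoid M] (f : G →* M) {a b : G} (h : f a * f b = f b * f a) :
    ⁅a, b⁆ ∈ f.ker := by
  rw [MonoidHom.mem_ker, commutatorElement_def, map_mul, map_mul, map_mul, h]
  calc f b * f a * f a⁻¹ * f b⁻¹ = f b * (f a * f a⁻¹) * f b⁻¹ := by simp only [mul_assoc]
    _ = 1 := by rw [map_mul_inv, mul_one, map_mul_inv]

/-- the centralizer of a matrix -/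
def cen (B : G →* M2) (Y : M2) : Subgroup G where
  carrier := {g | B g * Y = Y * B g}
  one_mem' := by simp
  mul_mem' := by
    intro g h hg hh
    have h1 : B g * Y = Y * B g := hg
    have h2 : B h * Y = Y * B h := hh
    show B (g * h) * Y = Y * B (g * h)
    rw [map_mul, mul_assoc, h2, ← mul_assoc, h1, mul_assoc]
  inv_mem' := by
    intro g hg
    have h1 : B g * Y = Y * B g := hg
    show B g⁻¹ * Y = Y * B g⁻¹
    calc B g⁻¹ * Y = B g⁻¹ * (Y * B g) * B g⁻¹ := by
          rw [mul_assoc, mul_assoc Y, map_mul_inv, mul_one]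
      _ = B g⁻¹ * (B g * Y) * B g⁻¹ := by rw [h1]
      _ = _ := by rw [← mul_assoc, map_inv_mul, one_mul]

theorem mem_cen (B : G →* M2) (Y : M2) (g : G) : g ∈ cen B Y ↔ B g * Y = Y * B g := Iff.rfl

/-- matrices commuting with a non scalar matrix commute -/
theorem comm_of_cen {Y X X' : M2} (hY : Y.trace = 0) (hY0 : Y ≠ 0) (h : X * Y = Y * X)
    (h' : X' * Y = Y * X') : X * X' = X' * X := by
  have htf : tf Y = Y := by
    rw [Matrix.trace_fin_two] at hY
    refine M2.ext' ?_ ?_ ?_ ?_ <;> simp [tf] <;> linarith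
  obtain ⟨β, hβ⟩ := comm_tf (A := Y) (by rw [htf]; exact hY0) h
  obtain ⟨β', hβ'⟩ := comm_tf (A := Y) (by rw [htf]; exact hY0) h'
  rw [comm_tf_iff, hβ']
  have h3 : X * tf Y = tf Y * X := by rw [htf]; exact h
  rw [mul_smul_comm, smul_mul_assoc, h3]

/-- commutators of elements preserving a line of matrices centralize it -/
theorem comm_cen (B : G →* M2) {Y : M2} (hY0 : Y ≠ 0) {a b : G} (ha : ∃ c : ℝ, B a * Y = c • (Y * B a))
    (hb : ∃ c : ℝ, B b * Y = c • (Y * B b)) : ⁅a, b⁆ ∈ cen B Y := by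
  obtain ⟨c, hc⟩ := ha
  obtain ⟨d, hd⟩ := hb
  have hinv : ∀ (g : G) (c : ℝ), c ≠ 0 → B g * Y = c • (Y * B g) → B g⁻¹ * Y = c⁻¹ • (Y * B g⁻¹) := by
    intro g c hc0 h
    calc B g⁻¹ * Y = B g⁻¹ * (Y * B g) * B g⁻¹ := by
          rw [mul_assoc, mul_assoc Y, map_mul_inv, mul_one]
      _ = B g⁻¹ * (c⁻¹ • (B g * Y)) * B g⁻¹ := by rw [h, smul_smul, inv_mul_cancel₀ hc0, one_smul]
      _ = c⁻¹ • (B g⁻¹ * (B g * Y) * B g⁻¹) := by rw [mul_smul_comm, smul_mul_assoc]
      _ = _ := by rw [← mul_assoc, map_inv_mul, one_mul]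
  have hne : ∀ (g : G) (c : ℝ), B g * Y = c • (Y * B g) → c ≠ 0 := by
    rintro g c h rfl
    rw [zero_smul] at h
    apply hY0
    calc Y = B g⁻¹ * (B g * Y) := by rw [← mul_assoc, map_inv_mul, one_mul]
      _ = 0 := by rw [h, mul_zero]
  have hc0 := hne a c hc
  have hd0 := hne b d hd
  have hc' := hinv a c hc0 hc
  have hd' := hinv b d hd0 hd
  rw [mem_cen, commutatorElement_def, map_mul, map_mul, map_mul]
  calc B a * B b * B a⁻¹ * B b⁻¹ * Y = B a * (B b * (B a⁻¹ * (B b⁻¹ * Y))) := by noncomm_ring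
    _ = B a * (B b * (B a⁻¹ * (d⁻¹ • (Y * B b⁻¹)))) := by rw [hd']
    _ = d⁻¹ • (B a * (B b * ((B a⁻¹ * Y) * B b⁻¹))) := by
        rw [mul_smul_comm, mul_smul_comm, mul_smul_comm, mul_assoc]
    _ = d⁻¹ • c⁻¹ • (B a * ((B b * Y) * (B a⁻¹ * B b⁻¹))) := by
        rw [hc', smul_mul_assoc, mul_smul_comm, mul_smul_comm]
        congr 2
        noncomm_ring
    _ = d⁻¹ • c⁻¹ • d • ((B a * Y) * (B b * (B a⁻¹ * B b⁻¹))) := by
        rw [hd, smul_mul_assoc, mul_smul_comm]
        congr 3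
        noncomm_ring
    _ = d⁻¹ • c⁻¹ • d • c • (Y * (B a * (B b * (B a⁻¹ * B b⁻¹)))) := by
        rw [hc, smul_mul_assoc]
        congr 4
        noncomm_ring
    _ = Y * (B a * (B b * (B a⁻¹ * B b⁻¹))) := by
        rw [smul_smul, smul_smul, smul_smul]
        have : d⁻¹ * c⁻¹ * d * c = 1 := by field_simp
        rw [this, one_smul]
    _ = Y * (B a * B b * B a⁻¹ * B b⁻¹) := by noncomm_ring

/-- a chain of subgroups with successive commutators bounds the derived series -/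
theorem derived_le (S : ℕ → Subgroup G) (h0 : S 0 = ⊤)
    (h : ∀ i, ∀ a ∈ S i, ∀ b ∈ S i, ⁅a, b⁆ ∈ S (i + 1)) (n : ℕ) : derivedSeries G n ≤ S n := by
  induction n with
  | zero => rw [h0]; exact le_top
  | succ n ih =>
    rw [derivedSeries_succ]
    refine (Subgroup.commutator_mono ih ih).trans ?_
    rw [Subgroup.commutator_le]
    exact fun a ha b hb => h n a ha b hb

theorem solv_range {G' : Type} [Group G'] (f : G →* G') (n : ℕ) (h : derivedSeries G n ≤ f.ker) :
    Group.IsSolvable f.range := by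
  refine ⟨n, ?_⟩
  rw [← map_derivedSeries_eq f.rangeRestrict_surjective n, eq_bot_iff]
  rintro _ ⟨g, hg, rfl⟩
  rw [Subgroup.mem_bot]
  apply Subtype.ext
  exact h hg

theorem solv_map_top {G' : Type} [Group G'] (f : G →* G') (n : ℕ) (h : derivedSeries G n ≤ f.ker) :
    Group.IsSolvable ((⊤ : Subgroup G).map f) := by
  have h1 : (⊤ : Subgroup G).map f = f.range := by
    ext x; simp [MonoidHom.mem_range]
  rw [h1]
  exact solv_range f n h

end

end Pool.Agent.P8H83
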