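import Pool.Agent.P8H83.SolvN

/-!
The case of an invariant plane.
-/

set_option autoImplicit false

open Set Filter Topology Metric
open Pool.Agent.W689.Mk

namespace Pool.Agent.P8H83

section
variable {G : Type} [Group G] {m : G →* M4t}

/-- an invariant set of vectors spans the plane -/
theorem span_top2 {B : G →* M2} {N : Subgroup G} (hNE : NE B N) {T : Set (Fin 2 → ℝ)}
    (hT : ∃ t ∈ T, t ≠ 0) (hinv : ∀ n ∈ N, ∀ t ∈ T, (B n).mulVec t ∈ T) :
    Submodule.span ℝ T = ⊤ := by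
  by_contra hne
  obtain ⟨u, huT, hu⟩ := hT
  have hu' : u ∈ Submodule.span ℝ T := Submodule.subset_span huT
  have h1 : Module.finrank ℝ (Submodule.span ℝ T) < Module.finrank ℝ (Fin 2 → ℝ) :=
    Submodule.finrank_lt hne
  have h2 : Module.finrank ℝ (Fin 2 → ℝ) = 2 := by simp
  have h3 : 1 ≤ Module.finrank ℝ (Submodule.span ℝ T) := by
    have : Nontrivial (Submodule.span ℝ T) := ⟨⟨u, hu'⟩, 0, fun h => hu (congrArg Subtype.val h)⟩
    exact Module.finrank_pos
  have h4 : Submodule.span ℝ T = Submodule.span ℝ {u} := by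
    symm
    apply Submodule.eq_of_le_of_finrank_le
    · rw [Submodule.span_le]
      rintro _ rfl
      exact hu'
    · rw [finrank_span_singleton (K := ℝ) hu]; omega
  apply irr2 hNE hu
  intro n hn
  have h5 : (Submodule.span ℝ T).map (Matrix.mulVecLin (B n)) ≤ Submodule.span ℝ T := by
    rw [Submodule.map_span]
    refine Submodule.span_mono ?_
    rintro _ ⟨t, ht, rfl⟩
    exact hinv n hn t ht
  have h6 : (B n).mulVec u ∈ Submodule.span ℝ T := h5 ⟨u, hu', rfl⟩
  rw [h4] at h6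
  obtain ⟨c, hc⟩ := Submodule.mem_span_singleton.1 h6
  exact ⟨c, hc.symm⟩

end

section
variable {X Γ E : Type} [NormedAddCommGroup E] [NormedSpace ℝ E] [FiniteDimensional ℝ E]
    [TopologicalSpace X] [T2Space X] [Group Γ]
    [MulAction Γ X] {dev : X → E} {hol : Γ →* (E ≃ᵃ[ℝ] E)}

theorem aff4 (hol : Γ →* (E ≃ᵃ[ℝ] E)) (b : Module.Basis (Fin 3) ℝ E) : Aff4 (M4 hol b) :=
  fun g => M4_last hol b g

theorem tendsto_m4 {f : ℝ → M4t} {l : Filter ℝ} {A : M4t}
    (h : ∀ i j, Tendsto (fun t => f t i j) l (𝓝 (A i j))) : Tendsto f l (𝓝 A) :=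
  tendsto_pi_nhds.2 fun i => tendsto_pi_nhds.2 fun j => h i j

theorem det_A (D : AffData X Γ E dev hol) (b : Module.Basis (Fin 3) ℝ E) (hA : PlA (M4 hol b))
    (γ : Γ) : |(BA (aff4 hol b) hA γ).det * chA (aff4 hol b) hA γ| = 1 := by
  have h := cl_det_ne D γ
  rw [det_lin hol b γ, (hA γ).1, (hA γ).2] at h
  rw [BA_apply, chA_apply, Matrix.det_fin_two]
  convert h using 2
  simp [ulb]
  ring

theorem det_B (D : AffData X Γ E dev hol) (b : Module.Basis (Fin 3) ℝ E) (hB : LiB (M4 hol b))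
    (γ : Γ) : |(BB (aff4 hol b) hB γ).det * chB (aff4 hol b) hB γ| = 1 := by
  have h := cl_det_ne D γ
  rw [det_lin hol b γ, (hB γ).1, (hB γ).2] at h
  rw [BB_apply, chB_apply, Matrix.det_fin_two]
  convert h using 2
  simp [ulb]
  ring

omit [TopologicalSpace X] [T2Space X] [MulAction Γ X] in
theorem JJ_A (hiso : Iso (hm hol)) (b : Module.Basis (Fin 3) ℝ E) (hA : PlA (M4 hol b)) :
    JJ (BA (aff4 hol b) hA) (CA (aff4 hol b) hA).ker := by
  refine JJ_of hiso b ![0, 0, 1, 1] _ _ (fun γ δ h => ?_)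
    (fun M => !![M 0 0, M 0 1, 0, 0; M 1 0, M 1 1, 0, 0; 0, 0, 1, 0; 0, 0, 0, 1]) ?_ ?_ ?_
  · rw [BA_apply, BA_apply, (M4_eq_iff hol b γ δ).2 h]
  · refine continuous_matrix fun i j => ?_
    fin_cases i <;> fin_cases j <;> simp <;> fun_prop
  · ext i j
    fin_cases i <;> fin_cases j <;> simp
  · intro n hn
    obtain ⟨p1, p2, p3, p4⟩ := lrb_one.1 (show lrb (M4 hol b n) = 1 from hn)
    obtain ⟨a1, a2⟩ := hA n
    obtain ⟨a3, a4, -, -⟩ := M4_last hol b n
    refine tendsto_m4 fun i j => ?_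
    have key : ∀ c : ℝ, Tendsto (fun t : ℝ => c * t) (𝓝[>] 0) (𝓝 0) := by
      intro c
      have h1 : Tendsto (fun t : ℝ => c * t) (𝓝 0) (𝓝 (c * 0)) := tendsto_id.const_mul c
      rw [mul_zero] at h1
      exact h1.mono_left nhdsWithin_le_nhds
    have hpos : ∀ᶠ t : ℝ in 𝓝[>] 0, t ≠ 0 := by
      filter_upwards [self_mem_nhdsWithin] with t ht using ne_of_gt ht
    simp only [dg_conj_apply]
    fin_cases i <;> fin_cases j <;>
      simp [BA_apply, ulb, p1, p2, p3, p4, a1, a2, a3, a4, key]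
    · refine Tendsto.congr' (f₁ := fun _ => (1 : ℝ)) ?_ tendsto_const_nhds
      filter_upwards [hpos] with t ht
      rw [inv_mul_cancel₀ ht]
    · refine Tendsto.congr' (f₁ := fun _ => (1 : ℝ)) ?_ tendsto_const_nhds
      filter_upwards [hpos] with t ht
      rw [inv_mul_cancel₀ ht]

/-- coordinates of a translation -/
theorem transl_of_entries (b : Module.Basis (Fin 3) ℝ E) {q : Γ} {t : E}
    (h0 : ∀ j : Fin 4, M4 hol b q 0 j = if j = 0 then 1 else if j = 3 then b.repr t 0 else 0)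
    (h1 : ∀ j : Fin 4, M4 hol b q 1 j = if j = 1 then 1 else if j = 3 then b.repr t 1 else 0)
    (h2 : ∀ j : Fin 4, M4 hol b q 2 j = if j = 2 then 1 else if j = 3 then b.repr t 2 else 0)
    (p : E) : hol q p = p + t := by
  apply b.repr.injective
  ext i
  rw [coord_hol, map_add]
  fin_cases i
  · show M4 hol b q 0 0 * b.repr p 0 + M4 hol b q 0 1 * b.repr p 1 + M4 hol b q 0 2 * b.repr p 2 +
      M4 hol b q 0 3 = b.repr p 0 + b.repr t 0
    rw [h0, h0, h0, h0]; simp
  · show M4 hol b q 1 0 * b.repr p 0 + M4 hol b q 1 1 * b.repr p 1 + M4 hol b q 1 2 * b.repr p 2 +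
      M4 hol b q 1 3 = b.repr p 1 + b.repr t 1
    rw [h1, h1, h1, h1]; simp
  · show M4 hol b q 2 0 * b.repr p 0 + M4 hol b q 2 1 * b.repr p 1 + M4 hol b q 2 2 * b.repr p 2 +
      M4 hol b q 2 3 = b.repr p 2 + b.repr t 2
    rw [h2, h2, h2, h2]; simp

/-- an invariant line of translations forces the character to have modulus one -/
theorem chi_of_transl (D : AffData X Γ E dev hol) (hinj : Function.Injective dev) [Nonempty X]
    {t : E} (ht : t ∈ Tv hol) (ht0 : t ≠ 0) (χ : Γ →* ℝ) (h : ∀ γ, cl hol γ t = χ γ • t) (γ : Γ) :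
    |χ γ| = 1 := by
  obtain ⟨r, hr, hdisc⟩ := Tv_disc D hinj
  have key : ∀ γ : Γ, 1 ≤ |χ γ| := by
    intro γ
    by_contra hlt
    push Not at hlt
    have h1 : ∀ k : ℕ, (χ γ) ^ k • t ∈ Tv hol := by
      intro k
      induction k with
      | zero => rwa [pow_zero, one_smul]
      | succ k ih =>
        have h2 := Tv_inv hol γ ih
        rw [map_smul, h, smul_smul, ← pow_succ] at h2
        exact h2
    have h2 : Tendsto (fun k : ℕ => ‖(χ γ) ^ k • t‖) atTop (𝓝 0) := by
      have h3 := (tendsto_pow_atTop_nhds_zero_of_abs_lt_one hlt).smul_const t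
      rw [zero_smul] at h3
      simpa using h3.norm
    obtain ⟨k, hk⟩ := (h2.eventually_lt_const hr).exists
    have h3 := hdisc _ (h1 k) hk
    have h4 : χ γ ≠ 0 := by
      intro h0
      have := map_mul_inv χ γ
      rw [h0, zero_mul] at this
      exact zero_ne_one this
    exact ht0 ((smul_eq_zero.1 h3).resolve_left (pow_ne_zero _ h4))
  have h1 := key γ
  have h2 := key γ⁻¹
  have h3 : |χ γ| * |χ γ⁻¹| = 1 := by rw [← abs_mul, map_mul_inv, abs_one]
  nlinarith

variable [SecondCountableTopology X] [ConnectedSpace X]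

/-- points of the developing image with given third coordinate -/
theorem hits2 (D : AffData X Γ E dev hol) (b : Module.Basis (Fin 3) ℝ E) (s : ℝ) :
    ∃ x, b.repr (dev x) 2 = s := by
  let φ : E →L[ℝ] ℝ := LinearMap.toContinuousLinearMap (b.coord 2)
  have hφ : φ ≠ 0 := by
    intro h
    have h1 : φ (b 2) = 0 := by rw [h]; rfl
    have h2 : φ (b 2) = 1 := by
      show b.repr (b 2) 2 = 1
      simp
    rw [h1] at h2
    exact zero_ne_one h2
  exact hits D hφ s

/-- the invariant plane: the character has modulus one -/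
theorem caseA (D : AffData X Γ E dev hol) (hinj : Function.Injective dev)
    (b : Module.Basis (Fin 3) ℝ E) (hA : PlA (M4 hol b))
    (hNE : NE (BA (aff4 hol b) hA) (CA (aff4 hol b) hA).ker) (γ : Γ) : |M4 hol b γ 2 2| = 1 := by
  have hf3 : Module.finrank ℝ E = 3 := by rw [Module.finrank_eq_card_basis b, Fintype.card_fin]
  have hnt : Nontrivial E := Module.nontrivial_of_finrank_pos (R := ℝ) (by omega)
  set m := M4 hol b with hm'
  have ha : Aff4 m := aff4 hol b
  set B := BA ha hA with hBdef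
  set χ := chA ha hA with hχdef
  set N := (CA ha hA).ker with hNdef
  have hNmem : ∀ n, n ∈ N ↔ m n 2 2 = 1 ∧ m n 2 3 = 0 := by
    intro n
    constructor
    · intro hn
      obtain ⟨p1, p2, p3, p4⟩ := lrb_one.1 (show lrb (m n) = 1 from hn)
      exact ⟨p1, p2⟩
    · rintro ⟨p1, p2⟩
      exact lrb_one.2 ⟨p1, p2, (ha n).2.2.1, (ha n).2.2.2⟩
  have hBmem : ∀ n, B n = 1 ↔ m n 0 0 = 1 ∧ m n 0 1 = 0 ∧ m n 1 0 = 0 ∧ m n 1 1 = 1 :=
    fun n => ulb_one
  have hdetN : ∀ n ∈ N, |(B n).det| = 1 := by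
    intro n hn
    have h1 := det_A D b hA n
    have h2 : chA ha hA n = 1 := ((hNmem n).1 hn).1
    rw [h2, mul_one] at h1
    exact h1
  by_cases hQ : ∀ q, B q = 1 → χ q = 1 → hol q = 1
  · -- no unipotent elements: impossible
    exfalso
    refine core_contra D hf3.ge B N hNE (JJ_A (iso_hm D hinj) b hA) hdetN
      (Rplus_finite D hinj B χ (det_A D b hA) hQ ?_)
    intro g s hs hs1 hχ1 v hv
    have hs' : ulb (m g) = s • (1 : M2) := hs
    have e0 := congrFun (congrFun hs' 0) 0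
    have e1 := congrFun (congrFun hs' 0) 1
    have e2 := congrFun (congrFun hs' 1) 0
    have e3 := congrFun (congrFun hs' 1) 1
    simp [ulb] at e0 e1 e2 e3
    have hv2 := coord_cl hol b g v 2
    have hv0 := coord_cl hol b g v 0
    have hv1 := coord_cl hol b g v 1
    rw [hv] at hv0 hv1 hv2
    have hv2' : b.repr v 2 = m g 2 0 * b.repr v 0 + m g 2 1 * b.repr v 1 + m g 2 2 * b.repr v 2 := hv2
    have hv0' : b.repr v 0 = m g 0 0 * b.repr v 0 + m g 0 1 * b.repr v 1 + m g 0 2 * b.repr v 2 := hv0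
    have hv1' : b.repr v 1 = m g 1 0 * b.repr v 0 + m g 1 1 * b.repr v 1 + m g 1 2 * b.repr v 2 := hv1
    rw [(hA g).1, (hA g).2] at hv2'
    have hχ1' : m g 2 2 ≠ 1 := hχ1
    have z2 : b.repr v 2 = 0 := by
      have : (m g 2 2 - 1) * b.repr v 2 = 0 := by linarith
      exact (mul_eq_zero.1 this).resolve_left (sub_ne_zero.2 hχ1')
    rw [z2, e0, e1] at hv0'
    rw [z2, e2, e3] at hv1'
    have z0 : b.repr v 0 = 0 := by
      have : (s - 1) * b.repr v 0 = 0 := by linarith
      exact (mul_eq_zero.1 this).resolve_left (sub_ne_zero.2 hs1)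
    have z1 : b.repr v 1 = 0 := by
      have : (s - 1) * b.repr v 1 = 0 := by linarith
      exact (mul_eq_zero.1 this).resolve_left (sub_ne_zero.2 hs1)
    apply b.repr.map_eq_zero_iff.mp
    ext i
    fin_cases i
    · exact z0
    · exact z1
    · exact z2
  push Not at hQ
  obtain ⟨q0, hq0B, hq0χ, hq0⟩ := hQ
  by_cases hi : ∃ q, B q = 1 ∧ q ∈ N ∧ hol q ≠ 1
  · -- elements translating the slices
    obtain ⟨q1, hq1B, hq1N, hq1⟩ := hi
    by_contra hcon
    -- an element expanding the quotient line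
    obtain ⟨g, hg⟩ : ∃ g, 1 < |m g 2 2| := by
      rcases lt_or_gt_of_ne hcon with h | h
      · refine ⟨γ⁻¹, ?_⟩
        have h1 : |χ γ| * |χ γ⁻¹| = 1 := by rw [← abs_mul, map_mul_inv, abs_one]
        have h2 : |χ γ| < 1 := h
        have h3 : 0 ≤ |χ γ| := abs_nonneg _
        by_contra h4
        have h5 : |χ γ⁻¹| ≤ 1 := not_lt.1 h4
        nlinarith [abs_nonneg (χ γ⁻¹)]
      · exact ⟨γ, h⟩
    -- the unipotent group
    let U : Subgroup Γ := N ⊓ B.ker
    have hU : ∀ q, q ∈ U → m q 0 0 = 1 ∧ m q 0 1 = 0 ∧ m q 1 0 = 0 ∧ m q 1 1 = 1 ∧ m q 2 2 = 1 ∧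
        m q 2 3 = 0 := by
      rintro q ⟨h1, h2⟩
      obtain ⟨p1, p2⟩ := (hNmem q).1 h1
      obtain ⟨p3, p4, p5, p6⟩ := (hBmem q).1 h2
      exact ⟨p3, p4, p5, p6, p1, p2⟩
    let tv : ℝ → Γ → (Fin 2 → ℝ) := fun s q => ![s * m q 0 2 + m q 0 3, s * m q 1 2 + m q 1 3]
    have htv0 : ∀ s q, tv s q 0 = s * m q 0 2 + m q 0 3 := fun _ _ => rfl
    have htv1 : ∀ s q, tv s q 1 = s * m q 1 2 + m q 1 3 := fun _ _ => rfl
    have hadd : ∀ s, ∀ q ∈ U, ∀ q' ∈ U, tv s (q * q') = tv s q + tv s q' := by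
      intro s q hq q' hq'
      obtain ⟨p1, p2, p3, p4, p5, p6⟩ := hU q hq
      obtain ⟨r1, r2, r3, r4, r5, r6⟩ := hU q' hq'
      obtain ⟨a1, a2, a3, a4⟩ := ha q'
      ext i
      fin_cases i
      · show tv s (q * q') 0 = tv s q 0 + tv s q' 0
        rw [htv0, htv0, htv0, m_mul, m_mul, p1, p2, r5, r6, a3, a4]; ring
      · show tv s (q * q') 1 = tv s q 1 + tv s q' 1
        rw [htv1, htv1, htv1, m_mul, m_mul, p3, p4, r5, r6, a3, a4]; ring
    have hone : ∀ s, tv s 1 = 0 := by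
      intro s
      ext i
      fin_cases i
      · show tv s 1 0 = 0
        rw [htv0, map_one]; simp
      · show tv s 1 1 = 0
        rw [htv1, map_one]; simp
    have hneg : ∀ s, ∀ q ∈ U, tv s q⁻¹ = -tv s q := by
      intro s q hq
      have h1 := hadd s q hq q⁻¹ (U.inv_mem hq)
      rw [mul_inv_cancel, hone] at h1
      exact (neg_eq_of_add_eq_zero_right h1.symm).symm
    let T : ℝ → AddSubgroup (Fin 2 → ℝ) := fun s =>
      { carrier := {t | ∃ q ∈ U, t = tv s q}
        zero_mem' := ⟨1, U.one_mem, (hone s).symm⟩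
        add_mem' := by
          rintro _ _ ⟨q, hq, rfl⟩ ⟨q', hq', rfl⟩
          exact ⟨q * q', U.mul_mem hq hq', (hadd s q hq q' hq').symm⟩
        neg_mem' := by
          rintro _ ⟨q, hq, rfl⟩
          exact ⟨q⁻¹, U.inv_mem hq, (hneg s q hq).symm⟩ }
    have hTmem : ∀ s t, t ∈ T s ↔ ∃ q ∈ U, t = tv s q := fun _ _ => Iff.rfl
    -- conjugation
    have hUn : ∀ g : Γ, ∀ q ∈ U, g * q * g⁻¹ ∈ U := by
      intro g q hq
      have hN' : N.Normal := MonoidHom.normal_ker _
      have hB' : B.ker.Normal := MonoidHom.normal_ker _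
      exact ⟨hN'.conj_mem q hq.1 g, hB'.conj_mem q hq.2 g⟩
    have hvd : ∀ g : Γ, ∀ q ∈ U,
        m g 2 2 * m (g * q * g⁻¹) 0 2 = m g 0 0 * m q 0 2 + m g 0 1 * m q 1 2 ∧
        m g 2 2 * m (g * q * g⁻¹) 1 2 = m g 1 0 * m q 0 2 + m g 1 1 * m q 1 2 ∧
        m (g * q * g⁻¹) 0 3 + m (g * q * g⁻¹) 0 2 * m g 2 3 = m g 0 0 * m q 0 3 + m g 0 1 * m q 1 3 ∧
        m (g * q * g⁻¹) 1 3 + m (g * q * g⁻¹) 1 2 * m g 2 3 = m g 1 0 * m q 0 3 + m g 1 1 * m q 1 3 := by
      intro g q hq
      obtain ⟨p1, p2, p3, p4, p5, p6⟩ := hU q hq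
      obtain ⟨r1, r2, r3, r4, r5, r6⟩ := hU _ (hUn g q hq)
      obtain ⟨a1, a2, a3, a4⟩ := ha q
      obtain ⟨b1, b2, b3, b4⟩ := ha g
      have e : g * q * g⁻¹ * g = g * q := by group
      have h02 := m_mul m (g * q * g⁻¹) g 0 2
      have h12 := m_mul m (g * q * g⁻¹) g 1 2
      have h03 := m_mul m (g * q * g⁻¹) g 0 3
      have h13 := m_mul m (g * q * g⁻¹) g 1 3
      rw [e, m_mul, r1, r2, b3, p5, a3] at h02
      rw [e, m_mul, r3, r4, b3, p5, a3] at h12
      rw [e, m_mul, r1, r2, b4, p6, a4] at h03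
      rw [e, m_mul, r3, r4, b4, p6, a4] at h13
      refine ⟨by linarith, by linarith, by linarith, by linarith⟩
    have hconj : ∀ g : Γ, ∀ s : ℝ, m g 2 2 * s + m g 2 3 = s → ∀ q ∈ U,
        tv s (g * q * g⁻¹) = (B g).mulVec (tv s q) := by
      intro g s hs q hq
      obtain ⟨k1, k2, k3, k4⟩ := hvd g q hq
      ext i
      fin_cases i
      · show tv s (g * q * g⁻¹) 0 = (B g).mulVec (tv s q) 0
        simp only [Matrix.mulVec, dotProduct, Fin.sum_univ_two, htv0, htv1]
        show _ = m g 0 0 * (s * m q 0 2 + m q 0 3) + m g 0 1 * (s * m q 1 2 + m q 1 3)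
        have e1 : m g 0 0 * (s * m q 0 2 + m q 0 3) + m g 0 1 * (s * m q 1 2 + m q 1 3) =
          s * (m g 0 0 * m q 0 2 + m g 0 1 * m q 1 2) + (m g 0 0 * m q 0 3 + m g 0 1 * m q 1 3) := by
          ring
        rw [e1, ← k1, ← k3]
        conv_lhs => rw [← hs]
        ring
      · show tv s (g * q * g⁻¹) 1 = (B g).mulVec (tv s q) 1
        simp only [Matrix.mulVec, dotProduct, Fin.sum_univ_two, htv0, htv1]
        show _ = m g 1 0 * (s * m q 0 2 + m q 0 3) + m g 1 1 * (s * m q 1 2 + m q 1 3)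
        have e1 : m g 1 0 * (s * m q 0 2 + m q 0 3) + m g 1 1 * (s * m q 1 2 + m q 1 3) =
          s * (m g 1 0 * m q 0 2 + m g 1 1 * m q 1 2) + (m g 1 0 * m q 0 3 + m g 1 1 * m q 1 3) := by
          ring
        rw [e1, ← k2, ← k4]
        conv_lhs => rw [← hs]
        ring
    have hTN : ∀ s, ∀ n ∈ N, ∀ t ∈ (T s : Set (Fin 2 → ℝ)), (B n).mulVec t ∈ (T s : Set (Fin 2 → ℝ)) := by
      rintro s n hn _ ⟨q, hq, rfl⟩
      obtain ⟨h1, h2⟩ := (hNmem n).1 hn
      exact ⟨n * q * n⁻¹, hUn n q hq, (hconj n s (by rw [h1, h2]; ring) q hq).symm⟩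
    -- discreteness
    let ι : (Fin 2 → ℝ) →ₗ[ℝ] E :=
      { toFun := fun t => t 0 • b 0 + t 1 • b 1
        map_add' := fun t t' => by simp only [Pi.add_apply, add_smul]; abel
        map_smul' := fun c t => by
          simp only [Pi.smul_apply, smul_eq_mul, RingHom.id_apply, smul_add, smul_smul] }
    have hι0 : ∀ t, b.repr (ι t) 0 = t 0 := fun t => by
      show b.repr (t 0 • b 0 + t 1 • b 1) 0 = t 0
      simp
    have hι1 : ∀ t, b.repr (ι t) 1 = t 1 := fun t => by
      show b.repr (t 0 • b 0 + t 1 • b 1) 1 = t 1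
      simp
    have hι2 : ∀ t, b.repr (ι t) 2 = 0 := fun t => by
      show b.repr (t 0 • b 0 + t 1 • b 1) 2 = 0
      simp
    have hιinj : Function.Injective ι := by
      intro t t' htt
      ext i
      fin_cases i
      · show t 0 = t' 0
        rw [← hι0 t, htt, hι0]
      · show t 1 = t' 1
        rw [← hι1 t, htt, hι1]
    have hdisc : ∀ s, ∃ r > 0, ∀ t ∈ T s, ‖t‖ < r → t = 0 := by
      intro s
      obtain ⟨x, hx⟩ := hits2 D b s
      refine orbit_disc D hinj (T s : Set (Fin 2 → ℝ)) ι hιinj x ?_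
      rintro _ ⟨q, hq, rfl⟩
      refine ⟨q, ?_⟩
      obtain ⟨p1, p2, p3, p4, p5, p6⟩ := hU q hq
      obtain ⟨a1, a2⟩ := hA q
      apply b.repr.injective
      ext i
      rw [coord_hol, map_add]
      fin_cases i
      · show m q 0 0 * b.repr (dev x) 0 + m q 0 1 * b.repr (dev x) 1 + m q 0 2 * b.repr (dev x) 2 +
          m q 0 3 = b.repr (dev x) 0 + b.repr (ι (tv s q)) 0
        rw [hι0, htv0, p1, p2, hx]; ring
      · show m q 1 0 * b.repr (dev x) 0 + m q 1 1 * b.repr (dev x) 1 + m q 1 2 * b.repr (dev x) 2 +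
          m q 1 3 = b.repr (dev x) 1 + b.repr (ι (tv s q)) 1
        rw [hι1, htv1, p3, p4, hx]; ring
      · show m q 2 0 * b.repr (dev x) 0 + m q 2 1 * b.repr (dev x) 1 + m q 2 2 * b.repr (dev x) 2 +
          m q 2 3 = b.repr (dev x) 2 + b.repr (ι (tv s q)) 2
        rw [hι2, a1, a2, p5, p6]; ring
    -- the fixed slice
    have hχg : m g 2 2 ≠ 1 := by
      intro h
      rw [h, abs_one] at hg
      exact lt_irrefl _ hg
    have hχ0 : m g 2 2 ≠ 0 := by
      intro h
      rw [h, abs_zero] at hg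
      linarith
    set s0 := m g 2 3 / (1 - m g 2 2) with hs0
    have hs0' : m g 2 2 * s0 + m g 2 3 = s0 := by
      have h1 : 1 - m g 2 2 ≠ 0 := sub_ne_zero.2 (Ne.symm hχg)
      rw [hs0]; field_simp; ring
    have hdetg : |(B g).det| * |m g 2 2| = 1 := by
      rw [← abs_mul]; exact det_A D b hA g
    by_cases hT0 : ∃ t ∈ (T s0 : Set (Fin 2 → ℝ)), t ≠ 0
    · have hspan := span_top2 hNE hT0 (hTN s0)
      obtain ⟨r, hr, hd⟩ := hdisc s0
      have h1 := one_le_det (P := Matrix.toLin' (B g))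
        (by rw [LinearMap.det_toLin']; exact B_det_ne B g) (T s0) hspan hr hd (by
          rintro _ ⟨q, hq, rfl⟩
          exact ⟨g * q * g⁻¹, hUn g q hq, (hconj g s0 hs0' q hq).symm⟩)
      rw [LinearMap.det_toLin'] at h1
      nlinarith
    · push Not at hT0
      have hz : ∀ q ∈ U, tv s0 q = 0 := fun q hq => hT0 _ ⟨q, hq, rfl⟩
      have hq1U : q1 ∈ U := ⟨hq1N, hq1B⟩
      have hT1 : ∃ t ∈ (T (s0 + 1) : Set (Fin 2 → ℝ)), t ≠ 0 := by
        refine ⟨tv (s0 + 1) q1, ⟨q1, hq1U, rfl⟩, fun h => hq1 ?_⟩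
        obtain ⟨p1, p2, p3, p4, p5, p6⟩ := hU q1 hq1U
        obtain ⟨a1, a2⟩ := hA q1
        obtain ⟨a3, a4, a5, a6⟩ := ha q1
        have k1 : s0 * m q1 0 2 + m q1 0 3 = 0 := congrFun (hz q1 hq1U) 0
        have k2 : s0 * m q1 1 2 + m q1 1 3 = 0 := congrFun (hz q1 hq1U) 1
        have k3 : (s0 + 1) * m q1 0 2 + m q1 0 3 = 0 := congrFun h 0
        have k4 : (s0 + 1) * m q1 1 2 + m q1 1 3 = 0 := congrFun h 1
        have z1 : m q1 0 2 = 0 := by linarith
        have z2 : m q1 1 2 = 0 := by linarith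
        have z3 : m q1 0 3 = 0 := by rw [z1] at k1; linarith
        have z4 : m q1 1 3 = 0 := by rw [z2] at k2; linarith
        rw [← M4_eq_one_iff hol b]
        show m q1 = 1
        ext i j
        fin_cases i <;> fin_cases j <;> simp [p1, p2, p3, p4, p5, p6, a1, a2, a3, a4, a5, a6, z1,
          z2, z3, z4]
      have hspan := span_top2 hNE hT1 (hTN (s0 + 1))
      obtain ⟨r, hr, hd⟩ := hdisc (s0 + 1)
      have hdet' : ((m g 2 2)⁻¹ • B g).det = (m g 2 2)⁻¹ ^ 2 * (B g).det := by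
        rw [Matrix.det_smul, Fintype.card_fin]
      have h1 := one_le_det (P := Matrix.toLin' ((m g 2 2)⁻¹ • B g))
        (by
          rw [LinearMap.det_toLin', hdet']
          exact mul_ne_zero (pow_ne_zero _ (inv_ne_zero hχ0)) (B_det_ne B g)) (T (s0 + 1)) hspan hr
        hd (by
          rintro _ ⟨q, hq, rfl⟩
          refine ⟨g * q * g⁻¹, hUn g q hq, ?_⟩
          obtain ⟨k1, k2, k3, k4⟩ := hvd g q hq
          have z0 : s0 * m q 0 2 + m q 0 3 = 0 := congrFun (hz q hq) 0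
          have z1 : s0 * m q 1 2 + m q 1 3 = 0 := congrFun (hz q hq) 1
          have z2 : s0 * m (g * q * g⁻¹) 0 2 + m (g * q * g⁻¹) 0 3 = 0 :=
            congrFun (hz _ (hUn g q hq)) 0
          have z3 : s0 * m (g * q * g⁻¹) 1 2 + m (g * q * g⁻¹) 1 3 = 0 :=
            congrFun (hz _ (hUn g q hq)) 1
          ext i
          fin_cases i
          · show ((m g 2 2)⁻¹ • B g).mulVec (tv (s0 + 1) q) 0 = tv (s0 + 1) (g * q * g⁻¹) 0
            simp only [Matrix.mulVec, dotProduct, Fin.sum_univ_two, htv0, htv1]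
            show (m g 2 2)⁻¹ * m g 0 0 * ((s0 + 1) * m q 0 2 + m q 0 3) +
              (m g 2 2)⁻¹ * m g 0 1 * ((s0 + 1) * m q 1 2 + m q 1 3) = _
            have e1 : (s0 + 1) * m q 0 2 + m q 0 3 = m q 0 2 := by linarith
            have e2 : (s0 + 1) * m q 1 2 + m q 1 3 = m q 1 2 := by linarith
            have e3 : (s0 + 1) * m (g * q * g⁻¹) 0 2 + m (g * q * g⁻¹) 0 3 = m (g * q * g⁻¹) 0 2 := by
              linarith
            rw [e1, e2, e3]
            field_simp
            linarith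
          · show ((m g 2 2)⁻¹ • B g).mulVec (tv (s0 + 1) q) 1 = tv (s0 + 1) (g * q * g⁻¹) 1
            simp only [Matrix.mulVec, dotProduct, Fin.sum_univ_two, htv0, htv1]
            show (m g 2 2)⁻¹ * m g 1 0 * ((s0 + 1) * m q 0 2 + m q 0 3) +
              (m g 2 2)⁻¹ * m g 1 1 * ((s0 + 1) * m q 1 2 + m q 1 3) = _
            have e1 : (s0 + 1) * m q 0 2 + m q 0 3 = m q 0 2 := by linarith
            have e2 : (s0 + 1) * m q 1 2 + m q 1 3 = m q 1 2 := by linarith
            have e3 : (s0 + 1) * m (g * q * g⁻¹) 1 2 + m (g * q * g⁻¹) 1 3 = m (g * q * g⁻¹) 1 2 := by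
              linarith
            rw [e1, e2, e3]
            field_simp
            linarith)
      rw [LinearMap.det_toLin', hdet', abs_mul, abs_pow, abs_inv] at h1
      have h2 : |m g 2 2|⁻¹ ^ 2 < 1 := pow_lt_one₀ (by positivity) (inv_lt_one_of_one_lt₀ hg) two_ne_zero
      have h3 : |(B g).det| < 1 := by nlinarith [abs_nonneg (B g).det]
      have h4 : 0 ≤ |(B g).det| := abs_nonneg _
      have h5 : 0 ≤ |m g 2 2|⁻¹ ^ 2 := by positivity
      nlinarith
  · -- only translations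
    push Not at hi
    have hN' : N.Normal := MonoidHom.normal_ker _
    have hcomm : ∀ q, B q = 1 → χ q = 1 → ∀ n ∈ N, m (n * q) = m (q * n) := by
      intro q hqB hqχ n hn
      have h1 : n * q * n⁻¹ * q⁻¹ ∈ N := by
        have e : n * q * n⁻¹ * q⁻¹ = n * (q * n⁻¹ * q⁻¹) := by group
        rw [e]
        exact N.mul_mem hn (hN'.conj_mem _ (N.inv_mem hn) q)
      have h2 : B (n * q * n⁻¹ * q⁻¹) = 1 := by
        have h3 : B q⁻¹ = 1 := by
          have := map_mul_inv B q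
          rwa [hqB, one_mul] at this
        rw [map_mul, map_mul, map_mul, hqB, h3, mul_one, mul_one, map_mul_inv]
      have h3 := hi _ h2 h1
      rw [← M4_eq_one_iff hol b] at h3
      have h3' : m (n * q * n⁻¹ * q⁻¹) = 1 := h3
      have e : n * q = (n * q * n⁻¹ * q⁻¹) * (q * n) := by group
      rw [e, map_mul, h3', one_mul]
    -- such elements are translations commuting with `N`
    have hQt : ∀ q, B q = 1 → χ q = 1 → (m q 0 2 = 0 ∧ m q 1 2 = 0) ∧
        ∀ n ∈ N, m n 0 0 * m q 0 3 + m n 0 1 * m q 1 3 + m n 0 2 * m q 2 3 = m q 0 3 ∧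
          m n 1 0 * m q 0 3 + m n 1 1 * m q 1 3 + m n 1 2 * m q 2 3 = m q 1 3 := by
      intro q hqB hqχ
      obtain ⟨p1, p2, p3, p4⟩ := (hBmem q).1 hqB
      have p5 : m q 2 2 = 1 := hqχ
      obtain ⟨a1, a2⟩ := hA q
      obtain ⟨a3, a4, a5, a6⟩ := ha q
      have hent : ∀ n ∈ N, ∀ i j, m (n * q) i j = m (q * n) i j := fun n hn i j => by
        rw [hcomm q hqB hqχ n hn]
      have hfix : ∀ n ∈ N, m n 0 0 * m q 0 2 + m n 0 1 * m q 1 2 = m q 0 2 ∧
          m n 1 0 * m q 0 2 + m n 1 1 * m q 1 2 = m q 1 2 := by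
        intro n hn
        obtain ⟨h1, h2⟩ := (hNmem n).1 hn
        obtain ⟨b3, b4, b5, b6⟩ := ha n
        have k0 := hent n hn 0 2
        have k1 := hent n hn 1 2
        rw [m_mul, m_mul, p1, p2, p5, a5, b5, h1] at k0
        rw [m_mul, m_mul, p3, p4, p5, a5, b5, h1] at k1
        constructor <;> linarith
      have hv : m q 0 2 = 0 ∧ m q 1 2 = 0 := by
        by_contra hne
        refine irr2 hNE (u := ![m q 0 2, m q 1 2]) ?_ fun n hn => ⟨1, ?_⟩
        · intro h
          exact hne ⟨congrFun h 0, congrFun h 1⟩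
        · obtain ⟨k0, k1⟩ := hfix n hn
          rw [one_smul]
          ext i
          fin_cases i
          · show (B n).mulVec ![m q 0 2, m q 1 2] 0 = m q 0 2
            simp only [Matrix.mulVec, dotProduct, Fin.sum_univ_two]
            exact k0
          · show (B n).mulVec ![m q 0 2, m q 1 2] 1 = m q 1 2
            simp only [Matrix.mulVec, dotProduct, Fin.sum_univ_two]
            exact k1
      refine ⟨hv, fun n hn => ?_⟩
      obtain ⟨h1, h2⟩ := (hNmem n).1 hn
      obtain ⟨b3, b4, b5, b6⟩ := ha n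
      have k0 := hent n hn 0 3
      have k1 := hent n hn 1 3
      rw [m_mul, m_mul, p1, p2, hv.1, a6, b6, h2] at k0
      rw [m_mul, m_mul, p3, p4, hv.2, a6, b6, h2] at k1
      constructor <;> linarith
    let tr : Γ → E := fun q => m q 0 3 • b 0 + m q 1 3 • b 1 + m q 2 3 • b 2
    have htr0 : ∀ q, b.repr (tr q) 0 = m q 0 3 := fun q => by simp [tr]
    have htr1 : ∀ q, b.repr (tr q) 1 = m q 1 3 := fun q => by simp [tr]
    have htr2 : ∀ q, b.repr (tr q) 2 = m q 2 3 := fun q => by simp [tr]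
    have htrans : ∀ q, B q = 1 → χ q = 1 → ∀ p, hol q p = p + tr q := by
      intro q hqB hqχ
      obtain ⟨p1, p2, p3, p4⟩ := (hBmem q).1 hqB
      have p5 : m q 2 2 = 1 := hqχ
      obtain ⟨a1, a2⟩ := hA q
      obtain ⟨⟨v0, v1⟩, -⟩ := hQt q hqB hqχ
      refine transl_of_entries b ?_ ?_ ?_
      · intro j
        fin_cases j
        · exact p1
        · exact p2
        · exact v0
        · exact (htr0 q).symm
      · intro j
        fin_cases j
        · exact p3
        · exact p4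
        · exact v1
        · exact (htr1 q).symm
      · intro j
        fin_cases j
        · exact a1
        · exact a2
        · exact p5
        · exact (htr2 q).symm
    have hfixt : ∀ q, B q = 1 → χ q = 1 → ∀ n ∈ N, cl hol n (tr q) = tr q := by
      intro q hqB hqχ n hn
      obtain ⟨h1, h2⟩ := (hNmem n).1 hn
      obtain ⟨k0, k1⟩ := (hQt q hqB hqχ).2 n hn
      obtain ⟨a1, a2⟩ := hA n
      apply b.repr.injective
      ext i
      rw [coord_cl, htr0, htr1, htr2]
      fin_cases i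
      · show m n 0 0 * m q 0 3 + m n 0 1 * m q 1 3 + m n 0 2 * m q 2 3 = b.repr (tr q) 0
        rw [htr0]; exact k0
      · show m n 1 0 * m q 0 3 + m n 1 1 * m q 1 3 + m n 1 2 * m q 2 3 = b.repr (tr q) 1
        rw [htr1]; exact k1
      · show m n 2 0 * m q 0 3 + m n 2 1 * m q 1 3 + m n 2 2 * m q 2 3 = b.repr (tr q) 2
        rw [htr2, a1, a2, h1]; ring
    have ht0 : tr q0 ≠ 0 := by
      intro h
      apply hq0
      refine AffineEquiv.ext fun p => ?_
      rw [htrans q0 hq0B hq0χ, h, add_zero]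
      rfl
    refine chi_of_transl D hinj (t := tr q0) ⟨q0, htrans q0 hq0B hq0χ⟩ ht0 χ (fun g => ?_) γ
    -- the vector `ℓ(g) t - χ(g) t` is fixed by `N`
    have hconjB : B (g * q0 * g⁻¹) = 1 := by
      rw [map_mul, map_mul, hq0B, mul_one, map_mul_inv]
    have hconjχ : χ (g * q0 * g⁻¹) = 1 := by
      rw [map_mul, map_mul, hq0χ, mul_one, map_mul_inv]
    have htg : tr (g * q0 * g⁻¹) = cl hol g (tr q0) := by
      have h1 := htrans _ hconjB hconjχ 0
      have h2 : hol (g * q0 * g⁻¹) 0 = 0 + cl hol g (tr q0) := by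
        rw [map_mul, map_mul]
        show hol g (hol q0 (hol g⁻¹ 0)) = _
        rw [htrans q0 hq0B hq0χ, hol_add, hol_apply_inv]
        rfl
      rw [h2] at h1
      exact (add_left_cancel h1).symm
    have hwfix : ∀ n ∈ N, cl hol n (cl hol g (tr q0) - χ g • tr q0) = cl hol g (tr q0) - χ g • tr q0 := by
      intro n hn
      rw [map_sub, map_smul, hfixt q0 hq0B hq0χ n hn, ← htg, hfixt _ hconjB hconjχ n hn]
    set w := cl hol g (tr q0) - χ g • tr q0 with hw
    have hw2 : b.repr w 2 = 0 := by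
      rw [hw, map_sub, map_smul, Finsupp.sub_apply, Finsupp.smul_apply, coord_cl, smul_eq_mul]
      obtain ⟨a1, a2⟩ := hA g
      show m g 2 0 * _ + m g 2 1 * _ + m g 2 2 * _ - m g 2 2 * _ = 0
      rw [a1, a2]; ring
    by_contra hne
    have hwne : w ≠ 0 := fun h => hne (sub_eq_zero.1 h)
    refine irr2 hNE (u := ![b.repr w 0, b.repr w 1]) ?_ fun n hn => ⟨1, ?_⟩
    · intro h
      apply hwne
      apply b.repr.map_eq_zero_iff.mp
      ext i
      fin_cases i
      · exact congrFun h 0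
      · exact congrFun h 1
      · exact hw2
    · rw [one_smul]
      have k0 := coord_cl hol b n w 0
      have k1 := coord_cl hol b n w 1
      rw [hwfix n hn, hw2] at k0 k1
      ext i
      fin_cases i
      · show (B n).mulVec ![b.repr w 0, b.repr w 1] 0 = b.repr w 0
        simp only [Matrix.mulVec, dotProduct, Fin.sum_univ_two]
        show m n 0 0 * b.repr w 0 + m n 0 1 * b.repr w 1 = b.repr w 0
        have k0' : b.repr w 0 = m n 0 0 * b.repr w 0 + m n 0 1 * b.repr w 1 + m n 0 2 * 0 := k0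
        linarith
      · show (B n).mulVec ![b.repr w 0, b.repr w 1] 1 = b.repr w 1
        simp only [Matrix.mulVec, dotProduct, Fin.sum_univ_two]
        show m n 1 0 * b.repr w 0 + m n 1 1 * b.repr w 1 = b.repr w 1
        have k1' : b.repr w 1 = m n 1 0 * b.repr w 0 + m n 1 1 * b.repr w 1 + m n 1 2 * 0 := k1
        linarith

end

end Pool.Agent.P8H83
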