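import Pool.Agent.P8H83.CaseA

/-!
The case of an invariant line.
-/

set_option autoImplicit false

open Set Filter Topology Metric
open Pool.Agent.W689.Mk

namespace Pool.Agent.P8H83

section
variable {X Γ E : Type} [NormedAddCommGroup E] [NormedSpace ℝ E] [FiniteDimensional ℝ E]
    [TopologicalSpace X] [T2Space X] [Group Γ]
    [MulAction Γ X] {dev : X → E} {hol : Γ →* (E ≃ᵃ[ℝ] E)}

omit [TopologicalSpace X] [T2Space X] [MulAction Γ X] in
theorem JJ_B (hiso : Iso (hm hol)) (b : Module.Basis (Fin 3) ℝ E) (hB : LiB (M4 hol b)) :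
    JJ (BB (aff4 hol b) hB) (chB (aff4 hol b) hB).ker := by
  refine JJ_of hiso b ![1, 1, 0, 2] _ _ (fun γ δ h => ?_)
    (fun M => !![M 0 0, M 0 1, 0, 0; M 1 0, M 1 1, 0, 0; 0, 0, 1, 0; 0, 0, 0, 1]) ?_ ?_ ?_
  · rw [BB_apply, BB_apply, (M4_eq_iff hol b γ δ).2 h]
  · refine continuous_matrix fun i j => ?_
    fin_cases i <;> fin_cases j <;> simp <;> fun_prop
  · ext i j
    fin_cases i <;> fin_cases j <;> simp
  · intro n hn
    have p1 : M4 hol b n 2 2 = 1 := hn
    obtain ⟨a1, a2⟩ := hB n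
    obtain ⟨a3, a4, a5, a6⟩ := M4_last hol b n
    have key : ∀ c : ℝ, Tendsto (fun t : ℝ => c * t) (𝓝[>] 0) (𝓝 0) := by
      intro c
      have h1 : Tendsto (fun t : ℝ => c * t) (𝓝 0) (𝓝 (c * 0)) := tendsto_id.const_mul c
      rw [mul_zero] at h1
      exact h1.mono_left nhdsWithin_le_nhds
    have key2 : ∀ c : ℝ, Tendsto (fun t : ℝ => c * t ^ 2) (𝓝[>] 0) (𝓝 0) := by
      intro c
      have h1 : Tendsto (fun t : ℝ => c * t ^ 2) (𝓝 0) (𝓝 (c * 0 ^ 2)) :=
        (continuous_id.pow 2).tendsto 0 |>.const_mul c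
      rw [zero_pow two_ne_zero, mul_zero] at h1
      exact h1.mono_left nhdsWithin_le_nhds
    have hpos : ∀ᶠ t : ℝ in 𝓝[>] 0, t ≠ 0 := by
      filter_upwards [self_mem_nhdsWithin] with t ht using ne_of_gt ht
    have cst : ∀ (f : ℝ → ℝ) (c : ℝ), (∀ t ≠ 0, f t = c) → Tendsto f (𝓝[>] 0) (𝓝 c) := by
      intro f c h
      refine Tendsto.congr' (f₁ := fun _ => c) ?_ tendsto_const_nhds
      filter_upwards [hpos] with t ht
      exact (h t ht).symm
    have lin : ∀ (f : ℝ → ℝ) (c : ℝ), (∀ t ≠ 0, f t = c * t) → Tendsto f (𝓝[>] 0) (𝓝 0) := by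
      intro f c h
      refine Tendsto.congr' ?_ (key c)
      filter_upwards [hpos] with t ht
      exact (h t ht).symm
    have quad : ∀ (f : ℝ → ℝ) (c : ℝ), (∀ t ≠ 0, f t = c * t ^ 2) → Tendsto f (𝓝[>] 0) (𝓝 0) := by
      intro f c h
      refine Tendsto.congr' ?_ (key2 c)
      filter_upwards [hpos] with t ht
      exact (h t ht).symm
    refine tendsto_m4 fun i j => ?_
    simp only [dg_conj_apply]
    fin_cases i <;> fin_cases j
    · exact cst _ (M4 hol b n 0 0) fun t ht => by simp; field_simp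
    · exact cst _ (M4 hol b n 0 1) fun t ht => by simp; field_simp
    · exact cst _ 0 fun t ht => by simp [a1]
    · exact lin _ (M4 hol b n 0 3) fun t ht => by simp; field_simp
    · exact cst _ (M4 hol b n 1 0) fun t ht => by simp; field_simp
    · exact cst _ (M4 hol b n 1 1) fun t ht => by simp; field_simp
    · exact cst _ 0 fun t ht => by simp [a2]
    · exact lin _ (M4 hol b n 1 3) fun t ht => by simp; field_simp
    · exact lin _ (M4 hol b n 2 0) fun t ht => by simp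
    · exact lin _ (M4 hol b n 2 1) fun t ht => by simp
    · exact cst _ 1 fun t ht => by simp [p1]
    · exact quad _ (M4 hol b n 2 3) fun t ht => by simp
    · exact cst _ 0 fun t ht => by simp [a3]
    · exact cst _ 0 fun t ht => by simp [a4]
    · exact cst _ 0 fun t ht => by simp [a5]
    · exact cst _ 1 fun t ht => by simp [a6]; field_simp

variable [SecondCountableTopology X] [ConnectedSpace X]

/-- the invariant line: a translation along the line, or an invariant plane, or finite linear part -/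
theorem caseB (D : AffData X Γ E dev hol) (hinj : Function.Injective dev)
    (b : Module.Basis (Fin 3) ℝ E) (hB : LiB (M4 hol b))
    (hNE : NE (BB (aff4 hol b) hB) (chB (aff4 hol b) hB).ker) :
    (∃ c : ℝ, c ≠ 0 ∧ c • b 2 ∈ Tv hol) ∨
    (∃ P : Submodule ℝ E, Module.finrank ℝ P = 2 ∧ ∀ γ, ∀ v ∈ P, cl hol γ v ∈ P) ∨
    (range (cl hol)).Finite := by
  have hf3 : Module.finrank ℝ E = 3 := by rw [Module.finrank_eq_card_basis b, Fintype.card_fin]
  have hnt : Nontrivial E := Module.nontrivial_of_finrank_pos (R := ℝ) (by omega)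
  set m := M4 hol b with hm'
  have ha : Aff4 m := aff4 hol b
  set B := BB ha hB with hBdef
  set χ := chB ha hB with hχdef
  set N := (chB ha hB).ker with hNdef
  have hNmem : ∀ n, n ∈ N ↔ m n 2 2 = 1 := fun n => Iff.rfl
  have hBmem : ∀ n, B n = 1 ↔ m n 0 0 = 1 ∧ m n 0 1 = 0 ∧ m n 1 0 = 0 ∧ m n 1 1 = 1 :=
    fun n => ulb_one
  have hdetN : ∀ n ∈ N, |(B n).det| = 1 := by
    intro n hn
    have h1 := det_B D b hB n
    have h2 : chB ha hB n = 1 := hn
    rw [h2, mul_one] at h1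
    exact h1
  by_cases hQ : ∀ q, B q = 1 → χ q = 1 → hol q = 1
  · -- no unipotent elements: impossible
    exfalso
    refine core_contra D hf3.ge B N hNE (JJ_B (iso_hm D hinj) b hB) hdetN
      (Rplus_finite D hinj B χ (det_B D b hB) hQ ?_)
    intro g s hs hs1 hχ1 v hv
    have hs' : ulb (m g) = s • (1 : M2) := hs
    have e0 := congrFun (congrFun hs' 0) 0
    have e1 := congrFun (congrFun hs' 0) 1
    have e2 := congrFun (congrFun hs' 1) 0
    have e3 := congrFun (congrFun hs' 1) 1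
    simp [ulb] at e0 e1 e2 e3
    have hv2 := coord_cl hol b g v 2
    have hv0 := coord_cl hol b g v 0
    have hv1 := coord_cl hol b g v 1
    rw [hv] at hv0 hv1 hv2
    have hv2' : b.repr v 2 = m g 2 0 * b.repr v 0 + m g 2 1 * b.repr v 1 + m g 2 2 * b.repr v 2 := hv2
    have hv0' : b.repr v 0 = m g 0 0 * b.repr v 0 + m g 0 1 * b.repr v 1 + m g 0 2 * b.repr v 2 := hv0
    have hv1' : b.repr v 1 = m g 1 0 * b.repr v 0 + m g 1 1 * b.repr v 1 + m g 1 2 * b.repr v 2 := hv1
    rw [(hB g).1, e0, e1] at hv0'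
    rw [(hB g).2, e2, e3] at hv1'
    have hχ1' : m g 2 2 ≠ 1 := hχ1
    have z0 : b.repr v 0 = 0 := by
      have : (s - 1) * b.repr v 0 = 0 := by linarith
      exact (mul_eq_zero.1 this).resolve_left (sub_ne_zero.2 hs1)
    have z1 : b.repr v 1 = 0 := by
      have : (s - 1) * b.repr v 1 = 0 := by linarith
      exact (mul_eq_zero.1 this).resolve_left (sub_ne_zero.2 hs1)
    rw [z0, z1] at hv2'
    have z2 : b.repr v 2 = 0 := by
      have : (m g 2 2 - 1) * b.repr v 2 = 0 := by linarith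
      exact (mul_eq_zero.1 this).resolve_left (sub_ne_zero.2 hχ1')
    apply b.repr.map_eq_zero_iff.mp
    ext i
    fin_cases i
    · exact z0
    · exact z1
    · exact z2
  push Not at hQ
  obtain ⟨q0, hq0B, hq0χ, hq0⟩ := hQ
  by_cases hL : ∃ c : ℝ, c ≠ 0 ∧ c • b 2 ∈ Tv hol
  · exact Or.inl hL
  right
  push Not at hL
  have hent : ∀ q, B q = 1 → χ q = 1 → m q 0 0 = 1 ∧ m q 0 1 = 0 ∧ m q 0 2 = 0 ∧ m q 1 0 = 0 ∧
      m q 1 1 = 1 ∧ m q 1 2 = 0 ∧ m q 2 2 = 1 := by
    intro q h1 h2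
    obtain ⟨p1, p2, p3, p4⟩ := (hBmem q).1 h1
    obtain ⟨a1, a2⟩ := hB q
    exact ⟨p1, p2, a1, p3, p4, a2, h2⟩
  -- first step
  have step1 : ∀ q, B q = 1 → χ q = 1 → m q 0 3 = 0 → m q 1 3 = 0 → hol q = 1 := by
    intro q hqB hqχ h03 h13
    obtain ⟨p1, p2, p3, p4, p5, p6, p7⟩ := hent q hqB hqχ
    obtain ⟨a3, a4, a5, a6⟩ := ha q
    by_cases hlam : m q 2 0 = 0 ∧ m q 2 1 = 0
    · obtain ⟨l0, l1⟩ := hlam
      have ht : ∀ p, hol q p = p + m q 2 3 • b 2 := by
        refine transl_of_entries b ?_ ?_ ?_ <;> intro j <;> fin_cases j <;>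
          simp [← hm', p1, p2, p3, p4, p5, p6, p7, l0, l1, h03, h13]
      by_cases hc : m q 2 3 = 0
      · refine AffineEquiv.ext fun p => ?_
        rw [ht, hc, zero_smul, add_zero]
        rfl
      · exact absurd ⟨q, ht⟩ (hL _ hc)
    · exfalso
      -- the plane of fixed points
      let φ : E →L[ℝ] ℝ := LinearMap.toContinuousLinearMap
        (m q 2 0 • b.coord 0 + m q 2 1 • b.coord 1)
      have hφv : ∀ v, φ v = m q 2 0 * b.repr v 0 + m q 2 1 * b.repr v 1 := fun v => rfl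
      have hφ : φ ≠ 0 := by
        intro h
        apply hlam
        have h1 : φ (b 0) = 0 := by rw [h]; rfl
        have h2 : φ (b 1) = 0 := by rw [h]; rfl
        rw [hφv] at h1 h2
        simp at h1 h2
        exact ⟨h1, h2⟩
      obtain ⟨x, hx⟩ := hits D hφ (-m q 2 3)
      have hfix : hol q (dev x) = dev x := by
        apply b.repr.injective
        ext i
        rw [coord_hol]
        fin_cases i
        · show m q 0 0 * b.repr (dev x) 0 + m q 0 1 * b.repr (dev x) 1 + m q 0 2 * b.repr (dev x) 2 +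
            m q 0 3 = b.repr (dev x) 0
          rw [p1, p2, p3, h03]; ring
        · show m q 1 0 * b.repr (dev x) 0 + m q 1 1 * b.repr (dev x) 1 + m q 1 2 * b.repr (dev x) 2 +
            m q 1 3 = b.repr (dev x) 1
          rw [p4, p5, p6, h13]; ring
        · show m q 2 0 * b.repr (dev x) 0 + m q 2 1 * b.repr (dev x) 1 + m q 2 2 * b.repr (dev x) 2 +
            m q 2 3 = b.repr (dev x) 2
          rw [hφv] at hx
          rw [p7]; linarith
      have hfixk : ∀ k : ℕ, hol (q ^ k) (dev x) = dev x := by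
        intro k
        induction k with
        | zero => rw [pow_zero, map_one]; rfl
        | succ k ih =>
          rw [pow_succ, map_mul]
          show hol (q ^ k) (hol q (dev x)) = dev x
          rw [hfix, ih]
      have hmk : ∀ k : ℕ, B (q ^ k) = 1 ∧ χ (q ^ k) = 1 ∧ m (q ^ k) 2 0 = k * m q 2 0 ∧
          m (q ^ k) 2 1 = k * m q 2 1 := by
        intro k
        induction k with
        | zero =>
          rw [pow_zero, map_one, map_one, map_one]
          simp
        | succ k ih =>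
          obtain ⟨h1, h2, h3, h4⟩ := ih
          refine ⟨by rw [pow_succ, map_mul, h1, hqB, one_mul], by
            rw [pow_succ, map_mul, h2, hqχ, one_mul], ?_, ?_⟩
          · obtain ⟨r1, r2, r3, r4, r5, r6, r7⟩ := hent _ h1 h2
            rw [pow_succ, m_mul, p1, p4, a3, h3, r7]; push_cast; ring
          · obtain ⟨r1, r2, r3, r4, r5, r6, r7⟩ := hent _ h1 h2
            rw [pow_succ, m_mul, p2, p5, a4, h4, r7]; push_cast; ring
      have hinjk : Function.Injective fun k : ℕ => q ^ k := by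
        intro k l hkl
        beta_reduce at hkl
        have h1 := (hmk k).2.2
        have h2 := (hmk l).2.2
        rw [hkl, h2.1, h2.2] at h1
        by_contra hne
        have hne' : (k : ℝ) - l ≠ 0 := sub_ne_zero.2 (by exact_mod_cast hne)
        apply hlam
        constructor
        · have : ((k : ℝ) - l) * m q 2 0 = 0 := by linarith [h1.1]
          exact (mul_eq_zero.1 this).resolve_left hne'
        · have : ((k : ℝ) - l) * m q 2 1 = 0 := by linarith [h1.2]
          exact (mul_eq_zero.1 this).resolve_left hne'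
      exact (Set.infinite_of_injective_forall_mem hinjk fun k => hfixk k) (stab_finite D hinj x)
  -- second step: commutation
  have step2 : ∀ q q', B q = 1 → χ q = 1 → B q' = 1 → χ q' = 1 →
      m q 2 0 * m q' 0 3 + m q 2 1 * m q' 1 3 = m q' 2 0 * m q 0 3 + m q' 2 1 * m q 1 3 := by
    intro q q' h1 h2 h3 h4
    obtain ⟨p1, p2, p3, p4, p5, p6, p7⟩ := hent q h1 h2
    obtain ⟨r1, r2, r3, r4, r5, r6, r7⟩ := hent q' h3 h4
    obtain ⟨a3, a4, a5, a6⟩ := ha q
    obtain ⟨b3, b4, b5, b6⟩ := ha q'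
    set c := q * q' * (q' * q)⁻¹ with hc
    have hcB : B c = 1 := by
      have e : B (q * q') = B (q' * q) := by rw [map_mul, map_mul, h1, h3]
      rw [hc, map_mul, e, map_mul_inv]
    have hcχ : χ c = 1 := by
      have e : χ (q * q') = χ (q' * q) := by rw [map_mul, map_mul, mul_comm]
      rw [hc, map_mul, e, map_mul_inv]
    obtain ⟨s1, s2, s3, s4, s5, s6, s7⟩ := hent c hcB hcχ
    have e : c * (q' * q) = q * q' := by rw [hc]; group
    have k0 := m_mul m c (q' * q) 0 3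
    have k1 := m_mul m c (q' * q) 1 3
    rw [e, m_mul m q q' 0 3, m_mul m q' q 0 3, s1, s2, s3, (ha (q' * q)).2.2.2, p1, p2, p3, r1, r2,
      r3, a6, b6] at k0
    rw [e, m_mul m q q' 1 3, m_mul m q' q 1 3, s4, s5, s6, (ha (q' * q)).2.2.2, p4, p5, p6, r4, r5,
      r6, a6, b6] at k1
    have hh := step1 c hcB hcχ (by linarith) (by linarith)
    have h5 : m (q * q') = m (q' * q) := by
      rw [← e, map_mul m c, (M4_eq_one_iff hol b c).2 hh, one_mul]
    have h6 : m (q * q') 2 3 = m (q' * q) 2 3 := by rw [h5]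
    rw [m_mul, m_mul, p7, r7, a6, b6] at h6
    linarith
  -- conjugation by elements of `N`
  have hcj : ∀ n ∈ N, ∀ q, B q = 1 → χ q = 1 → B (n * q * n⁻¹) = 1 ∧ χ (n * q * n⁻¹) = 1 ∧
      m (n * q * n⁻¹) 0 3 = m n 0 0 * m q 0 3 + m n 0 1 * m q 1 3 ∧
      m (n * q * n⁻¹) 1 3 = m n 1 0 * m q 0 3 + m n 1 1 * m q 1 3 ∧
      m (n * q * n⁻¹) 2 0 * m n 0 0 + m (n * q * n⁻¹) 2 1 * m n 1 0 = m q 2 0 ∧
      m (n * q * n⁻¹) 2 0 * m n 0 1 + m (n * q * n⁻¹) 2 1 * m n 1 1 = m q 2 1 := by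
    intro n hn q h1 h2
    have hn1 : m n 2 2 = 1 := hn
    have h3 : B (n * q * n⁻¹) = 1 := by rw [map_mul, map_mul, h1, mul_one, map_mul_inv]
    have h4 : χ (n * q * n⁻¹) = 1 := by rw [map_mul, map_mul, h2, mul_one, map_mul_inv]
    obtain ⟨p1, p2, p3, p4, p5, p6, p7⟩ := hent q h1 h2
    obtain ⟨r1, r2, r3, r4, r5, r6, r7⟩ := hent _ h3 h4
    obtain ⟨a3, a4, a5, a6⟩ := ha q
    obtain ⟨b3, b4, b5, b6⟩ := ha n
    obtain ⟨c1, c2⟩ := hB n
    have e : n * q * n⁻¹ * n = n * q := by group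
    have k0 := m_mul m (n * q * n⁻¹) n 0 3
    have k1 := m_mul m (n * q * n⁻¹) n 1 3
    have k2 := m_mul m (n * q * n⁻¹) n 2 0
    have k3 := m_mul m (n * q * n⁻¹) n 2 1
    rw [e, m_mul m n q, r1, r2, r3, b6, c1, a6] at k0
    rw [e, m_mul m n q, r4, r5, r6, b6, c2, a6] at k1
    rw [e, m_mul m n q, r7, b3, p1, p4, a3, hn1] at k2
    rw [e, m_mul m n q, r7, b4, p2, p5, a4, hn1] at k3
    refine ⟨h3, h4, by linarith, by linarith, by linarith, by linarith⟩
  -- third step: the displacements span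
  let T : Set (Fin 2 → ℝ) := {t | ∃ q, B q = 1 ∧ χ q = 1 ∧ t = ![m q 0 3, m q 1 3]}
  have hTinv : ∀ n ∈ N, ∀ t ∈ T, (B n).mulVec t ∈ T := by
    rintro n hn _ ⟨q, h1, h2, rfl⟩
    obtain ⟨h3, h4, k0, k1, -, -⟩ := hcj n hn q h1 h2
    refine ⟨n * q * n⁻¹, h3, h4, ?_⟩
    ext i
    fin_cases i
    · show (B n).mulVec ![m q 0 3, m q 1 3] 0 = m (n * q * n⁻¹) 0 3
      simp only [Matrix.mulVec, dotProduct, Fin.sum_univ_two]
      exact k0.symm
    · show (B n).mulVec ![m q 0 3, m q 1 3] 1 = m (n * q * n⁻¹) 1 3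
      simp only [Matrix.mulVec, dotProduct, Fin.sum_univ_two]
      exact k1.symm
  have hT0 : ∃ t ∈ T, t ≠ 0 := by
    refine ⟨![m q0 0 3, m q0 1 3], ⟨q0, hq0B, hq0χ, rfl⟩, fun h => hq0 ?_⟩
    exact step1 q0 hq0B hq0χ (congrFun h 0) (congrFun h 1)
  have hspan := span_top2 hNE hT0 hTinv
  obtain ⟨q1, q2, h1B, h1χ, h2B, h2χ, hΔ⟩ : ∃ q1 q2, B q1 = 1 ∧ χ q1 = 1 ∧ B q2 = 1 ∧ χ q2 = 1 ∧
      m q1 0 3 * m q2 1 3 - m q1 1 3 * m q2 0 3 ≠ 0 := by
    by_contra hcon
    push Not at hcon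
    have hu : ![m q0 0 3, m q0 1 3] ≠ (0 : Fin 2 → ℝ) := fun h =>
      hq0 (step1 q0 hq0B hq0χ (congrFun h 0) (congrFun h 1))
    have hle : Submodule.span ℝ T ≤ Submodule.span ℝ {![m q0 0 3, m q0 1 3]} := by
      rw [Submodule.span_le]
      rintro _ ⟨q, h1, h2, rfl⟩
      have h3 := hcon q0 q hq0B hq0χ h1 h2
      rw [SetLike.mem_coe, Submodule.mem_span_singleton]
      by_cases hx : m q0 0 3 = 0
      · have hy : m q0 1 3 ≠ 0 := by
          intro hy
          apply hu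
          ext i
          fin_cases i
          · exact hx
          · exact hy
        refine ⟨m q 1 3 / m q0 1 3, ?_⟩
        ext i
        fin_cases i
        · show m q 1 3 / m q0 1 3 * m q0 0 3 = m q 0 3
          rw [hx] at h3 ⊢
          have : m q0 1 3 * m q 0 3 = 0 := by linarith
          rw [(mul_eq_zero.1 this).resolve_left hy, mul_zero]
        · show m q 1 3 / m q0 1 3 * m q0 1 3 = m q 1 3
          field_simp
      · refine ⟨m q 0 3 / m q0 0 3, ?_⟩
        ext i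
        fin_cases i
        · show m q 0 3 / m q0 0 3 * m q0 0 3 = m q 0 3
          field_simp
        · show m q 0 3 / m q0 0 3 * m q0 1 3 = m q 1 3
          field_simp
          linarith
    rw [hspan, top_le_iff] at hle
    have h1 := finrank_span_singleton (K := ℝ) hu
    rw [hle, finrank_top] at h1
    simp at h1
  -- fourth step: the linear parts vanish
  have hsym := step2 q1 q2 h1B h1χ h2B h2χ
  set Δ := m q1 0 3 * m q2 1 3 - m q1 1 3 * m q2 0 3 with hΔdef
  set Y : M2 := !![m q1 2 1 * m q2 1 3 - m q2 2 1 * m q1 1 3,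
      -(m q1 2 1 * m q2 0 3) + m q2 2 1 * m q1 0 3;
      -(m q1 2 0 * m q2 1 3) + m q2 2 0 * m q1 1 3,
      m q1 2 0 * m q2 0 3 - m q2 2 0 * m q1 0 3] with hY
  have hYtr : Y.trace = 0 := by
    rw [hY, Matrix.trace_fin_two_of]; linarith
  have hYq : ∀ q, B q = 1 → χ q = 1 →
      Y 0 0 * m q 0 3 + Y 0 1 * m q 1 3 = Δ * m q 2 1 ∧
      Y 1 0 * m q 0 3 + Y 1 1 * m q 1 3 = -(Δ * m q 2 0) := by
    intro q h1 h2
    have e1 := step2 q q1 h1 h2 h1B h1χ
    have e2 := step2 q q2 h1 h2 h2B h2χ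
    have y00 : Y 0 0 = m q1 2 1 * m q2 1 3 - m q2 2 1 * m q1 1 3 := rfl
    have y01 : Y 0 1 = -(m q1 2 1 * m q2 0 3) + m q2 2 1 * m q1 0 3 := rfl
    have y10 : Y 1 0 = -(m q1 2 0 * m q2 1 3) + m q2 2 0 * m q1 1 3 := rfl
    have y11 : Y 1 1 = m q1 2 0 * m q2 0 3 - m q2 2 0 * m q1 0 3 := rfl
    rw [y00, y01, y10, y11, hΔdef]
    constructor
    · linear_combination (m q2 0 3) * e1 - (m q1 0 3) * e2 + (m q 0 3) * hsym
    · linear_combination (m q2 1 3) * e1 - (m q1 1 3) * e2 + (m q 1 3) * hsym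
  have hY0 : Y = 0 := by
    by_contra hne
    obtain ⟨n, hn, hnc⟩ := hNE Y hYtr hne
    apply hnc (B n).det
    have hk : ∀ q, B q = 1 → χ q = 1 →
        (m n 0 0 * Y 0 0 + m n 0 1 * Y 1 0) * m q 0 3 + (m n 0 0 * Y 0 1 + m n 0 1 * Y 1 1) * m q 1 3 =
        (B n).det * ((Y 0 0 * m n 0 0 + Y 0 1 * m n 1 0) * m q 0 3 +
          (Y 0 0 * m n 0 1 + Y 0 1 * m n 1 1) * m q 1 3) ∧
        (m n 1 0 * Y 0 0 + m n 1 1 * Y 1 0) * m q 0 3 + (m n 1 0 * Y 0 1 + m n 1 1 * Y 1 1) * m q 1 3 =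
        (B n).det * ((Y 1 0 * m n 0 0 + Y 1 1 * m n 1 0) * m q 0 3 +
          (Y 1 0 * m n 0 1 + Y 1 1 * m n 1 1) * m q 1 3) := by
      intro q h1 h2
      obtain ⟨h3, h4, k0, k1, k2, k3⟩ := hcj n hn q h1 h2
      obtain ⟨g0, g1⟩ := hYq q h1 h2
      obtain ⟨g2, g3⟩ := hYq _ h3 h4
      rw [k0, k1] at g2 g3
      have hd : (B n).det = m n 0 0 * m n 1 1 - m n 0 1 * m n 1 0 := Matrix.det_fin_two _
      rw [hd]
      constructor
      · linear_combination (m n 0 0) * g0 + (m n 0 1) * g1 -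
          (m n 0 0 * m n 1 1 - m n 0 1 * m n 1 0) * g2 - Δ * (m n 0 0) * k3 + Δ * (m n 0 1) * k2
      · linear_combination (m n 1 0) * g0 + (m n 1 1) * g1 -
          (m n 0 0 * m n 1 1 - m n 0 1 * m n 1 0) * g3 - Δ * (m n 1 0) * k3 + Δ * (m n 1 1) * k2
    -- solve on the basis
    have solve : ∀ x y : ℝ, x * m q1 0 3 + y * m q1 1 3 = 0 → x * m q2 0 3 + y * m q2 1 3 = 0 →
        x = 0 ∧ y = 0 := by
      intro x y h1 h2
      constructor
      · have : x * Δ = 0 := by rw [hΔdef]; linear_combination (m q2 1 3) * h1 - (m q1 1 3) * h2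
        exact (mul_eq_zero.1 this).resolve_right hΔ
      · have : y * Δ = 0 := by rw [hΔdef]; linear_combination (m q1 0 3) * h2 - (m q2 0 3) * h1
        exact (mul_eq_zero.1 this).resolve_right hΔ
    obtain ⟨a1, a2⟩ := hk q1 h1B h1χ
    obtain ⟨a3, a4⟩ := hk q2 h2B h2χ
    obtain ⟨s1, s2⟩ := solve
      (m n 0 0 * Y 0 0 + m n 0 1 * Y 1 0 - (B n).det * (Y 0 0 * m n 0 0 + Y 0 1 * m n 1 0))
      (m n 0 0 * Y 0 1 + m n 0 1 * Y 1 1 - (B n).det * (Y 0 0 * m n 0 1 + Y 0 1 * m n 1 1))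
      (by linarith) (by linarith)
    obtain ⟨s3, s4⟩ := solve
      (m n 1 0 * Y 0 0 + m n 1 1 * Y 1 0 - (B n).det * (Y 1 0 * m n 0 0 + Y 1 1 * m n 1 0))
      (m n 1 0 * Y 0 1 + m n 1 1 * Y 1 1 - (B n).det * (Y 1 0 * m n 0 1 + Y 1 1 * m n 1 1))
      (by linarith) (by linarith)
    have b00 : B n 0 0 = m n 0 0 := rfl
    have b01 : B n 0 1 = m n 0 1 := rfl
    have b10 : B n 1 0 = m n 1 0 := rfl
    have b11 : B n 1 1 = m n 1 1 := rfl
    refine M2.ext' ?_ ?_ ?_ ?_
    · rw [Matrix.smul_apply, Matrix.mul_apply, Matrix.mul_apply, Fin.sum_univ_two, Fin.sum_univ_two,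
        b00, b01, b10, smul_eq_mul]
      linarith
    · rw [Matrix.smul_apply, Matrix.mul_apply, Matrix.mul_apply, Fin.sum_univ_two, Fin.sum_univ_two,
        b00, b01, b11, smul_eq_mul]
      linarith
    · rw [Matrix.smul_apply, Matrix.mul_apply, Matrix.mul_apply, Fin.sum_univ_two, Fin.sum_univ_two,
        b10, b11, b00, smul_eq_mul]
      linarith
    · rw [Matrix.smul_apply, Matrix.mul_apply, Matrix.mul_apply, Fin.sum_univ_two, Fin.sum_univ_two,
        b10, b11, b01, smul_eq_mul]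
      linarith
  have hlam : ∀ q, B q = 1 → χ q = 1 → m q 2 0 = 0 ∧ m q 2 1 = 0 := by
    intro q h1 h2
    obtain ⟨g0, g1⟩ := hYq q h1 h2
    rw [hY0] at g0 g1
    simp only [Matrix.zero_apply, zero_mul, add_zero] at g0 g1
    have g1' : Δ * m q 2 0 = 0 := by linarith
    exact ⟨(mul_eq_zero.1 g1').resolve_left hΔ, (mul_eq_zero.1 g0.symm).resolve_left hΔ⟩
  -- fifth step: the plane of translations
  let tr : Γ → E := fun q => m q 0 3 • b 0 + m q 1 3 • b 1 + m q 2 3 • b 2
  have htr0 : ∀ q, b.repr (tr q) 0 = m q 0 3 := fun q => by simp [tr]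
  have htr1 : ∀ q, b.repr (tr q) 1 = m q 1 3 := fun q => by simp [tr]
  have htr2 : ∀ q, b.repr (tr q) 2 = m q 2 3 := fun q => by simp [tr]
  have htrans : ∀ q, B q = 1 → χ q = 1 → tr q ∈ Tv hol := by
    intro q hqB hqχ
    obtain ⟨p1, p2, p3, p4, p5, p6, p7⟩ := hent q hqB hqχ
    obtain ⟨l0, l1⟩ := hlam q hqB hqχ
    refine ⟨q, transl_of_entries b ?_ ?_ ?_⟩
    · intro j
      fin_cases j
      · exact p1
      · exact p2
      · exact p3
      · exact (htr0 q).symm
    · intro j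
      fin_cases j
      · exact p4
      · exact p5
      · exact p6
      · exact (htr1 q).symm
    · intro j
      fin_cases j
      · exact l0
      · exact l1
      · exact p7
      · exact (htr2 q).symm
  by_cases hP : Submodule.span ℝ (Tv hol : Set E) = ⊤
  · exact Or.inr (finite_of_lattice D hinj hP)
  left
  refine ⟨Submodule.span ℝ (Tv hol : Set E), ?_, fun γ v hv => ?_⟩
  · have h1 : Module.finrank ℝ (Submodule.span ℝ (Tv hol : Set E)) < Module.finrank ℝ E :=
      Submodule.finrank_lt hP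
    have h2 : LinearIndependent ℝ ![tr q1, tr q2] := by
      rw [LinearIndependent.pair_iff]
      intro s t hst
      have e0 := congrArg (fun v => b.repr v 0) hst
      have e1 := congrArg (fun v => b.repr v 1) hst
      simp only [map_add, map_smul, Finsupp.add_apply, Finsupp.smul_apply, htr0, htr1, smul_eq_mul,
        map_zero, Finsupp.coe_zero, Pi.zero_apply] at e0 e1
      constructor
      · have : s * Δ = 0 := by rw [hΔdef]; linear_combination (m q2 1 3) * e0 - (m q2 0 3) * e1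
        exact (mul_eq_zero.1 this).resolve_right hΔ
      · have : t * Δ = 0 := by rw [hΔdef]; linear_combination (m q1 0 3) * e1 - (m q1 1 3) * e0
        exact (mul_eq_zero.1 this).resolve_right hΔ
    have h3 : Submodule.span ℝ (range ![tr q1, tr q2]) ≤ Submodule.span ℝ (Tv hol : Set E) := by
      refine Submodule.span_mono ?_
      rintro _ ⟨i, rfl⟩
      fin_cases i
      · exact htrans q1 h1B h1χ
      · exact htrans q2 h2B h2χ
    have h4 := Submodule.finrank_mono h3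
    rw [finrank_span_eq_card h2, Fintype.card_fin] at h4
    omega
  · have h1 : (Submodule.span ℝ (Tv hol : Set E)).map (cl hol γ : E →ₗ[ℝ] E) ≤
        Submodule.span ℝ (Tv hol : Set E) := by
      rw [Submodule.map_span]
      refine Submodule.span_mono ?_
      rintro _ ⟨s, hs, rfl⟩
      exact Tv_inv hol γ hs
    exact h1 ⟨v, hv, rfl⟩

end

end Pool.Agent.P8H83
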