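import Pool.Agent.P8H83.CaseB
import Pool.Agent.P8H83.Hyp
import Pool.Agent.R774.MK4
import Pool.Agent.TH569.MK.Chain

/-!
An invariant line consisting of translations: the quotient by the line.
-/

set_option autoImplicit false

open Set Filter Topology Metric
open Pool.Agent.W689.Mk

namespace Pool.Agent.P8H83

abbrev F2 := Fin 2 → ℝ

theorem mv2 (A : M2) (y : F2) (i : Fin 2) : A.mulVec y i = A i 0 * y 0 + A i 1 * y 1 := by
  rw [Matrix.mulVec, dotProduct, Fin.sum_univ_two]

section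
variable {G : Type} [Group G] {m : G →* M4t}

/-- the affine map of the quotient plane -/
noncomputable def afm (ha : Aff4 m) (hB : LiB m) : G →* (F2 →ᵃ[ℝ] F2) where
  toFun g := ⟨fun y => (BB ha hB g).mulVec y + ![m g 0 3, m g 1 3], Matrix.mulVecLin (BB ha hB g),
    fun p v => by
      rw [vadd_eq_add, vadd_eq_add, Matrix.mulVec_add, Matrix.mulVecLin_apply, add_assoc]⟩
  map_one' := by
    refine AffineMap.ext fun y => funext fun i => ?_
    show ((BB ha hB 1).mulVec y + ![m 1 0 3, m 1 1 3]) i = y i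
    rw [map_one, map_one, Matrix.one_mulVec]
    fin_cases i <;> simp
  map_mul' g h := by
    refine AffineMap.ext fun y => funext fun i => ?_
    show ((BB ha hB (g * h)).mulVec y + ![m (g * h) 0 3, m (g * h) 1 3]) i =
      ((BB ha hB g).mulVec ((BB ha hB h).mulVec y + ![m h 0 3, m h 1 3]) + ![m g 0 3, m g 1 3]) i
    rw [map_mul, Matrix.mulVec_add, Matrix.mulVec_mulVec, m_mul, m_mul]
    obtain ⟨a1, a2⟩ := hB g
    obtain ⟨b1, b2, b3, b4⟩ := ha h
    rw [a1, a2, b4]
    rw [Pi.add_apply, Pi.add_apply, Pi.add_apply, mv2, mv2, Matrix.mul_apply, Matrix.mul_apply,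
      Fin.sum_univ_two, Fin.sum_univ_two]
    fin_cases i <;> simp [BB_apply, ulb] <;> ring

/-- the affine automorphism of the quotient plane -/
noncomputable def hF (ha : Aff4 m) (hB : LiB m) : G →* (F2 ≃ᵃ[ℝ] F2) :=
  (AffineEquiv.equivUnitsAffineMap (k := ℝ) (P₁ := F2)).symm.toMonoidHom.comp
    (MonoidHom.toHomUnits (afm ha hB))

theorem hF_apply (ha : Aff4 m) (hB : LiB m) (g : G) (y : F2) :
    hF ha hB g y = (BB ha hB g).mulVec y + ![m g 0 3, m g 1 3] := rfl

theorem hF_linear (ha : Aff4 m) (hB : LiB m) (g : G) :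
    ((hF ha hB g).linear : F2 →ₗ[ℝ] F2) = Matrix.mulVecLin (BB ha hB g) := rfl

end

section
variable {X Γ E : Type} [NormedAddCommGroup E] [NormedSpace ℝ E] [FiniteDimensional ℝ E]
    [TopologicalSpace X] [T2Space X] [Group Γ]
    [MulAction Γ X] {dev : X → E} {hol : Γ →* (E ≃ᵃ[ℝ] E)}

/-- the projection to the quotient plane -/
noncomputable def prj (b : Module.Basis (Fin 3) ℝ E) : E →L[ℝ] F2 :=
  LinearMap.toContinuousLinearMap
    { toFun := fun p => ![b.repr p 0, b.repr p 1]
      map_add' := fun p q => by ext i; fin_cases i <;> simp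
      map_smul' := fun t p => by ext i; fin_cases i <;> simp }

omit [TopologicalSpace X] [T2Space X] [MulAction Γ X] in
theorem prj_apply (b : Module.Basis (Fin 3) ℝ E) (p : E) : prj b p = ![b.repr p 0, b.repr p 1] := rfl

/-- the section of the projection -/
noncomputable def scn (b : Module.Basis (Fin 3) ℝ E) : (F2 × ℝ) →L[ℝ] E :=
  LinearMap.toContinuousLinearMap
    { toFun := fun w => w.1 0 • b 0 + w.1 1 • b 1 + w.2 • b 2
      map_add' := fun v w => by
        simp only [Prod.fst_add, Prod.snd_add, Pi.add_apply, add_smul]; abel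
      map_smul' := fun t v => by
        simp only [Prod.smul_fst, Prod.smul_snd, Pi.smul_apply, smul_eq_mul, RingHom.id_apply,
          smul_add, mul_smul] }

theorem scn_apply (b : Module.Basis (Fin 3) ℝ E) (w : F2 × ℝ) :
    scn b w = w.1 0 • b 0 + w.1 1 • b 1 + w.2 • b 2 := rfl

theorem repr_scn (b : Module.Basis (Fin 3) ℝ E) (w : F2 × ℝ) :
    b.repr (scn b w) 0 = w.1 0 ∧ b.repr (scn b w) 1 = w.1 1 ∧ b.repr (scn b w) 2 = w.2 := by
  rw [scn_apply]
  refine ⟨?_, ?_, ?_⟩ <;> simp [Finsupp.single_apply]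

theorem scn_prj (b : Module.Basis (Fin 3) ℝ E) (p : E) : scn b (prj b p, b.repr p 2) = p := by
  rw [scn_apply, prj_apply]
  have := b.sum_repr p
  rwa [Fin.sum_univ_three] at this

theorem prj_scn (b : Module.Basis (Fin 3) ℝ E) (w : F2 × ℝ) : prj b (scn b w) = w.1 := by
  obtain ⟨h0, h1, -⟩ := repr_scn b w
  rw [prj_apply, h0, h1]
  ext i; fin_cases i <;> rfl

omit [TopologicalSpace X] [T2Space X] [MulAction Γ X] in
theorem prj_hol (b : Module.Basis (Fin 3) ℝ E) (hB : LiB (M4 hol b)) (γ : Γ) (p : E) :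
    prj b (hol γ p) = hF (aff4 hol b) hB γ (prj b p) := by
  obtain ⟨a1, a2⟩ := hB γ
  rw [hF_apply, prj_apply, prj_apply, coord_hol, coord_hol]
  refine funext fun i => ?_
  rw [Pi.add_apply, mv2]
  fin_cases i
  · show M4 hol b γ 0 0 * b.repr p 0 + M4 hol b γ 0 1 * b.repr p 1 + M4 hol b γ 0 2 * b.repr p 2 +
      M4 hol b γ 0 3 = M4 hol b γ 0 0 * b.repr p 0 + M4 hol b γ 0 1 * b.repr p 1 + M4 hol b γ 0 3
    rw [a1]; ring
  · show M4 hol b γ 1 0 * b.repr p 0 + M4 hol b γ 1 1 * b.repr p 1 + M4 hol b γ 1 2 * b.repr p 2 +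
      M4 hol b γ 1 3 = M4 hol b γ 1 0 * b.repr p 0 + M4 hol b γ 1 1 * b.repr p 1 + M4 hol b γ 1 3
    rw [a2]; ring

variable [SecondCountableTopology X] [ConnectedSpace X]

theorem caseC (D : AffData X Γ E dev hol) (hinj : Function.Injective dev)
    (b : Module.Basis (Fin 3) ℝ E) (hB : LiB (M4 hol b)) (hχ : ∀ γ, M4 hol b γ 2 2 = 1)
    (hNE : NE (BB (aff4 hol b) hB) ⊤) {c : ℝ} (hc0 : c ≠ 0) (hc : c • b 2 ∈ Tv hol) : False := by
  have hdet : ∀ γ, |(BB (aff4 hol b) hB γ).det| = 1 := by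
    intro γ
    have h := det_B D b hB γ
    rw [chB_apply, hχ, mul_one] at h
    exact h
  have hcl2 : ∀ γ, cl hol γ (b 2) = b 2 := by
    intro γ
    apply b.repr.injective
    ext i
    obtain ⟨a1, a2⟩ := hB γ
    rw [coord_cl]
    fin_cases i
    · show M4 hol b γ 0 0 * b.repr (b 2) 0 + M4 hol b γ 0 1 * b.repr (b 2) 1 +
        M4 hol b γ 0 2 * b.repr (b 2) 2 = b.repr (b 2) 0
      rw [a1]; simp
    · show M4 hol b γ 1 0 * b.repr (b 2) 0 + M4 hol b γ 1 1 * b.repr (b 2) 1 +
        M4 hol b γ 1 2 * b.repr (b 2) 2 = b.repr (b 2) 1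
      rw [a2]; simp
    · show M4 hol b γ 2 0 * b.repr (b 2) 0 + M4 hol b γ 2 1 * b.repr (b 2) 1 +
        M4 hol b γ 2 2 * b.repr (b 2) 2 = b.repr (b 2) 2
      rw [hχ]; simp
  -- completeness along the line
  have hline : ∀ p ∈ range dev, ∀ s : ℝ, p + s • b 2 ∈ range dev := by
    obtain ⟨S, hS⟩ : ∃ S : ℕ → Submodule ℝ E, S = fun i => if i = 0 then ⊥ else
      Submodule.span ℝ {b 2} := ⟨_, rfl⟩
    have hS0 : S 0 = ⊥ := by rw [hS]; rfl
    have hS1 : S 1 = Submodule.span ℝ {b 2} := by rw [hS]; rfl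
    have hcc := Pool.Agent.TH569.MK.chain_complete D S 1 (by
      intro x v hv
      rw [hS0, Submodule.mem_bot] at hv
      rw [hv]
      exact ⟨x, Pool.Agent.TH569.MK.ex_zero D.loc x⟩) (by
      intro i hi
      obtain rfl : i = 0 := by omega
      refine ⟨1, fun γ v hv => ⟨0, Submodule.zero_mem _, ?_⟩⟩
      rw [zero_add, hS1] at hv
      obtain ⟨a, rfl⟩ := Submodule.mem_span_singleton.1 hv
      have h1 : lin hol γ (a • b 2) = a • b 2 := by
        show cl hol γ (a • b 2) = _
        rw [map_smul, hcl2]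
      rw [h1, sub_zero, one_mul])
    rintro _ ⟨x, rfl⟩ s
    obtain ⟨y, hy⟩ := hcc x (s • b 2) (by
      rw [hS1]; exact Submodule.smul_mem _ _ (Submodule.mem_span_singleton_self _))
    exact ⟨y, hy.dev_eq⟩
  have hsec : ∀ p q : E, prj b p = prj b q → p = q + (b.repr p 2 - b.repr q 2) • b 2 := by
    intro p q h
    calc p = scn b (prj b p, b.repr p 2) := (scn_prj b p).symm
      _ = scn b (prj b q, b.repr p 2) := by rw [h]
      _ = scn b (prj b q, b.repr q 2) + (b.repr p 2 - b.repr q 2) • b 2 := by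
          rw [scn_apply, scn_apply, sub_smul]; abel
      _ = _ := by rw [scn_prj b q]
  obtain ⟨U, hUdef⟩ : ∃ U : Set F2, U = prj b '' range dev := ⟨_, rfl⟩
  have hU : ∀ p, prj b p ∈ U ↔ p ∈ range dev := by
    intro p
    constructor
    · intro h
      rw [hUdef] at h
      obtain ⟨q, hq, hqp⟩ := h
      rw [hsec p q hqp.symm]
      exact hline q hq _
    · intro h
      rw [hUdef]
      exact mem_image_of_mem _ h
  have hsurj : Function.Surjective (prj b) := fun y => ⟨scn b (y, 0), prj_scn b (y, 0)⟩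
  have hUo : IsOpen U := by
    rw [hUdef]
    exact (prj b).isOpenMap hsurj _ D.loc.isOpenMap.isOpen_range
  set h := hF (aff4 hol b) hB with hh
  have hUinv : ∀ γ, ∀ y ∈ U, h γ y ∈ U := by
    intro γ y hy
    obtain ⟨p, rfl⟩ := hsurj y
    rw [hh, ← prj_hol, hU]
    rw [hU] at hy
    obtain ⟨x, rfl⟩ := hy
    exact ⟨γ • x, D.equi γ x⟩
  have hUinv' : ∀ g : h.range, ∀ y ∈ U, (g : F2 ≃ᵃ[ℝ] F2) y ∈ U := by
    rintro ⟨_, γ, rfl⟩ y hy
    exact hUinv γ y hy
  let act : MulAction h.range U :=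
    { smul := fun g y => ⟨(g : F2 ≃ᵃ[ℝ] F2) y, hUinv' g y y.2⟩
      one_smul := fun y => Subtype.ext rfl
      mul_smul := fun g h y => Subtype.ext rfl }
  have D' : AffData U h.range F2 Subtype.val h.range.subtype := by
    refine ⟨hUo.isOpenEmbedding_subtypeVal.isLocalHomeomorph, ?_, fun g x => rfl, ?_, ?_, ?_⟩
    · intro g
      exact ((AffineEquiv.continuous_of_finiteDimensional (g : F2 ≃ᵃ[ℝ] F2)).comp
        continuous_subtype_val).subtype_mk _
    · rintro ⟨_, γ, rfl⟩
      show |LinearMap.det ((h γ).linear : F2 →ₗ[ℝ] F2)| = 1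
      rw [hh, hF_linear]
      have := hdet γ
      rwa [← LinearMap.det_toLin', Matrix.toLin'_apply'] at this
    · -- proper discontinuity
      intro K hK
      obtain ⟨Kh, hKh⟩ : ∃ Kh : Set E, Kh = scn b '' ((Subtype.val '' K) ×ˢ Icc (-|c|) |c|) :=
        ⟨_, rfl⟩
      have hKc : IsCompact Kh := by
        rw [hKh]
        exact ((hK.image continuous_subtype_val).prod isCompact_Icc).image (scn b).continuous
      have hKr : Kh ⊆ range dev := by
        rw [hKh]
        rintro _ ⟨w, hw, rfl⟩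
        rw [← hU, prj_scn]
        obtain ⟨y, -, hy⟩ := hw.1
        rw [← hy]
        exact y.2
      have hfin := Pool.Agent.TH94.MK.range_pd D hinj Kh hKc hKr
      refine (hfin.image fun γ => (⟨h γ, γ, rfl⟩ : h.range)).subset ?_
      rintro ⟨_, γ, rfl⟩ ⟨y, hy, hgy⟩
      obtain ⟨p, hp⟩ : ∃ p, p = scn b ((y : F2), 0) := ⟨_, rfl⟩
      have hpK : p ∈ Kh := by
        rw [hp, hKh]
        refine mem_image_of_mem _ ⟨mem_image_of_mem _ hy, ?_, ?_⟩
        · simp
        · exact abs_nonneg c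
      have hpy : prj b p = y := by rw [hp, prj_scn]
      obtain ⟨r, hr⟩ : ∃ r, r = b.repr (hol γ p) 2 := ⟨_, rfl⟩
      obtain ⟨δ, hδ⟩ := (Tv hol).zsmul_mem hc (-⌊r / c⌋)
      have hδ' : ∀ p, hol δ p = p + (-(⌊r / c⌋ : ℝ) * c) • b 2 := by
        intro p
        rw [hδ, mul_smul]
        congr 1
        rw [← Int.cast_neg, Int.cast_smul_eq_zsmul]
      have hprj2 : prj b (b 2) = 0 := by
        rw [prj_apply]
        ext i; fin_cases i <;> simp
      have hprδ : ∀ p, prj b (hol δ p) = prj b p := by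
        intro p
        rw [hδ', map_add, map_smul, hprj2, smul_zero, add_zero]
      have hhδ : h δ = 1 := by
        refine AffineEquiv.ext fun y => ?_
        obtain ⟨p, rfl⟩ := hsurj y
        rw [hh, ← prj_hol, hprδ]
        rfl
      refine ⟨δ * γ, ⟨p, hpK, ?_⟩, ?_⟩
      · rw [map_mul]
        show hol δ (hol γ p) ∈ Kh
        rw [← scn_prj b (hol δ (hol γ p)), hKh]
        refine mem_image_of_mem _ ⟨?_, ?_⟩
        · show prj b (hol δ (hol γ p)) ∈ _
          rw [hprδ, prj_hol b hB, hpy]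
          exact ⟨_, hgy, rfl⟩
        · show b.repr (hol δ (hol γ p)) 2 ∈ Icc (-|c|) |c|
          rw [hδ']
          have e1 : b.repr (hol γ p + (-(⌊r / c⌋ : ℝ) * c) • b 2) 2 = c * Int.fract (r / c) := by
            rw [map_add, map_smul, Finsupp.add_apply, Finsupp.smul_apply, ← hr]
            simp only [Module.Basis.repr_self, Finsupp.single_eq_same, smul_eq_mul, mul_one]
            rw [Int.fract]
            field_simp
            ring
          rw [e1, mem_Icc, ← abs_le, abs_mul]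
          have e2 := Int.fract_nonneg (r / c)
          have e3 := (Int.fract_lt_one (r / c)).le
          rw [abs_of_nonneg e2]
          exact mul_le_of_le_one_right (abs_nonneg c) e3
      · apply Subtype.ext
        show h (δ * γ) = h γ
        rw [map_mul, hhδ, one_mul]
    · -- cocompactness
      obtain ⟨K, hK, hKc⟩ := D.cc
      obtain ⟨f, hf⟩ : ∃ f : X → U, f = fun x => ⟨prj b (dev x), (hU _).2 ⟨x, rfl⟩⟩ := ⟨_, rfl⟩
      have hfc : Continuous f := by
        rw [hf]
        exact ((prj b).continuous.comp D.loc.continuous).subtype_mk _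
      refine ⟨f '' K, hK.image hfc, fun z => ?_⟩
      obtain ⟨p, hp⟩ := hsurj z
      have hz := z.2
      rw [← hp, hU] at hz
      obtain ⟨x, rfl⟩ := hz
      obtain ⟨γ, k, hk, rfl⟩ := hKc x
      refine ⟨⟨h γ, γ, rfl⟩, f k, mem_image_of_mem _ hk, ?_⟩
      apply Subtype.ext
      show h γ (f k) = z
      rw [← hp, D.equi, prj_hol b hB, hf]
  have hcompl : IsHomeomorph (Subtype.val : U → F2) := by
    have : ConnectedSpace U := by
      have : IsConnected U := by
        rw [hUdef]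
        exact (isConnected_range (D.loc.continuous)).image _ (prj b).continuous.continuousOn
      exact isConnected_iff_connectedSpace.1 this
    refine Pool.Agent.R774.MK.complete (K := ℝ) D' Subtype.val_injective
      (fun g => ⟨RingEquiv.refl ℝ, fun a v => ?_⟩) (δ := 1 / 2) (by norm_num) fun g => ?_
    · exact LinearEquiv.map_smul _ _ _
    · exact Pool.Agent.R774.MK.two_dim (K := ℝ) (σ := RingEquiv.refl ℝ) (by simp)
        (fun a v => LinearEquiv.map_smul _ _ _) (D'.unimod g)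
  have hUtop : ∀ y, y ∈ U := by
    intro y
    obtain ⟨z, hz⟩ := hcompl.surjective y
    rw [← hz]
    exact z.2
  obtain ⟨g, hg1, hg2⟩ := hyp_exists hNE hdet
  set B := BB (aff4 hol b) hB with hBdef
  -- fixed point
  have hfix : ∃ y, h g y = y := by
    have hd : (1 - B g).det ≠ 0 := by
      have e1 : (1 - B g).det = 2 - (B g).trace := by
        have e2 : (1 - B g).det = 1 - (B g).trace + (B g).det := by
          rw [Matrix.det_fin_two, Matrix.det_fin_two, Matrix.trace_fin_two]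
          simp [Matrix.sub_apply]
          ring
        rw [e2, hg1]; ring
      rw [e1]
      intro h0
      have : (B g).trace = 2 := by linarith
      rw [this] at hg2
      norm_num at hg2
    refine ⟨(1 - B g)⁻¹.mulVec ![M4 hol b g 0 3, M4 hol b g 1 3], ?_⟩
    set v : F2 := ![M4 hol b g 0 3, M4 hol b g 1 3] with hv
    have e3 : (1 - B g).mulVec ((1 - B g)⁻¹.mulVec v) = v := by
      rw [Matrix.mulVec_mulVec, Matrix.mul_nonsing_inv _ (isUnit_iff_ne_zero.2 hd), Matrix.one_mulVec]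
    rw [Matrix.sub_mulVec, Matrix.one_mulVec] at e3
    rw [hh, hF_apply, ← hv, ← hBdef]
    rw [sub_eq_iff_eq_add] at e3
    rw [add_comm]
    exact e3.symm
  obtain ⟨y, hy⟩ := hfix
  have hfin := D'.pd {⟨y, hUtop y⟩} isCompact_singleton
  obtain ⟨g', hg'⟩ : ∃ g' : h.range, g' = ⟨h g, g, rfl⟩ := ⟨_, rfl⟩
  have hpow : ∀ k : ℕ, ((g' ^ k : h.range) : F2 ≃ᵃ[ℝ] F2) = h (g ^ k) := by
    intro k
    rw [hg', map_pow]
    rfl
  have hmem : ∀ k : ℕ, g' ^ k ∈ {γ : h.range | ∃ x ∈ ({⟨y, hUtop y⟩} : Set U), γ • x ∈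
      ({⟨y, hUtop y⟩} : Set U)} := by
    intro k
    refine ⟨_, rfl, ?_⟩
    rw [mem_singleton_iff]
    apply Subtype.ext
    show ((g' ^ k : h.range) : F2 ≃ᵃ[ℝ] F2) y = y
    rw [hpow]
    induction k with
    | zero => rw [pow_zero, map_one]; rfl
    | succ k ih =>
      rw [pow_succ, map_mul]
      show h (g ^ k) (h g y) = y
      rw [hy, ih]
  have hinjp : Function.Injective fun k : ℕ => g' ^ k := by
    rw [injective_pow_iff_not_isOfFinOrder, isOfFinOrder_iff_pow_eq_one]
    rintro ⟨n, hn, hgn⟩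
    refine pow_ne_one_of_abs_trace hg1 hg2 n hn ?_
    have e1 : h (g ^ n) = 1 := by rw [← hpow, hgn]; rfl
    have e2 : ∀ z : F2, (B (g ^ n)).mulVec z = z := by
      intro z
      have e3 : ∀ z : F2, (B (g ^ n)).mulVec z + ![M4 hol b (g ^ n) 0 3, M4 hol b (g ^ n) 1 3] = z := by
        intro z
        have := congrArg (fun f : F2 ≃ᵃ[ℝ] F2 => f z) e1
        exact this
      have e4 := e3 0
      rw [Matrix.mulVec_zero, zero_add] at e4
      have e5 := e3 z
      rwa [e4, add_zero] at e5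
    rw [← map_pow]
    refine Matrix.toLin'.injective ?_
    refine LinearMap.ext fun z => ?_
    rw [Matrix.toLin'_apply, e2, Matrix.toLin'_one, LinearMap.id_apply]
  exact Set.infinite_of_injective_forall_mem hinjp hmem hfin

end

end Pool.Agent.P8H83
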