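import Pool.Agent.P8H83.Dim
import Pool.Agent.P8H83.Irr

/-!
Groups of linear maps preserving a properly convex cone act properly on it.
-/

set_option autoImplicit false

open Set Filter Topology Metric
open Pool.Agent.W689.Mk

namespace Pool.Agent.P8H83

section
variable {V : Type} [NormedAddCommGroup V] [NormedSpace ℝ V] [FiniteDimensional ℝ V]

/-- an open convex set containing no line: the symmetric segments around a compact set are bounded -/
theorem line_bound {C : Set V} (hCo : IsOpen C) (hCc : Convex ℝ C)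
    (hline : ∀ c v : V, (∀ t : ℝ, c + t • v ∈ C) → v = 0) {K : Set V} (hK : IsCompact K)
    (hKC : K ⊆ C) : ∃ M > 0, ∀ c ∈ K, ∀ w, c + w ∈ C → c - w ∈ C → ‖w‖ ≤ M := by
  by_contra hcon
  push Not at hcon
  choose c hc w hw1 hw2 hw3 using fun k : ℕ => hcon ((k : ℝ) + 1) (by positivity)
  have hwpos : ∀ k, 0 < ‖w k‖ := fun k => lt_trans (by positivity) (hw3 k)
  have hmem : ∀ k, (c k, ‖w k‖⁻¹ • w k) ∈ K ×ˢ sphere (0 : V) 1 := by
    intro k
    refine ⟨hc k, ?_⟩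
    rw [mem_sphere_zero_iff_norm, norm_smul, norm_inv, norm_norm, inv_mul_cancel₀ (hwpos k).ne']
  obtain ⟨⟨a, u⟩, ⟨ha, hu⟩, ψ, hψ, hlim⟩ := (hK.prod (isCompact_sphere (0 : V) 1)).tendsto_subseq hmem
  have hl1 : Tendsto (fun k => c (ψ k)) atTop (𝓝 a) := (continuous_fst.tendsto _).comp hlim
  have hl2 : Tendsto (fun k => ‖w (ψ k)‖⁻¹ • w (ψ k)) atTop (𝓝 u) :=
    (continuous_snd.tendsto _).comp hlim
  have hcl : ∀ s : ℝ, a + s • u ∈ closure C := by
    intro s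
    refine mem_closure_of_tendsto (hl1.add (hl2.const_smul s)) ?_
    obtain ⟨N, hN⟩ := exists_nat_gt |s|
    filter_upwards [eventually_ge_atTop N] with k hk
    have h1 : |s| ≤ ‖w (ψ k)‖ := by
      have h2 := hw3 (ψ k)
      have h3 : (N : ℝ) ≤ ψ k := by exact_mod_cast hk.trans (hψ.id_le k)
      linarith
    set l := s * ‖w (ψ k)‖⁻¹ with hl
    have h2 : |l| ≤ 1 := by
      rw [hl, abs_mul, abs_inv, abs_norm, ← div_eq_mul_inv, div_le_one (hwpos _)]
      exact h1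
    rw [abs_le] at h2
    have e1 : c (ψ k) + s • ‖w (ψ k)‖⁻¹ • w (ψ k) =
        ((1 + l) / 2) • (c (ψ k) + w (ψ k)) + ((1 - l) / 2) • (c (ψ k) - w (ψ k)) := by
      rw [smul_smul, ← hl]
      module
    rw [e1]
    exact hCc (hw1 _) (hw2 _) (by linarith [h2.1]) (by linarith [h2.2]) (by ring)
  have haC : a ∈ interior C := by rw [hCo.interior_eq]; exact hKC ha
  have hu0 : u = 0 := by
    refine hline a u fun s => ?_
    have h1 := hCc.combo_interior_closure_mem_interior haC (hcl (2 * s)) (a := 1 / 2) (b := 1 / 2)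
      (by norm_num) (by norm_num) (by norm_num)
    rw [hCo.interior_eq] at h1
    convert h1 using 1
    module
  rw [hu0, mem_sphere_zero_iff_norm, norm_zero] at hu
  exact zero_ne_one hu

/-- maps preserving the cone and moving a compact set to itself somewhere are bounded -/
theorem cone_bound {C : Set V} (hCo : IsOpen C) (hCc : Convex ℝ C)
    (hline : ∀ c v : V, (∀ t : ℝ, c + t • v ∈ C) → v = 0) {K : Set V} (hK : IsCompact K)
    (hKC : K ⊆ C) : ∃ M : ℝ, ∀ g : V →L[ℝ] V, (∀ c ∈ C, g c ∈ C) → (∃ c ∈ K, g c ∈ K) → ‖g‖ ≤ M := by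
  obtain ⟨M, hM, H⟩ := line_bound hCo hCc hline hK hKC
  obtain ⟨r, hr, hrC⟩ := hK.exists_cthickening_subset_open hCo hKC
  refine ⟨M / r, fun g hg ⟨c, hc, hgc⟩ => ?_⟩
  refine ContinuousLinearMap.opNorm_le_bound _ (by positivity) fun v => ?_
  by_cases hv : v = 0
  · rw [hv, map_zero, norm_zero, mul_zero]
  have hv0 : 0 < ‖v‖ := norm_pos_iff.2 hv
  have hn : ‖(r / ‖v‖) • v‖ ≤ r := by
    rw [norm_smul, norm_div, norm_norm, Real.norm_eq_abs, abs_of_pos hr, div_mul_cancel₀ _ hv0.ne']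
  have hmem : ∀ w : V, ‖w‖ ≤ r → c + w ∈ C := by
    intro w hw
    apply hrC
    refine mem_cthickening_of_dist_le _ c _ _ hc ?_
    rw [dist_eq_norm, add_sub_cancel_left]
    exact hw
  have h1 := H (g c) hgc (g ((r / ‖v‖) • v)) (by rw [← map_add]; exact hg _ (hmem _ hn))
    (by
      rw [← map_sub, sub_eq_add_neg]
      exact hg _ (hmem _ (by rw [norm_neg]; exact hn)))
  rw [map_smul, norm_smul, norm_div, norm_norm, Real.norm_eq_abs, abs_of_pos hr] at h1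
  rw [div_mul_eq_mul_div, div_le_iff₀ hv0] at h1
  rw [div_mul_eq_mul_div, le_div_iff₀ hr]
  linarith

/-- the projective version for unimodular maps -/
theorem cone_bound_proj [Nontrivial V] {C : Set V} (hCo : IsOpen C) (hCc : Convex ℝ C)
    (hCs : ∀ t : ℝ, 0 < t → ∀ c ∈ C, t • c ∈ C)
    (hline : ∀ c v : V, (∀ t : ℝ, c + t • v ∈ C) → v = 0) {K : Set V} (hK : IsCompact K)
    (hKC : K ⊆ C) : ∃ R : ℝ, ∀ g h : V →L[ℝ] V, g * h = 1 → h * g = 1 →
      |LinearMap.det (g : V →ₗ[ℝ] V)| = 1 → (∀ c ∈ C, g c ∈ C) → (∀ c ∈ C, h c ∈ C) →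
      (∃ c ∈ K, ∃ t : ℝ, 0 < t ∧ t • g c ∈ K) → ‖g‖ ≤ R ∧ ‖h‖ ≤ R := by
  obtain ⟨M, HM⟩ := cone_bound hCo hCc hline hK hKC
  have hdc : Continuous fun g : V →L[ℝ] V => LinearMap.det (g : V →ₗ[ℝ] V) :=
    ContinuousLinearMap.continuous_det
  obtain ⟨B, hB⟩ := (isCompact_closedBall (0 : V →L[ℝ] V) M).exists_bound_of_continuousOn
    hdc.continuousOn
  have hn : Module.finrank ℝ V ≠ 0 := Module.finrank_pos.ne'
  have hdet : ∀ (s : ℝ) (g : V →L[ℝ] V), 0 < s → |LinearMap.det (g : V →ₗ[ℝ] V)| = 1 →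
      ‖s • g‖ ≤ M → s ≤ max 1 B := by
    intro s g hs hg hsg
    have h1 := hB (s • g) (by rwa [mem_closedBall, dist_zero_right])
    have h2 : LinearMap.det ((s • g : V →L[ℝ] V) : V →ₗ[ℝ] V) =
        s ^ Module.finrank ℝ V * LinearMap.det (g : V →ₗ[ℝ] V) := LinearMap.det_smul s _
    rw [h2, Real.norm_eq_abs, abs_mul, hg, mul_one, abs_pow, abs_of_pos hs] at h1
    rcases le_or_gt s 1 with h3 | h3
    · exact h3.trans (le_max_left _ _)
    · exact (le_self_pow₀ h3.le hn).trans (h1.trans (le_max_right _ _))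
  refine ⟨max 1 B * |M|, fun g h hgh hhg hdg hgC hhC ⟨c, hc, t, ht, htc⟩ => ?_⟩
  have hdh : |LinearMap.det (h : V →ₗ[ℝ] V)| = 1 := by
    have h1 : LinearMap.det ((g * h : V →L[ℝ] V) : V →ₗ[ℝ] V) = 1 := by
      rw [hgh]; exact LinearMap.det_id
    have h2 : LinearMap.det ((g * h : V →L[ℝ] V) : V →ₗ[ℝ] V) =
        LinearMap.det (g : V →ₗ[ℝ] V) * LinearMap.det (h : V →ₗ[ℝ] V) := LinearMap.det_comp _ _
    rw [h2] at h1
    have h3 := congrArg abs h1
    rwa [abs_mul, hdg, one_mul, abs_one] at h3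
  have h1 : ‖t • g‖ ≤ M := HM (t • g) (fun c hc => hCs t ht _ (hgC c hc)) ⟨c, hc, htc⟩
  have h2 : ‖t⁻¹ • h‖ ≤ M := by
    refine HM (t⁻¹ • h) (fun c hc => hCs _ (inv_pos.2 ht) _ (hhC c hc)) ⟨t • g c, htc, ?_⟩
    have h3 : (t⁻¹ • h) (t • g c) = c := by
      show t⁻¹ • h (t • g c) = c
      rw [map_smul, smul_smul, inv_mul_cancel₀ ht.ne', one_smul]
      exact congrArg (fun f : V →L[ℝ] V => f c) hhg
    rw [h3]
    exact hc
  have hM0 : 0 ≤ M := (norm_nonneg _).trans h1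
  have h3 := hdet t g ht hdg h1
  have h4 := hdet t⁻¹ h (inv_pos.2 ht) hdh h2
  rw [norm_smul, Real.norm_eq_abs, abs_of_pos ht] at h1
  rw [norm_smul, Real.norm_eq_abs, abs_of_pos (inv_pos.2 ht)] at h2
  rw [abs_of_nonneg hM0]
  constructor
  · calc ‖g‖ = t⁻¹ * (t * ‖g‖) := by field_simp
      _ ≤ max 1 B * M := mul_le_mul h4 h1 (by positivity) (by positivity)
  · calc ‖h‖ = t * (t⁻¹ * ‖h‖) := by field_simp
      _ ≤ max 1 B * M := mul_le_mul h3 h2 (by positivity) (by positivity)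

end

section
variable {X Γ E V : Type} [NormedAddCommGroup E] [NormedSpace ℝ E] [FiniteDimensional ℝ E]
    [TopologicalSpace X] [T2Space X] [SecondCountableTopology X] [Nonempty X] [Group Γ]
    [MulAction Γ X] {dev : X → E} {hol : Γ →* (E ≃ᵃ[ℝ] E)} [NormedAddCommGroup V]
    [NormedSpace ℝ V] [FiniteDimensional ℝ V] [Nontrivial V]

/-- no discrete representation of small dimension preserving a properly convex cone -/
theorem no_cone_rep (D : AffData X Γ E dev hol)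
    (hV : Module.finrank ℝ V ≤ Module.finrank ℝ E) (σ : Γ →* (V →L[ℝ] V))
    (hdet : ∀ γ, |LinearMap.det (σ γ : V →ₗ[ℝ] V)| = 1) (hiso : Iso σ)
    (hker : {γ : Γ | σ γ = 1}.Finite) {C : Set V}
    (hCo : IsOpen C) (hCc : Convex ℝ C) (hCn : C.Nonempty)
    (hCs : ∀ t : ℝ, 0 < t → ∀ c ∈ C, t • c ∈ C)
    (hline : ∀ c v : V, (∀ t : ℝ, c + t • v ∈ C) → v = 0)
    (hinv : ∀ γ, ∀ c ∈ C, σ γ c ∈ C) : False := by
  have hC0 : (0 : V) ∉ C := by
    intro h0
    obtain ⟨v, hv⟩ := exists_ne (0 : V)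
    apply hv
    refine hline 0 v fun t => ?_
    rw [zero_add]
    -- an open cone containing zero is everything
    obtain ⟨r, hr, hrC⟩ := Metric.mem_nhds_iff.1 (hCo.mem_nhds h0)
    have hpos : 0 < ‖t • v‖ + 1 := by positivity
    have h1 : (r / (‖t • v‖ + 1)) • (t • v) ∈ C := by
      apply hrC
      rw [mem_ball, dist_zero_right, norm_smul, norm_div, Real.norm_eq_abs, Real.norm_eq_abs,
        abs_of_pos hr, abs_of_pos hpos, div_mul_eq_mul_div, div_lt_iff₀ hpos]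
      nlinarith
    have h2 := hCs ((‖t • v‖ + 1) / r) (by positivity) _ h1
    rw [smul_smul, div_mul_div_cancel₀ hr.ne', div_self hpos.ne', one_smul] at h2
    exact h2
  refine dim_principle D hV σ hCo hCc hCn hCs hC0 hinv fun K hKC hK => ?_
  obtain ⟨R, HR⟩ := cone_bound_proj hCo hCc hCs hline hK hKC
  have hfin := finite_bdd σ hiso R
  have hsub : {γ : Γ | ∃ c ∈ K, ∃ t : ℝ, 0 < t ∧ t • σ γ c ∈ K} ⊆
      σ ⁻¹' {x | ∃ g, σ g = x ∧ ‖σ g‖ ≤ R ∧ ‖σ g⁻¹‖ ≤ R} := by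
    intro γ hγ
    have h1 := HR (σ γ) (σ γ⁻¹) (map_mul_inv σ γ) (map_inv_mul σ γ) (hdet γ) (hinv γ) (hinv γ⁻¹) hγ
    exact ⟨γ, rfl, h1⟩
  refine (hfin.preimage' fun b _ => ?_).subset hsub
  by_cases h : ∃ γ₀, σ γ₀ = b
  · obtain ⟨γ₀, hγ₀⟩ := h
    refine (hker.image fun γ => γ₀ * γ).subset ?_
    intro γ hγ
    have h1 : σ γ = b := hγ
    refine ⟨γ₀⁻¹ * γ, ?_, by group⟩
    show σ (γ₀⁻¹ * γ) = 1
    rw [map_mul, h1, ← hγ₀, map_inv_mul]
  · convert Set.finite_empty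
    ext γ
    simp only [mem_preimage, mem_singleton_iff, mem_empty_iff_false, iff_false]
    exact fun hγ => h ⟨γ, hγ⟩

end

end Pool.Agent.P8H83
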