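import Mathlib

/-!
Two by two matrices.
-/

set_option autoImplicit false

open Set Filter Topology

namespace Pool.Agent.P8H83

abbrev M2 := Matrix (Fin 2) (Fin 2) ℝ

theorem M2.eq (A : M2) : A = !![A 0 0, A 0 1; A 1 0, A 1 1] := Matrix.eta_fin_two A

theorem M2.ext' {A B : M2} (h0 : A 0 0 = B 0 0) (h1 : A 0 1 = B 0 1) (h2 : A 1 0 = B 1 0)
    (h3 : A 1 1 = B 1 1) : A = B := by
  rw [M2.eq A, M2.eq B, h0, h1, h2, h3]

/-- the trace free part -/
noncomputable def tf (A : M2) : M2 := !![(A 0 0 - A 1 1) / 2, A 0 1; A 1 0, (A 1 1 - A 0 0) / 2]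

/-- minus the determinant of the trace free part -/
noncomputable def dsc (A : M2) : ℝ := ((A 0 0 - A 1 1) / 2) ^ 2 + A 0 1 * A 1 0

theorem tf_trace (A : M2) : (tf A).trace = 0 := by
  simp [tf, Matrix.trace_fin_two]; ring

theorem tf_cont : Continuous tf := by
  unfold tf
  refine continuous_matrix fun i j => ?_
  fin_cases i <;> fin_cases j <;> simp <;> fun_prop

/-- matrices commuting with a matrix which is not scalar -/
theorem comm_tf {A X : M2} (hA : tf A ≠ 0) (h : X * A = A * X) : ∃ β : ℝ, tf X = β • tf A := by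
  rw [M2.eq A, M2.eq X] at h
  simp only [Matrix.mul_fin_two] at h
  have e00 := congrFun (congrFun h 0) 0
  have e01 := congrFun (congrFun h 0) 1
  have e10 := congrFun (congrFun h 1) 0
  simp at e00 e01 e10
  set a := A 0 0
  set b := A 0 1
  set c := A 1 0
  set d := A 1 1
  set x := X 0 0
  set y := X 0 1
  set z := X 1 0
  set w := X 1 1
  -- y c = b z, (x-w) b = y (a-d), z (a - d) = c (x - w)
  have h1 : y * c = b * z := by linarith
  have h2 : (x - w) * b = y * (a - d) := by linarith
  have h3 : z * (a - d) = c * (x - w) := by linarith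
  by_cases hb : b = 0
  · by_cases hc : c = 0
    · by_cases had : a - d = 0
      · exfalso
        apply hA
        refine M2.ext' ?_ ?_ ?_ ?_
        · show (a - d) / 2 = 0; rw [had, zero_div]
        · exact hb
        · exact hc
        · show (d - a) / 2 = 0; rw [← neg_sub, had, neg_zero, zero_div]
      · refine ⟨(x - w) / (a - d), M2.ext' ?_ ?_ ?_ ?_⟩
        · show (x - w) / 2 = (x - w) / (a - d) * ((a - d) / 2); field_simp
        · show y = (x - w) / (a - d) * b
          rw [hb, mul_zero] at h2 ⊢
          rcases mul_eq_zero.1 h2.symm with h | h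
          · exact h
          · exact absurd h had
        · show z = (x - w) / (a - d) * c
          rw [hc, zero_mul] at h3
          rw [hc, mul_zero]
          rcases mul_eq_zero.1 h3 with h | h
          · exact h
          · exact absurd h had
        · show (w - x) / 2 = (x - w) / (a - d) * ((d - a) / 2); field_simp; ring
    · refine ⟨z / c, M2.ext' ?_ ?_ ?_ ?_⟩
      · show (x - w) / 2 = z / c * ((a - d) / 2)
        field_simp; linarith
      · show y = z / c * b
        field_simp; linarith
      · show z = z / c * c; field_simp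
      · show (w - x) / 2 = z / c * ((d - a) / 2)
        field_simp; linarith
  · refine ⟨y / b, M2.ext' ?_ ?_ ?_ ?_⟩
    · show (x - w) / 2 = y / b * ((a - d) / 2)
      field_simp; linarith
    · show y = y / b * b; field_simp
    · show z = y / b * c
      field_simp; linarith
    · show (w - x) / 2 = y / b * ((d - a) / 2)
      field_simp; linarith

theorem tf_mul_self (A : M2) : tf A * tf A = dsc A • (1 : M2) := by
  refine M2.ext' ?_ ?_ ?_ ?_ <;>
  simp [tf, dsc, Matrix.mul_apply, Fin.sum_univ_two] <;> ring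

theorem tf_eq_zero_iff (A : M2) : tf A = 0 ↔ A = (A.trace / 2) • (1 : M2) := by
  constructor
  · intro h
    have h0 := congrFun (congrFun h 0) 0
    have h1 := congrFun (congrFun h 0) 1
    have h2 := congrFun (congrFun h 1) 0
    simp [tf] at h0 h1 h2
    refine M2.ext' ?_ ?_ ?_ ?_ <;> simp [Matrix.trace_fin_two] <;> linarith
  · intro h
    have h0 := congrFun (congrFun h 0) 0
    have h1 := congrFun (congrFun h 0) 1
    have h2 := congrFun (congrFun h 1) 0
    have h3 := congrFun (congrFun h 1) 1
    simp [Matrix.trace_fin_two] at h0 h1 h2 h3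
    refine M2.ext' ?_ ?_ ?_ ?_ <;> simp [tf] <;> linarith

/-- commuting with `A` is commuting with the trace free part -/
theorem comm_tf_iff (A X : M2) : X * A = A * X ↔ X * tf A = tf A * X := by
  have h : A = (A.trace / 2) • (1 : M2) + tf A := by
    refine M2.ext' ?_ ?_ ?_ ?_ <;> simp [tf, Matrix.trace_fin_two] <;> ring
  constructor
  · intro h1
    rw [h, mul_add, add_mul, mul_smul_comm, smul_mul_assoc, mul_one, one_mul] at h1
    exact add_left_cancel h1
  · intro h1
    rw [h, mul_add, add_mul, mul_smul_comm, smul_mul_assoc, mul_one, one_mul, h1]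

theorem dsc_eq (A : M2) : dsc A = (A.trace / 2) ^ 2 - A.det := by
  simp [dsc, Matrix.trace_fin_two, Matrix.det_fin_two]; ring

/-- one step of the descent -/
theorem descent {A X X' Y : M2} (hXY : X * Y = 1) (hYX : Y * X = 1) (hX' : X' = X * A * Y)
    (hD : dsc A ≠ 0) (hcomm : X' * A = A * X') :
    X * tf A = tf A * X ∨ X * tf A = -(tf A * X) := by
  have hA : tf A ≠ 0 := by
    intro h
    have := tf_mul_self A
    rw [h, mul_zero] at this
    have h2 := congrFun (congrFun this 0) 0
    simp at h2
    exact hD h2.symm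
  obtain ⟨β, hβ⟩ := comm_tf hA hcomm
  have htf : tf X' = X * tf A * Y := by
    have h1 : A = (A.trace / 2) • (1 : M2) + tf A := by
      refine M2.ext' ?_ ?_ ?_ ?_ <;> simp [tf, Matrix.trace_fin_two] <;> ring
    have h2 : X' = (A.trace / 2) • (1 : M2) + X * tf A * Y := by
      rw [hX']
      conv_lhs => rw [h1]
      rw [mul_add, add_mul, mul_smul_comm, smul_mul_assoc, mul_one, hXY]
    have h3 : X'.trace = A.trace := by
      rw [hX', Matrix.trace_mul_comm, ← mul_assoc, hYX, one_mul]
    have h4 : X' = (X'.trace / 2) • (1 : M2) + tf X' := by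
      refine M2.ext' ?_ ?_ ?_ ?_ <;> simp [tf, Matrix.trace_fin_two] <;> ring
    rw [h3] at h4
    rw [h4] at h2
    exact add_left_cancel h2
  have hsq : dsc X' = dsc A := by
    rw [dsc_eq, dsc_eq]
    have h3 : X'.trace = A.trace := by
      rw [hX', Matrix.trace_mul_comm, ← mul_assoc, hYX, one_mul]
    have h4 : X'.det = A.det := by
      rw [hX', Matrix.det_mul, Matrix.det_mul]
      have : X.det * Y.det = 1 := by rw [← Matrix.det_mul, hXY, Matrix.det_one]
      calc X.det * A.det * Y.det = A.det * (X.det * Y.det) := by ring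
        _ = A.det := by rw [this, mul_one]
    rw [h3, h4]
  have hβ2 : β ^ 2 = 1 := by
    have h1 := tf_mul_self X'
    rw [hβ, smul_mul_smul_comm, tf_mul_self, smul_smul, hsq] at h1
    have h2 := congrFun (congrFun h1 0) 0
    simp at h2
    have h3 : (β * β - 1) * dsc A = 0 := by linarith
    rcases mul_eq_zero.1 h3 with h | h
    · nlinarith
    · exact absurd h hD
  have hfin : X * tf A = β • (tf A * X) := by
    calc X * tf A = X * tf A * (Y * X) := by rw [hYX, mul_one]
      _ = tf X' * X := by rw [htf]; noncomm_ring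
      _ = _ := by rw [hβ, smul_mul_assoc]
  rcases mul_self_eq_one_iff.1 (by rw [← pow_two]; exact hβ2 : β * β = 1) with h | h
  · left; rw [hfin, h, one_smul]
  · right; rw [hfin, h, neg_smul, one_smul]

theorem anticomm_trace {A X : M2} (hD : dsc A ≠ 0) (h : X * tf A = -(tf A * X)) : X.trace = 0 := by
  have h1 : (X * tf A * tf A).trace = dsc A * X.trace := by
    rw [mul_assoc, tf_mul_self, mul_smul_comm, mul_one, Matrix.trace_smul, smul_eq_mul]
  have h2 : (X * tf A * tf A).trace = -(dsc A * X.trace) := by
    rw [h, neg_mul, Matrix.trace_neg, Matrix.trace_mul_comm, ← mul_assoc, tf_mul_self,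
      smul_mul_assoc, one_mul, Matrix.trace_smul, smul_eq_mul]
  have h3 : dsc A * X.trace = 0 := by linarith
  exact (mul_eq_zero.1 h3).resolve_left hD

/-- nilpotent trace free matrices with zero pairing are parallel -/
theorem parallel_nil {a b c a' b' c' : ℝ} (h1 : a ^ 2 + b * c = 0) (h2 : a' ^ 2 + b' * c' = 0)
    (h3 : 2 * (a * a') + b * c' + c * b' = 0) (hne : ¬(a = 0 ∧ b = 0 ∧ c = 0)) :
    ∃ t : ℝ, a' = t * a ∧ b' = t * b ∧ c' = t * c := by
  have m1 : (b * c' - c * b') ^ 2 = 0 := by
    have e1 : (b * c' - c * b') ^ 2 = (b * c' + c * b') ^ 2 - 4 * (b * c) * (b' * c') := by ring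
    have e2 : b * c' + c * b' = -(2 * (a * a')) := by linarith
    have e3 : b * c = -a ^ 2 := by linarith
    have e4 : b' * c' = -a' ^ 2 := by linarith
    rw [e1, e2, e3, e4]; ring
  have m1' : b * c' = c * b' := by
    have := pow_eq_zero_iff (two_ne_zero) |>.1 m1
    linarith
  have m2 : a * a' = -(b * c') := by linarith
  have m3 : (a * b' - a' * b) ^ 2 = 0 := by
    have e1 : (a * b' - a' * b) ^ 2 = a ^ 2 * b' ^ 2 - 2 * (a * a') * (b * b') + a' ^ 2 * b ^ 2 := by
      ring
    have e3 : a ^ 2 = -(b * c) := by linarith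
    have e4 : a' ^ 2 = -(b' * c') := by linarith
    rw [e1, e3, e4, m2]
    have : -(b * c) * b' ^ 2 - 2 * -(b * c') * (b * b') + -(b' * c') * b ^ 2 =
      b * b' * (b * c' - c * b') := by ring
    rw [this, m1', sub_self, mul_zero]
  have m3' : a * b' = a' * b := by
    have := pow_eq_zero_iff (two_ne_zero) |>.1 m3
    linarith
  have m4 : (a * c' - a' * c) ^ 2 = 0 := by
    have e1 : (a * c' - a' * c) ^ 2 = a ^ 2 * c' ^ 2 - 2 * (a * a') * (c * c') + a' ^ 2 * c ^ 2 := by
      ring
    have e3 : a ^ 2 = -(b * c) := by linarith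
    have e4 : a' ^ 2 = -(b' * c') := by linarith
    rw [e1, e3, e4, m2]
    have : -(b * c) * c' ^ 2 - 2 * -(b * c') * (c * c') + -(b' * c') * c ^ 2 =
      c * c' * (b * c' - c * b') := by ring
    rw [this, m1', sub_self, mul_zero]
  have m4' : a * c' = a' * c := by
    have := pow_eq_zero_iff (two_ne_zero) |>.1 m4
    linarith
  by_cases hb : b = 0
  · have ha : a = 0 := by
      rw [hb, zero_mul, add_zero] at h1
      exact pow_eq_zero_iff (two_ne_zero) |>.1 h1
    have hc : c ≠ 0 := fun h => hne ⟨ha, hb, h⟩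
    refine ⟨c' / c, ?_, ?_, ?_⟩
    · rw [ha, zero_mul] at m4'
      rw [ha, mul_zero]
      rcases mul_eq_zero.1 m4'.symm with h | h
      · exact h
      · exact absurd h hc
    · rw [hb, zero_mul] at m1'
      rw [hb, mul_zero]
      rcases mul_eq_zero.1 m1'.symm with h | h
      · exact absurd h hc
      · exact h
    · field_simp
  · refine ⟨b' / b, ?_, ?_, ?_⟩
    · field_simp; linarith
    · field_simp
    · field_simp; linarith

end Pool.Agent.P8H83
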