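import Pool.Agent.P8H83.Ring
import Pool.Agent.P8H83.Mt2

/-!
Groups of two by two matrices: discreteness from the iteration of Jørgensen.
-/

set_option autoImplicit false

open Set Filter Topology

namespace Pool.Agent.P8H83

section
variable {G : Type} [Group G] (B : G →* M2) (N : Subgroup G)

/-- no line of trace free matrices is preserved by conjugation -/
def NE : Prop := ∀ Y : M2, Y.trace = 0 → Y ≠ 0 → ∃ n ∈ N, ∀ c : ℝ, B n * Y ≠ c • (Y * B n)

/-- the iteration of Jørgensen stops -/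
def JJ : Prop := ∀ h ∈ N, ∀ᶠ A in 𝓝 (1 : M2), ∀ a ∈ N, B a = A → ∃ K, B (it a h K) = A

variable {B N}

theorem NE.finite (h : NE B N) : ∃ F : Finset G, (∀ n ∈ F, n ∈ N) ∧ ∀ Y : M2, Y.trace = 0 → Y ≠ 0 →
    ∃ n ∈ F, ∀ c : ℝ, B n * Y ≠ c • (Y * B n) := by
  classical
  let T : G → Module.End ℝ M2 := fun n =>
    { toFun := fun Y => B n * Y * B n⁻¹
      map_add' := fun a b => by rw [mul_add, add_mul]
      map_smul' := fun t a => by rw [mul_smul_comm, smul_mul_assoc, RingHom.id_apply] }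
  obtain ⟨F, hFS, hF⟩ := (Submodule.fg_span_iff_fg_span_finset_subset (R := ℝ) (T '' (N : Set G))).1
    (IsNoetherian.noetherian _)
  have hlift : ∀ A ∈ F, ∃ n ∈ N, T n = A := fun A hA => hFS hA
  choose! s hs1 hs2 using hlift
  refine ⟨F.image s, ?_, fun Y hY hY0 => ?_⟩
  · intro n hn
    obtain ⟨A, hA, rfl⟩ := Finset.mem_image.1 hn
    exact hs1 A hA
  · by_contra hcon
    push Not at hcon
    have heig : ∀ (n : G) (c : ℝ), B n * Y = c • (Y * B n) ↔ T n Y = c • Y := by
      intro n c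
      show _ ↔ B n * Y * B n⁻¹ = c • Y
      constructor
      · intro h1
        rw [h1, smul_mul_assoc, mul_assoc, map_mul_inv, mul_one]
      · intro h1
        calc B n * Y = B n * Y * (B n⁻¹ * B n) := by rw [map_inv_mul, mul_one]
          _ = (B n * Y * B n⁻¹) * B n := by noncomm_ring
          _ = _ := by rw [h1, smul_mul_assoc]
    have hspan : ∀ A ∈ Submodule.span ℝ (F : Set (Module.End ℝ M2)), ∃ c : ℝ, A Y = c • Y := by
      intro A hA
      induction hA using Submodule.span_induction with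
      | mem A hA =>
        obtain ⟨c, hc⟩ := hcon (s A) (Finset.mem_image_of_mem s hA)
        rw [heig, hs2 A hA] at hc
        exact ⟨c, hc⟩
      | zero => exact ⟨0, by rw [zero_smul]; rfl⟩
      | add A A' _ _ h1 h2 =>
        obtain ⟨c, hc⟩ := h1
        obtain ⟨c', hc'⟩ := h2
        exact ⟨c + c', by rw [LinearMap.add_apply, hc, hc', add_smul]⟩
      | smul r A _ h1 =>
        obtain ⟨c, hc⟩ := h1
        exact ⟨r * c, by rw [LinearMap.smul_apply, hc, smul_smul]⟩
    obtain ⟨n, hn, hne⟩ := h Y hY hY0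
    obtain ⟨c, hc⟩ := hspan (T n) (by rw [← hF]; exact Submodule.subset_span ⟨n, hn, rfl⟩)
    exact hne c ((heig n c).2 hc)

theorem it_trace (a h : G) (k : ℕ) : (B (it a h (k + 1))).trace = (B a).trace := by
  rw [it_succ, map_mul, map_mul, Matrix.trace_mul_comm, ← mul_assoc, map_inv_mul, one_mul]

theorem jorg_line {a h : G} (hD : dsc (B a) ≠ 0) (htr : (B a).trace ≠ 0) :
    ∀ K, B (it a h K) * B a = B a * B (it a h K) → ∃ c : ℝ, B h * tf (B a) = c • (tf (B a) * B h) := by
  intro K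
  induction K with
  | zero =>
    intro h1
    refine ⟨1, ?_⟩
    rw [one_smul]
    exact (comm_tf_iff _ _).1 h1
  | succ K ih =>
    intro h1
    rcases descent (map_mul_inv B (it a h K)) (map_inv_mul B (it a h K))
      (show B (it a h (K + 1)) = B (it a h K) * B a * B (it a h K)⁻¹ by
        rw [it_succ, map_mul, map_mul]) hD h1 with h2 | h2
    · exact ih ((comm_tf_iff _ _).2 h2)
    · cases K with
      | zero => exact ⟨-1, by rw [neg_smul, one_smul]; exact h2⟩
      | succ K =>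
        exfalso
        have h3 := anticomm_trace hD h2
        rw [it_trace] at h3
        exact htr h3

theorem trace_cont : Continuous (fun A : M2 => A.trace) := by
  simp only [Matrix.trace_fin_two]; fun_prop

theorem det_cont : Continuous (fun A : M2 => A.det) := by
  simp only [Matrix.det_fin_two]; fun_prop

theorem trace_one' : (1 : M2).trace = 2 := by simp

/-- discreteness at the identity -/
theorem disc_N (hNE : NE B N) (hJ : JJ B N) (hdet : ∀ n ∈ N, |(B n).det| = 1) :
    ∀ᶠ A in 𝓝 (1 : M2), ∀ a ∈ N, B a = A → A = 1 := by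
  obtain ⟨F, hFN, hF⟩ := hNE.finite
  have etr : ∀ᶠ A in 𝓝 (1 : M2), 0 < A.trace := by
    have := trace_cont.tendsto (1 : M2)
    rw [trace_one'] at this
    exact this.eventually_const_lt (by norm_num)
  have edet : ∀ᶠ A in 𝓝 (1 : M2), 0 < A.det := by
    have := det_cont.tendsto (1 : M2)
    rw [Matrix.det_one] at this
    exact this.eventually_const_lt (by norm_num)
  -- first step
  have E1 : ∀ᶠ A in 𝓝 (1 : M2), ∀ a ∈ N, B a = A → dsc A = 0 := by
    have hJF : ∀ᶠ A in 𝓝 (1 : M2), ∀ h ∈ F, ∀ a ∈ N, B a = A → ∃ K, B (it a h K) = A := by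
      rw [Filter.eventually_all_finset]
      exact fun h hh => hJ h (hFN h hh)
    filter_upwards [hJF, etr] with A h1 h2 a ha haA
    by_contra hD
    have htf : tf A ≠ 0 := by
      intro h
      have := tf_mul_self A
      rw [h, mul_zero] at this
      have h2 := congrFun (congrFun this 0) 0
      simp at h2
      exact hD h2.symm
    obtain ⟨n, hn, hne⟩ := hF (tf A) (tf_trace A) htf
    obtain ⟨K, hK⟩ := h1 n hn a ha haA
    obtain ⟨c, hc⟩ := jorg_line (B := B) (a := a) (h := n) (by rwa [haA]) (by rw [haA]; exact h2.ne')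
      K (by rw [hK, haA])
    rw [haA] at hc
    exact hne c hc
  have E2 : ∀ᶠ A in 𝓝 (1 : M2), ∀ h ∈ F, (∀ a ∈ N, B a = A * B h * A.adjugate * B h⁻¹ →
      dsc (A * B h * A.adjugate * B h⁻¹) = 0) ∧ 0 < (A * B h * A.adjugate * B h⁻¹).trace ∧
      0 < (A * B h * A.adjugate * B h⁻¹).det := by
    rw [Filter.eventually_all_finset]
    intro h _
    have hc : Continuous fun A : M2 => A * B h * A.adjugate * B h⁻¹ := by fun_prop
    have ht := hc.tendsto (1 : M2)
    have h1 : (1 : M2) * B h * (1 : M2).adjugate * B h⁻¹ = 1 := by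
      rw [Matrix.adjugate_one, one_mul, mul_one, map_mul_inv]
    rw [h1] at ht
    exact ht.eventually (E1.and (etr.and edet))
  filter_upwards [E1, E2, etr, edet] with A h1 h2 h3 h4 a ha haA
  have hdA : A.det = 1 := by
    have := hdet a ha
    rwa [haA, abs_of_pos h4] at this
  have hD := h1 a ha haA
  have htr : A.trace = 2 := by
    rw [dsc_eq, hdA] at hD
    nlinarith
  by_contra hne
  have htf : tf A ≠ 0 := by
    intro h
    apply hne
    rw [(tf_eq_zero_iff A).1 h, htr]
    norm_num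
  obtain ⟨n, hn, hnc⟩ := hF (tf A) (tf_trace A) htf
  obtain ⟨h5, h6, h7⟩ := h2 n hn
  -- the commutator
  have hinv : B a⁻¹ = A.adjugate := by
    have e1 : A * A.adjugate = 1 := by rw [Matrix.mul_adjugate, hdA, one_smul]
    have e2 : B a⁻¹ * A = 1 := by rw [← haA, map_inv_mul]
    calc B a⁻¹ = B a⁻¹ * (A * A.adjugate) := by rw [e1, mul_one]
      _ = (B a⁻¹ * A) * A.adjugate := by rw [mul_assoc]
      _ = A.adjugate := by rw [e2, one_mul]
  have hBa' : B (a * n * a⁻¹ * n⁻¹) = A * B n * A.adjugate * B n⁻¹ := by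
    rw [map_mul, map_mul, map_mul, haA, hinv]
  have hmem : a * n * a⁻¹ * n⁻¹ ∈ N :=
    N.mul_mem (N.mul_mem (N.mul_mem ha (hFN n hn)) (N.inv_mem ha)) (N.inv_mem (hFN n hn))
  have hD' := h5 _ hmem hBa'
  have hd' : (A * B n * A.adjugate * B n⁻¹).det = 1 := by
    have := hdet _ hmem
    rwa [hBa', abs_of_pos h7] at this
  have htr' : (A * B n * A.adjugate * B n⁻¹).trace = 2 := by
    rw [dsc_eq, hd'] at hD'
    nlinarith
  -- the trace formula
  set u := tf A with hu
  set u' := B n * u * B n⁻¹ with hu'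
  have hA1 : A = 1 + u := by
    refine M2.ext' ?_ ?_ ?_ ?_ <;> simp [hu, tf] <;> rw [Matrix.trace_fin_two] at htr <;> linarith
  have hadj : A.adjugate = 1 - u := by
    rw [M2.eq A.adjugate, Matrix.adjugate_fin_two A]
    rw [Matrix.trace_fin_two] at htr
    refine M2.ext' ?_ ?_ ?_ ?_ <;> simp [hu, tf] <;> linarith
  have hprod : A * B n * A.adjugate * B n⁻¹ = (1 + u) * (1 - u') := by
    have e1 : B n * A.adjugate * B n⁻¹ = 1 - u' := by
      rw [hadj, mul_sub, sub_mul, mul_one, map_mul_inv]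
    calc A * B n * A.adjugate * B n⁻¹ = A * (B n * A.adjugate * B n⁻¹) := by noncomm_ring
      _ = _ := by rw [e1, hA1]
  have htu : u.trace = 0 := tf_trace A
  have htu' : u'.trace = 0 := by
    rw [hu', Matrix.trace_mul_comm, ← mul_assoc, map_inv_mul, one_mul, htu]
  have huu : u * u = 0 := by rw [hu, tf_mul_self, hD, zero_smul]
  have huu' : u' * u' = 0 := by
    calc u' * u' = B n * u * (B n⁻¹ * B n) * u * B n⁻¹ := by rw [hu']; noncomm_ring
      _ = B n * (u * u) * B n⁻¹ := by rw [map_inv_mul]; noncomm_ring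
      _ = 0 := by rw [huu, mul_zero, zero_mul]
  have hpair : (u * u').trace = 0 := by
    rw [hprod] at htr'
    have e1 : (1 + u) * (1 - u') = 1 + u - u' - u * u' := by noncomm_ring
    rw [e1, Matrix.trace_sub, Matrix.trace_sub, Matrix.trace_add, trace_one', htu, htu'] at htr'
    linarith
  -- parallel
  have e1 : u 1 1 = -(u 0 0) := by rw [Matrix.trace_fin_two] at htu; linarith
  have e2 : u' 1 1 = -(u' 0 0) := by rw [Matrix.trace_fin_two] at htu'; linarith
  have e3 : (u 0 0) ^ 2 + u 0 1 * u 1 0 = 0 := by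
    have := congrFun (congrFun huu 0) 0
    simp [Matrix.mul_apply, Fin.sum_univ_two] at this
    linarith
  have e4 : (u' 0 0) ^ 2 + u' 0 1 * u' 1 0 = 0 := by
    have := congrFun (congrFun huu' 0) 0
    simp [Matrix.mul_apply, Fin.sum_univ_two] at this
    linarith
  have e5 : 2 * (u 0 0 * u' 0 0) + u 0 1 * u' 1 0 + u 1 0 * u' 0 1 = 0 := by
    have h8 := hpair
    simp only [Matrix.trace_fin_two, Matrix.mul_apply, Fin.sum_univ_two] at h8
    rw [e1, e2] at h8
    linarith
  have e6 : ¬(u 0 0 = 0 ∧ u 0 1 = 0 ∧ u 1 0 = 0) := by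
    rintro ⟨g1, g2, g3⟩
    apply htf
    refine M2.ext' g1 g2 g3 ?_
    rw [e1, g1, neg_zero]; rfl
  obtain ⟨t, g1, g2, g3⟩ := parallel_nil e3 e4 e5 e6
  have hpar : u' = t • u := by
    refine M2.ext' g1 g2 g3 ?_
    rw [e2, g1]
    show _ = t * u 1 1
    rw [e1]; ring
  apply hnc t
  calc B n * u = B n * u * (B n⁻¹ * B n) := by rw [map_inv_mul, mul_one]
    _ = u' * B n := by rw [hu']; noncomm_ring
    _ = _ := by rw [hpar, smul_mul_assoc]

/-- projective discreteness of the normalizer -/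
theorem disc_P (hNE : NE B N) (hJ : JJ B N) (hdet : ∀ n ∈ N, |(B n).det| = 1) [hN : N.Normal] :
    ∀ᶠ A in 𝓝 (1 : M2), ∀ g : G, ∀ s : ℝ, s ≠ 0 → B g = s • A → A = (A.trace / 2) • (1 : M2) := by
  obtain ⟨F, hFN, hF⟩ := hNE.finite
  have edet : ∀ᶠ A in 𝓝 (1 : M2), 0 < A.det := by
    have := det_cont.tendsto (1 : M2)
    rw [Matrix.det_one] at this
    exact this.eventually_const_lt (by norm_num)
  have E2 : ∀ᶠ A in 𝓝 (1 : M2), ∀ h ∈ F, ∀ a ∈ N, B a = A * B h * (A.det⁻¹ • A.adjugate) * B h⁻¹ →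
      A * B h * (A.det⁻¹ • A.adjugate) * B h⁻¹ = 1 := by
    rw [Filter.eventually_all_finset]
    intro h _
    have hc : ContinuousAt (fun A : M2 => A * B h * (A.det⁻¹ • A.adjugate) * B h⁻¹) 1 := by
      have h1 : ContinuousAt (fun A : M2 => A.det⁻¹) 1 :=
        det_cont.continuousAt.inv₀ (by rw [Matrix.det_one]; exact one_ne_zero)
      have h2 : ContinuousAt (fun A : M2 => A.adjugate) 1 := by fun_prop
      have h3 := h1.smul h2
      have h4 : ContinuousAt (fun A : M2 => A * B h) 1 := by fun_prop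
      exact (h4.mul h3).mul continuousAt_const
    have ht : Tendsto (fun A : M2 => A * B h * (A.det⁻¹ • A.adjugate) * B h⁻¹) (𝓝 1) (𝓝 1) := by
      have h1 : (1 : M2) * B h * ((1 : M2).det⁻¹ • (1 : M2).adjugate) * B h⁻¹ = 1 := by
        rw [Matrix.adjugate_one, Matrix.det_one, inv_one, one_smul, one_mul, mul_one, map_mul_inv]
      have h2 := hc.tendsto
      beta_reduce at h2
      rwa [h1] at h2
    exact ht.eventually (disc_N hNE hJ hdet)
  filter_upwards [E2, edet] with A h1 h2 g s hs hg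
  by_contra hne
  have htf : tf A ≠ 0 := fun h => hne ((tf_eq_zero_iff A).1 h)
  obtain ⟨n, hn, hnc⟩ := hF (tf A) (tf_trace A) htf
  apply hnc 1
  rw [one_smul]
  apply (comm_tf_iff A (B n)).1
  have hinv : B g⁻¹ = s⁻¹ • (A.det⁻¹ • A.adjugate) := by
    have e1 : A * (A.det⁻¹ • A.adjugate) = 1 := by
      rw [mul_smul_comm, Matrix.mul_adjugate, smul_smul, inv_mul_cancel₀ h2.ne', one_smul]
    have e2 : B g * (s⁻¹ • (A.det⁻¹ • A.adjugate)) = 1 := by
      rw [hg, smul_mul_smul_comm, e1, mul_inv_cancel₀ hs, one_smul]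
    calc B g⁻¹ = B g⁻¹ * (B g * (s⁻¹ • (A.det⁻¹ • A.adjugate))) := by rw [e2, mul_one]
      _ = (B g⁻¹ * B g) * (s⁻¹ • (A.det⁻¹ • A.adjugate)) := by rw [mul_assoc]
      _ = _ := by rw [map_inv_mul, one_mul]
  have hmem : g * n * g⁻¹ * n⁻¹ ∈ N :=
    N.mul_mem (hN.conj_mem n (hFN n hn) g) (N.inv_mem (hFN n hn))
  have hB : B (g * n * g⁻¹ * n⁻¹) = A * B n * (A.det⁻¹ • A.adjugate) * B n⁻¹ := by
    rw [map_mul, map_mul, map_mul, hinv, hg, smul_mul_assoc, smul_mul_smul_comm, mul_inv_cancel₀ hs,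
      one_smul]
  have h3 := h1 n hn _ hmem hB
  have e1 : (A.det⁻¹ • A.adjugate) * A = 1 := by
    rw [smul_mul_assoc, Matrix.adjugate_mul, smul_smul, inv_mul_cancel₀ h2.ne', one_smul]
  calc B n * A = (A * B n * (A.det⁻¹ • A.adjugate) * B n⁻¹) * B n * A := by rw [h3, one_mul]
    _ = A * B n * (A.det⁻¹ • A.adjugate) * (B n⁻¹ * B n) * A := by noncomm_ring
    _ = A * B n * ((A.det⁻¹ • A.adjugate) * A) := by rw [map_inv_mul, mul_one, mul_assoc]
    _ = A * B n := by rw [e1, mul_one]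

end

end Pool.Agent.P8H83
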