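import Pool.Agent.P8H83.Base

/-!
Unfolding over a lattice: linear maps preserving a discrete spanning group do not contract volume,
and a group containing a lattice of translations has finite linear part.
-/

set_option autoImplicit false

open Set Filter Topology Metric MeasureTheory
open Pool.Agent.W689.Mk
open scoped ENNReal

namespace Pool.Agent.P8H83

section
variable {W ι : Type} [Finite ι] [NormedAddCommGroup W] [NormedSpace ℝ W] [FiniteDimensional ℝ W]
  [MeasurableSpace W] [BorelSpace W] (μ : Measure W) [μ.IsAddHaarMeasure]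

theorem unfold_le (b : Module.Basis ι ℝ W) {f : W → ℝ≥0∞} (hf : Measurable f) {M : ℝ≥0∞}
    (h : ∀ x, ∑' l : Submodule.span ℤ (range b), f ((l : W) + x) ≤ M) :
    ∫⁻ x, f x ∂μ ≤ M * μ (ZSpan.fundamentalDomain b) := by
  have hd := ZSpan.isAddFundamentalDomain b μ
  have hinv : VAddInvariantMeasure (Submodule.span ℤ (range b)) W μ :=
    inferInstanceAs <| VAddInvariantMeasure (Submodule.span ℤ (range b)).toAddSubgroup W μ
  rw [hd.lintegral_eq_tsum'' f, ← lintegral_tsum]
  · calc ∫⁻ x in ZSpan.fundamentalDomain b, ∑' g : Submodule.span ℤ (range b), f (g +ᵥ x) ∂μ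
        ≤ ∫⁻ _ in ZSpan.fundamentalDomain b, M ∂μ := lintegral_mono fun x => h x
      _ = M * μ (ZSpan.fundamentalDomain b) := by
        rw [lintegral_const, Measure.restrict_apply_univ]
  · intro g
    exact (hf.comp (measurable_const_add (g : W))).aemeasurable

/-- a finite sum of indicators bounded by the cardinality of a finite set -/
theorem tsum_ind_le {α β δ : Type} (I : Finset β) (p : α → β → Prop) [∀ a b, Decidable (p a b)]
    (Φ : Finset δ) (F : α → β → δ) (hF : ∀ a, ∀ b ∈ I, p a b → F a b ∈ Φ)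
    (hinj : ∀ a, ∀ b ∈ I, ∀ a', ∀ b' ∈ I, p a b → p a' b' → F a b = F a' b' → a = a' ∧ b = b') :
    ∑' a : α, ∑ b ∈ I, (if p a b then (1 : ℝ≥0∞) else 0) ≤ (Φ.card : ℝ≥0∞) := by
  classical
  rw [ENNReal.tsum_eq_iSup_sum]
  refine iSup_le fun s => ?_
  have h1 : ∑ a ∈ s, ∑ b ∈ I, (if p a b then (1 : ℝ≥0∞) else 0) =
      (((s ×ˢ I).filter fun q => p q.1 q.2).card : ℝ≥0∞) := by
    rw [← Finset.sum_product', Finset.sum_ite, Finset.sum_const_zero, add_zero, Finset.sum_const,
      nsmul_eq_mul, mul_one]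
  rw [h1]
  have h2 : ((s ×ˢ I).filter fun q => p q.1 q.2).card ≤ Φ.card := by
    refine Finset.card_le_card_of_injOn (fun q => F q.1 q.2) ?_ ?_
    · intro q hq
      have hq' := Finset.mem_filter.1 hq
      exact hF _ _ (Finset.mem_product.1 hq'.1).2 hq'.2
    · intro q hq q' hq' he
      have h3 := Finset.mem_filter.1 hq
      have h4 := Finset.mem_filter.1 hq'
      have h5 := hinj _ _ (Finset.mem_product.1 h3.1).2 _ _ (Finset.mem_product.1 h4.1).2 h3.2 h4.2 he
      exact Prod.ext h5.1 h5.2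
  exact_mod_cast h2

end

section
variable {W : Type} [NormedAddCommGroup W] [NormedSpace ℝ W] [FiniteDimensional ℝ W]

/-- a spanning set contains a basis -/
theorem exists_basis_of_span {T : Set W} (hT : Submodule.span ℝ T = ⊤) :
    ∃ (b : Module.Basis (Fin (Module.finrank ℝ W)) ℝ W), ∀ i, b i ∈ T := by
  obtain ⟨s, hs, hspan, hli⟩ := exists_linearIndependent ℝ T
  rw [hT] at hspan
  have hfin : Fintype s := hli.setFinite.fintype
  let b0 : Module.Basis s ℝ W := Module.Basis.mk hli (by rw [Subtype.range_coe, hspan])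
  have hcard : Fintype.card s = Module.finrank ℝ W := (Module.finrank_eq_card_basis b0).symm
  let e : s ≃ Fin (Module.finrank ℝ W) := Fintype.equivFinOfCardEq hcard
  refine ⟨b0.reindex e, fun i => ?_⟩
  rw [Module.Basis.reindex_apply]
  have : b0 (e.symm i) = (e.symm i : W) := by
    simp [b0]
  rw [this]
  exact hs (e.symm i).2

/-- a linear map preserving a discrete spanning group does not contract volume -/
theorem one_le_det {P : W →ₗ[ℝ] W} (hP : LinearMap.det P ≠ 0) (T : AddSubgroup W)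
    (hT : Submodule.span ℝ (T : Set W) = ⊤) {r : ℝ} (hr : 0 < r)
    (hdisc : ∀ t ∈ T, ‖t‖ < r → t = 0) (hPT : ∀ t ∈ T, P t ∈ T) :
    1 ≤ |LinearMap.det P| := by
  classical
  letI : MeasurableSpace W := borel W
  haveI : BorelSpace W := ⟨rfl⟩
  let μ : Measure W := Measure.addHaar
  obtain ⟨b, hb⟩ := exists_basis_of_span hT
  have hLT : ∀ l ∈ Submodule.span ℤ (range b), l ∈ T := by
    intro l hl
    have h1 : Submodule.span ℤ (range b) ≤ AddSubgroup.toIntSubmodule T :=
      Submodule.span_le.2 (by rintro _ ⟨i, rfl⟩; exact hb i)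
    exact h1 hl
  have hPk : ∀ k : ℕ, ∀ t ∈ T, (P ^ k) t ∈ T := by
    intro k
    induction k with
    | zero => intro t ht; simpa using ht
    | succ k ih =>
      intro t ht
      rw [pow_succ']
      exact hPT _ (ih t ht)
  have hdk : ∀ k : ℕ, LinearMap.det (P ^ k) = LinearMap.det P ^ k := fun k => map_pow _ _ _
  have key : ∀ k : ℕ, ENNReal.ofReal |(LinearMap.det P ^ k)⁻¹| * μ (ball (0 : W) (r / 2)) ≤
      1 * μ (ZSpan.fundamentalDomain b) := by
    intro k
    have h1 : μ ((P ^ k) ⁻¹' ball (0 : W) (r / 2)) =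
        ENNReal.ofReal |(LinearMap.det P ^ k)⁻¹| * μ (ball (0 : W) (r / 2)) := by
      have := Measure.addHaar_preimage_linearMap μ (f := P ^ k)
        (by rw [hdk]; exact pow_ne_zero _ hP) (ball (0 : W) (r / 2))
      rw [hdk] at this
      exact this
    have hm : MeasurableSet ((P ^ k) ⁻¹' ball (0 : W) (r / 2)) :=
      (isOpen_ball.preimage (P ^ k).continuous_of_finiteDimensional).measurableSet
    rw [← h1, ← lintegral_indicator_one hm]
    refine unfold_le μ b (measurable_one.indicator hm) fun x => ?_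
    have h2 := tsum_ind_le (α := Submodule.span ℤ (range b)) (β := Unit) (δ := Unit) {()}
      (fun l _ => (l : W) + x ∈ (P ^ k) ⁻¹' ball (0 : W) (r / 2)) {()} (fun _ _ => ())
      (fun _ _ _ _ => Finset.mem_singleton_self _) (by
        intro l _ _ l' _ _ h3 h4 _
        refine ⟨?_, rfl⟩
        have h5 : ((l : W) - l') ∈ T := T.sub_mem (hLT _ l.2) (hLT _ l'.2)
        have h6 : (P ^ k) ((l : W) - l') = 0 := by
          apply hdisc _ (hPk k _ h5)
          have e1 : (P ^ k) ((l : W) - l') = (P ^ k) (l + x) - (P ^ k) (l' + x) := by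
            rw [← map_sub]; congr 1; abel
          rw [e1]
          have h7 : ‖(P ^ k) ((l : W) + x)‖ < r / 2 := by simpa using h3
          have h8 : ‖(P ^ k) ((l' : W) + x)‖ < r / 2 := by simpa using h4
          have := norm_sub_le ((P ^ k) ((l : W) + x)) ((P ^ k) (l' + x))
          linarith
        have h7 : Function.Injective (P ^ k) := by
          have h8 : LinearMap.det (P ^ k) ≠ 0 := by rw [hdk]; exact pow_ne_zero _ hP
          exact (LinearMap.equivOfDetNeZero _ h8).injective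
        have h8 : (l : W) - l' = 0 := h7 (by rw [h6, map_zero])
        exact Subtype.ext (sub_eq_zero.1 h8))
    simp only [Finset.sum_singleton, Finset.card_singleton, Nat.cast_one] at h2
    refine le_trans (le_of_eq ?_) h2
    refine tsum_congr fun l => ?_
    rw [indicator_apply]
    rfl
  by_contra hlt
  push Not at hlt
  have hpos : 0 < |LinearMap.det P| := abs_pos.2 hP
  have h1 : (1 : ℝ) < |LinearMap.det P|⁻¹ := (one_lt_inv₀ hpos).2 hlt
  have hfin : μ (ZSpan.fundamentalDomain b) < ∞ :=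
    (ZSpan.fundamentalDomain_isBounded b).measure_lt_top
  have hb0 : 0 < μ (ball (0 : W) (r / 2)) := measure_ball_pos μ _ (half_pos hr)
  have hb1 : μ (ball (0 : W) (r / 2)) < ∞ := measure_ball_lt_top
  obtain ⟨k, hk⟩ := pow_unbounded_of_one_lt
    ((μ (ZSpan.fundamentalDomain b)).toReal / (μ (ball (0 : W) (r / 2))).toReal) h1
  have h2 := ENNReal.toReal_mono (by rw [one_mul]; exact hfin.ne) (key k)
  rw [ENNReal.toReal_mul, one_mul, ENNReal.toReal_ofReal (abs_nonneg _), abs_inv, abs_pow,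
    ← inv_pow] at h2
  have h3 : 0 < (μ (ball (0 : W) (r / 2))).toReal := ENNReal.toReal_pos hb0.ne' hb1.ne
  rw [div_lt_iff₀ h3] at hk
  linarith

end

section
variable {X Γ E : Type} [NormedAddCommGroup E] [NormedSpace ℝ E] [FiniteDimensional ℝ E]
    [TopologicalSpace X] [T2Space X] [Group Γ] [MulAction Γ X]
    {dev : X → E} {hol : Γ →* (E ≃ᵃ[ℝ] E)}

theorem near_ball (D : AffData X Γ E dev hol) (hinj : Function.Injective dev) (x : X) :
    ∃ r > 0, ball (dev x) r ⊆ range dev ∧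
      {γ : Γ | ∃ q ∈ ball (dev x) r, hol γ q ∈ ball (dev x) r}.Finite := by
  obtain ⟨r, hr, h⟩ := near_finite D hinj x
  obtain ⟨e, r', hxe, he, hr', hrt⟩ := exists_sec D.loc x
  have h2 : ball (dev x) r' ⊆ range dev := by
    intro q hq
    refine ⟨e.symm q, ?_⟩
    rw [he]
    exact e.right_inv (hrt hq)
  refine ⟨min r r', lt_min hr hr', (ball_subset_ball (min_le_right _ _)).trans h2, h.subset ?_⟩
  rintro γ ⟨q, hq, hq'⟩
  obtain ⟨y, rfl⟩ := h2 (ball_subset_ball (min_le_right _ _) hq)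
  exact ⟨y, ball_subset_ball (min_le_left _ _) hq, ball_subset_ball (min_le_left _ _) hq'⟩

/-- the group of translation vectors -/
def Tv (hol : Γ →* (E ≃ᵃ[ℝ] E)) : AddSubgroup E where
  carrier := {t | ∃ γ, ∀ p, hol γ p = p + t}
  zero_mem' := ⟨1, fun p => by rw [map_one, add_zero]; rfl⟩
  add_mem' := by
    rintro s t ⟨γ, hγ⟩ ⟨δ, hδ⟩
    refine ⟨γ * δ, fun p => ?_⟩
    rw [map_mul]
    show hol γ (hol δ p) = _
    rw [hδ, hγ]; abel
  neg_mem' := by
    rintro t ⟨γ, hγ⟩
    refine ⟨γ⁻¹, fun p => ?_⟩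
    have h1 := hγ (p + -t)
    rw [neg_add_cancel_right] at h1
    have h2 := hol_inv_apply (hol := hol) γ (p + -t)
    rw [h1] at h2
    exact h2

/-- translation vectors are isolated -/
theorem Tv_disc (D : AffData X Γ E dev hol) (hinj : Function.Injective dev) [Nonempty X] :
    ∃ r > 0, ∀ t ∈ Tv hol, ‖t‖ < r → t = 0 := by
  obtain ⟨x⟩ := ‹Nonempty X›
  obtain ⟨r, hr, -, hF⟩ := near_ball D hinj x
  -- a power of a small translation is still small
  have hsm : ∀ t ∈ Tv hol, ‖t‖ < r → t ≠ 0 → ∃ γ ∈ {γ : Γ | ∃ q ∈ ball (dev x) r, hol γ q ∈ ball (dev x) r},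
      hol γ 0 = t := by
    rintro t ⟨γ, hγ⟩ ht -
    refine ⟨γ, ⟨dev x, mem_ball_self hr, ?_⟩, by rw [hγ, zero_add]⟩
    rw [hγ, mem_ball, dist_eq_norm]
    simpa using ht
  have hfin : {t | t ∈ Tv hol ∧ ‖t‖ < r ∧ t ≠ 0}.Finite := by
    refine (hF.image fun γ => hol γ 0).subset ?_
    rintro t ⟨h1, h2, h3⟩
    obtain ⟨γ, hγ, rfl⟩ := hsm t h1 h2 h3
    exact ⟨γ, hγ, rfl⟩
  have ev : ∀ᶠ ε : ℝ in 𝓝[>] 0, ∀ t ∈ {t | t ∈ Tv hol ∧ ‖t‖ < r ∧ t ≠ 0}, ε < ‖t‖ := by
    rw [eventually_all_finite hfin]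
    rintro t ⟨-, -, ht⟩
    have h1 : 0 < ‖t‖ := norm_pos_iff.2 ht
    have h2 : ∀ᶠ ε : ℝ in 𝓝 0, ε < ‖t‖ := eventually_lt_nhds h1
    exact h2.filter_mono nhdsWithin_le_nhds
  have ev2 : ∀ᶠ ε : ℝ in 𝓝[>] 0, ε < r := (eventually_lt_nhds hr).filter_mono nhdsWithin_le_nhds
  obtain ⟨ε, ⟨h1, h2⟩, h3⟩ := ((ev.and ev2).and self_mem_nhdsWithin).exists
  refine ⟨ε, h3, fun t ht htε => ?_⟩
  by_contra hne
  exact lt_asymm htε (h1 t ⟨ht, htε.trans h2, hne⟩)

theorem Tv_inv (hol : Γ →* (E ≃ᵃ[ℝ] E)) (γ : Γ) {t : E} (ht : t ∈ Tv hol) : cl hol γ t ∈ Tv hol := by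
  obtain ⟨δ, hδ⟩ := ht
  refine ⟨γ * δ * γ⁻¹, fun p => ?_⟩
  rw [map_mul, map_mul]
  show hol γ (hol δ (hol γ⁻¹ p)) = _
  rw [hδ, hol_add, hol_apply_inv]
  rfl

theorem cl_det_ne (D : AffData X Γ E dev hol) (γ : Γ) :
    |LinearMap.det ((cl hol γ : E →L[ℝ] E) : E →ₗ[ℝ] E)| = 1 := D.unimod γ

/-- a group containing a lattice of translations has finite linear part -/
theorem finite_of_lattice (D : AffData X Γ E dev hol) (hinj : Function.Injective dev) [Nonempty X]
    (hT : Submodule.span ℝ (Tv hol : Set E) = ⊤) : (range (cl hol)).Finite := by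
  classical
  letI : MeasurableSpace E := borel E
  haveI : BorelSpace E := ⟨rfl⟩
  let μ : Measure E := Measure.addHaar
  obtain ⟨b, hb⟩ := exists_basis_of_span hT
  have hLT : ∀ l ∈ Submodule.span ℤ (range b), l ∈ Tv hol := by
    intro l hl
    have h1 : Submodule.span ℤ (range b) ≤ AddSubgroup.toIntSubmodule (Tv hol) :=
      Submodule.span_le.2 (by rintro _ ⟨i, rfl⟩; exact hb i)
    exact h1 hl
  obtain ⟨x⟩ := ‹Nonempty X›
  obtain ⟨r, hr, hrange, hF⟩ := near_ball D hinj x
  set B := ball (dev x) r with hB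
  have hB0 : 0 < μ B := measure_ball_pos μ _ hr
  have hB1 : μ B < ∞ := measure_ball_lt_top
  have hfin : μ (ZSpan.fundamentalDomain b) < ∞ :=
    (ZSpan.fundamentalDomain_isBounded b).measure_lt_top
  -- lifts of lattice elements
  have hlift : ∀ l : Submodule.span ℤ (range b), ∃ γ : Γ, ∀ p, hol γ p = p + l := fun l => hLT _ l.2
  choose τ hτ using hlift
  by_contra hinf
  obtain ⟨N, hN⟩ := exists_nat_gt (((hF.toFinset.card : ℝ≥0∞) * μ (ZSpan.fundamentalDomain b) /
    μ B).toReal)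
  obtain ⟨t, ht, htc⟩ := (show (range (cl hol)).Infinite from hinf).exists_subset_card_eq N
  have hsec : ∀ A ∈ t, ∃ γ, cl hol γ = A := fun A hA => ht hA
  choose! s hs using hsec
  -- the sets
  have hmeas : ∀ A, Measurable fun y : E => hol (s A)⁻¹ y := fun A => (hol_cont _).measurable
  have hmS : ∀ A, MeasurableSet {y : E | hol (s A)⁻¹ y ∈ B} := fun A =>
    (hmeas A) isOpen_ball.measurableSet
  have hvol : ∀ A, μ {y : E | hol (s A)⁻¹ y ∈ B} = μ B := by
    intro A
    have e1 : {y : E | hol (s A)⁻¹ y ∈ B} =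
        (cl hol (s A)⁻¹ : E →ₗ[ℝ] E) ⁻¹' ((fun z => z + hol (s A)⁻¹ 0) ⁻¹' B) := by
      ext y
      show hol (s A)⁻¹ y ∈ B ↔ cl hol (s A)⁻¹ y + hol (s A)⁻¹ 0 ∈ B
      rw [← hol_eq]
    have h1 : LinearMap.det ((cl hol (s A)⁻¹ : E →L[ℝ] E) : E →ₗ[ℝ] E) ≠ 0 := by
      intro h0
      have := cl_det_ne D (s A)⁻¹
      rw [h0, abs_zero] at this
      exact zero_ne_one this
    rw [e1, Measure.addHaar_preimage_linearMap μ h1, abs_inv, cl_det_ne D, inv_one,
      ENNReal.ofReal_one, one_mul, measure_preimage_add_right]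
  let f : E → ℝ≥0∞ := fun y => ∑ A ∈ t, (if hol (s A)⁻¹ y ∈ B then (1 : ℝ≥0∞) else 0)
  have hfm : Measurable f := Finset.measurable_sum _ fun A _ =>
    Measurable.ite (hmS A) measurable_const measurable_const
  have hint : ∫⁻ y, f y ∂μ = N * μ B := by
    rw [lintegral_finsetSum _ fun A _ => Measurable.ite (hmS A) measurable_const measurable_const]
    have h1 : ∀ A, ∫⁻ y, (if hol (s A)⁻¹ y ∈ B then (1 : ℝ≥0∞) else 0) ∂μ = μ B := by
      intro A
      rw [← hvol A, ← lintegral_indicator_one (hmS A)]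
      refine lintegral_congr fun y => ?_
      rw [indicator_apply]
      rfl
    rw [Finset.sum_congr rfl fun A _ => h1 A, Finset.sum_const, htc, nsmul_eq_mul]
  have hle := unfold_le μ b hfm (M := (hF.toFinset.card : ℝ≥0∞)) (fun y => by
    by_cases hex : ∃ (l : Submodule.span ℤ (range b)) (A : E →L[ℝ] E), A ∈ t ∧ hol (s A)⁻¹ (l + y) ∈ B
    · obtain ⟨l0, A0, hA0, h0⟩ := hex
      refine tsum_ind_le t (fun (l : Submodule.span ℤ (range b)) A => hol (s A)⁻¹ (l + y) ∈ B)
        hF.toFinset (fun l A => (s A)⁻¹ * τ l * (τ l0)⁻¹ * s A0) ?_ ?_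
      · intro l A hA hp
        rw [Set.Finite.mem_toFinset]
        refine ⟨hol (s A0)⁻¹ (l0 + y), h0, ?_⟩
        have e1 : hol ((s A)⁻¹ * τ l * (τ l0)⁻¹ * s A0) (hol (s A0)⁻¹ (l0 + y)) =
            hol (s A)⁻¹ (l + y) := by
          rw [map_mul, map_mul, map_mul]
          show hol (s A)⁻¹ (hol (τ l) (hol (τ l0)⁻¹ (hol (s A0) (hol (s A0)⁻¹ (l0 + y))))) = _
          rw [hol_apply_inv, add_comm (l0 : E) y, ← hτ l0 y, hol_inv_apply, hτ l y, add_comm]
        rw [e1]
        exact hp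
      · intro l A hA l' A' hA' _ _ he
        have h1 : (s A)⁻¹ * τ l = (s A')⁻¹ * τ l' := by
          have := congrArg (fun g => g * (s A0)⁻¹ * τ l0) he
          simpa [mul_assoc] using this
        have hclτ : ∀ (l : Submodule.span ℤ (range b)) (v : E), cl hol (τ l) v = v := by
          intro l v
          have h2 := hol_eq hol (τ l) v
          rw [hτ, hτ, zero_add] at h2
          exact (add_right_cancel h2).symm
        have h2 : A = A' := by
          rw [← hs A hA, ← hs A' hA']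
          refine ContinuousLinearMap.ext fun v => ?_
          have h3 : s A' * (s A)⁻¹ = τ l' * (τ l)⁻¹ := by
            have := congrArg (fun g => s A' * g * (τ l)⁻¹) h1
            simpa [mul_assoc] using this
          have h4 : cl hol (s A' * (s A)⁻¹) (cl hol (s A) v) = cl hol (s A) v := by
            rw [h3, cl_mul, hclτ]
            have := hclτ l (cl hol (τ l)⁻¹ (cl hol (s A) v))
            rw [cl_inv'] at this
            exact this.symm
          rw [cl_mul, cl_inv] at h4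
          exact h4.symm
        subst h2
        refine ⟨?_, rfl⟩
        have h3 : τ l = τ l' := mul_left_cancel h1
        have h4 := hτ l 0
        rw [h3, hτ l' 0] at h4
        exact Subtype.ext (add_left_cancel h4).symm
    · have : ∀ l : Submodule.span ℤ (range b), f (l + y) = 0 := by
        intro l
        refine Finset.sum_eq_zero fun A hA => if_neg fun h => hex ⟨l, A, hA, h⟩
      simp only [this, tsum_zero]
      exact zero_le)
  rw [hint] at hle
  have h1 : (N : ℝ≥0∞) ≤ (hF.toFinset.card : ℝ≥0∞) * μ (ZSpan.fundamentalDomain b) / μ B :=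
    (ENNReal.le_div_iff_mul_le (Or.inl hB0.ne') (Or.inl hB1.ne)).2 hle
  have hfin2 : (hF.toFinset.card : ℝ≥0∞) * μ (ZSpan.fundamentalDomain b) / μ B ≠ ∞ :=
    ENNReal.div_ne_top (ENNReal.mul_ne_top (ENNReal.natCast_ne_top _) hfin.ne) hB0.ne'
  have h2 := ENNReal.toReal_mono hfin2 h1
  rw [ENNReal.toReal_natCast] at h2
  linarith

end

end Pool.Agent.P8H83
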