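import Pool.Agent.P8H83.Core2
import Pool.Agent.P8H83.Base
import Pool.Agent.P8H83.Unf

/-!
Coordinates: affine maps of a three dimensional space as four by four matrices.
-/

set_option autoImplicit false

open Set Filter Topology Metric
open Pool.Agent.W689.Mk

namespace Pool.Agent.P8H83

abbrev M4t := Matrix (Fin 4) (Fin 4) ℝ

section
variable {E : Type} [NormedAddCommGroup E] [NormedSpace ℝ E] [FiniteDimensional ℝ E]

/-- coordinates on `E × ℝ` -/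
noncomputable def e4 (b : Module.Basis (Fin 3) ℝ E) : (E × ℝ) ≃ₗ[ℝ] (Fin 4 → ℝ) where
  toFun p := ![b.repr p.1 0, b.repr p.1 1, b.repr p.1 2, p.2]
  map_add' p q := by
    ext i; fin_cases i <;> simp
  map_smul' t p := by
    ext i; fin_cases i <;> simp
  invFun w := (w 0 • b 0 + w 1 • b 1 + w 2 • b 2, w 3)
  left_inv p := by
    refine Prod.ext ?_ rfl
    show b.repr p.1 0 • b 0 + b.repr p.1 1 • b 1 + b.repr p.1 2 • b 2 = p.1
    have := b.sum_repr p.1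
    rwa [Fin.sum_univ_three] at this
  right_inv w := by
    ext i; fin_cases i <;> simp [Finsupp.single_apply]

noncomputable def c4 (b : Module.Basis (Fin 3) ℝ E) : Module.Basis (Fin 4) ℝ (E × ℝ) :=
  Module.Basis.ofEquivFun (e4 b)

/-- matrices as continuous linear maps -/
noncomputable def Φ4 (b : Module.Basis (Fin 3) ℝ E) (A : M4t) : (E × ℝ) →L[ℝ] (E × ℝ) :=
  LinearMap.toContinuousLinearMap (Matrix.toLin (c4 b) (c4 b) A)

theorem Φ4_mul (b : Module.Basis (Fin 3) ℝ E) (A A' : M4t) : Φ4 b (A * A') = Φ4 b A * Φ4 b A' := by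
  unfold Φ4
  rw [Matrix.toLin_mul (c4 b) (c4 b) (c4 b)]
  rfl

theorem Φ4_one (b : Module.Basis (Fin 3) ℝ E) : Φ4 b 1 = 1 := by
  unfold Φ4
  rw [Matrix.toLin_one]
  rfl

theorem Φ4_cont (b : Module.Basis (Fin 3) ℝ E) : Continuous (Φ4 b) := by
  have : Continuous (((LinearMap.toContinuousLinearMap (𝕜 := ℝ) (E := E × ℝ)
    (F' := E × ℝ)).toLinearMap).comp (Matrix.toLin (c4 b) (c4 b)).toLinearMap) :=
    LinearMap.continuous_of_finiteDimensional _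
  exact this

variable {Γ : Type} [Group Γ]

/-- the holonomy as four by four matrices -/
noncomputable def M4 (hol : Γ →* (E ≃ᵃ[ℝ] E)) (b : Module.Basis (Fin 3) ℝ E) : Γ →* M4t where
  toFun γ := LinearMap.toMatrix (c4 b) (c4 b) (hm hol γ : (E × ℝ) →ₗ[ℝ] (E × ℝ))
  map_one' := by
    rw [map_one]
    exact LinearMap.toMatrix_one (c4 b)
  map_mul' γ δ := by
    rw [map_mul]
    exact LinearMap.toMatrix_mul (c4 b) _ _

theorem Φ4_M4 (hol : Γ →* (E ≃ᵃ[ℝ] E)) (b : Module.Basis (Fin 3) ℝ E) (γ : Γ) :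
    Φ4 b (M4 hol b γ) = hm hol γ := by
  refine ContinuousLinearMap.ext fun p => ?_
  show Matrix.toLin (c4 b) (c4 b) (LinearMap.toMatrix (c4 b) (c4 b) _) p = _
  rw [Matrix.toLin_toMatrix]
  rfl

theorem M4_eq_iff (hol : Γ →* (E ≃ᵃ[ℝ] E)) (b : Module.Basis (Fin 3) ℝ E) (γ δ : Γ) :
    M4 hol b γ = M4 hol b δ ↔ hol γ = hol δ := by
  rw [← hm_eq_iff]
  constructor
  · intro h
    rw [← Φ4_M4 hol b, ← Φ4_M4 hol b, h]
  · intro h
    show LinearMap.toMatrix (c4 b) (c4 b) _ = LinearMap.toMatrix (c4 b) (c4 b) _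
    rw [h]

theorem M4_eq_one_iff (hol : Γ →* (E ≃ᵃ[ℝ] E)) (b : Module.Basis (Fin 3) ℝ E) (γ : Γ) :
    M4 hol b γ = 1 ↔ hol γ = 1 := by
  have := M4_eq_iff hol b γ 1
  rwa [map_one, map_one] at this

theorem M4_mulVec (hol : Γ →* (E ≃ᵃ[ℝ] E)) (b : Module.Basis (Fin 3) ℝ E) (γ : Γ) (p : E × ℝ) :
    (M4 hol b γ).mulVec (e4 b p) = e4 b (hm hol γ p) := by
  have h := LinearMap.toMatrix_mulVec_repr (c4 b) (c4 b) (hm hol γ : (E × ℝ) →ₗ[ℝ] (E × ℝ)) p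
  exact h

/-- the coordinates of the image of a point -/
theorem coord_hol (hol : Γ →* (E ≃ᵃ[ℝ] E)) (b : Module.Basis (Fin 3) ℝ E) (γ : Γ) (p : E)
    (i : Fin 3) : b.repr (hol γ p) i = M4 hol b γ i.castSucc 0 * b.repr p 0 +
      M4 hol b γ i.castSucc 1 * b.repr p 1 + M4 hol b γ i.castSucc 2 * b.repr p 2 +
      M4 hol b γ i.castSucc 3 := by
  have h := congrFun (M4_mulVec hol b γ (p, 1)) i.castSucc
  rw [hm_point] at h
  simp only [Matrix.mulVec, dotProduct, Fin.sum_univ_four] at h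
  have h0 : e4 b (p, 1) 0 = b.repr p 0 := rfl
  have h1 : e4 b (p, 1) 1 = b.repr p 1 := rfl
  have h2 : e4 b (p, 1) 2 = b.repr p 2 := rfl
  have h3 : e4 b (p, 1) 3 = 1 := rfl
  rw [h0, h1, h2, h3, mul_one] at h
  have h4 : e4 b (hol γ p, 1) i.castSucc = b.repr (hol γ p) i := by
    fin_cases i <;> rfl
  rw [← h4, ← h]

/-- the coordinates of the image of a vector -/
theorem coord_cl (hol : Γ →* (E ≃ᵃ[ℝ] E)) (b : Module.Basis (Fin 3) ℝ E) (γ : Γ) (v : E)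
    (i : Fin 3) : b.repr (cl hol γ v) i = M4 hol b γ i.castSucc 0 * b.repr v 0 +
      M4 hol b γ i.castSucc 1 * b.repr v 1 + M4 hol b γ i.castSucc 2 * b.repr v 2 := by
  have h := congrFun (M4_mulVec hol b γ (v, 0)) i.castSucc
  rw [hm_apply, zero_smul, add_zero] at h
  simp only [Matrix.mulVec, dotProduct, Fin.sum_univ_four] at h
  have h0 : e4 b (v, 0) 0 = b.repr v 0 := rfl
  have h1 : e4 b (v, 0) 1 = b.repr v 1 := rfl
  have h2 : e4 b (v, 0) 2 = b.repr v 2 := rfl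
  have h3 : e4 b (v, 0) 3 = 0 := rfl
  rw [h0, h1, h2, h3, mul_zero, add_zero] at h
  have h4 : e4 b (cl hol γ v, 0) i.castSucc = b.repr (cl hol γ v) i := by
    fin_cases i <;> rfl
  rw [← h4, ← h]

theorem M4_col (hol : Γ →* (E ≃ᵃ[ℝ] E)) (b : Module.Basis (Fin 3) ℝ E) (γ : Γ) (i j : Fin 3) :
    M4 hol b γ i.castSucc j.castSucc = b.repr (cl hol γ (b j)) i := by
  rw [coord_cl]
  fin_cases j <;> simp [Finsupp.single_apply]

theorem M4_last (hol : Γ →* (E ≃ᵃ[ℝ] E)) (b : Module.Basis (Fin 3) ℝ E) (γ : Γ) :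
    M4 hol b γ 3 0 = 0 ∧ M4 hol b γ 3 1 = 0 ∧ M4 hol b γ 3 2 = 0 ∧ M4 hol b γ 3 3 = 1 := by
  have key : ∀ p : E × ℝ, M4 hol b γ 3 0 * b.repr p.1 0 + M4 hol b γ 3 1 * b.repr p.1 1 +
      M4 hol b γ 3 2 * b.repr p.1 2 + M4 hol b γ 3 3 * p.2 = p.2 := by
    intro p
    have h := congrFun (M4_mulVec hol b γ p) 3
    simp only [Matrix.mulVec, dotProduct, Fin.sum_univ_four] at h
    exact h
  have h0 := key (b 0, 0)
  have h1 := key (b 1, 0)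
  have h2 := key (b 2, 0)
  have h3 := key (0, 1)
  simp [Finsupp.single_apply] at h0 h1 h2 h3
  exact ⟨h0, h1, h2, h3⟩

/-- the determinant of the linear part -/
theorem det_lin (hol : Γ →* (E ≃ᵃ[ℝ] E)) (b : Module.Basis (Fin 3) ℝ E) (γ : Γ) :
    LinearMap.det ((cl hol γ : E →L[ℝ] E) : E →ₗ[ℝ] E) =
      M4 hol b γ 0 0 * M4 hol b γ 1 1 * M4 hol b γ 2 2 -
      M4 hol b γ 0 0 * M4 hol b γ 1 2 * M4 hol b γ 2 1 -
      M4 hol b γ 0 1 * M4 hol b γ 1 0 * M4 hol b γ 2 2 +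
      M4 hol b γ 0 1 * M4 hol b γ 1 2 * M4 hol b γ 2 0 +
      M4 hol b γ 0 2 * M4 hol b γ 1 0 * M4 hol b γ 2 1 -
      M4 hol b γ 0 2 * M4 hol b γ 1 1 * M4 hol b γ 2 0 := by
  rw [← LinearMap.det_toMatrix b, Matrix.det_fin_three]
  have h : ∀ i j : Fin 3, LinearMap.toMatrix b b ((cl hol γ : E →L[ℝ] E) : E →ₗ[ℝ] E) i j =
      M4 hol b γ i.castSucc j.castSucc := by
    intro i j
    rw [LinearMap.toMatrix_apply, M4_col]
    rfl
  simp only [h]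
  rfl

/-- diagonal scaling -/
noncomputable def dg (w : Fin 4 → ℕ) (t : ℝ) : M4t := Matrix.diagonal fun i => t ^ w i

noncomputable def dgi (w : Fin 4 → ℕ) (t : ℝ) : M4t := Matrix.diagonal fun i => (t ^ w i)⁻¹

theorem dg_mul (w : Fin 4 → ℕ) {t : ℝ} (ht : t ≠ 0) : dg w t * dgi w t = 1 := by
  unfold dg dgi
  rw [Matrix.diagonal_mul_diagonal, ← Matrix.diagonal_one]
  congr 1
  funext i
  exact mul_inv_cancel₀ (pow_ne_zero _ ht)

theorem dgi_mul (w : Fin 4 → ℕ) {t : ℝ} (ht : t ≠ 0) : dgi w t * dg w t = 1 := by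
  unfold dg dgi
  rw [Matrix.diagonal_mul_diagonal, ← Matrix.diagonal_one]
  congr 1
  funext i
  exact inv_mul_cancel₀ (pow_ne_zero _ ht)

noncomputable def dgU (b : Module.Basis (Fin 3) ℝ E) (w : Fin 4 → ℕ) {t : ℝ} (ht : t ≠ 0) :
    ((E × ℝ) →L[ℝ] (E × ℝ))ˣ where
  val := Φ4 b (dg w t)
  inv := Φ4 b (dgi w t)
  val_inv := by rw [← Φ4_mul, dg_mul w ht, Φ4_one]
  inv_val := by rw [← Φ4_mul, dgi_mul w ht, Φ4_one]

theorem cj_dgU (hol : Γ →* (E ≃ᵃ[ℝ] E)) (b : Module.Basis (Fin 3) ℝ E) (w : Fin 4 → ℕ) {t : ℝ}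
    (ht : t ≠ 0) (γ : Γ) : cj (hm hol) (dgU b w ht) γ = Φ4 b (dgi w t * M4 hol b γ * dg w t) := by
  rw [Φ4_mul, Φ4_mul, Φ4_M4]
  rfl

theorem dg_conj_apply (w : Fin 4 → ℕ) (t : ℝ) (A : M4t) (i j : Fin 4) :
    (dgi w t * A * dg w t) i j = (t ^ w i)⁻¹ * A i j * t ^ w j := by
  unfold dg dgi
  rw [Matrix.mul_diagonal, Matrix.diagonal_mul]

end

section
variable {X Γ E : Type} [NormedAddCommGroup E] [NormedSpace ℝ E] [FiniteDimensional ℝ E]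
    [Group Γ] {hol : Γ →* (E ≃ᵃ[ℝ] E)}

/-- the iteration of Jørgensen stops, for block triangular matrices -/
theorem JJ_of (hiso : Iso (hm hol)) (b : Module.Basis (Fin 3) ℝ E) (w : Fin 4 → ℕ) (B : Γ →* M2)
    (N : Subgroup Γ) (hB : ∀ γ δ, hol γ = hol δ → B γ = B δ) (Ψ : M2 → M4t) (hΨ : Continuous Ψ)
    (hΨ1 : Ψ 1 = 1) (hlim : ∀ n ∈ N, Tendsto (fun t : ℝ => dgi w t * M4 hol b n * dg w t)
      (𝓝[>] 0) (𝓝 (Ψ (B n)))) : JJ B N := by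
  intro h hh
  have hlim' : ∀ n ∈ N, Tendsto (fun t : ℝ => Φ4 b (dgi w t * M4 hol b n * dg w t))
      (𝓝[>] 0) (𝓝 (Φ4 b (Ψ (B n)))) := fun n hn => ((Φ4_cont b).tendsto _).comp (hlim n hn)
  set R := max ‖Φ4 b (Ψ (B h))‖ ‖Φ4 b (Ψ (B h⁻¹))‖ + 1 with hR
  have hR1 : 1 ≤ R := by
    have : 0 ≤ max ‖Φ4 b (Ψ (B h))‖ ‖Φ4 b (Ψ (B h⁻¹))‖ := le_max_of_le_left (norm_nonneg _)
    linarith
  set δ := 1 / (16 * R * (R + 2)) with hδ
  have hδ0 : 0 < δ := by positivity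
  have hδ1 : 16 * R * (R + 2) * δ ≤ 1 := by
    rw [hδ, mul_one_div_cancel (by positivity)]
  have e1 : ∀ᶠ A in 𝓝 (1 : M2), ‖Φ4 b (Ψ A) - 1‖ < δ := by
    have h1 : Tendsto (fun A => ‖Φ4 b (Ψ A) - 1‖) (𝓝 (1 : M2)) (𝓝 ‖Φ4 b (Ψ 1) - 1‖) :=
      ((((Φ4_cont b).comp hΨ).sub continuous_const).norm).tendsto 1
    rw [hΨ1, Φ4_one, sub_self, norm_zero] at h1
    exact h1.eventually_lt_const hδ0
  filter_upwards [e1] with A hA a ha haA
  have e2 : ∀ᶠ t in 𝓝[>] (0 : ℝ), ‖Φ4 b (dgi w t * M4 hol b a * dg w t) - 1‖ < δ := by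
    have h1 := ((hlim' a ha).sub_const 1).norm
    rw [haA] at h1
    exact h1.eventually_lt_const hA
  have e3 : ∀ᶠ t in 𝓝[>] (0 : ℝ), ‖Φ4 b (dgi w t * M4 hol b h * dg w t)‖ < R := by
    refine (hlim' h hh).norm.eventually_lt_const ?_
    rw [hR]
    exact (le_max_left _ _).trans_lt (lt_add_one _)
  have e4 : ∀ᶠ t in 𝓝[>] (0 : ℝ), ‖Φ4 b (dgi w t * M4 hol b h⁻¹ * dg w t)‖ < R := by
    refine (hlim' h⁻¹ (N.inv_mem hh)).norm.eventually_lt_const ?_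
    rw [hR]
    exact (le_max_right _ _).trans_lt (lt_add_one _)
  obtain ⟨t, ⟨⟨g1, g2⟩, g3⟩, ht⟩ := (((e2.and e3).and e4).and self_mem_nhdsWithin).exists
  have ht0 : t ≠ 0 := ne_of_gt ht
  rw [← cj_dgU hol b w ht0] at g1 g2 g3
  obtain ⟨K, hK⟩ := jorg (cj (hm hol) (dgU b w ht0)) (hiso.cj _) hR1 g2.le g3.le g1.le hδ1
  rw [cj_eq_iff, hm_eq_iff] at hK
  exact ⟨K, by rw [hB _ _ hK, haA]⟩

end

end Pool.Agent.P8H83
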