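import Pool.Agent.P8H83.PrinAE
import Pool.Agent.P8H83.Base

/-!
The dimension principle: the group of a closed affine manifold with parallel volume does not act
properly on the projectivisation of an open convex cone in a space of dimension at most that of the
manifold.
-/

set_option autoImplicit false

open Set Filter Topology MeasureTheory Metric
open Pool.Agent.W689.Mk
open scoped NNReal

namespace Pool.Agent.P8H83

section homog
variable {V : Type} [NormedAddCommGroup V] [NormedSpace ℝ V]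

/-- a bump function, homogeneous of degree zero -/
noncomputable def bp (K : Set V) (δ : ℝ) (c : V) : ℝ := max (δ - infDist (‖c‖⁻¹ • c) K) 0

theorem bp_nonneg (K : Set V) (δ : ℝ) (c : V) : 0 ≤ bp K δ c := le_max_right _ _

theorem bp_smul (K : Set V) (δ : ℝ) (c : V) {t : ℝ} (ht : 0 < t) : bp K δ (t • c) = bp K δ c := by
  have : ‖t • c‖⁻¹ • t • c = ‖c‖⁻¹ • c := by
    rw [norm_smul, Real.norm_eq_abs, abs_of_pos ht, mul_inv, smul_smul]
    congr 1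
    field_simp
  unfold bp
  rw [this]

theorem bp_lip (K : Set V) (δ : ℝ) {c : V} (hc : c ≠ 0) :
    ∃ N ∈ 𝓝 c, ∃ L : ℝ, 0 ≤ L ∧ ∀ y ∈ N, ∀ z ∈ N, ‖bp K δ y - bp K δ z‖ ≤ L * ‖y - z‖ := by
  have hc0 : 0 < ‖c‖ := norm_pos_iff.2 hc
  refine ⟨ball c (‖c‖ / 2), ball_mem_nhds _ (half_pos hc0), 4 / ‖c‖, by positivity,
    fun y hy z hz => ?_⟩
  have hlow : ∀ w ∈ ball c (‖c‖ / 2), ‖c‖ / 2 ≤ ‖w‖ := by
    intro w hw
    rw [mem_ball, dist_eq_norm] at hw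
    have h1 := norm_sub_norm_le c w
    rw [norm_sub_rev] at h1
    linarith
  have hy0 : 0 < ‖y‖ := (half_pos hc0).trans_le (hlow y hy)
  have hz0 : 0 < ‖z‖ := (half_pos hc0).trans_le (hlow z hz)
  have h1 : ‖bp K δ y - bp K δ z‖ ≤ ‖‖y‖⁻¹ • y - ‖z‖⁻¹ • z‖ := by
    rw [Real.norm_eq_abs]
    unfold bp
    refine (abs_max_sub_max_le_abs _ _ _).trans ?_
    have h2 := (lipschitz_infDist_pt K).dist_le_mul (‖z‖⁻¹ • z) (‖y‖⁻¹ • y)
    rw [NNReal.coe_one, one_mul, Real.dist_eq, dist_eq_norm, norm_sub_rev] at h2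
    have e1 : δ - infDist (‖y‖⁻¹ • y) K - (δ - infDist (‖z‖⁻¹ • z) K) =
      infDist (‖z‖⁻¹ • z) K - infDist (‖y‖⁻¹ • y) K := by ring
    rw [e1]
    exact h2
  refine h1.trans ?_
  have e1 : ‖y‖⁻¹ • y - ‖z‖⁻¹ • z = ‖y‖⁻¹ • (y - z) + (‖y‖⁻¹ - ‖z‖⁻¹) • z := by
    rw [smul_sub, sub_smul]; abel
  rw [e1]
  refine (norm_add_le _ _).trans ?_
  rw [norm_smul, norm_smul, Real.norm_eq_abs, Real.norm_eq_abs, abs_of_pos (inv_pos.2 hy0)]
  have h2 : |‖y‖⁻¹ - ‖z‖⁻¹| * ‖z‖ ≤ ‖y‖⁻¹ * ‖y - z‖ := by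
    have e2 : ‖y‖⁻¹ - ‖z‖⁻¹ = (‖z‖ - ‖y‖) * (‖y‖⁻¹ * ‖z‖⁻¹) := by field_simp
    rw [e2, abs_mul, abs_of_pos (mul_pos (inv_pos.2 hy0) (inv_pos.2 hz0))]
    have h3 : |‖z‖ - ‖y‖| ≤ ‖y - z‖ := by
      rw [norm_sub_rev]; exact abs_norm_sub_norm_le _ _
    calc |‖z‖ - ‖y‖| * (‖y‖⁻¹ * ‖z‖⁻¹) * ‖z‖ = ‖y‖⁻¹ * |‖z‖ - ‖y‖| := by field_simp
      _ ≤ _ := mul_le_mul_of_nonneg_left h3 (inv_pos.2 hy0).le
  have h3 : ‖y‖⁻¹ ≤ 2 / ‖c‖ := by
    rw [inv_le_comm₀ hy0 (by positivity), inv_div]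
    exact hlow y hy
  have h4 : ‖y‖⁻¹ * ‖y - z‖ ≤ 2 / ‖c‖ * ‖y - z‖ := mul_le_mul_of_nonneg_right h3 (norm_nonneg _)
  have e3 : 4 / ‖c‖ * ‖y - z‖ = 2 / ‖c‖ * ‖y - z‖ + 2 / ‖c‖ * ‖y - z‖ := by ring
  linarith

/-- composition of a curve with zero derivative with a pointwise Lipschitz function -/
theorem hasDerivAt_zero_comp {g : V → ℝ} {w : ℝ → V} {c : V} (hw : HasDerivAt w 0 0) (hw0 : w 0 = c)
    {N : Set V} (hN : N ∈ 𝓝 c) {L : ℝ} (hg : ∀ y ∈ N, ∀ z ∈ N, ‖g y - g z‖ ≤ L * ‖y - z‖) :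
    HasDerivAt (fun t => g (w t)) 0 0 := by
  rw [hasDerivAt_iff_isLittleO] at hw ⊢
  simp only [smul_zero, sub_zero] at hw ⊢
  refine Asymptotics.IsBigO.trans_isLittleO ?_ hw
  have hcont : ContinuousAt w 0 := by
    have h1 : (fun t => w t - w 0) =O[𝓝 0] fun t : ℝ => t := by
      exact hw.isBigO
    have h2 : Tendsto (fun t => w t - w 0) (𝓝 0) (𝓝 0) := h1.trans_tendsto tendsto_id
    have h3 := h2.add_const (w 0)
    simp only [sub_add_cancel, zero_add] at h3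
    exact h3
  rw [ContinuousAt, hw0] at hcont
  refine Asymptotics.IsBigO.of_bound L ?_
  filter_upwards [hcont hN] with t ht
  have h1 := hg (w t) ht (w 0) (by rw [hw0]; exact mem_of_mem_nhds hN)
  exact h1

end homog

section
variable {X Γ E V : Type} [TopologicalSpace X] [T2Space X] [Group Γ] [MulAction Γ X]
  [NormedAddCommGroup E] [NormedSpace ℝ E] [FiniteDimensional ℝ E]
  {dev : X → E} {hol : Γ →* (E ≃ᵃ[ℝ] E)} [NormedAddCommGroup V] [NormedSpace ℝ V]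

theorem rep_mul_inv (σ : Γ →* (V →L[ℝ] V)) (γ : Γ) (v : V) : σ γ (σ γ⁻¹ v) = v := by
  have h := map_mul_inv σ γ
  exact congrArg (fun g : V →L[ℝ] V => g v) h

theorem rep_inv_mul (σ : Γ →* (V →L[ℝ] V)) (γ : Γ) (v : V) : σ γ⁻¹ (σ γ v) = v := by
  have h := map_inv_mul σ γ
  exact congrArg (fun g : V →L[ℝ] V => g v) h

theorem av_rep (σ : Γ →* (V →L[ℝ] V)) {ρ : X → ℝ} (hρ : Wt Γ dev ρ) (c : V) (δ : Γ) (x : X) :
    av ρ (fun γ : Γ => σ γ⁻¹ c) (δ • x) = σ δ (av ρ (fun γ : Γ => σ γ⁻¹ c) x) := by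
  rw [av_shift]
  unfold av
  rw [(σ δ).map_tsum (av_summable hρ _ x)]
  refine tsum_congr fun γ => ?_
  rw [map_smul]
  show ρ (γ • x) • σ (γ * δ⁻¹)⁻¹ c = ρ (γ • x) • σ δ (σ γ⁻¹ c)
  rw [mul_inv_rev, inv_inv, map_mul]
  rfl

/-- equivariant averages with weights which are locally finite -/
theorem av_hol' {ρ : X → ℝ} (hfin : ∀ x, ∃ F : Finset Γ, ∀ γ : Γ, γ ∉ F → ρ (γ • x) = 0)
    (hsum : ∀ x, ∑' γ : Γ, ρ (γ • x) = 1) (p : E) (δ : Γ) (x : X) :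
    av ρ (fun γ : Γ => hol γ⁻¹ p) (δ • x) = hol δ (av ρ (fun γ : Γ => hol γ⁻¹ p) x) := by
  have hsm : ∀ P : Γ → E, Summable fun γ : Γ => ρ (γ • x) • P γ := by
    intro P
    obtain ⟨F, hF⟩ := hfin x
    exact summable_of_ne_finset_zero (s := F) fun γ hγ => by rw [hF γ hγ, zero_smul]
  rw [av_shift]
  have h2 : ∀ γ : Γ, hol (γ * δ⁻¹)⁻¹ p = hol δ 0 + cl hol δ (hol γ⁻¹ p) := by
    intro γ
    rw [mul_inv_rev, inv_inv, map_mul, add_comm, ← hol_eq]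
    rfl
  simp only [h2]
  rw [hol_eq hol δ (av ρ (fun γ : Γ => hol γ⁻¹ p) x), add_comm]
  unfold av
  rw [(cl hol δ).map_tsum (hsm _)]
  have h3 : ∀ γ : Γ, ρ (γ • x) • (hol δ 0 + cl hol δ (hol γ⁻¹ p)) =
      ρ (γ • x) • hol δ 0 + cl hol δ (ρ (γ • x) • hol γ⁻¹ p) := by
    intro γ; rw [smul_add, map_smul]
  simp only [h3]
  rw [Summable.tsum_add (hsm fun _ => hol δ 0)]
  · congr 1
    have h4 : Summable fun γ : Γ => ρ (γ • x) := by
      obtain ⟨F, hF⟩ := hfin x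
      exact summable_of_ne_finset_zero (s := F) fun γ hγ => hF γ hγ
    rw [h4.tsum_smul_const, hsum, one_smul]
  · exact (hsm fun γ : Γ => hol γ⁻¹ p).map (cl hol δ) (cl hol δ).continuous

variable [SecondCountableTopology X] [Nonempty X] [FiniteDimensional ℝ V]

/-- the dimension principle -/
theorem dim_principle (D : AffData X Γ E dev hol)
    (hV : Module.finrank ℝ V ≤ Module.finrank ℝ E) (σ : Γ →* (V →L[ℝ] V)) {C : Set V}
    (hCo : IsOpen C) (hCc : Convex ℝ C) (hCn : C.Nonempty)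
    (hCs : ∀ t : ℝ, 0 < t → ∀ c ∈ C, t • c ∈ C) (h0 : (0 : V) ∉ C)
    (hinv : ∀ γ, ∀ c ∈ C, σ γ c ∈ C)
    (hprop : ∀ K ⊆ C, IsCompact K → {γ : Γ | ∃ c ∈ K, ∃ t : ℝ, 0 < t ∧ t • σ γ c ∈ K}.Finite) :
    False := by
  classical
  let : MeasurableSpace E := borel E
  have : BorelSpace E := ⟨rfl⟩
  let lam : Measure E := Measure.addHaar
  obtain ⟨c0, hc0⟩ := hCn
  obtain ⟨ρ, hρ⟩ := exists_wt D
  have hdev : Continuous dev := D.loc.continuous
  -- the equivariant map to the cone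
  let φ : X → V := av ρ (fun γ : Γ => σ γ⁻¹ c0)
  have hφC : ∀ x, φ x ∈ C := fun x => av_mem hρ hCc (fun γ => hinv γ⁻¹ c0 hc0) x
  have hφ0 : ∀ x, φ x ≠ 0 := fun x h => h0 (by rw [← h]; exact hφC x)
  have hφL : LL dev φ := av_ll D hρ _
  have hφc : Continuous φ := hφL.continuous hdev
  have hφe : ∀ γ x, φ (γ • x) = σ γ (φ x) := fun γ x => av_rep σ hρ c0 γ x
  -- normalization
  obtain ⟨K0, hK0, hK0c⟩ := D.cc
  let nz : X → V := fun x => ‖φ x‖⁻¹ • φ x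
  have hnzc : Continuous nz := (hφc.norm.inv₀ fun x => norm_ne_zero_iff.2 (hφ0 x)).smul hφc
  have hnzC : ∀ x, nz x ∈ C := fun x =>
    hCs _ (inv_pos.2 (norm_pos_iff.2 (hφ0 x))) _ (hφC x)
  have hK1 : IsCompact (nz '' K0) := hK0.image hnzc
  have hK1C : nz '' K0 ⊆ C := by rintro _ ⟨x, -, rfl⟩; exact hnzC x
  have hK1n : (nz '' K0).Nonempty := by
    obtain ⟨x⟩ := ‹Nonempty X›
    obtain ⟨γ, k, hk, -⟩ := hK0c x
    exact ⟨nz k, k, hk, rfl⟩
  obtain ⟨δ, hδ, hδC⟩ := hK1.exists_cthickening_subset_open hCo hK1C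
  set K2 := cthickening δ (nz '' K0) with hK2
  have hK2c : IsCompact K2 := hK1.cthickening
  -- the bump function
  set Θ : V → ℝ := bp (nz '' K0) δ with hΘ
  have hΘpos : ∀ x ∈ K0, 0 < Θ (φ x) := by
    intro x hx
    have h1 : infDist (nz x) (nz '' K0) = 0 := infDist_zero_of_mem ⟨x, hx, rfl⟩
    have h2 : Θ (φ x) = max (δ - infDist (nz x) (nz '' K0)) 0 := rfl
    rw [h2, h1, sub_zero]
    exact lt_max_of_lt_left hδ
  have hΘsupp : ∀ c, Θ c ≠ 0 → ‖c‖⁻¹ • c ∈ K2 := by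
    intro c hc
    by_contra hcon
    apply hc
    have h1 : δ ≤ infDist (‖c‖⁻¹ • c) (nz '' K0) := by
      by_contra hlt
      push Not at hlt
      refine hcon (thickening_subset_cthickening _ _ ?_)
      exact mem_thickening_iff_infDist_lt hK1n |>.2 hlt
    exact max_eq_right (by linarith)
  -- local finiteness
  have hlocV : ∀ c ∈ C, ∃ N ∈ 𝓝 c, ∃ F : Finset Γ, ∀ y ∈ N, y ∈ C → ∀ γ : Γ, Θ (σ γ y) ≠ 0 → γ ∈ F := by
    intro c hc
    obtain ⟨r, hr, hrC⟩ := Metric.nhds_basis_closedBall.mem_iff.1 (hCo.mem_nhds hc)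
    have hfin := hprop (closedBall c r ∪ K2) (union_subset hrC hδC)
      ((isCompact_closedBall c r).union hK2c)
    refine ⟨closedBall c r, closedBall_mem_nhds c hr, hfin.toFinset, fun y hy hyC γ hγ => ?_⟩
    rw [Set.Finite.mem_toFinset]
    have hne : σ γ y ≠ 0 := fun h => h0 (by rw [← h]; exact hinv γ y hyC)
    exact ⟨y, Or.inl hy, ‖σ γ y‖⁻¹, inv_pos.2 (norm_pos_iff.2 hne), Or.inr (hΘsupp _ hγ)⟩
  have hΘe : ∀ (γ : Γ) x, Θ (φ (γ • x)) = Θ (σ γ (φ x)) := fun γ x => by rw [hφe]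
  have hlocX : ∀ x, ∃ N ∈ 𝓝 x, ∃ F : Finset Γ, ∀ y ∈ N, ∀ γ : Γ, γ ∉ F → Θ (φ (γ • y)) = 0 := by
    intro x
    obtain ⟨N, hN, F, hF⟩ := hlocV (φ x) (hφC x)
    refine ⟨φ ⁻¹' N, hφc.continuousAt hN, F, fun y hy γ hγ => ?_⟩
    by_contra hne
    rw [hΘe] at hne
    exact hγ (hF _ hy (hφC y) γ hne)
  -- the weights
  have hΘL : LL dev (fun x => Θ (φ x)) := by
    refine hφL.comp hdev fun x => ?_
    obtain ⟨N, hN, L, hL, H⟩ := bp_lip (nz '' K0) δ (hφ0 x)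
    exact ⟨N, hN, L, hL, fun y hy z hz => H _ hy _ hz⟩
  let S : X → ℝ := fun x => ∑' γ : Γ, Θ (φ (γ • x))
  have hSL : LL dev S := by
    refine LL.of_local fun x => ?_
    obtain ⟨N, hN, F, hF⟩ := hlocX x
    refine ⟨N, hN, fun x => ∑ γ ∈ F, Θ (φ (γ • x)), LL.sum F fun γ _ => hΘL.smul_group D γ,
      fun y hy => tsum_eq_sum fun γ hγ => hF y hy γ hγ⟩
  have hSpos : ∀ x, 0 < S x := by
    intro x
    obtain ⟨N, hN, F, hF⟩ := hlocX x
    have h1 : S x = ∑ γ ∈ F, Θ (φ (γ • x)) := tsum_eq_sum fun γ hγ => hF x (mem_of_mem_nhds hN) γ hγ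
    obtain ⟨γ, k, hk, hγk⟩ := hK0c x
    have h2 : 0 < Θ (φ (γ⁻¹ • x)) := by
      rw [← hγk, inv_smul_smul]
      exact hΘpos k hk
    have h3 : γ⁻¹ ∈ F := by
      by_contra h
      exact h2.ne' (hF x (mem_of_mem_nhds hN) _ h)
    rw [h1]
    exact h2.trans_le (Finset.single_le_sum (f := fun γ : Γ => Θ (φ (γ • x)))
      (fun γ _ => bp_nonneg _ _ _) h3)
  have hSinv : ∀ (δ : Γ) x, S (δ • x) = S x := by
    intro δ x
    show ∑' γ : Γ, Θ (φ (γ • δ • x)) = ∑' γ : Γ, Θ (φ (γ • x))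
    rw [← Equiv.tsum_eq (Equiv.mulRight δ) (fun γ : Γ => Θ (φ (γ • x)))]
    refine tsum_congr fun γ => ?_
    rw [smul_smul]
    rfl
  let w : X → ℝ := fun x => (S x)⁻¹ * Θ (φ x)
  have hwe : ∀ (γ : Γ) x, w (γ • x) = (S x)⁻¹ * Θ (φ (γ • x)) := fun γ x => by
    show (S (γ • x))⁻¹ * Θ (φ (γ • x)) = _
    rw [hSinv]
  have hwfin : ∀ x, ∃ F : Finset Γ, ∀ γ : Γ, γ ∉ F → w (γ • x) = 0 := by
    intro x
    obtain ⟨N, hN, F, hF⟩ := hlocX x
    exact ⟨F, fun γ hγ => by rw [hwe, hF x (mem_of_mem_nhds hN) γ hγ, mul_zero]⟩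
  have hwsum : ∀ x, ∑' γ : Γ, w (γ • x) = 1 := by
    intro x
    simp only [hwe]
    rw [tsum_mul_left]
    exact inv_mul_cancel₀ (hSpos x).ne'
  let p : E := 0
  let f : X → E := av w (fun γ : Γ => hol γ⁻¹ p)
  have hfe : ∀ (γ : Γ) x, f (γ • x) = hol γ (f x) := fun γ x => av_hol' hwfin hwsum p γ x
  -- local formula for `f`
  have hfloc : ∀ x, ∃ N ∈ 𝓝 x, ∃ F : Finset Γ, (∀ y ∈ N, S y = ∑ γ ∈ F, Θ (φ (γ • y))) ∧ ∀ y ∈ N,
      f y = (∑ γ ∈ F, Θ (φ (γ • y)))⁻¹ • ∑ γ ∈ F, Θ (φ (γ • y)) • hol γ⁻¹ p := by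
    intro x
    obtain ⟨N, hN, F, hF⟩ := hlocX x
    refine ⟨N, hN, F, fun y hy => tsum_eq_sum fun γ hγ => hF y hy γ hγ, fun y hy => ?_⟩
    have h1 : f y = ∑ γ ∈ F, w (γ • y) • hol γ⁻¹ p := by
      refine tsum_eq_sum fun γ hγ => ?_
      rw [hwe, hF y hy γ hγ, mul_zero, zero_smul]
    have h2 : S y = ∑ γ ∈ F, Θ (φ (γ • y)) := tsum_eq_sum fun γ hγ => hF y hy γ hγ
    rw [h1, ← h2, Finset.smul_sum]
    refine Finset.sum_congr rfl fun γ _ => ?_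
    rw [hwe, mul_smul]
  have hwL : LL dev w := by
    have h1 := (LL.inv hdev hSL hSpos).smul hdev hΘL
    exact h1
  have hfL : LL dev f := by
    refine LL.of_local fun x => ?_
    obtain ⟨N, hN, F, hF⟩ := hlocX x
    refine ⟨N, hN, fun y => ∑ γ ∈ F, w (γ • y) • hol γ⁻¹ p,
      LL.sum F fun γ _ => (hwL.smul_group D γ).smul hdev (LL.const _), fun y hy => ?_⟩
    refine tsum_eq_sum fun γ hγ => ?_
    rw [hwe, hF y hy γ hγ, mul_zero, zero_smul]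
  -- the differential is singular almost everywhere
  refine principle_ae lam D (vf_of_map D hfL hfe) fun U s hs => ?_
  filter_upwards [LL.ae_diff lam hφL hs] with q hq hqU A hA
  have hdφ := (hq hqU).hasFDerivAt
  set T := fderiv ℝ (fun q => φ (s q)) q with hT
  set c := φ (s q) with hc
  have hcC : c ∈ C := hφC _
  -- a direction in the kernel modulo `c`
  obtain ⟨v, hv0, a, hva⟩ : ∃ v : E, v ≠ 0 ∧ ∃ a : ℝ, T v = a • c := by
    let g : E →ₗ[ℝ] (V ⧸ Submodule.span ℝ {c}) :=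
      (Submodule.mkQ (Submodule.span ℝ {c})).comp (T : E →ₗ[ℝ] V)
    have h1 : Module.finrank ℝ (V ⧸ Submodule.span ℝ {c}) < Module.finrank ℝ E := by
      have h2 := Submodule.finrank_quotient_add_finrank (Submodule.span ℝ {c})
      rw [finrank_span_singleton (K := ℝ) (hφ0 (s q))] at h2
      omega
    have h2 : LinearMap.ker g ≠ ⊥ := LinearMap.ker_ne_bot_of_finrank_lt h1
    obtain ⟨v, hv, hv0⟩ := (Submodule.ne_bot_iff _).1 h2
    refine ⟨v, hv0, ?_⟩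
    have h3 : T v ∈ Submodule.span ℝ {c} := (Submodule.Quotient.mk_eq_zero _).1 (LinearMap.mem_ker.1 hv)
    obtain ⟨a, ha⟩ := Submodule.mem_span_singleton.1 h3
    exact ⟨a, ha.symm⟩
  -- the curve
  have hline : HasDerivAt (fun t : ℝ => q + t • v) v 0 := by
    simpa using ((hasDerivAt_id (0 : ℝ)).smul_const v).const_add q
  have hu : HasDerivAt (fun t : ℝ => φ (s (q + t • v))) (a • c) 0 := by
    have h1 : HasFDerivAt (fun q => φ (s q)) T (q + (0 : ℝ) • v) := by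
      rw [zero_smul, add_zero]; exact hdφ
    have h2 := h1.comp_hasDerivAt (0 : ℝ) hline
    rwa [hva] at h2
  have hw : HasDerivAt (fun t : ℝ => (1 + t * a)⁻¹ • φ (s (q + t • v))) 0 0 := by
    have h1 : HasDerivAt (fun t : ℝ => 1 + t * a) a 0 := by
      simpa using ((hasDerivAt_id (0 : ℝ)).mul_const a).const_add 1
    have h2 := (h1.fun_inv (by simp)).fun_smul hu
    convert h2 using 1
    simp [hc]
  have hw0 : (1 + (0 : ℝ) * a)⁻¹ • φ (s (q + (0 : ℝ) • v)) = c := by simp [hc]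
  -- the functions along the curve
  have hΘd : ∀ γ : Γ, HasDerivAt (fun t : ℝ => Θ (φ (γ • s (q + t • v)))) 0 0 := by
    intro γ
    have h1 : HasDerivAt (fun t : ℝ => σ γ ((1 + t * a)⁻¹ • φ (s (q + t • v)))) 0 0 := by
      have h2 := (σ γ).hasFDerivAt.comp_hasDerivAt (0 : ℝ) hw
      rwa [map_zero] at h2
    have h3 : σ γ c ≠ 0 := fun h => h0 (by rw [← h]; exact hinv γ c hcC)
    obtain ⟨N, hN, L, hL, H⟩ := bp_lip (nz '' K0) δ h3
    have h4 := hasDerivAt_zero_comp h1 (by rw [hw0]) hN (g := Θ) H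
    refine h4.congr_of_eventuallyEq ?_
    have h5 : ∀ᶠ t : ℝ in 𝓝 0, 0 < 1 + t * a := by
      have h6 : Tendsto (fun t : ℝ => 1 + t * a) (𝓝 0) (𝓝 (1 + 0 * a)) :=
        (tendsto_id.mul_const a).const_add 1
      rw [zero_mul, add_zero] at h6
      exact h6.eventually_const_lt zero_lt_one
    filter_upwards [h5] with t ht
    rw [map_smul]
    show Θ (φ (γ • s (q + t • v))) = bp (nz '' K0) δ ((1 + t * a)⁻¹ • σ γ (φ (s (q + t • v))))
    rw [bp_smul _ _ _ (inv_pos.2 ht), ← hφe]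
  obtain ⟨N, hN, F, hFS, hF⟩ := hfloc (s q)
  have hSq : (∑ γ ∈ F, Θ (φ (γ • s (q + (0 : ℝ) • v)))) ≠ 0 := by
    rw [zero_smul, add_zero, ← hFS _ (mem_of_mem_nhds hN)]
    exact (hSpos _).ne'
  have hfd : HasDerivAt (fun t : ℝ => f (s (q + t • v))) 0 0 := by
    have h1 : HasDerivAt (fun t : ℝ => ∑ γ ∈ F, Θ (φ (γ • s (q + t • v)))) 0 0 := by
      have := HasDerivAt.fun_sum (u := F) fun γ _ => hΘd γ
      simpa using this
    have h2 : HasDerivAt (fun t : ℝ => ∑ γ ∈ F, Θ (φ (γ • s (q + t • v))) • hol γ⁻¹ p) 0 0 := by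
      have := HasDerivAt.fun_sum (u := F) fun γ _ => (hΘd γ).smul_const (hol γ⁻¹ p)
      simpa using this
    have h3 := (h1.fun_inv hSq).fun_smul h2
    simp only [smul_zero, neg_zero, zero_div, zero_smul, add_zero] at h3
    refine h3.congr_of_eventuallyEq ?_
    have h4 : ContinuousAt (fun t : ℝ => s (q + t • v)) 0 := by
      have h5 : ContinuousAt s (q + (0 : ℝ) • v) := by
        rw [zero_smul, add_zero]
        exact (hs.cont q hqU).continuousAt (hs.isOpen.mem_nhds hqU)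
      exact ContinuousAt.comp (f := fun t : ℝ => q + t • v) h5 hline.continuousAt
    have h5 : N ∈ 𝓝 (s (q + (0 : ℝ) • v)) := by rw [zero_smul, add_zero]; exact hN
    filter_upwards [h4 h5] with t ht
    exact hF _ ht
  -- the derivative of `f` in the chart
  have hA' : HasFDerivAt (fun q => f (s q)) (A + ContinuousLinearMap.id ℝ E) q := by
    have h2 := hA.add (hasFDerivAt_id q)
    refine h2.congr_of_eventuallyEq ?_
    filter_upwards [hs.isOpen.mem_nhds hqU] with p hp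
    simp [hs.inv p hp]
  have hfd' : HasDerivAt (fun t : ℝ => f (s (q + t • v))) ((A + ContinuousLinearMap.id ℝ E) v) 0 := by
    have h1 : HasFDerivAt (fun q => f (s q)) (A + ContinuousLinearMap.id ℝ E) (q + (0 : ℝ) • v) := by
      rw [zero_smul, add_zero]; exact hA'
    exact h1.comp_hasDerivAt (0 : ℝ) hline
  have hker : (A + ContinuousLinearMap.id ℝ E) v = 0 := hfd'.unique hfd
  by_contra hne
  have h1 : LinearMap.det ((ContinuousLinearMap.id ℝ E + A : E →L[ℝ] E) : E →ₗ[ℝ] E) ≠ 0 := hne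
  have h2 : Function.Injective ((ContinuousLinearMap.id ℝ E + A : E →L[ℝ] E) : E →ₗ[ℝ] E) :=
    (LinearMap.equivOfDetNeZero _ h1).injective
  apply hv0
  apply h2
  rw [map_zero]
  show v + A v = 0
  rw [add_comm]
  exact hker

end

end Pool.Agent.P8H83
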