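import Pool.Agent.P8H83.Uni
import Pool.Agent.P8H83.Unf

/-!
Domains with a proper cocompact volume preserving affine action: the complement has no bounded
pieces, and the group has one end.
-/

set_option autoImplicit false

open Set Filter Topology Metric MeasureTheory
open Pool.Agent.W689.Mk

namespace Pool.Agent.P8H83

section
variable {E : Type} [NormedAddCommGroup E] [NormedSpace ℝ E]

/-- compact sets lie in compact connected sets -/
theorem exists_conn_cpt {Ω : Set E} [FiniteDimensional ℝ E] (hΩ : IsOpen Ω)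
    (hc : IsPreconnected Ω) {K : Set E} (hK : IsCompact K) (hKΩ : K ⊆ Ω) :
    ∃ D, IsCompact D ∧ IsPreconnected D ∧ K ⊆ D ∧ D ⊆ Ω := by
  classical
  rcases K.eq_empty_or_nonempty with rfl | ⟨x0, hx0⟩
  · exact ⟨∅, isCompact_empty, isPreconnected_empty, subset_rfl, empty_subset _⟩
  have hpc : IsPathConnected Ω := (hΩ.isConnected_iff_isPathConnected).1 ⟨⟨x0, hKΩ hx0⟩, hc⟩
  have h1 : ∀ x ∈ K, ∃ S, IsCompact S ∧ IsPreconnected S ∧ S ⊆ Ω ∧ x0 ∈ S ∧ S ∈ 𝓝 x := by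
    intro x hx
    obtain ⟨r, hr, hrΩ⟩ := Metric.nhds_basis_closedBall.mem_iff.1 (hΩ.mem_nhds (hKΩ hx))
    obtain ⟨p, hp⟩ := hpc.joinedIn x0 (hKΩ hx0) x (hKΩ hx)
    have e1 : IsPreconnected (range p) := isPreconnected_range p.continuous
    have e2 : IsCompact (range p) := isCompact_range p.continuous
    refine ⟨range p ∪ closedBall x r, e2.union (isCompact_closedBall _ _), ?_, ?_, ?_, ?_⟩
    · exact IsPreconnected.union x ⟨1, p.target⟩ (mem_closedBall_self hr.le) e1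
        (convex_closedBall x r).isPreconnected
    · refine union_subset ?_ hrΩ
      rintro _ ⟨t, rfl⟩
      exact hp t
    · exact Or.inl ⟨0, p.source⟩
    · exact mem_of_superset (closedBall_mem_nhds x hr) subset_union_right
  choose! S hS1 hS2 hS3 hS4 hS5 using h1
  obtain ⟨t, ht, htK⟩ := hK.elim_nhds_subcover S hS5
  refine ⟨⋃ x ∈ t, S x, t.finite_toSet.isCompact_biUnion fun x hx => hS1 x (ht x hx), ?_, htK,
    iUnion₂_subset fun x hx => hS3 x (ht x hx)⟩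
  have hU : (⋃ x ∈ t, S x) = ⋃₀ (S '' (t : Set E)) := by
    rw [sUnion_image]
    rfl
  rw [hU]
  refine isPreconnected_sUnion x0 _ ?_ ?_
  · rintro _ ⟨x, hx, rfl⟩
    exact hS4 x (ht x hx)
  · rintro _ ⟨x, hx, rfl⟩
    exact hS2 x (ht x hx)

variable {Γ : Type} [Group Γ] {hol : Γ →* (E ≃ᵃ[ℝ] E)} {Ω : Set E}

/-- proper cocompact volume preserving actions on connected open sets -/
structure Dom (hol : Γ →* (E ≃ᵃ[ℝ] E)) (Ω : Set E) : Prop where
  op : IsOpen Ω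
  conn : IsPreconnected Ω
  inv : ∀ γ, ∀ p ∈ Ω, hol γ p ∈ Ω
  det : ∀ γ, |LinearMap.det ((hol γ).linear : E →ₗ[ℝ] E)| = 1
  pd : ∀ K ⊆ Ω, IsCompact K → {γ : Γ | ∃ x ∈ K, hol γ x ∈ K}.Finite
  cc : ∃ K ⊆ Ω, IsCompact K ∧ ∀ x ∈ Ω, ∃ γ, ∃ k ∈ K, hol γ k = x

theorem image_eq_pre (hol : Γ →* (E ≃ᵃ[ℝ] E)) (γ : Γ) (S : Set E) :
    hol γ '' S = hol γ⁻¹ ⁻¹' S := by
  ext y
  constructor
  · rintro ⟨x, hx, rfl⟩
    rw [mem_preimage, hol_inv_apply]
    exact hx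
  · intro hy
    exact ⟨hol γ⁻¹ y, hy, hol_apply_inv γ y⟩

variable [FiniteDimensional ℝ E]

/-- the homeomorphism given by an element -/
noncomputable def hh (hol : Γ →* (E ≃ᵃ[ℝ] E)) (γ : Γ) : E ≃ₜ E where
  toFun := hol γ
  invFun := hol γ⁻¹
  left_inv := hol_inv_apply γ
  right_inv := hol_apply_inv γ
  continuous_toFun := hol_cont γ
  continuous_invFun := hol_cont γ⁻¹

theorem hh_apply (hol : Γ →* (E ≃ᵃ[ℝ] E)) (γ : Γ) (p : E) : hh hol γ p = hol γ p := rfl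

theorem hh_image (hol : Γ →* (E ≃ᵃ[ℝ] E)) (γ : Γ) (S : Set E) : hh hol γ '' S = hol γ '' S := rfl

theorem Dom.vol (h : Dom hol Ω) [MeasurableSpace E] [BorelSpace E] (μ : Measure E)
    [μ.IsAddHaarMeasure] (γ : Γ) (S : Set E) : μ (hol γ '' S) = μ S := by
  rw [image_eq_pre]
  have hd : |LinearMap.det ((cl hol γ⁻¹ : E →L[ℝ] E) : E →ₗ[ℝ] E)| = 1 := h.det γ⁻¹
  have e1 : (hol γ⁻¹ : E → E) ⁻¹' S =
      ((cl hol γ⁻¹ : E →L[ℝ] E) : E →ₗ[ℝ] E) ⁻¹' ((fun z => z + hol γ⁻¹ 0) ⁻¹' S) := by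
    ext y
    show hol γ⁻¹ y ∈ S ↔ cl hol γ⁻¹ y + hol γ⁻¹ 0 ∈ S
    rw [← hol_eq]
  have h1 : LinearMap.det ((cl hol γ⁻¹ : E →L[ℝ] E) : E →ₗ[ℝ] E) ≠ 0 := by
    intro h0
    rw [h0, abs_zero] at hd
    exact zero_ne_one hd
  rw [e1, Measure.addHaar_preimage_linearMap μ h1, abs_inv, hd, inv_one,
    ENNReal.ofReal_one, one_mul, measure_preimage_add_right]

omit [FiniteDimensional ℝ E] in
theorem Dom.mul_apply (γ δ : Γ) (p : E) : hol (γ * δ) p = hol γ (hol δ p) := by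
  rw [map_mul]; rfl

omit [FiniteDimensional ℝ E] in
/-- local finiteness -/
theorem Dom.pd2 (h : Dom hol Ω) {K L : Set E} (hK : IsCompact K) (hKΩ : K ⊆ Ω)
    (hL : IsCompact L) (hLΩ : L ⊆ Ω) : {γ : Γ | ∃ x ∈ K, hol γ x ∈ L}.Finite := by
  refine (h.pd (K ∪ L) (union_subset hKΩ hLΩ) (hK.union hL)).subset ?_
  rintro γ ⟨x, hx, hx'⟩
  exact ⟨x, Or.inl hx, Or.inr hx'⟩

/-- a connected compact fundamental set -/
theorem Dom.exists_fund (h : Dom hol Ω) {Q : Set E} (hQ : IsCompact Q) (hQΩ : Q ⊆ Ω) :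
    ∃ D, IsCompact D ∧ IsPreconnected D ∧ Q ⊆ D ∧ D ⊆ Ω ∧
      ∀ x ∈ Ω, ∃ γ, ∃ k ∈ D, hol γ k = x := by
  obtain ⟨K, hKΩ, hK, hcc⟩ := h.cc
  obtain ⟨D, hD1, hD2, hD3, hD4⟩ := exists_conn_cpt h.op h.conn (hK.union hQ)
    (union_subset hKΩ hQΩ)
  refine ⟨D, hD1, hD2, subset_union_right.trans hD3, hD4, fun x hx => ?_⟩
  obtain ⟨γ, k, hk, hkx⟩ := hcc x hx
  exact ⟨γ, k, hD3 (Or.inl hk), hkx⟩

/-- the complement of the domain has no bounded pieces -/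
theorem Dom.fill (h : Dom hol Ω) (h2 : 1 < Module.rank ℝ E) {Q U : Set E} (hQ : IsCompact Q)
    (hQΩ : Q ⊆ Ω) (hU : IsOpen U) (hUc : IsPreconnected U)
    (hfr : frontier U ⊆ Q) (hR : ∃ R, (closedBall (0 : E) R)ᶜ ⊆ U) : Uᶜ ⊆ Ω := by
  classical
  by_contra hcon
  rw [not_subset] at hcon
  obtain ⟨c, hcU, hcΩ⟩ := hcon
  obtain ⟨R, hR⟩ := hR
  have hnt : Nontrivial E := by
    rw [← rank_pos_iff_nontrivial (R := ℝ)]
    exact zero_lt_one.trans h2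
  obtain ⟨N, hN⟩ : ∃ N : Set E, N = Uᶜ := ⟨_, rfl⟩
  have hNb : N ⊆ closedBall 0 R := by
    rw [hN]
    exact compl_subset_comm.1 hR
  have hNc : IsClosed N := by rw [hN]; exact hU.isClosed_compl
  have hNcpt : IsCompact N := (isCompact_closedBall _ _).of_isClosed_subset hNc hNb
  have hfrN : frontier N ⊆ Q := by rw [hN, frontier_compl]; exact hfr
  have hNfr : ∀ x ∈ N, x ∉ frontier N → x ∈ interior N := by
    intro x hx hx'
    by_contra h3
    exact hx' (hNc.frontier_eq ▸ ⟨hx, h3⟩)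
  -- bounded sets with empty frontier
  have hbd : ∀ S : Set E, S ⊆ N → S.Nonempty → (frontier S).Nonempty := by
    intro S hS hne
    by_contra h3
    rw [not_nonempty_iff_eq_empty, ← isClopen_iff_frontier_eq_empty, isClopen_iff] at h3
    rcases h3 with h3 | h3
    · exact hne.ne_empty h3
    · obtain ⟨y, hy⟩ := NormedSpace.exists_lt_norm ℝ E R
      have h4 := hNb (hS (h3 ▸ mem_univ y))
      rw [mem_closedBall_zero_iff] at h4
      exact absurd h4 (not_le.2 hy)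
  -- a boundary point of the domain in the interior
  obtain ⟨C, hC⟩ : ∃ C : Set E, C = N ∩ Ωᶜ := ⟨_, rfl⟩
  have hCcl : IsClosed C := by rw [hC]; exact hNc.inter h.op.isClosed_compl
  obtain ⟨x, hx⟩ := hbd C (by rw [hC]; exact inter_subset_left)
    ⟨c, by rw [hC, hN]; exact ⟨hcU, hcΩ⟩⟩
  have hxC : x ∈ C := hCcl.frontier_subset hx
  have hxN : x ∈ N ∧ x ∉ Ω := by rw [hC] at hxC; exact hxC
  have hxi : x ∈ interior N := hNfr x hxN.1 fun h3 => hxN.2 (hQΩ (hfrN h3))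
  have hxcl : ∀ V : Set E, IsOpen V → x ∈ V → ∃ y ∈ V, y ∈ Ω := by
    intro V hV hxV
    have h3 : x ∈ closure Cᶜ := by
      rw [frontier_eq_closure_inter_closure] at hx
      exact hx.2
    obtain ⟨y, ⟨hy1, hy2⟩, hy3⟩ := mem_closure_iff.1 h3 (V ∩ interior N) (hV.inter isOpen_interior)
      ⟨hxV, hxi⟩
    refine ⟨y, hy1, ?_⟩
    by_contra h4
    exact hy3 (by rw [hC]; exact ⟨interior_subset hy2, h4⟩)
  -- a fundamental set
  obtain ⟨D, hD1, hD2, hD3, hD4, hD5⟩ := h.exists_fund hQ hQΩ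
  have hFfin := h.pd D hD4 hD1
  obtain ⟨F, hF⟩ : ∃ F : Set Γ, F = {γ : Γ | ∃ x ∈ D, hol γ x ∈ D} := ⟨_, rfl⟩
  rw [← hF] at hFfin
  have hFD : IsCompact (⋃ γ ∈ F, hol γ '' D) :=
    hFfin.isCompact_biUnion fun γ _ => hD1.image (hol_cont γ)
  have hFΩ : (⋃ γ ∈ F, hol γ '' D) ⊆ Ω := by
    refine iUnion₂_subset fun γ _ => ?_
    rintro _ ⟨y, hy, rfl⟩
    exact h.inv γ y (hD4 hy)
  obtain ⟨ω, ⟨hω1, hω2⟩, hω3⟩ := hxcl (interior N ∩ (⋃ γ ∈ F, hol γ '' D)ᶜ)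
    (isOpen_interior.inter hFD.isClosed.isOpen_compl) ⟨hxi, fun h3 => hxN.2 (hFΩ h3)⟩
  obtain ⟨γ, k, hkD, hkω⟩ := hD5 ω hω3
  have hγF : γ ∉ F := fun h3 => hω2 (mem_iUnion₂.2 ⟨γ, h3, ⟨k, hkD, hkω⟩⟩)
  have hγD : ∀ y ∈ D, hol γ y ∉ D := by
    intro y hy hy'
    apply hγF
    rw [hF]
    exact ⟨y, hy, hy'⟩
  -- the translate lies inside
  have hin : hol γ '' D ⊆ interior N := by
    have h3 : IsPreconnected (hol γ '' D) := hD2.image _ (hol_cont γ).continuousOn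
    refine h3.subset_left_of_subset_union isOpen_interior hU ?_ ?_ ⟨ω, ⟨k, hkD, hkω⟩, hω1⟩
    · rw [Set.disjoint_left]
      intro y hy hy'
      have := interior_subset hy
      rw [hN] at this
      exact this hy'
    · rintro _ ⟨y, hy, rfl⟩
      by_cases h4 : hol γ y ∈ U
      · exact Or.inr h4
      · left
        refine hNfr _ (by rw [hN]; exact h4) fun h5 => ?_
        exact hγD y hy (hD3 (hfrN h5))
  have hinQ : hol γ '' frontier N ⊆ interior N :=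
    (image_mono (hfrN.trans hD3)).trans hin
  -- the outer component
  have hUU : U ⊆ hol γ '' U := by
    have h3 : IsOpen (hol γ '' U) := (hh hol γ).isOpenMap U hU
    have h4 : frontier (hol γ '' U) = hol γ '' frontier N := by
      rw [hN, frontier_compl]
      exact ((hh hol γ).image_frontier U).symm
    by_contra h5
    obtain ⟨a, haU, ha⟩ := not_subset.1 h5
    -- both are large
    have h6 : ∃ y ∈ U, y ∈ hol γ '' U := by
      have h7 : IsCompact (closedBall (0 : E) R ∪ hol γ '' closedBall (0 : E) R) :=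
        (isCompact_closedBall _ _).union ((isCompact_closedBall _ _).image (hol_cont γ))
      obtain ⟨R', hR'⟩ := h7.isBounded.subset_closedBall 0
      obtain ⟨y, hy⟩ := NormedSpace.exists_lt_norm ℝ E R'
      have hy' : y ∉ closedBall (0 : E) R' := by
        rw [mem_closedBall_zero_iff, not_le]; exact hy
      refine ⟨y, hR fun h8 => hy' (hR' (Or.inl h8)), ?_⟩
      rw [image_eq_pre]
      refine hR fun h8 => hy' (hR' (Or.inr ?_))
      rw [image_eq_pre]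
      exact h8
    obtain ⟨y, hyU, hy⟩ := h6
    have h7 : (U ∩ frontier (hol γ '' U)).Nonempty := by
      have h8 : ((hol γ '' U)ᶜ ∩ U).Nonempty := ⟨a, ha, haU⟩
      by_contra h9
      have h10 : U ⊆ hol γ '' U ∪ (closure (hol γ '' U))ᶜ := by
        intro z hz
        by_cases hz1 : z ∈ hol γ '' U
        · exact Or.inl hz1
        · right
          intro hz2
          exact h9 ⟨z, hz, by rw [h3.frontier_eq]; exact ⟨hz2, hz1⟩⟩
      obtain ⟨z, hz1, hz2, hz3⟩ := hUc _ _ h3 isClosed_closure.isOpen_compl h10 ⟨y, hyU, hy⟩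
        ⟨a, haU, by
          rcases h10 haU with h11 | h11
          · exact absurd h11 ha
          · exact h11⟩
      exact hz3 (subset_closure hz2)
    obtain ⟨z, hz1, hz2⟩ := h7
    rw [h4] at hz2
    have h8 := interior_subset (hinQ hz2)
    rw [hN] at h8
    exact h8 hz1
  have hγN : hol γ '' N ⊆ N := by
    rw [hN]
    rintro _ ⟨y, hy, rfl⟩ h3
    obtain ⟨z, hz, hzy⟩ := hUU h3
    exact hy ((hol γ).injective hzy ▸ hz)
  have hγint : hol γ '' interior N ⊆ interior N := by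
    have h3 : IsOpen (hol γ '' interior N) := (hh hol γ).isOpenMap _ isOpen_interior
    exact interior_maximal ((image_mono interior_subset).trans hγN) h3
  -- volume
  obtain ⟨y, hy⟩ := hbd (interior N) interior_subset ⟨x, hxi⟩
  rw [isOpen_interior.frontier_eq] at hy
  have hyγ : y ∉ hol γ '' N := by
    rintro ⟨z, hz, hzy⟩
    apply hy.2
    by_cases h3 : z ∈ frontier N
    · exact hinQ ⟨z, h3, hzy⟩
    · exact hγint ⟨z, hNfr z hz h3, hzy⟩
  have hγNc : IsClosed (hol γ '' N) := (hNcpt.image (hol_cont γ)).isClosed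
  obtain ⟨O, hO⟩ : ∃ O : Set E, O = interior N ∩ (hol γ '' N)ᶜ := ⟨_, rfl⟩
  have hOo : IsOpen O := by rw [hO]; exact isOpen_interior.inter hγNc.isOpen_compl
  have hOn : O.Nonempty := by
    obtain ⟨z, hz1, hz2⟩ := mem_closure_iff.1 hy.1 _ hγNc.isOpen_compl hyγ
    exact ⟨z, by rw [hO]; exact ⟨hz2, hz1⟩⟩
  let : MeasurableSpace E := borel E
  have : BorelSpace E := ⟨rfl⟩
  let μ : Measure E := Measure.addHaar
  have hμO : 0 < μ O := hOo.measure_pos μ hOn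
  have hμN : μ N < ⊤ := hNcpt.measure_lt_top
  have h3 : μ (hol γ '' N) + μ O ≤ μ N := by
    rw [← measure_union (by
      rw [Set.disjoint_left, hO]
      exact fun z hz hz' => hz'.2 hz) hOo.measurableSet]
    refine measure_mono (union_subset hγN ?_)
    rw [hO]
    exact inter_subset_left.trans interior_subset
  rw [h.vol μ γ N] at h3
  have h4 : μ N < μ N + μ O := ENNReal.lt_add_right hμN.ne hμO.ne'
  exact absurd h3 (not_le.2 h4)

/-- the group is infinite -/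
theorem Dom.infinite (h : Dom hol Ω) [Nontrivial E] (hne : Ω.Nonempty) : Infinite Γ := by
  by_contra hfin
  rw [not_infinite_iff_finite] at hfin
  obtain ⟨K, hKΩ, hK, hcc⟩ := h.cc
  have h1 : Ω = ⋃ γ : Γ, hol γ '' K := by
    apply Subset.antisymm
    · intro x hx
      obtain ⟨γ, k, hk, hkx⟩ := hcc x hx
      exact mem_iUnion.2 ⟨γ, k, hk, hkx⟩
    · refine iUnion_subset fun γ => ?_
      rintro _ ⟨y, hy, rfl⟩
      exact h.inv γ y (hKΩ hy)
  have h2 : IsCompact Ω := by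
    rw [h1]
    exact isCompact_iUnion fun γ => hK.image (hol_cont γ)
  have h3 : IsClopen Ω := ⟨h2.isClosed, h.op⟩
  rcases isClopen_iff.1 h3 with h4 | h4
  · exact hne.ne_empty h4
  · rw [h4] at h2
    exact (NormedSpace.noncompactSpace ℝ E).noncompact_univ h2

/-- the group has at most one end -/
theorem Dom.ends (h : Dom hol Ω) (h2 : 1 < Module.rank ℝ E) (hne : Ω.Nonempty) {A : Set Γ}
    (hA : ∀ g : Γ, {a | a ∈ A ∧ a * g ∉ A}.Finite) : A.Finite ∨ Aᶜ.Finite := by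
  classical
  obtain ⟨D, hD1, -, hD3, hD4, hD5⟩ := h.exists_fund isCompact_empty (empty_subset Ω)
  obtain ⟨p0, hp0⟩ : D.Nonempty := by
    obtain ⟨x, hx⟩ := hne
    obtain ⟨γ, k, hk, -⟩ := hD5 x hx
    exact ⟨k, hk⟩
  have hFfin := h.pd D hD4 hD1
  obtain ⟨F, hF⟩ : ∃ F : Set Γ, F = {γ : Γ | ∃ x ∈ D, hol γ x ∈ D} := ⟨_, rfl⟩
  rw [← hF] at hFfin
  obtain ⟨S, hS⟩ : ∃ S : Set Γ, S = ⋃ g ∈ F, {a | a ∈ A ∧ a * g ∉ A} := ⟨_, rfl⟩
  have hSfin : S.Finite := by rw [hS]; exact hFfin.biUnion fun g _ => hA g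
  obtain ⟨Q, hQ⟩ : ∃ Q : Set E, Q = ⋃ γ ∈ S, hol γ '' D := ⟨_, rfl⟩
  have hQc : IsCompact Q := by
    rw [hQ]
    exact hSfin.isCompact_biUnion fun γ _ => hD1.image (hol_cont γ)
  have hDΩ : ∀ γ, hol γ '' D ⊆ Ω := by
    rintro γ _ ⟨y, hy, rfl⟩
    exact h.inv γ y (hD4 hy)
  have hQΩ : Q ⊆ Ω := by rw [hQ]; exact iUnion₂_subset fun γ _ => hDΩ γ
  obtain ⟨U, hU1, hU2, hU3, hU4, R, hU5⟩ := exists_outer (E := E) h2 hQc
  have hNΩ : Uᶜ ⊆ Ω := h.fill h2 hQc hQΩ hU1 hU2 hU4 ⟨R, hU5⟩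
  have hNc : IsCompact Uᶜ :=
    (isCompact_closedBall (0 : E) R).of_isClosed_subset hU1.isClosed_compl (compl_subset_comm.1 hU5)
  have huniv : Ω ∪ U = univ := by
    rw [eq_univ_iff_forall]
    intro x
    by_cases hx : x ∈ U
    · exact Or.inr hx
    · exact Or.inl (hNΩ hx)
  have hcon : IsPreconnected (Ω ∩ U) := inter_preconnected h.op hU1 h.conn hU2 huniv
  -- the two pieces
  obtain ⟨P, hP⟩ : ∃ P : Set Γ → Set E, P = fun B => ⋃ γ ∈ B, hol γ '' D := ⟨_, rfl⟩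
  have hPm : ∀ B x, x ∈ P B ↔ ∃ γ ∈ B, ∃ k ∈ D, hol γ k = x := by
    intro B x
    rw [hP]
    simp only [mem_iUnion, mem_image, exists_prop]
  have hPo : ∀ B, IsOpen (Ω \ P B) := by
    intro B
    rw [isOpen_iff_mem_nhds]
    rintro x ⟨hxΩ, hxP⟩
    obtain ⟨r, hr, hrΩ⟩ := Metric.nhds_basis_closedBall.mem_iff.1 (h.op.mem_nhds hxΩ)
    have hT := h.pd2 hD1 hD4 (isCompact_closedBall x r) hrΩ
    have hTB := hT.subset (inter_subset_left (t := B))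
    have hcl : IsClosed (⋃ γ ∈ {γ : Γ | ∃ x_1 ∈ D, hol γ x_1 ∈ closedBall x r} ∩ B, hol γ '' D) :=
      (hTB.isCompact_biUnion fun γ _ => hD1.image (hol_cont γ)).isClosed
    have hxn : x ∉ ⋃ γ ∈ {γ : Γ | ∃ x_1 ∈ D, hol γ x_1 ∈ closedBall x r} ∩ B, hol γ '' D := by
      intro h3
      obtain ⟨γ, hγ, k, hk, hkx⟩ := mem_iUnion₂.1 h3
      exact hxP ((hPm B x).2 ⟨γ, hγ.2, k, hk, hkx⟩)
    filter_upwards [ball_mem_nhds x hr, hcl.isOpen_compl.mem_nhds hxn] with y hy1 hy2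
    refine ⟨hrΩ (ball_subset_closedBall hy1), fun h3 => hy2 ?_⟩
    obtain ⟨γ, hγ, k, hk, hky⟩ := (hPm B y).1 h3
    exact mem_iUnion₂.2 ⟨γ, ⟨⟨k, hk, by rw [hky]; exact ball_subset_closedBall hy1⟩, hγ⟩, k, hk, hky⟩
  have hcap : ∀ x, x ∈ P A → x ∈ P Aᶜ → x ∈ Uᶜ := by
    intro x hx hx'
    obtain ⟨γ, hγ, k, hk, hkx⟩ := (hPm _ _).1 hx
    obtain ⟨δ, hδ, l, hl, hlx⟩ := (hPm _ _).1 hx'
    have h3 : γ⁻¹ * δ ∈ F := by
      rw [hF]
      refine ⟨l, hl, ?_⟩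
      rw [Dom.mul_apply, hlx, ← hkx, hol_inv_apply]
      exact hk
    have h4 : γ ∈ S := by
      rw [hS]
      refine mem_iUnion₂.2 ⟨_, h3, hγ, ?_⟩
      rw [mul_inv_cancel_left]
      exact hδ
    have h5 : x ∈ Q := by
      rw [hQ]
      exact mem_iUnion₂.2 ⟨γ, h4, k, hk, hkx⟩
    exact fun h6 => Set.disjoint_left.1 hU3 h6 h5
  have hcup : ∀ x ∈ Ω, x ∈ P A ∨ x ∈ P Aᶜ := by
    intro x hx
    obtain ⟨γ, k, hk, hkx⟩ := hD5 x hx
    by_cases hγ : γ ∈ A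
    · exact Or.inl ((hPm _ _).2 ⟨γ, hγ, k, hk, hkx⟩)
    · exact Or.inr ((hPm _ _).2 ⟨γ, hγ, k, hk, hkx⟩)
  have hfinal : ∀ B : Set Γ, (∀ x ∈ Ω ∩ U, x ∉ P B) → B.Finite := by
    intro B hB
    refine (h.pd2 hD1 hD4 hNc hNΩ).subset ?_
    intro γ hγ
    refine ⟨p0, hp0, fun h3 => ?_⟩
    exact hB (hol γ p0) ⟨h.inv γ p0 (hD4 hp0), h3⟩ ((hPm _ _).2 ⟨γ, hγ, p0, hp0, rfl⟩)
  have hcov : Ω ∩ U ⊆ (Ω \ P A) ∪ (Ω \ P Aᶜ) := by
    rintro x ⟨hx1, hx2⟩
    by_cases h3 : x ∈ P A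
    · exact Or.inr ⟨hx1, fun h4 => hcap x h3 h4 hx2⟩
    · exact Or.inl ⟨hx1, h3⟩
  by_cases hn1 : (Ω ∩ U ∩ (Ω \ P A)).Nonempty
  · by_cases hn2 : (Ω ∩ U ∩ (Ω \ P Aᶜ)).Nonempty
    · exfalso
      obtain ⟨x, ⟨hx1, hx2⟩, ⟨-, hx3⟩, -, hx4⟩ := hcon _ _ (hPo A) (hPo Aᶜ) hcov hn1 hn2
      rcases hcup x hx1 with h3 | h3
      · exact hx3 h3
      · exact hx4 h3
    · left
      apply hfinal
      intro x hx h3
      exact hn2 ⟨x, hx, hx.1, fun h4 => hcap x h3 h4 hx.2⟩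
  · right
    apply hfinal
    intro x hx h3
    exact hn1 ⟨x, hx, hx.1, fun h4 => hcap x h4 h3 hx.2⟩

end

section
variable {X Γ E : Type} [NormedAddCommGroup E] [NormedSpace ℝ E] [FiniteDimensional ℝ E]
    [TopologicalSpace X] [T2Space X] [Group Γ] [MulAction Γ X]
    {dev : X → E} {hol : Γ →* (E ≃ᵃ[ℝ] E)}

omit [FiniteDimensional ℝ E] [T2Space X] in
theorem AffData.dom [PreconnectedSpace X] (D : AffData X Γ E dev hol)
    (hinj : Function.Injective dev) : Dom hol (range dev) where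
  op := D.loc.isOpenMap.isOpen_range
  conn := isPreconnected_range D.loc.continuous
  inv := by
    rintro γ _ ⟨x, rfl⟩
    exact ⟨γ • x, D.equi γ x⟩
  det := D.unimod
  pd := by
    intro K hKr hK
    have h1 : IsCompact (dev ⁻¹' K) :=
      ((D.loc.isOpenEmbedding_of_injective hinj).isInducing.isCompact_preimage_iff hKr).2 hK
    refine (D.pd _ h1).subset ?_
    rintro γ ⟨x, hx, hx'⟩
    obtain ⟨y, rfl⟩ := hKr hx
    exact ⟨y, hx, by rw [mem_preimage, D.equi]; exact hx'⟩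
  cc := by
    obtain ⟨K, hK, hcc⟩ := D.cc
    refine ⟨dev '' K, image_subset_range _ _, hK.image D.loc.continuous, ?_⟩
    rintro _ ⟨x, rfl⟩
    obtain ⟨γ, k, hk, rfl⟩ := hcc x
    exact ⟨γ, dev k, ⟨k, hk, rfl⟩, (D.equi γ k).symm⟩

end

end Pool.Agent.P8H83
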