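import Pool.Agent.P8H83.Red3
import Pool.Agent.P8H83.Cone

/-!
Strongly irreducible linear holonomy: no invariant cones; dimension three: no quadratic forms.
-/

set_option autoImplicit false

open Set Filter Topology Metric
open Pool.Agent.W689.Mk

namespace Pool.Agent.P8H83

section
variable {X Γ E : Type} [NormedAddCommGroup E] [NormedSpace ℝ E] [FiniteDimensional ℝ E]
    [TopologicalSpace X] [T2Space X] [Group Γ]
    [MulAction Γ X] {dev : X → E} {hol : Γ →* (E ≃ᵃ[ℝ] E)}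

omit [TopologicalSpace X] [T2Space X] [MulAction Γ X] in
/-- strong irreducibility passes to subgroups of finite index -/
theorem SIrr.sub (hirr : SIrr (lh hol)) (H : Subgroup Γ) (hH : H.FiniteIndex) :
    SIrr (lh (hol.comp H.subtype)) := by
  intro K hK W hW
  have hfin : (K.map H.subtype).FiniteIndex := by
    refine ⟨?_⟩
    rw [Subgroup.index_map_subtype]
    exact mul_ne_zero hK.index_ne_zero hH.index_ne_zero
  refine hirr _ hfin W ?_
  rintro _ ⟨γ, hγ, rfl⟩ v hv
  exact hW γ hγ v hv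

theorem iso_clh (D : AffData X Γ E dev hol) (hinj : Function.Injective dev) [Nonempty X]
    [SecondCountableTopology X] (h2 : 2 ≤ Module.finrank ℝ E) (hirr : SIrr (lh hol)) :
    Iso (clh hol) := by
  obtain ⟨ε, hε, h⟩ := disc_irr D hinj h2 hirr
  refine ⟨ε, hε, fun γ hγ => ?_⟩
  have h1 : hol γ = 1 := h γ hγ
  refine ContinuousLinearMap.ext fun v => ?_
  show (hol γ).linear v = v
  rw [h1]
  rfl

variable [Nonempty X] [SecondCountableTopology X]

/-- no invariant properly convex cone -/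
theorem no_cone (D : AffData X Γ E dev hol) (hinj : Function.Injective dev)
    (h2 : 2 ≤ Module.finrank ℝ E) (hirr : SIrr (lh hol)) {C : Set E}
    (hCo : IsOpen C) (hCc : Convex ℝ C) (hCn : C.Nonempty)
    (hCs : ∀ t : ℝ, 0 < t → ∀ c ∈ C, t • c ∈ C)
    (hline : ∀ c v : E, (∀ t : ℝ, c + t • v ∈ C) → v = 0)
    (hinv : ∀ γ, ∀ c ∈ C, cl hol γ c ∈ C) : False := by
  have hnt : Nontrivial E := Module.nontrivial_of_finrank_pos (R := ℝ) (by omega)
  refine no_cone_rep D le_rfl (clh hol) (fun γ => cl_det_ne D γ) (iso_clh D hinj h2 hirr) ?_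
    hCo hCc hCn hCs hline hinv
  refine (ker_finite D hinj).subset fun γ hγ => ?_
  exact faithful_irr D hinj h2 hirr hγ

/-- no finite image -/
theorem no_bdd (D : AffData X Γ E dev hol) (hinj : Function.Injective dev)
    (h2 : 2 ≤ Module.finrank ℝ E) (hirr : SIrr (lh hol)) {R : ℝ}
    (h : ∀ γ, ‖cl hol γ‖ ≤ R) : False := by
  refine not_sirr_of_finite ?_ h2 hirr
  refine (finite_bdd (clh hol) (iso_clh D hinj h2 hirr) R).subset ?_
  rintro _ ⟨γ, rfl⟩
  exact ⟨γ, rfl, h γ, h γ⁻¹⟩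

/-- no invariant Lorentz cone up to sign -/
theorem no_lorentz {F : Type} [NormedAddCommGroup F] [NormedSpace ℝ F]
    (D : AffData X Γ E dev hol) (hinj : Function.Injective dev)
    (h2 : 2 ≤ Module.finrank ℝ E) (hirr : SIrr (lh hol)) (L : E →L[ℝ] F) (z : E →L[ℝ] ℝ)
    (hLz : ∀ v, L v = 0 → z v = 0 → v = 0) (hn : ∃ v, ‖L v‖ < z v)
    (hinv : ∀ γ v, ‖L (cl hol γ v)‖ ^ 2 - z (cl hol γ v) ^ 2 = ‖L v‖ ^ 2 - z v ^ 2) : False := by
  classical
  obtain ⟨C, hC⟩ : ∃ C : Set E, C = {v | ‖L v‖ < z v} := ⟨_, rfl⟩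
  have hCo : IsOpen C := by
    rw [hC]
    exact isOpen_lt L.continuous.norm z.continuous
  have hCadd : ∀ u ∈ C, ∀ v ∈ C, u + v ∈ C := by
    rw [hC]
    intro u hu v hv
    have hu' : ‖L u‖ < z u := hu
    have hv' : ‖L v‖ < z v := hv
    show ‖L (u + v)‖ < z (u + v)
    rw [map_add, map_add]
    have := norm_add_le (L u) (L v)
    linarith
  have hCs : ∀ t : ℝ, 0 < t → ∀ c ∈ C, t • c ∈ C := by
    rw [hC]
    intro t ht c hc
    have hc' : ‖L c‖ < z c := hc
    show ‖L (t • c)‖ < z (t • c)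
    rw [map_smul, map_smul, norm_smul, Real.norm_eq_abs, abs_of_pos ht, smul_eq_mul]
    exact mul_lt_mul_of_pos_left hc' ht
  have hCc : Convex ℝ C := by
    intro u hu v hv a b ha hb hab
    rcases ha.eq_or_lt with h0 | h0
    · have : b = 1 := by rw [← h0] at hab; linarith
      rw [← h0, this, zero_smul, one_smul, zero_add]
      exact hv
    · rcases hb.eq_or_lt with h1 | h1
      · have : a = 1 := by rw [← h1] at hab; linarith
        rw [← h1, this, zero_smul, one_smul, add_zero]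
        exact hu
      · exact hCadd _ (hCs a h0 u hu) _ (hCs b h1 v hv)
  have hpos : ∀ c ∈ C, 0 < z c := by
    rw [hC]
    intro c hc
    exact (norm_nonneg _).trans_lt hc
  have hline : ∀ c v : E, (∀ t : ℝ, c + t • v ∈ C) → v = 0 := by
    intro c v h
    have hzv : z v = 0 := by
      by_contra h0
      have h1 := hpos _ (h (-(z c / z v)))
      rw [map_add, map_smul, smul_eq_mul, neg_mul, div_mul_cancel₀ _ h0] at h1
      linarith
    refine hLz v ?_ hzv
    by_contra h0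
    have h0' : 0 < ‖L v‖ := norm_pos_iff.2 h0
    have h1 := h ((z c + ‖L c‖) / ‖L v‖)
    rw [hC] at h1
    have h2 : ‖L (c + ((z c + ‖L c‖) / ‖L v‖) • v)‖ < z (c + ((z c + ‖L c‖) / ‖L v‖) • v) := h1
    rw [map_add, map_add, map_smul, map_smul, hzv, smul_zero, add_zero] at h2
    have hc := h 0
    rw [zero_smul, add_zero] at hc
    have hzc := hpos _ hc
    have h3 : ‖((z c + ‖L c‖) / ‖L v‖) • L v‖ = z c + ‖L c‖ := by
      rw [norm_smul, Real.norm_eq_abs, abs_of_nonneg (by positivity), div_mul_cancel₀ _ h0'.ne']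
    have h4 := norm_sub_le (L c + ((z c + ‖L c‖) / ‖L v‖) • L v) (L c)
    rw [add_sub_cancel_left, h3] at h4
    linarith
  have hCn : C.Nonempty := by rw [hC]; exact hn
  obtain ⟨q, hq⟩ : ∃ q : E → ℝ, q = fun v => ‖L v‖ ^ 2 - z v ^ 2 := ⟨_, rfl⟩
  have hqC : ∀ c ∈ C, q c < 0 := by
    intro c hc
    have h1 := hpos c hc
    rw [hC] at hc
    have hc' : ‖L c‖ < z c := hc
    rw [hq]
    show ‖L c‖ ^ 2 - z c ^ 2 < 0
    nlinarith [norm_nonneg (L c)]
  have hqor : ∀ v, q v < 0 → v ∈ C ∨ -v ∈ C := by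
    intro v hv
    rw [hq] at hv
    have hv' : ‖L v‖ ^ 2 - z v ^ 2 < 0 := hv
    have h1 : ‖L v‖ < |z v| := by
      rw [← sq_lt_sq₀ (norm_nonneg _) (abs_nonneg _), sq_abs]
      linarith
    rw [hC]
    rcases abs_cases (z v) with ⟨h2, -⟩ | ⟨h2, -⟩
    · left
      show ‖L v‖ < z v
      rwa [h2] at h1
    · right
      show ‖L (-v)‖ < z (-v)
      rw [map_neg, map_neg, norm_neg]
      rwa [h2] at h1
  have hqinv : ∀ γ v, q (cl hol γ v) = q v := by
    intro γ v
    rw [hq]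
    exact hinv γ v
  have hz0 : ∀ v, z v = 0 → 0 ≤ q v := by
    intro v hv
    rw [hq]
    show 0 ≤ ‖L v‖ ^ 2 - z v ^ 2
    rw [hv]
    have := sq_nonneg ‖L v‖
    linarith
  have hdich : ∀ γ, (∀ c ∈ C, cl hol γ c ∈ C) ∨ (∀ c ∈ C, -cl hol γ c ∈ C) := by
    intro γ
    by_contra hcon
    push Not at hcon
    obtain ⟨⟨u, hu, hu'⟩, ⟨u', hu1, hu1'⟩⟩ := hcon
    have h1 : -cl hol γ u ∈ C := (hqor _ (by rw [hqinv]; exact hqC u hu)).resolve_left hu'
    have h2 : cl hol γ u' ∈ C := (hqor _ (by rw [hqinv]; exact hqC u' hu1)).resolve_right hu1'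
    have h3 := hpos _ h1
    have h4 := hpos _ h2
    rw [map_neg] at h3
    have h5 : z (cl hol γ u') • u + (-z (cl hol γ u)) • u' ∈ C :=
      hCadd _ (hCs _ h4 u hu) _ (hCs _ h3 u' hu1)
    have h6 := hqC _ h5
    rw [← hqinv γ] at h6
    have h7 : z (cl hol γ (z (cl hol γ u') • u + (-z (cl hol γ u)) • u')) = 0 := by
      rw [map_add, map_smul, map_smul, map_add, map_smul, map_smul, smul_eq_mul, smul_eq_mul]
      ring
    exact absurd h6 (not_lt.2 (hz0 _ h7))
  have hexcl : ∀ c ∈ C, -c ∉ C := by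
    intro c hc hc'
    have h1 := hpos _ hc
    have h2 := hpos _ hc'
    rw [map_neg] at h2
    linarith
  obtain ⟨P, hP⟩ : ∃ P : Γ → Prop, P = fun γ => ∀ c ∈ C, cl hol γ c ∈ C := ⟨_, rfl⟩
  have hN : ∀ γ, ¬ P γ → ∀ c ∈ C, -cl hol γ c ∈ C := by
    intro γ hγ
    rw [hP] at hγ
    exact (hdich γ).resolve_left hγ
  have hPiff : ∀ γ, P γ ↔ ∀ c ∈ C, cl hol γ c ∈ C := by
    intro γ
    rw [hP]
  have hNP : ∀ γ, (∀ c ∈ C, -cl hol γ c ∈ C) → ¬ P γ := by
    intro γ h h'
    rw [hPiff] at h'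
    obtain ⟨c, hc⟩ := hCn
    exact hexcl _ (h' c hc) (h c hc)
  have hmul : ∀ γ δ v, cl hol (γ * δ) v = cl hol γ (cl hol δ v) := fun γ δ v => cl_mul γ δ v
  let χ : Γ →* ℝ :=
    { toFun := fun γ => if P γ then 1 else -1
      map_one' := by
        rw [if_pos]
        rw [hPiff]
        intro c hc
        have : cl hol 1 c = c := by
          have := map_one (clh hol)
          exact congrArg (fun T : E →L[ℝ] E => T c) this
        rwa [this]
      map_mul' := by
        intro γ δ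
        by_cases h1 : P γ <;> by_cases h2 : P δ
        · rw [if_pos h1, if_pos h2, if_pos, one_mul]
          rw [hPiff] at h1 h2 ⊢
          intro c hc
          rw [hmul]
          exact h1 _ (h2 c hc)
        · rw [if_pos h1, if_neg h2, if_neg, one_mul]
          apply hNP
          intro c hc
          rw [hmul, ← map_neg]
          exact (hPiff γ).1 h1 _ (hN δ h2 c hc)
        · rw [if_neg h1, if_pos h2, if_neg, mul_one]
          apply hNP
          intro c hc
          rw [hmul]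
          exact hN γ h1 _ ((hPiff δ).1 h2 c hc)
        · rw [if_neg h1, if_neg h2, if_pos]
          · norm_num
          · rw [hPiff]
            intro c hc
            have h3 := hN γ h1 _ (hN δ h2 c hc)
            rw [map_neg, neg_neg] at h3
            rwa [hmul] }
  have hχ : ∀ γ, |χ γ| = 1 := by
    intro γ
    show |if P γ then (1 : ℝ) else -1| = 1
    split_ifs <;> simp
  have hK := ker_index χ hχ
  have D' := Pool.Agent.Y449.MK.restrict D χ.ker hK
  refine no_cone D' hinj h2 (hirr.sub χ.ker hK) hCo hCc hCn hCs hline ?_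
  rintro ⟨γ, hγ⟩ c hc
  have h1 : χ γ = 1 := hγ
  have h2 : P γ := by
    by_contra h3
    have h4 : (if P γ then (1 : ℝ) else -1) = 1 := h1
    rw [if_neg h3] at h4
    norm_num at h4
  exact (hPiff γ).1 h2 c hc

/-- dimension three: no invariant quadratic form -/
theorem no_form (D : AffData X Γ E dev hol) (hinj : Function.Injective dev)
    (h3 : Module.finrank ℝ E = 3) (hirr : SIrr (lh hol)) (q : QuadraticForm ℝ E) (hq : q ≠ 0)
    (hinv : ∀ γ v, q (cl hol γ v) = q v) : False := by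
  have h2 : 2 ≤ Module.finrank ℝ E := by omega
  have hsep : (QuadraticMap.associated (R := ℝ) q).SeparatingLeft := by
    obtain ⟨N, hN⟩ : ∃ N : Submodule ℝ E, N = LinearMap.ker (QuadraticMap.associated (R := ℝ) q) :=
      ⟨_, rfl⟩
    have hmem : ∀ v, v ∈ N ↔ ∀ w, QuadraticMap.associated (R := ℝ) q v w = 0 := by
      intro v
      rw [hN, LinearMap.mem_ker]
      constructor
      · intro h w
        rw [h]; rfl
      · intro h
        exact LinearMap.ext h
    have hass : ∀ (γ : Γ) (v w : E), QuadraticMap.associated (R := ℝ) q (cl hol γ v) (cl hol γ w) =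
        QuadraticMap.associated (R := ℝ) q v w := by
      intro γ v w
      rw [QuadraticMap.associated_apply, QuadraticMap.associated_apply, ← map_add, hinv, hinv, hinv]
    have hNinv : N = ⊥ ∨ N = ⊤ := by
      refine hirr ⊤ inferInstance N ?_
      intro γ _ v hv
      rw [hmem] at hv ⊢
      intro w
      have h4 : w = cl hol γ (cl hol γ⁻¹ w) := by
        have := rep_mul_inv (clh hol) γ w
        exact this.symm
      rw [h4]
      exact (hass γ v _).trans (hv _)
    rcases hNinv with h | h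
    · intro v hv
      have h5 : v ∈ N := (hmem v).2 hv
      rw [h, Submodule.mem_bot] at h5
      exact h5
    · exfalso
      apply hq
      ext v
      have h5 : v ∈ N := by rw [h]; trivial
      have h6 := (hmem v).1 h5 v
      rw [QuadraticMap.associated_eq_self_apply] at h6
      exact h6
  have hsyl := QuadraticForm.equivalent_one_neg_one_weighted_sum_squared q hsep
  rw [h3] at hsyl
  obtain ⟨w, hw, ⟨e⟩⟩ := hsyl
  have hqe : ∀ v, q v = w 0 * (e v 0) ^ 2 + w 1 * (e v 1) ^ 2 + w 2 * (e v 2) ^ 2 := by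
    intro v
    rw [← e.map_app v, QuadraticMap.weightedSumSquares_apply, Fin.sum_univ_three]
    simp only [smul_eq_mul, pow_two]
  obtain ⟨x, hx⟩ : ∃ x : Fin 3 → (E →L[ℝ] ℝ), ∀ i v, x i v = e v i :=
    ⟨fun i => LinearMap.toContinuousLinearMap ((LinearMap.proj i).comp
      (e.toLinearEquiv : E →ₗ[ℝ] (Fin 3 → ℝ))), fun i v => rfl⟩
  have hxz : ∀ v, x 0 v = 0 → x 1 v = 0 → x 2 v = 0 → v = 0 := by
    intro v h0 h1 h2
    rw [hx] at h0 h1 h2
    have h4 : e v = 0 := by
      funext i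
      fin_cases i
      · exact h0
      · exact h1
      · exact h2
    exact e.toLinearEquiv.map_eq_zero_iff.1 h4
  have hxs : ∀ t : Fin 3 → ℝ, ∃ v, ∀ i, x i v = t i := by
    intro t
    refine ⟨e.toLinearEquiv.symm t, fun i => ?_⟩
    rw [hx]
    exact congrFun (e.toLinearEquiv.apply_symm_apply t) i
  have hqx : ∀ v, q v = w 0 * (x 0 v) ^ 2 + w 1 * (x 1 v) ^ 2 + w 2 * (x 2 v) ^ 2 := by
    intro v
    rw [hqe, hx, hx, hx]
  -- Lorentzian forms
  have lor : ∀ (a b c : E →L[ℝ] ℝ), (∀ v, a v = 0 → b v = 0 → c v = 0 → v = 0) →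
      (∃ v, a v = 0 ∧ b v = 0 ∧ c v = 1) →
      (∀ γ v, (a (cl hol γ v)) ^ 2 + (b (cl hol γ v)) ^ 2 - (c (cl hol γ v)) ^ 2 =
        (a v) ^ 2 + (b v) ^ 2 - (c v) ^ 2) → False := by
    intro a b c habc ⟨v, hv1, hv2, hv3⟩ hi
    let L : E →L[ℝ] ℂ := LinearMap.toContinuousLinearMap
      { toFun := fun v => ⟨a v, b v⟩
        map_add' := fun u v => by
          apply Complex.ext
          · show a (u + v) = a u + a v
            rw [map_add]
          · show b (u + v) = b u + b v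
            rw [map_add]
        map_smul' := fun t v => by
          apply Complex.ext
          · show a (t • v) = _
            rw [map_smul]; simp
          · show b (t • v) = _
            rw [map_smul]; simp }
    have hL : ∀ v, L v = ⟨a v, b v⟩ := fun v => rfl
    have hLn : ∀ v, ‖L v‖ ^ 2 = (a v) ^ 2 + (b v) ^ 2 := by
      intro v
      rw [Complex.sq_norm, hL, Complex.normSq_mk]; ring
    refine no_lorentz D hinj h2 hirr L c ?_ ⟨v, ?_⟩ ?_
    · intro u hu
      have h4 := hLn u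
      rw [hu, norm_zero] at h4
      have h5 := sq_nonneg (a u)
      have h6 := sq_nonneg (b u)
      have h7 : a u = 0 := by
        have : (a u) ^ 2 = 0 := by linarith
        exact pow_eq_zero_iff (two_ne_zero) |>.1 this
      have h8 : b u = 0 := by
        have : (b u) ^ 2 = 0 := by linarith
        exact pow_eq_zero_iff (two_ne_zero) |>.1 this
      exact habc u h7 h8
    · have h4 : L v = 0 := by
        rw [hL, hv1, hv2]; rfl
      rw [h4, norm_zero, hv3]
      exact one_pos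
    · intro γ u
      rw [hLn, hLn]
      exact hi γ u
  have def1 : (∀ γ v, (x 0 (cl hol γ v)) ^ 2 + (x 1 (cl hol γ v)) ^ 2 + (x 2 (cl hol γ v)) ^ 2 =
      (x 0 v) ^ 2 + (x 1 v) ^ 2 + (x 2 v) ^ 2) → False := by
    intro hi
    obtain ⟨Λ, hΛ⟩ : ∃ Λ : E ≃L[ℝ] (Fin 3 → ℝ), ∀ v i, Λ v i = x i v :=
      ⟨e.toLinearEquiv.toContinuousLinearEquiv, fun v i => (hx i v).symm⟩
    have hb : ∀ γ v, ‖Λ (cl hol γ v)‖ ≤ 2 * ‖Λ v‖ := by
      intro γ v
      have h5 : ∀ i, |x i v| ≤ ‖Λ v‖ := by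
        intro i
        rw [← hΛ, ← Real.norm_eq_abs]
        exact norm_le_pi_norm (Λ v) i
      refine (pi_norm_le_iff_of_nonneg (by positivity)).2 fun i => ?_
      rw [hΛ, Real.norm_eq_abs]
      refine abs_le_of_sq_le_sq ?_ (by positivity)
      have h6 := hi γ v
      have h7 : ∀ i, (x i v) ^ 2 ≤ ‖Λ v‖ ^ 2 := fun i => by
        rw [← sq_abs]
        exact pow_le_pow_left₀ (abs_nonneg _) (h5 i) 2
      have h8 := h7 0
      have h9 := h7 1
      have h10 := h7 2
      have g0 := sq_nonneg (x 0 (cl hol γ v))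
      have g1 := sq_nonneg (x 1 (cl hol γ v))
      have g2 := sq_nonneg (x 2 (cl hol γ v))
      have g3 := sq_nonneg ‖Λ v‖
      have h11 : (x i (cl hol γ v)) ^ 2 ≤ (x 0 (cl hol γ v)) ^ 2 + (x 1 (cl hol γ v)) ^ 2 +
          (x 2 (cl hol γ v)) ^ 2 := by
        fin_cases i
        · show (x 0 (cl hol γ v)) ^ 2 ≤ _
          linarith
        · show (x 1 (cl hol γ v)) ^ 2 ≤ _
          linarith
        · show (x 2 (cl hol γ v)) ^ 2 ≤ _
          linarith
      nlinarith
    refine no_bdd D hinj h2 hirr (R := ‖(Λ.symm : (Fin 3 → ℝ) →L[ℝ] E)‖ *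
      (2 * ‖(Λ : E →L[ℝ] (Fin 3 → ℝ))‖)) fun γ => ?_
    refine ContinuousLinearMap.opNorm_le_bound _ (by positivity) fun v => ?_
    calc ‖cl hol γ v‖ = ‖(Λ.symm : (Fin 3 → ℝ) →L[ℝ] E) (Λ (cl hol γ v))‖ := by
          congr 1
          exact (Λ.symm_apply_apply _).symm
      _ ≤ ‖(Λ.symm : (Fin 3 → ℝ) →L[ℝ] E)‖ * ‖Λ (cl hol γ v)‖ := ContinuousLinearMap.le_opNorm _ _
      _ ≤ ‖(Λ.symm : (Fin 3 → ℝ) →L[ℝ] E)‖ * (2 * ‖Λ v‖) := by
          have := hb γ v
          gcongr
      _ ≤ ‖(Λ.symm : (Fin 3 → ℝ) →L[ℝ] E)‖ * (2 * (‖(Λ : E →L[ℝ] (Fin 3 → ℝ))‖ * ‖v‖)) := by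
          have := ContinuousLinearMap.le_opNorm (Λ : E →L[ℝ] (Fin 3 → ℝ)) v
          gcongr
          exact this
      _ = _ := by ring
  have hi : ∀ γ v, w 0 * (x 0 (cl hol γ v)) ^ 2 + w 1 * (x 1 (cl hol γ v)) ^ 2 +
      w 2 * (x 2 (cl hol γ v)) ^ 2 = w 0 * (x 0 v) ^ 2 + w 1 * (x 1 v) ^ 2 + w 2 * (x 2 v) ^ 2 := by
    intro γ v
    rw [← hqx, ← hqx, hinv]
  obtain ⟨v0, hv0⟩ := hxs ![1, 0, 0]
  obtain ⟨v1, hv1⟩ := hxs ![0, 1, 0]
  obtain ⟨v2, hv2⟩ := hxs ![0, 0, 1]
  have k0 : ∃ v, x 1 v = 0 ∧ x 2 v = 0 ∧ x 0 v = 1 := ⟨v0, hv0 1, hv0 2, hv0 0⟩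
  have k1 : ∃ v, x 0 v = 0 ∧ x 2 v = 0 ∧ x 1 v = 1 := ⟨v1, hv1 0, hv1 2, hv1 1⟩
  have k2 : ∃ v, x 0 v = 0 ∧ x 1 v = 0 ∧ x 2 v = 1 := ⟨v2, hv2 0, hv2 1, hv2 2⟩
  have l0 := lor (x 1) (x 2) (x 0) (fun v a b c => hxz v c a b) k0
  have l1 := lor (x 0) (x 2) (x 1) (fun v a b c => hxz v a c b) k1
  have l2 := lor (x 0) (x 1) (x 2) hxz k2
  rcases hw 0 with e0 | e0 <;> rcases hw 1 with e1 | e1 <;> rcases hw 2 with e2 | e2 <;>
    simp only [e0, e1, e2] at hi
  · exact def1 fun γ v => by linarith [hi γ v]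
  · exact l2 fun γ v => by linarith [hi γ v]
  · exact l1 fun γ v => by linarith [hi γ v]
  · exact l0 fun γ v => by linarith [hi γ v]
  · exact l0 fun γ v => by linarith [hi γ v]
  · exact l1 fun γ v => by linarith [hi γ v]
  · exact l2 fun γ v => by linarith [hi γ v]
  · exact def1 fun γ v => by linarith [hi γ v]

end

end Pool.Agent.P8H83
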