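import Pool.Agent.P8H83.Core2
import Pool.Agent.P8H83.Cone

/-!
The action on positive definite binary quadratic forms, and the exclusion of a block of linear
holonomy of dimension two with finite projective kernel.
-/

set_option autoImplicit false

open Set Filter Topology Metric
open Pool.Agent.W689.Mk

namespace Pool.Agent.P8H83

/-- binary quadratic forms -/
abbrev Q3 := ℝ × ℝ × ℝ

/-- the value of a form -/
def qv (p : Q3) (u v : ℝ) : ℝ := p.1 * u ^ 2 + 2 * p.2.1 * u * v + p.2.2 * v ^ 2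

/-- positive definite forms -/
def Pdef : Set Q3 := {p | ∀ u v : ℝ, ¬(u = 0 ∧ v = 0) → 0 < qv p u v}

theorem qv_identity (p : Q3) (u v : ℝ) : (p.1 + p.2.2) * qv p u v =
    (p.1 * p.2.2 - p.2.1 ^ 2) * (u ^ 2 + v ^ 2) + (p.1 * u + p.2.1 * v) ^ 2 +
      (p.2.1 * u + p.2.2 * v) ^ 2 := by
  unfold qv; ring

theorem mem_Pdef_iff (p : Q3) : p ∈ Pdef ↔ 0 < p.1 ∧ 0 < p.1 * p.2.2 - p.2.1 ^ 2 := by
  constructor
  · intro h
    have h1 := h 1 0 (by norm_num)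
    have h2 := h (-p.2.1) p.1 (by
      rintro ⟨-, h2⟩
      unfold qv at h1
      rw [h2] at h1
      norm_num at h1)
    unfold qv at h1 h2
    have h3 : 0 < p.1 := by nlinarith
    refine ⟨h3, ?_⟩
    have e1 : p.1 * (-p.2.1) ^ 2 + 2 * p.2.1 * -p.2.1 * p.1 + p.2.2 * p.1 ^ 2 =
      p.1 * (p.1 * p.2.2 - p.2.1 ^ 2) := by ring
    rw [e1] at h2
    exact (mul_pos_iff_of_pos_left h3).1 h2
  · rintro ⟨h1, h2⟩ u v huv
    have h3 : 0 < p.2.2 := by
      by_contra h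
      push Not at h
      nlinarith [sq_nonneg p.2.1]
    have h4 := qv_identity p u v
    have h5 : 0 < u ^ 2 + v ^ 2 := by
      by_contra h
      push Not at h
      apply huv
      constructor <;> nlinarith [sq_nonneg u, sq_nonneg v]
    have h6 : 0 < (p.1 + p.2.2) * qv p u v := by
      rw [h4]
      have := mul_pos h2 h5
      positivity
    exact (mul_pos_iff_of_pos_left (by linarith)).1 h6

theorem Pdef_open : IsOpen Pdef := by
  have : Pdef = {p : Q3 | 0 < p.1} ∩ {p : Q3 | 0 < p.1 * p.2.2 - p.2.1 ^ 2} := by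
    ext p; exact mem_Pdef_iff p
  rw [this]
  refine (isOpen_lt continuous_const continuous_fst).inter (isOpen_lt continuous_const ?_)
  fun_prop

theorem Pdef_convex : Convex ℝ Pdef := by
  intro p hp q hq s t hs ht hst u v huv
  have h1 := hp u v huv
  have h2 := hq u v huv
  have e1 : qv (s • p + t • q) u v = s * qv p u v + t * qv q u v := by
    unfold qv; simp; ring
  rw [e1]
  rcases eq_or_lt_of_le hs with h | h
  · have : t = 1 := by linarith
    rw [← h, this]; linarith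
  · have := mul_pos h h1
    have := mul_nonneg ht h2.le
    linarith

theorem Pdef_smul {t : ℝ} (ht : 0 < t) {p : Q3} (hp : p ∈ Pdef) : t • p ∈ Pdef := by
  intro u v huv
  have e1 : qv (t • p) u v = t * qv p u v := by unfold qv; simp; ring
  rw [e1]
  exact mul_pos ht (hp u v huv)

/-- the action of matrices on forms -/
noncomputable def S2 (A : M2) : Q3 →L[ℝ] Q3 := LinearMap.toContinuousLinearMap
  { toFun := fun p =>
      (A 0 0 ^ 2 * p.1 + 2 * A 0 0 * A 0 1 * p.2.1 + A 0 1 ^ 2 * p.2.2,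
       A 0 0 * A 1 0 * p.1 + (A 0 0 * A 1 1 + A 0 1 * A 1 0) * p.2.1 + A 0 1 * A 1 1 * p.2.2,
       A 1 0 ^ 2 * p.1 + 2 * A 1 0 * A 1 1 * p.2.1 + A 1 1 ^ 2 * p.2.2)
    map_add' := fun p q => by
      refine Prod.ext ?_ (Prod.ext ?_ ?_) <;> simp <;> ring
    map_smul' := fun t p => by
      refine Prod.ext ?_ (Prod.ext ?_ ?_) <;> simp <;> ring }

theorem S2_apply (A : M2) (p : Q3) : S2 A p =
      (A 0 0 ^ 2 * p.1 + 2 * A 0 0 * A 0 1 * p.2.1 + A 0 1 ^ 2 * p.2.2,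
       A 0 0 * A 1 0 * p.1 + (A 0 0 * A 1 1 + A 0 1 * A 1 0) * p.2.1 + A 0 1 * A 1 1 * p.2.2,
       A 1 0 ^ 2 * p.1 + 2 * A 1 0 * A 1 1 * p.2.1 + A 1 1 ^ 2 * p.2.2) := rfl

theorem S2_mul (A A' : M2) : S2 (A * A') = S2 A * S2 A' := by
  refine ContinuousLinearMap.ext fun p => ?_
  show S2 (A * A') p = S2 A (S2 A' p)
  rw [S2_apply, S2_apply, S2_apply]
  simp only [Matrix.mul_apply, Fin.sum_univ_two]
  refine Prod.ext ?_ (Prod.ext ?_ ?_) <;> simp <;> ring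

theorem S2_one : S2 1 = 1 := by
  refine ContinuousLinearMap.ext fun p => ?_
  rw [S2_apply]
  refine Prod.ext ?_ (Prod.ext ?_ ?_) <;> simp

theorem qv_S2 (A : M2) (p : Q3) (u v : ℝ) :
    qv (S2 A p) u v = qv p (A 0 0 * u + A 1 0 * v) (A 0 1 * u + A 1 1 * v) := by
  rw [S2_apply]; unfold qv; simp only; ring

theorem S2_Pdef {A : M2} (hA : A.det ≠ 0) {p : Q3} (hp : p ∈ Pdef) : S2 A p ∈ Pdef := by
  intro u v huv
  rw [qv_S2]
  apply hp
  rintro ⟨h1, h2⟩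
  apply huv
  rw [Matrix.det_fin_two] at hA
  have e1 : (A 0 0 * A 1 1 - A 0 1 * A 1 0) * u = 0 := by
    have : (A 0 0 * A 1 1 - A 0 1 * A 1 0) * u =
      A 1 1 * (A 0 0 * u + A 1 0 * v) - A 1 0 * (A 0 1 * u + A 1 1 * v) := by ring
    rw [this, h1, h2, mul_zero, mul_zero, sub_zero]
  have e2 : (A 0 0 * A 1 1 - A 0 1 * A 1 0) * v = 0 := by
    have : (A 0 0 * A 1 1 - A 0 1 * A 1 0) * v =
      A 0 0 * (A 0 1 * u + A 1 1 * v) - A 0 1 * (A 0 0 * u + A 1 0 * v) := by ring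
    rw [this, h1, h2, mul_zero, mul_zero, sub_zero]
  exact ⟨(mul_eq_zero.1 e1).resolve_left hA, (mul_eq_zero.1 e2).resolve_left hA⟩

/-- boundedness of unimodular matrices moving a compact set of forms to itself somewhere -/
theorem S2_bound {K : Set Q3} (hK : IsCompact K) (hKP : K ⊆ Pdef) : ∃ R : ℝ, ∀ A : M2,
    |A.det| = 1 → (∃ c ∈ K, ∃ t : ℝ, 0 < t ∧ t • S2 A c ∈ K) → ∀ i j, |A i j| ≤ R := by
  rcases K.eq_empty_or_nonempty with rfl | hne
  · exact ⟨0, fun A _ ⟨c, hc, _⟩ => absurd hc (Set.notMem_empty c)⟩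
  have hcd : Continuous fun p : Q3 => p.1 * p.2.2 - p.2.1 ^ 2 := by fun_prop
  have hct : Continuous fun p : Q3 => p.1 + p.2.2 := by fun_prop
  obtain ⟨p0, hp0, hmin⟩ := hK.exists_isMinOn hne hcd.continuousOn
  obtain ⟨p1, hp1, hmax⟩ := hK.exists_isMaxOn hne hcd.continuousOn
  obtain ⟨p2, hp2, hmaxt⟩ := hK.exists_isMaxOn hne hct.continuousOn
  set δ := p0.1 * p0.2.2 - p0.2.1 ^ 2 with hδ
  set Δ := p1.1 * p1.2.2 - p1.2.1 ^ 2 with hΔ
  set T := p2.1 + p2.2.2 with hT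
  have hδ0 : 0 < δ := ((mem_Pdef_iff _).1 (hKP hp0)).2
  have hΔ0 : 0 < Δ := ((mem_Pdef_iff _).1 (hKP hp1)).2
  have htr : ∀ c ∈ K, 0 < c.1 + c.2.2 := by
    intro c hc
    have h1 := (mem_Pdef_iff _).1 (hKP hc)
    have h3 : 0 < c.2.2 := by
      by_contra h
      push Not at h
      nlinarith [sq_nonneg c.2.1, h1.1, h1.2]
    linarith [h1.1]
  have hT0 : 0 < T := htr p2 hp2
  have hsq : 0 < Real.sqrt (δ / Δ) := Real.sqrt_pos.2 (by positivity)
  refine ⟨T ^ 2 / (δ * Real.sqrt (δ / Δ)) + 1, fun A hA ⟨c, hc, t, ht, htc⟩ i j => ?_⟩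
  have hc1 := (mem_Pdef_iff _).1 (hKP hc)
  have hctr := htr c hc
  have hd2 : A.det ^ 2 = 1 := by rw [← sq_abs, hA, one_pow]
  -- determinant
  have e1 : (t • S2 A c).1 * (t • S2 A c).2.2 - (t • S2 A c).2.1 ^ 2 =
      t ^ 2 * (c.1 * c.2.2 - c.2.1 ^ 2) := by
    have : (t • S2 A c).1 * (t • S2 A c).2.2 - (t • S2 A c).2.1 ^ 2 =
        t ^ 2 * A.det ^ 2 * (c.1 * c.2.2 - c.2.1 ^ 2) := by
      rw [S2_apply, Matrix.det_fin_two]; simp; ring
    rw [this, hd2, mul_one]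
  have h1 : δ ≤ t ^ 2 * (c.1 * c.2.2 - c.2.1 ^ 2) := by rw [← e1]; exact hmin htc
  have h2 : c.1 * c.2.2 - c.2.1 ^ 2 ≤ Δ := hmax hc
  have h3 : Real.sqrt (δ / Δ) ≤ t := by
    rw [Real.sqrt_le_left ht.le, div_le_iff₀ hΔ0]
    exact h1.trans (mul_le_mul_of_nonneg_left h2 (by positivity))
  -- trace
  have h4 : (t • S2 A c).1 + (t • S2 A c).2.2 ≤ T := hmaxt htc
  have e2 : (t • S2 A c).1 + (t • S2 A c).2.2 = t * (qv c (A 0 0) (A 0 1) + qv c (A 1 0) (A 1 1)) := by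
    rw [S2_apply]; unfold qv; simp; ring
  have h5 : ∀ u v : ℝ, δ * (u ^ 2 + v ^ 2) ≤ (c.1 + c.2.2) * qv c u v := by
    intro u v
    rw [qv_identity]
    have h6 : δ ≤ c.1 * c.2.2 - c.2.1 ^ 2 := hmin hc
    have h7 : δ * (u ^ 2 + v ^ 2) ≤ (c.1 * c.2.2 - c.2.1 ^ 2) * (u ^ 2 + v ^ 2) :=
      mul_le_mul_of_nonneg_right h6 (by positivity)
    nlinarith [sq_nonneg (c.1 * u + c.2.1 * v), sq_nonneg (c.2.1 * u + c.2.2 * v)]
  have h6 : c.1 + c.2.2 ≤ T := hmaxt hc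
  set S := A 0 0 ^ 2 + A 0 1 ^ 2 + A 1 0 ^ 2 + A 1 1 ^ 2 with hS
  have h7 : δ * S ≤ (c.1 + c.2.2) * (qv c (A 0 0) (A 0 1) + qv c (A 1 0) (A 1 1)) := by
    have g1 := h5 (A 0 0) (A 0 1)
    have g2 := h5 (A 1 0) (A 1 1)
    rw [mul_add]
    have e3 : δ * S = δ * (A 0 0 ^ 2 + A 0 1 ^ 2) + δ * (A 1 0 ^ 2 + A 1 1 ^ 2) := by rw [hS]; ring
    linarith
  have h8 : δ * Real.sqrt (δ / Δ) * S ≤ T ^ 2 := by
    rw [e2] at h4
    have hq0 : 0 ≤ qv c (A 0 0) (A 0 1) + qv c (A 1 0) (A 1 1) := by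
      have h9 : 0 ≤ δ * S := by positivity
      exact (mul_nonneg_iff_of_pos_left hctr).1 (h9.trans h7)
    calc δ * Real.sqrt (δ / Δ) * S ≤ δ * t * S := by
          apply mul_le_mul_of_nonneg_right _ (by positivity)
          exact mul_le_mul_of_nonneg_left h3 hδ0.le
      _ = t * (δ * S) := by ring
      _ ≤ t * ((c.1 + c.2.2) * (qv c (A 0 0) (A 0 1) + qv c (A 1 0) (A 1 1))) :=
          mul_le_mul_of_nonneg_left h7 ht.le
      _ = (c.1 + c.2.2) * (t * (qv c (A 0 0) (A 0 1) + qv c (A 1 0) (A 1 1))) := by ring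
      _ ≤ T * T := mul_le_mul h6 h4 (by positivity) hT0.le
      _ = T ^ 2 := by ring
  have h9 : S ≤ T ^ 2 / (δ * Real.sqrt (δ / Δ)) := by
    rw [le_div_iff₀ (by positivity)]
    linarith
  have h10 : |A i j| ^ 2 ≤ S := by
    rw [sq_abs, hS]
    have g1 := sq_nonneg (A 0 0)
    have g2 := sq_nonneg (A 0 1)
    have g3 := sq_nonneg (A 1 0)
    have g4 := sq_nonneg (A 1 1)
    fin_cases i <;> fin_cases j
    · show A 0 0 ^ 2 ≤ _
      linarith
    · show A 0 1 ^ 2 ≤ _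
      linarith
    · show A 1 0 ^ 2 ≤ _
      linarith
    · show A 1 1 ^ 2 ≤ _
      linarith
  have h11 : |A i j| ≤ |A i j| ^ 2 + 1 := by nlinarith [sq_nonneg (|A i j| - 1), abs_nonneg (A i j)]
  linarith

/-- matrices as continuous linear maps -/
noncomputable def Φ2 (A : M2) : (Fin 2 → ℝ) →L[ℝ] (Fin 2 → ℝ) :=
  LinearMap.toContinuousLinearMap (Matrix.toLin' A)

theorem Φ2_mul (A A' : M2) : Φ2 (A * A') = Φ2 A * Φ2 A' := by
  unfold Φ2
  rw [Matrix.toLin'_mul]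
  rfl

theorem Φ2_one : Φ2 1 = 1 := by
  unfold Φ2
  rw [Matrix.toLin'_one]
  rfl

/-- the inverse of `Φ2` -/
noncomputable def Ψ2 (T : (Fin 2 → ℝ) →L[ℝ] (Fin 2 → ℝ)) : M2 :=
  LinearMap.toMatrix' (T : (Fin 2 → ℝ) →ₗ[ℝ] (Fin 2 → ℝ))

theorem Ψ2_Φ2 (A : M2) : Ψ2 (Φ2 A) = A := LinearMap.toMatrix'_toLin' A

theorem Φ2_cont : Continuous Φ2 := by
  have : Continuous (((LinearMap.toContinuousLinearMap (𝕜 := ℝ) (E := Fin 2 → ℝ)
    (F' := Fin 2 → ℝ)).toLinearMap).comp (Matrix.toLin' (R := ℝ) (m := Fin 2) (n := Fin 2)).toLinearMap) :=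
    LinearMap.continuous_of_finiteDimensional _
  exact this

theorem Ψ2_cont : Continuous Ψ2 := by
  refine continuous_matrix fun i j => ?_
  have h1 : ∀ T : (Fin 2 → ℝ) →L[ℝ] (Fin 2 → ℝ), Ψ2 T i j = T (Pi.single j 1) i := by
    intro T
    exact LinearMap.toMatrix'_apply _ _ _
  simp only [h1]
  fun_prop

section
variable {X Γ E : Type} [NormedAddCommGroup E] [NormedSpace ℝ E] [FiniteDimensional ℝ E]
    [TopologicalSpace X] [T2Space X] [SecondCountableTopology X] [Nonempty X] [Group Γ]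
    [MulAction Γ X] {dev : X → E} {hol : Γ →* (E ≃ᵃ[ℝ] E)}

/-- normalization -/
noncomputable def nB (B : Γ →* M2) : Γ →* M2 where
  toFun γ := (Real.sqrt |(B γ).det|)⁻¹ • B γ
  map_one' := by rw [map_one, Matrix.det_one, abs_one, Real.sqrt_one, inv_one, one_smul]
  map_mul' γ δ := by
    rw [map_mul, Matrix.det_mul, abs_mul, Real.sqrt_mul (abs_nonneg _), mul_inv,
      smul_mul_smul_comm]

theorem nB_apply (B : Γ →* M2) (γ : Γ) : nB B γ = (Real.sqrt |(B γ).det|)⁻¹ • B γ := rfl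

theorem B_det_ne (B : Γ →* M2) (γ : Γ) : (B γ).det ≠ 0 := by
  intro h
  have h1 : (B γ).det * (B γ⁻¹).det = 1 := by
    rw [← Matrix.det_mul, map_mul_inv, Matrix.det_one]
  rw [h, zero_mul] at h1
  exact zero_ne_one h1

theorem sqrt_ne (B : Γ →* M2) (γ : Γ) : Real.sqrt |(B γ).det| ≠ 0 :=
  (Real.sqrt_pos.2 (abs_pos.2 (B_det_ne B γ))).ne'

theorem nB_det (B : Γ →* M2) (γ : Γ) : |(nB B γ).det| = 1 := by
  rw [nB_apply, Matrix.det_smul, Fintype.card_fin, abs_mul, abs_pow, abs_inv,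
    abs_of_nonneg (Real.sqrt_nonneg _), inv_pow, Real.sq_sqrt (abs_nonneg _)]
  exact inv_mul_cancel₀ (abs_ne_zero.2 (B_det_ne B γ))

/-- the main contradiction: a block of dimension two of the linear holonomy which is projectively
discrete with finite kernel -/
theorem core_contra (D : AffData X Γ E dev hol) (h3 : 3 ≤ Module.finrank ℝ E) (B : Γ →* M2)
    (N : Subgroup Γ) [N.Normal] (hNE : NE B N) (hJ : JJ B N) (hdet : ∀ n ∈ N, |(B n).det| = 1)
    (hfin : {γ : Γ | nB B γ = 1}.Finite) : False := by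
  -- isolation
  have hiso : ∀ᶠ A in 𝓝 (1 : M2), ∀ g : Γ, nB B g = A → A = 1 := by
    have etr : ∀ᶠ A in 𝓝 (1 : M2), 0 < A.trace := by
      have := trace_cont.tendsto (1 : M2)
      rw [trace_one'] at this
      exact this.eventually_const_lt (by norm_num)
    filter_upwards [disc_P hNE hJ hdet, etr] with A h1 h2 g hg
    have h4 : B g = Real.sqrt |(B g).det| • A := by
      rw [← hg, nB_apply, smul_smul, mul_inv_cancel₀ (sqrt_ne B g), one_smul]
    have h5 := h1 g _ (sqrt_ne B g) h4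
    have h6 := nB_det B g
    rw [hg, h5, Matrix.det_smul, Matrix.det_one, mul_one, Fintype.card_fin, abs_pow,
      abs_of_pos (by linarith)] at h6
    have h7 : A.trace / 2 = 1 := by
      have h8 : (A.trace / 2 - 1) * (A.trace / 2 + 1) = 0 := by linarith
      rcases mul_eq_zero.1 h8 with h | h
      · linarith
      · linarith
    rw [h5, h7, one_smul]
  let M : Γ →* ((Fin 2 → ℝ) →L[ℝ] (Fin 2 → ℝ)) :=
    { toFun := fun γ => Φ2 (nB B γ)
      map_one' := by rw [map_one, Φ2_one]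
      map_mul' := fun γ δ => by rw [map_mul, Φ2_mul] }
  have hM : ∀ γ, M γ = Φ2 (nB B γ) := fun _ => rfl
  have hMiso : Iso M := by
    have h1 : Tendsto Ψ2 (𝓝 1) (𝓝 1) := by
      have := Ψ2_cont.tendsto (1 : (Fin 2 → ℝ) →L[ℝ] (Fin 2 → ℝ))
      rwa [← Φ2_one, Ψ2_Φ2, Φ2_one] at this
    obtain ⟨ε, hε, H⟩ := Metric.eventually_nhds_iff.1 (h1.eventually hiso)
    refine ⟨ε, hε, fun g hg => ?_⟩
    have h2 := H (y := M g) (by rw [dist_eq_norm]; exact hg) g (by rw [hM, Ψ2_Φ2])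
    rw [hM, Ψ2_Φ2] at h2
    rw [hM, h2, Φ2_one]
  have hV : Module.finrank ℝ Q3 ≤ Module.finrank ℝ E := by
    have : Module.finrank ℝ Q3 = 3 := by simp [Q3]
    omega
  let σ : Γ →* (Q3 →L[ℝ] Q3) :=
    { toFun := fun γ => S2 (nB B γ)
      map_one' := by rw [map_one, S2_one]
      map_mul' := fun γ δ => by rw [map_mul, S2_mul] }
  have hσ : ∀ γ, σ γ = S2 (nB B γ) := fun _ => rfl
  refine dim_principle D hV σ (C := Pdef) Pdef_open Pdef_convex ⟨(1, 0, 1), ?_⟩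
    (fun t ht c hc => Pdef_smul ht hc) ?_ (fun γ c hc => S2_Pdef (B_det_ne (nB B) γ) hc) ?_
  · rw [mem_Pdef_iff]; norm_num
  · intro h
    have := ((mem_Pdef_iff _).1 h).1
    exact lt_irrefl _ this
  · intro K hKP hK
    obtain ⟨R, HR⟩ := S2_bound hK hKP
    -- bounded entries give bounded operators
    have hcpt : IsCompact (Set.pi univ fun _ : Fin 2 => Set.pi univ fun _ : Fin 2 => Icc (-|R|) |R|) :=
      isCompact_univ_pi fun _ => isCompact_univ_pi fun _ => isCompact_Icc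
    obtain ⟨R', hR'⟩ := hcpt.exists_bound_of_continuousOn (f := Φ2) Φ2_cont.continuousOn
    have hbd : ∀ A : M2, (∀ i j, |A i j| ≤ R) → ‖Φ2 A‖ ≤ R' := by
      intro A hA
      apply hR'
      intro i _ j _
      have := (hA i j).trans (le_abs_self R)
      exact abs_le.1 this
    have hf := finite_bdd M hMiso R'
    have hsub : {γ : Γ | ∃ c ∈ K, ∃ t : ℝ, 0 < t ∧ t • σ γ c ∈ K} ⊆
        M ⁻¹' {x | ∃ g, M g = x ∧ ‖M g‖ ≤ R' ∧ ‖M g⁻¹‖ ≤ R'} := by
      intro γ hγ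
      refine ⟨γ, rfl, ?_, ?_⟩
      · rw [hM]
        exact hbd _ (HR _ (nB_det B γ) hγ)
      · rw [hM]
        refine hbd _ (HR _ (nB_det B γ⁻¹) ?_)
        obtain ⟨c, hc, t, ht, htc⟩ := hγ
        refine ⟨t • σ γ c, htc, t⁻¹, inv_pos.2 ht, ?_⟩
        have : t⁻¹ • S2 (nB B γ⁻¹) (t • σ γ c) = c := by
          rw [map_smul, smul_smul, inv_mul_cancel₀ ht.ne', one_smul]
          exact rep_inv_mul σ γ c
        rw [this]
        exact hc
    refine (hf.preimage' fun b _ => ?_).subset hsub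
    by_cases h : ∃ γ₀, M γ₀ = b
    · obtain ⟨γ₀, hγ₀⟩ := h
      refine (hfin.image fun γ => γ₀ * γ).subset ?_
      intro γ hγ
      have h1 : M γ = b := hγ
      refine ⟨γ₀⁻¹ * γ, ?_, by group⟩
      show nB B (γ₀⁻¹ * γ) = 1
      have h2 : M (γ₀⁻¹ * γ) = 1 := by rw [map_mul, h1, ← hγ₀, map_inv_mul]
      have h4 := congrArg Ψ2 h2
      rw [hM, Ψ2_Φ2, ← Φ2_one, Ψ2_Φ2] at h4
      exact h4
    · convert Set.finite_empty
      ext γ
      simp only [mem_preimage, mem_singleton_iff, mem_empty_iff_false, iff_false]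
      exact fun hγ => h ⟨γ, hγ⟩

end

end Pool.Agent.P8H83
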