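import Pool.Agent.P8H83.Vs
import Pool.Agent.P8H83.Hyp

/-!
Complete structures whose linear holonomy is trivial modulo a plane: virtual solvability, without
assuming the action to be free.
-/

set_option autoImplicit false

open Set Filter Topology Metric
open Pool.Agent.W689.Mk Pool.Agent.TH94.MK
open scoped commutatorElement

namespace Pool.Agent.P8H83

/-- linear parts of a derived subgroup trivial -/
theorem vsol_lin_top {Γ E : Type} [Group Γ] [NormedAddCommGroup E] [NormedSpace ℝ E]
    (hol : Γ →* (E ≃ᵃ[ℝ] E)) (j : ℕ) (h : ∀ γ ∈ derivedSeries Γ j, ∀ v, (hol γ).linear v = v) :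
    VSol hol := by
  refine vsol_lin hol ⊤ inferInstance j fun γ hγ => ?_
  have h1 := map_derivedSeries_le_derivedSeries (Subgroup.subtype (⊤ : Subgroup Γ)) j
  exact h _ (h1 ⟨γ, hγ, rfl⟩)

section
variable {X Γ E : Type} [NormedAddCommGroup E] [NormedSpace ℝ E] [FiniteDimensional ℝ E]
    [TopologicalSpace X] [Group Γ] [MulAction Γ X]
    {dev : X → E} {hol : Γ →* (E ≃ᵃ[ℝ] E)}

omit [FiniteDimensional ℝ E] in
/-- an element with a fixed point has finite order -/
theorem fin_order (D : AffData X Γ E dev hol) (hdev : IsHomeomorph dev) (g : Γ) (p : E)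
    (hp : hol g p = p) : ∃ k : ℕ, 0 < k ∧ g ^ k = 1 := by
  obtain ⟨x, rfl⟩ := hdev.surjective p
  have hx : g • x = x := by
    apply hdev.injective
    rw [D.equi, hp]
  have hk : ∀ k : ℕ, g ^ k • x = x := by
    intro k
    induction k with
    | zero => rw [pow_zero, one_smul]
    | succ k ih => rw [pow_succ, mul_smul, hx, ih]
  have hmem : ∀ k : ℕ, g ^ k ∈ {γ : Γ | ∃ y ∈ ({x} : Set X), γ • y ∈ ({x} : Set X)} :=
    fun k => ⟨x, rfl, hk k⟩
  obtain ⟨a, b, hab, h⟩ := (D.pd {x} isCompact_singleton).exists_lt_map_eq_of_forall_mem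
    (f := fun k : ℕ => g ^ k) hmem
  refine ⟨b - a, by omega, ?_⟩
  have h1 : g ^ a = g ^ b := h
  have h2 : g ^ b = g ^ a * g ^ (b - a) := by rw [← pow_add]; congr 1; omega
  rw [h2] at h1
  have h3 : g ^ a * 1 = g ^ a * g ^ (b - a) := by rw [mul_one]; exact h1
  exact (mul_left_cancel h3).symm

theorem vsol_plane (D : AffData X Γ E dev hol) (hdev : IsHomeomorph dev)
    (W : Submodule ℝ E) (hW2 : Module.finrank ℝ W = 2)
    (hW : ∀ (γ : Γ) (v : E), (hol γ).linear v - v ∈ W) : VSol hol := by
  have hmem : ∀ γ, ∀ v ∈ W, (hol γ).linear v ∈ W := by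
    intro γ v hv
    have := Submodule.add_mem _ (hW γ v) hv
    rwa [sub_add_cancel] at this
  -- the restriction
  let Bl : Γ → (W →ₗ[ℝ] W) := fun γ =>
    ((hol γ).linear : E →ₗ[ℝ] E).restrict (fun v hv => hmem γ v hv)
  have hBl : ∀ (γ : Γ) (v : W), ((Bl γ v : W) : E) = (hol γ).linear (v : E) := fun γ v => rfl
  have hBmul : ∀ γ δ : Γ, Bl (γ * δ) = Bl γ * Bl δ := by
    intro γ δ
    refine LinearMap.ext fun v => Subtype.ext ?_
    rw [hBl, Module.End.mul_apply, hBl, hBl, map_mul]
    rfl
  have hBone : Bl 1 = 1 := by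
    refine LinearMap.ext fun v => Subtype.ext ?_
    rw [hBl, map_one]
    rfl
  have hdet : ∀ γ : Γ, |LinearMap.det (Bl γ)| = 1 := by
    intro γ
    have h1 := LinearMap.det_eq_det_mul_det W ((hol γ).linear : E →ₗ[ℝ] E)
      (fun v hv => hmem γ v hv)
    have h2 : W.mapQ W ((hol γ).linear : E →ₗ[ℝ] E) (fun v hv => hmem γ v hv) =
        LinearMap.id := by
      refine Submodule.linearMap_qext _ (LinearMap.ext fun v => ?_)
      show Submodule.Quotient.mk ((hol γ).linear v) = Submodule.Quotient.mk v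
      rw [Submodule.Quotient.eq]
      exact hW γ v
    rw [h2, LinearMap.det_id, mul_one] at h1
    have h3 := D.unimod γ
    rw [h1] at h3
    exact h3
  let b : Module.Basis (Fin 2) ℝ W := Module.finBasisOfFinrankEq ℝ W hW2
  let B : Γ →* M2 :=
    { toFun := fun γ => LinearMap.toMatrix b b (Bl γ)
      map_one' := by rw [hBone, LinearMap.toMatrix_one]
      map_mul' := fun γ δ => by rw [hBmul, LinearMap.toMatrix_mul] }
  have hB : ∀ γ, B γ = LinearMap.toMatrix b b (Bl γ) := fun γ => rfl
  have hBdet : ∀ γ, |(B γ).det| = 1 := by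
    intro γ
    rw [hB, LinearMap.det_toMatrix]
    exact hdet γ
  let χ : Γ →* Multiplicative (E ⧸ W) :=
    { toFun := fun γ => Multiplicative.ofAdd (W.mkQ (hol γ 0))
      map_one' := by
        rw [map_one]
        show Multiplicative.ofAdd (W.mkQ 0) = 1
        rw [map_zero]
        rfl
      map_mul' := by
        intro γ δ
        rw [← ofAdd_add, ← map_add]
        congr 1
        show Submodule.Quotient.mk _ = Submodule.Quotient.mk _
        rw [Submodule.Quotient.eq]
        have h4 := (hol γ).map_vadd 0 (hol δ 0)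
        rw [vadd_eq_add, vadd_eq_add, add_zero] at h4
        have h5 : hol (γ * δ) 0 = (hol γ).linear (hol δ 0) + hol γ 0 := by
          rw [map_mul]
          exact h4
        rw [h5]
        have h6 := hW γ (hol δ 0)
        have e : (hol γ).linear (hol δ 0) + hol γ 0 - (hol γ 0 + hol δ 0) =
            (hol γ).linear (hol δ 0) - hol δ 0 := by abel
        rw [e]
        exact h6 }
  have hχ : ∀ γ ∈ χ.ker, hol γ 0 ∈ W := by
    intro γ hγ
    have h1 : W.mkQ (hol γ 0) = 0 := hγ
    rwa [Submodule.mkQ_apply, Submodule.Quotient.mk_eq_zero] at h1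
  by_cases hNE : NE B χ.ker
  · exfalso
    have hNE' : NE (B.comp χ.ker.subtype) ⊤ := by
      intro Y hY hY0
      obtain ⟨n, hn, hc⟩ := hNE Y hY hY0
      exact ⟨⟨n, hn⟩, trivial, hc⟩
    obtain ⟨g, hg1, hg2⟩ := hyp_exists hNE' fun g => hBdet g
    have hg1' : (B (g : Γ)).det = 1 := hg1
    have hg2' : 2 < |(B (g : Γ)).trace| := hg2
    have hne : LinearMap.det (Bl (g : Γ) - 1) ≠ 0 := by
      rw [← LinearMap.det_toMatrix b, map_sub, LinearMap.toMatrix_one, ← hB]
      have e : (B (g : Γ) - 1).det = (B (g : Γ)).det - (B (g : Γ)).trace + 1 := by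
        rw [Matrix.det_fin_two, Matrix.det_fin_two, Matrix.trace_fin_two]
        simp only [Matrix.sub_apply, Matrix.one_fin_two, Matrix.of_apply,
          Matrix.cons_val_zero, Matrix.cons_val_one]
        simp
        ring
      rw [e, hg1']
      intro h0
      have h1 : (B (g : Γ)).trace = 2 := by linarith
      rw [h1, abs_of_pos (by norm_num)] at hg2'
      exact lt_irrefl _ hg2'
    have hu : IsUnit (Bl (g : Γ) - 1) := by
      rw [LinearMap.isUnit_iff_isUnit_det]
      exact hne.isUnit
    obtain ⟨w, hw⟩ := ((Module.End.isUnit_iff _).1 hu).2 (-⟨hol (g : Γ) 0, hχ g g.2⟩)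
    have hfix : hol (g : Γ) (w : E) = w := by
      have h4 := (hol (g : Γ)).map_vadd 0 (w : E)
      rw [vadd_eq_add, vadd_eq_add, add_zero] at h4
      have h5 : ((Bl (g : Γ) w : W) : E) - w = -hol (g : Γ) 0 := congrArg Subtype.val hw
      rw [hBl] at h5
      rw [h4]
      have h6 : (hol (g : Γ)).linear (w : E) = w - hol (g : Γ) 0 := by
        rw [sub_eq_iff_eq_add] at h5
        rw [h5]
        abel
      rw [h6]
      abel
    obtain ⟨k, hk, hgk⟩ := fin_order D hdev g w hfix
    refine pow_ne_one_of_abs_trace hg1' hg2' k hk ?_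
    rw [← map_pow, hgk, map_one]
  · unfold NE at hNE
    push Not at hNE
    obtain ⟨Y, hY, hY0, hcen⟩ := hNE
    let L : Γ →* (E ≃ₗ[ℝ] E) := AffineEquiv.linearHom.comp hol
    let S : ℕ → Subgroup Γ := fun i => match i with
      | 0 => ⊤
      | 1 => χ.ker
      | 2 => χ.ker ⊓ cen B Y
      | 3 => χ.ker ⊓ B.ker
      | _ => L.ker
    have hS : ∀ i, ∀ a ∈ S i, ∀ c ∈ S i, ⁅a, c⁆ ∈ S (i + 1) := by
      intro i a hia c hic
      match i, hia, hic with
      | 0, _, _ => exact comm_ker χ (mul_comm _ _)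
      | 1, h1, h2 =>
        refine ⟨?_, comm_cen _ hY0 (hcen a h1) (hcen c h2)⟩
        rw [commutatorElement_def]
        exact Subgroup.mul_mem _ (Subgroup.mul_mem _ (Subgroup.mul_mem _ h1 h2)
          (Subgroup.inv_mem _ h1)) (Subgroup.inv_mem _ h2)
      | 2, h1, h2 =>
        refine ⟨?_, comm_ker _ (comm_of_cen hY hY0 h1.2 h2.2)⟩
        rw [commutatorElement_def]
        exact Subgroup.mul_mem _ (Subgroup.mul_mem _ (Subgroup.mul_mem _ h1.1 h2.1)
          (Subgroup.inv_mem _ h1.1)) (Subgroup.inv_mem _ h2.1)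
      | 3, h1, h2 =>
        have triv : ∀ g ∈ B.ker, ∀ w ∈ W, (hol g).linear w = w := by
          intro g hg w hw
          have h3 : LinearMap.toMatrix b b (Bl g) = 1 := hg
          have h4 : Bl g = 1 := by
            apply (LinearMap.toMatrix b b).injective
            rw [h3, LinearMap.toMatrix_one]
          have h5 := hBl g ⟨w, hw⟩
          rw [h4] at h5
          exact h5.symm
        refine comm_ker L (LinearEquiv.ext fun v => ?_)
        show (hol a).linear ((hol c).linear v) = (hol c).linear ((hol a).linear v)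
        have e1 : (hol a).linear ((hol c).linear v) = ((hol c).linear v - v) + (hol a).linear v := by
          have h3 := triv a h1.2 _ (hW c v)
          rw [map_sub, sub_eq_iff_eq_add] at h3
          exact h3
        have e2 : (hol c).linear ((hol a).linear v) = ((hol a).linear v - v) + (hol c).linear v := by
          have h3 := triv c h2.2 _ (hW a v)
          rw [map_sub, sub_eq_iff_eq_add] at h3
          exact h3
        rw [e1, e2]
        abel
      | (n + 4), h1, h2 =>
        show _ ∈ L.ker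
        have h1' : a ∈ L.ker := h1
        have h2' : c ∈ L.ker := h2
        rw [commutatorElement_def]
        exact Subgroup.mul_mem _ (Subgroup.mul_mem _ (Subgroup.mul_mem _ h1' h2')
          (Subgroup.inv_mem _ h1')) (Subgroup.inv_mem _ h2')
    have h4 := derived_le S rfl hS 4
    refine vsol_lin_top hol 4 fun γ hγ v => ?_
    have h5 : L γ = 1 := h4 hγ
    have h6 := congrArg (fun T : E ≃ₗ[ℝ] E => T v) h5
    exact h6

/-- dimension at most two -/
theorem vsol_low (D : AffData X Γ E dev hol) (hdev : IsHomeomorph dev)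
    (h2 : Module.finrank ℝ E ≤ 2) : VSol hol := by
  rcases Nat.lt_or_ge (Module.finrank ℝ E) 2 with h | h
  · refine vsol_lin_top hol 1 fun γ hγ v => ?_
    have h1 : derivedSeries Γ 1 ≤ (AffineEquiv.linearHom.comp hol).ker := by
      rw [derivedSeries_succ, Subgroup.commutator_le]
      intro a _ c _
      exact comm_ker _ (comm_one (by omega) _ _)
    have h5 : (AffineEquiv.linearHom.comp hol) γ = 1 := h1 hγ
    have h6 := congrArg (fun T : E ≃ₗ[ℝ] E => T v) h5
    exact h6
  · exact vsol_plane D hdev ⊤ (by rw [finrank_top]; omega) fun _ _ => trivial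

end

end Pool.Agent.P8H83
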