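import Pool.Agent.W689.Mk.Prin2
import Pool.Agent.W689.Mk.Av

/-!
The principle, with an almost everywhere hypothesis.
-/

set_option autoImplicit false

open Set Filter Topology MeasureTheory Metric
open Pool.Agent.W689.Mk
open scoped NNReal

namespace Pool.Agent.P8H83

section
variable {X E : Type} [TopologicalSpace X] [T2Space X]
  [NormedAddCommGroup E] [NormedSpace ℝ E] [FiniteDimensional ℝ E] {dev : X → E}

/-- Rademacher's theorem for locally Lipschitz maps on the cover, in the charts -/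
theorem LL.ae_diff {V : Type} [NormedAddCommGroup V] [NormedSpace ℝ V] [FiniteDimensional ℝ V]
    [MeasurableSpace E] [BorelSpace E] (lam : Measure E) [lam.IsAddHaarMeasure] {u : X → V}
    (hu : LL dev u) {U : Set E} {s : E → X} (hs : Sec dev U s) :
    ∀ᵐ q ∂lam, q ∈ U → DifferentiableAt ℝ (fun q => u (s q)) q := by
  rw [ae_iff]
  refine measure_null_of_locally_null _ fun q hq => ?_
  have hqU : q ∈ U := by
    by_contra h
    exact hq fun h' => absurd h' h
  obtain ⟨N, hN, L, hL, H⟩ := hu (s q)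
  have hc : ContinuousAt s q := (hs.cont q hqU).continuousAt (hs.isOpen.mem_nhds hqU)
  have h1 : U ∩ s ⁻¹' N ∈ 𝓝 q := inter_mem (hs.isOpen.mem_nhds hqU) (hc hN)
  obtain ⟨r, hr, hrs⟩ := Metric.mem_nhds_iff.1 h1
  have hlip : LipschitzOnWith ⟨L, hL⟩ (fun q => u (s q)) (ball q r) := by
    refine LipschitzOnWith.of_dist_le_mul fun y hy z hz => ?_
    rw [dist_eq_norm, dist_eq_norm]
    have h2 := H (s y) (hrs hy).2 (s z) (hrs hz).2
    rw [hs.inv y (hrs hy).1, hs.inv z (hrs hz).1] at h2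
    exact h2
  have h3 := hlip.ae_differentiableWithinAt_of_mem (μ := lam)
  rw [ae_iff] at h3
  refine ⟨{q | ¬(q ∈ U → DifferentiableAt ℝ (fun q => u (s q)) q)} ∩ ball q r,
    inter_mem self_mem_nhdsWithin (mem_nhdsWithin_of_mem_nhds (ball_mem_nhds q hr)),
    measure_mono_null ?_ h3⟩
  rintro y ⟨hy1, hy2⟩ h4
  apply hy1
  intro _
  exact (h4 hy2).differentiableAt (isOpen_ball.mem_nhds hy2)

end

section
variable {X Γ E : Type} [TopologicalSpace X] [T2Space X] [SecondCountableTopology X] [Nonempty X]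
  [Group Γ] [MulAction Γ X] [NormedAddCommGroup E] [NormedSpace ℝ E] [FiniteDimensional ℝ E]
  {dev : X → E} {hol : Γ →* (E ≃ᵃ[ℝ] E)}

/-- the principle, with an almost everywhere hypothesis -/
theorem principle_ae [MeasurableSpace E] [BorelSpace E] (lam : Measure E) [lam.IsAddHaarMeasure]
    (D : AffData X Γ E dev hol) {Z : X → E} (hZ : VF dev hol Z)
    (hsing : ∀ (U : Set E) (s : E → X), Sec dev U s → ∀ᵐ q ∂lam, q ∈ U → ∀ A : E →L[ℝ] E,
      HasFDerivAt (fun q => Z (s q)) A q → dt A = 0) : False := by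
  obtain ⟨m, c, ρ, hρc, hρ0, hρs, hρ1, hint, hsum⟩ := master lam D hZ
  have in1 : ∀ i, ball (c i).p (c i).r ⊆ ball (c i).p (4 * (c i).r) :=
    fun i => ball_subset_ball (by linarith [(c i).hr])
  have hval : ∀ i, ∀ᵐ q ∂lam, q ∈ ball (c i).p (c i).r →
      dt (fderiv ℝ (fun q => Z ((c i).σ q)) q) = 0 := by
    intro i
    filter_upwards [LL.ae_diff lam hZ.ll (c i).sec, hsing _ _ (c i).sec] with q h1 h2 hq
    exact h2 (in1 i hq) _ (h1 (in1 i hq)).hasFDerivAt
  have hnn : ∀ i, 0 ≤ᵐ[lam.restrict (ball (c i).p (c i).r)]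
      fun q => -((dt (fderiv ℝ (fun q => Z ((c i).σ q)) q) - 1) * ρ i ((c i).σ q)) := by
    intro i
    rw [EventuallyLE, ae_restrict_iff' isOpen_ball.measurableSet]
    filter_upwards [hval i] with q hq hqb
    have h1 := hρ0 i ((c i).σ q)
    rw [hq hqb]
    simpa using h1
  have hz : ∀ i, ∫ q in ball (c i).p (c i).r,
      -((dt (fderiv ℝ (fun q => Z ((c i).σ q)) q) - 1) * ρ i ((c i).σ q)) ∂lam = 0 := by
    have h1 : ∑ i, ∫ q in ball (c i).p (c i).r,
      -((dt (fderiv ℝ (fun q => Z ((c i).σ q)) q) - 1) * ρ i ((c i).σ q)) ∂lam = 0 := by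
      simp only [integral_neg, Finset.sum_neg_distrib, hsum, neg_zero]
    intro i
    refine (Finset.sum_eq_zero_iff_of_nonneg fun j _ => ?_).1 h1 i (Finset.mem_univ i)
    exact integral_nonneg_of_ae (hnn j)
  obtain ⟨x⟩ := ‹Nonempty X›
  obtain ⟨γ, i, hi⟩ := hρ1 x
  obtain ⟨q0, hq0, hq0x⟩ := hρs i _ hi
  have h1 := (integral_eq_zero_iff_of_nonneg_ae (hnn i) (hint i).neg).1 (hz i)
  rw [EventuallyEq, ae_restrict_iff' isOpen_ball.measurableSet] at h1
  have hopen : IsOpen (ball (c i).p (c i).r ∩ (c i).σ ⁻¹' {x | ρ i x ≠ 0}) :=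
    ((c i).sec.cont.mono (in1 i)).isOpen_inter_preimage isOpen_ball
      (isOpen_ne_fun (hρc i) continuous_const)
  have hq0m : q0 ∈ ball (c i).p (c i).r ∩ (c i).σ ⁻¹' {x | ρ i x ≠ 0} := by
    refine ⟨hq0, ?_⟩
    show ρ i ((c i).σ q0) ≠ 0
    rw [hq0x]; exact hi
  have hpos := hopen.measure_pos lam ⟨q0, hq0m⟩
  have hnull : lam (ball (c i).p (c i).r ∩ (c i).σ ⁻¹' {x | ρ i x ≠ 0}) = 0 := by
    refine measure_mono_null ?_ (ae_iff.1 ((h1.and (hval i))))
    intro q hq hcon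
    obtain ⟨hqb, hqρ⟩ := hq
    have h2 := hcon.1 hqb
    rw [hcon.2 hqb] at h2
    simp only [Pi.zero_apply] at h2
    apply hqρ
    linarith
  exact hpos.ne' hnull

end

end Pool.Agent.P8H83
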