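import Pool.Agent.P8H83.Trans

/-!
The quotient by the span of the translations.
-/

set_option autoImplicit false

open Set Filter Topology Metric
open Pool.Agent.W689.Mk Pool.Agent.TH94.MK

namespace Pool.Agent.P8H83

section
variable {Γ E Q : Type} [Group Γ] [NormedAddCommGroup E] [NormedSpace ℝ E]
  [NormedAddCommGroup Q] [NormedSpace ℝ Q] {hol : Γ →* (E ≃ᵃ[ℝ] E)} [FiniteDimensional ℝ E]

/-- a splitting of the projection along the translations -/
structure Spl (hol : Γ →* (E ≃ᵃ[ℝ] E)) (π : E →L[ℝ] Q) (σ : Q →L[ℝ] E) : Prop where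
  sec : ∀ q, π (σ q) = q
  ker : ∀ v, π v = 0 ↔ v ∈ Vt hol

variable {π : E →L[ℝ] Q} {σ : Q →L[ℝ] E}

theorem Spl.sub (h : Spl hol π σ) (p : E) : p - σ (π p) ∈ Vt hol := by
  rw [← h.ker, map_sub, h.sec, sub_self]

theorem Spl.inv (h : Spl hol π σ) (γ : Γ) {v : E} (hv : v ∈ Vt hol) : π (cl hol γ v) = 0 :=
  (h.ker _).2 (Vt_inv γ hv)

theorem Spl.equi (h : Spl hol π σ) (γ : Γ) (p : E) : π (hol γ p) = π (hol γ (σ (π p))) := by
  have h1 : p = σ (π p) + (p - σ (π p)) := by abel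
  conv_lhs => rw [h1, hol_add]
  rw [map_add]
  have h2 : π (lin hol γ (p - σ (π p))) = 0 := h.inv γ (h.sub p)
  rw [h2, add_zero]

/-- the affine maps of the quotient -/
noncomputable def qf (h : Spl hol π σ) : Γ →* (Q →ᵃ[ℝ] Q) where
  toFun γ := (π : E →ₗ[ℝ] Q).toAffineMap.comp
    ((hol γ : E →ᵃ[ℝ] E).comp (σ : Q →ₗ[ℝ] E).toAffineMap)
  map_one' := by
    refine AffineMap.ext fun q => ?_
    show π (hol 1 (σ q)) = q
    rw [map_one]
    exact h.sec q
  map_mul' γ δ := by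
    refine AffineMap.ext fun q => ?_
    show π (hol (γ * δ) (σ q)) = π (hol γ (σ (π (hol δ (σ q)))))
    rw [← h.equi, map_mul]
    rfl

theorem qf_apply (h : Spl hol π σ) (γ : Γ) (q : Q) : qf h γ q = π (hol γ (σ q)) := rfl

/-- the holonomy of the quotient -/
noncomputable def qh (h : Spl hol π σ) : Γ →* (Q ≃ᵃ[ℝ] Q) :=
  (AffineEquiv.equivUnitsAffineMap (k := ℝ) (P₁ := Q)).symm.toMonoidHom.comp
    (MonoidHom.toHomUnits (qf h))

theorem qh_apply (h : Spl hol π σ) (γ : Γ) (q : Q) : qh h γ q = π (hol γ (σ q)) := rfl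

theorem qh_equi (h : Spl hol π σ) (γ : Γ) (p : E) : π (hol γ p) = qh h γ (π p) := by
  rw [qh_apply, h.equi]

theorem qh_linear (h : Spl hol π σ) (γ : Γ) (q : Q) : (qh h γ).linear q = π (cl hol γ (σ q)) := rfl

/-- the determinant of the quotient -/
theorem det_quo (h : Spl hol π σ) (γ : Γ) : LinearMap.det (cl hol γ : E →ₗ[ℝ] E) =
    LinearMap.det (clV hol γ) * LinearMap.det ((qh h γ).linear : Q →ₗ[ℝ] Q) := by
  have he : Vt hol ≤ (Vt hol).comap (cl hol γ : E →ₗ[ℝ] E) := fun v hv => Vt_inv γ hv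
  rw [LinearMap.det_eq_det_mul_det (Vt hol) (cl hol γ : E →ₗ[ℝ] E) he]
  have hk : Vt hol = LinearMap.ker (π : E →ₗ[ℝ] Q) := by
    ext v
    rw [LinearMap.mem_ker]
    exact (h.ker v).symm
  have hs : Function.Surjective (π : E →ₗ[ℝ] Q) := fun q => ⟨σ q, h.sec q⟩
  let φ : (E ⧸ Vt hol) ≃ₗ[ℝ] Q := (Submodule.quotEquivOfEq _ _ hk).trans
    ((π : E →ₗ[ℝ] Q).quotKerEquivOfSurjective hs)
  have hφ : ∀ v : E, φ (Submodule.Quotient.mk v) = π v := fun v => rfl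
  have h1 : ((qh h γ).linear : Q →ₗ[ℝ] Q) =
      (φ : (E ⧸ Vt hol) →ₗ[ℝ] Q) ∘ₗ ((Vt hol).mapQ (Vt hol) (cl hol γ : E →ₗ[ℝ] E) he) ∘ₗ
        (φ.symm : Q →ₗ[ℝ] (E ⧸ Vt hol)) := by
    refine LinearMap.ext fun q => ?_
    have h2 : φ.symm q = Submodule.Quotient.mk (σ q) := by
      rw [LinearEquiv.symm_apply_eq, hφ, h.sec]
    show (qh h γ).linear q = φ ((Vt hol).mapQ (Vt hol) (cl hol γ : E →ₗ[ℝ] E) he (φ.symm q))
    rw [h2, qh_linear]
    rfl
  rw [h1, LinearMap.det_conj]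
  rfl

end

section
variable {X Γ E Q : Type} [NormedAddCommGroup E] [NormedSpace ℝ E] [FiniteDimensional ℝ E]
    [NormedAddCommGroup Q] [NormedSpace ℝ Q] [FiniteDimensional ℝ Q]
    [TopologicalSpace X] [T2Space X] [Group Γ] [MulAction Γ X] [Nonempty X]
    {dev : X → E} {hol : Γ →* (E ≃ᵃ[ℝ] E)} {π : E →L[ℝ] Q} {σ : Q →L[ℝ] E}

/-- the translations are cocompact in their span -/
theorem cocpt_T (hol : Γ →* (E ≃ᵃ[ℝ] E)) : ∃ R : ℝ, ∀ w ∈ Vt hol, ∃ t ∈ Tv hol, ‖w + t‖ ≤ R := by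
  obtain ⟨b, hb⟩ := exists_basis_of_span (span_TV (hol := hol))
  have hLT : ∀ l ∈ Submodule.span ℤ (range b), l ∈ TV hol := by
    intro l hl
    have h1 : Submodule.span ℤ (range b) ≤ AddSubgroup.toIntSubmodule (TV hol) :=
      Submodule.span_le.2 (by rintro _ ⟨i, rfl⟩; exact hb i)
    exact h1 hl
  refine ⟨∑ i, ‖b i‖, fun w hw => ?_⟩
  have h1 : -((ZSpan.floor b (⟨w, hw⟩ : Vt hol) : Submodule.span ℤ (range b)) : Vt hol) ∈ TV hol :=
    (TV hol).neg_mem (hLT _ (ZSpan.floor b _).2)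
  refine ⟨_, h1, ?_⟩
  have h2 := ZSpan.norm_fract_le b (⟨w, hw⟩ : Vt hol)
  rw [ZSpan.fract_apply] at h2
  have h3 : ‖(⟨w, hw⟩ : Vt hol) - (ZSpan.floor b (⟨w, hw⟩ : Vt hol) : Vt hol)‖ =
      ‖w + ((-(ZSpan.floor b (⟨w, hw⟩ : Vt hol) : Vt hol) : Vt hol) : E)‖ := by
    rw [sub_eq_add_neg]
    rfl
  rwa [h3] at h2

theorem quo_data (D : AffData X Γ E dev hol) (hinj : Function.Injective dev) (h : Spl hol π σ) :
    (∀ p, π p ∈ π '' range dev → p ∈ range dev) ∧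
    ∃ act : MulAction (qh h).range (π '' range dev),
      AffData (π '' range dev) (qh h).range Q Subtype.val (qh h).range.subtype := by
  have hU : ∀ p, π p ∈ π '' range dev → p ∈ range dev := by
    rintro p ⟨q, hq, hqp⟩
    have h1 : p - q ∈ Vt hol := by rw [← h.ker, map_sub, hqp, sub_self]
    have h2 := sat D hinj hq h1
    rwa [add_sub_cancel] at h2
  refine ⟨hU, ?_⟩
  obtain ⟨U, hUdef⟩ : ∃ U : Set Q, U = π '' range dev := ⟨_, rfl⟩
  rw [← hUdef]
  rw [← hUdef] at hU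
  have hUr : ∀ p ∈ range dev, π p ∈ U := fun p hp => by rw [hUdef]; exact mem_image_of_mem _ hp
  have hsurj : Function.Surjective π := fun q => ⟨σ q, h.sec q⟩
  have hUo : IsOpen U := by
    rw [hUdef]
    exact π.isOpenMap hsurj _ D.loc.isOpenMap.isOpen_range
  have hUinv : ∀ γ, ∀ q ∈ U, qh h γ q ∈ U := by
    intro γ q hq
    obtain ⟨p, rfl⟩ := hsurj q
    rw [← qh_equi]
    exact hUr _ (range_inv D γ _ (hU _ hq))
  have hUinv' : ∀ g : (qh h).range, ∀ y ∈ U, (g : Q ≃ᵃ[ℝ] Q) y ∈ U := by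
    rintro ⟨_, γ, rfl⟩ y hy
    exact hUinv γ y hy
  let act : MulAction (qh h).range U :=
    { smul := fun g y => ⟨(g : Q ≃ᵃ[ℝ] Q) y, hUinv' g y y.2⟩
      one_smul := fun y => Subtype.ext rfl
      mul_smul := fun g h y => Subtype.ext rfl }
  refine ⟨act, hUo.isOpenEmbedding_subtypeVal.isLocalHomeomorph, ?_, fun g x => rfl, ?_, ?_, ?_⟩
  · intro g
    exact ((AffineEquiv.continuous_of_finiteDimensional (g : Q ≃ᵃ[ℝ] Q)).comp
      continuous_subtype_val).subtype_mk _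
  · rintro ⟨_, γ, rfl⟩
    show |LinearMap.det ((qh h γ).linear : Q →ₗ[ℝ] Q)| = 1
    have h1 := cl_det_ne D γ
    rw [det_quo h, abs_mul, det_clV D hinj, one_mul] at h1
    exact h1
  · -- proper discontinuity
    intro K hK
    obtain ⟨R, hR⟩ := cocpt_T hol
    obtain ⟨Kh, hKh⟩ : ∃ Kh : Set E, Kh = (fun w : Q × E => σ w.1 + w.2) ''
        ((Subtype.val '' K) ×ˢ (closedBall 0 |R| ∩ (Vt hol : Set E))) := ⟨_, rfl⟩
    have hVc : IsClosed (Vt hol : Set E) := (Vt hol).closed_of_finiteDimensional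
    have hKc : IsCompact Kh := by
      rw [hKh]
      have : ProperSpace E := FiniteDimensional.proper ℝ E
      exact ((hK.image continuous_subtype_val).prod
        ((isCompact_closedBall (0 : E) |R|).inter_right hVc)).image
          ((σ.continuous.comp continuous_fst).add continuous_snd)
    have hKr : Kh ⊆ range dev := by
      rw [hKh]
      rintro _ ⟨w, ⟨⟨y, hy, hyw⟩, -, hw2⟩, rfl⟩
      apply hU
      show π (σ w.1 + w.2) ∈ U
      rw [map_add, h.sec, (h.ker _).2 hw2, add_zero, ← hyw]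
      exact y.2
    have hfin := range_pd D hinj Kh hKc hKr
    refine (hfin.image fun γ => (⟨qh h γ, γ, rfl⟩ : (qh h).range)).subset ?_
    rintro ⟨_, γ, rfl⟩ ⟨y, hy, hgy⟩
    obtain ⟨p, hp⟩ : ∃ p, p = σ (y : Q) := ⟨_, rfl⟩
    have hpK : p ∈ Kh := by
      rw [hp, hKh]
      refine ⟨((y : Q), 0), ⟨mem_image_of_mem _ hy, ?_, (Vt hol).zero_mem⟩, add_zero _⟩
      rw [mem_closedBall, dist_self]
      exact abs_nonneg R
    have hpy : π p = y := by rw [hp, h.sec]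
    obtain ⟨t, ht, htR⟩ := hR _ (h.sub (hol γ p))
    obtain ⟨δ, hδ⟩ := ht
    have htV : t ∈ Vt hol := Submodule.subset_span ⟨δ, hδ⟩
    have hδ1 : qh h δ = 1 := by
      refine AffineEquiv.ext fun q => ?_
      obtain ⟨p, rfl⟩ := hsurj q
      rw [← qh_equi, hδ, map_add, (h.ker _).2 htV, add_zero]
      rfl
    refine ⟨δ * γ, ⟨p, hpK, ?_⟩, ?_⟩
    · rw [map_mul]
      show hol δ (hol γ p) ∈ Kh
      rw [hδ, hKh]
      refine ⟨(π (hol γ p), hol γ p - σ (π (hol γ p)) + t), ⟨?_, ?_, ?_⟩, ?_⟩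
      · show π (hol γ p) ∈ _
        rw [qh_equi h, hpy]
        exact ⟨_, hgy, rfl⟩
      · rw [mem_closedBall, dist_zero_right]
        exact htR.trans (le_abs_self R)
      · exact (Vt hol).add_mem (h.sub _) htV
      · show σ (π (hol γ p)) + (hol γ p - σ (π (hol γ p)) + t) = hol γ p + t
        abel
    · apply Subtype.ext
      show qh h (δ * γ) = qh h γ
      rw [map_mul, hδ1, one_mul]
  · -- cocompactness
    obtain ⟨C0, hC0, hC0r, hcc⟩ := range_cc D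
    refine ⟨Subtype.val ⁻¹' (π '' C0), ?_, fun z => ?_⟩
    · refine (hUo.isOpenEmbedding_subtypeVal.isInducing.isCompact_preimage_iff ?_).2
        (hC0.image π.continuous)
      rw [Subtype.range_coe]
      rintro _ ⟨c, hc, rfl⟩
      exact hUr _ (hC0r hc)
    · obtain ⟨p, hp⟩ := hsurj z
      have hz := z.2
      rw [← hp] at hz
      obtain ⟨γ, c, hc, hγc⟩ := hcc p (hU _ hz)
      refine ⟨⟨qh h γ, γ, rfl⟩, ⟨π c, hUr _ (hC0r hc)⟩, mem_image_of_mem _ hc, ?_⟩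
      apply Subtype.ext
      show qh h γ (π c) = z
      rw [← qh_equi, hγc, hp]

end

end Pool.Agent.P8H83
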