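import Mathlib

/-!
Homomorphisms from a group to a normed ring: the commutator estimate, the iteration of Jørgensen and
the elements closest to the identity.
-/

set_option autoImplicit false

open Set Filter Topology Metric

namespace Pool.Agent.P8H83

theorem map_mul_inv {G A : Type*} [Group G] [Monoid A] (M : G →* A) (g : G) : M g * M g⁻¹ = 1 := by
  rw [← map_mul, mul_inv_cancel, map_one]

theorem map_inv_mul {G A : Type*} [Group G] [Monoid A] (M : G →* A) (g : G) : M g⁻¹ * M g = 1 := by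
  rw [← map_mul, inv_mul_cancel, map_one]

section
variable {G A : Type*} [Group G] [NormedRing A] (M : G →* A)

variable [NormOneClass A]

theorem inv_le_two {g : G} (h : ‖M g - 1‖ ≤ 1 / 2) : ‖M g⁻¹‖ ≤ 2 := by
  have h1 : M g⁻¹ = 1 - (M g - 1) * M g⁻¹ := by
    rw [sub_mul, map_mul_inv, one_mul]; abel
  have h2 : ‖M g⁻¹‖ ≤ 1 + ‖M g - 1‖ * ‖M g⁻¹‖ := by
    calc ‖M g⁻¹‖ = ‖1 - (M g - 1) * M g⁻¹‖ := by rw [← h1]
      _ ≤ ‖(1 : A)‖ + ‖(M g - 1) * M g⁻¹‖ := norm_sub_le _ _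
      _ ≤ 1 + ‖M g - 1‖ * ‖M g⁻¹‖ := by
          rw [norm_one]
          exact add_le_add_right (norm_mul_le _ _) _
  have h3 : ‖M g - 1‖ * ‖M g⁻¹‖ ≤ 1 / 2 * ‖M g⁻¹‖ :=
    mul_le_mul_of_nonneg_right h (norm_nonneg _)
  linarith

/-- the commutator estimate -/
theorem comm_est {a c : G} {δ : ℝ} (hδ : δ ≤ 1 / 2) (ha : ‖M a - 1‖ ≤ δ) (hc : ‖M c - 1‖ ≤ 1 / 2) :
    ‖M (a * c * a⁻¹ * c⁻¹) - 1‖ ≤ 8 * δ * ‖M c - 1‖ := by
  have e1 : M (a * c * a⁻¹ * c⁻¹) - 1 =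
      ((M a - 1) * (M c - 1) - (M c - 1) * (M a - 1)) * (M a⁻¹ * M c⁻¹) := by
    have h1 : (M a - 1) * (M c - 1) - (M c - 1) * (M a - 1) = M a * M c - M c * M a := by
      noncomm_ring
    have h2 : M c * M a * (M a⁻¹ * M c⁻¹) = 1 := by
      rw [mul_assoc (M c), ← mul_assoc (M a), map_mul_inv, one_mul, map_mul_inv]
    rw [h1, sub_mul, h2, map_mul, map_mul, map_mul, mul_assoc (M a * M c)]
  have ha2 := inv_le_two M (ha.trans hδ)
  have hc2 := inv_le_two M hc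
  have h1 : ‖(M a - 1) * (M c - 1) - (M c - 1) * (M a - 1)‖ ≤ 2 * (δ * ‖M c - 1‖) := by
    refine (norm_sub_le _ _).trans ?_
    have h3 : ‖(M a - 1) * (M c - 1)‖ ≤ δ * ‖M c - 1‖ :=
      (norm_mul_le _ _).trans (mul_le_mul_of_nonneg_right ha (norm_nonneg _))
    have h4 : ‖(M c - 1) * (M a - 1)‖ ≤ δ * ‖M c - 1‖ := by
      refine (norm_mul_le _ _).trans ?_
      rw [mul_comm]
      exact mul_le_mul_of_nonneg_right ha (norm_nonneg _)
    linarith
  have h2 : ‖M a⁻¹ * M c⁻¹‖ ≤ 4 := by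
    refine (norm_mul_le _ _).trans ?_
    have := mul_le_mul ha2 hc2 (norm_nonneg _) (by norm_num)
    linarith
  have hδ0 : 0 ≤ δ := (norm_nonneg _).trans ha
  rw [e1]
  refine (norm_mul_le _ _).trans ?_
  have h5 := mul_le_mul h1 h2 (norm_nonneg _) (by positivity)
  linarith

/-- the iteration of Jørgensen -/
def it (a h : G) : ℕ → G
  | 0 => h
  | k + 1 => it a h k * a * (it a h k)⁻¹

theorem it_succ (a h : G) (k : ℕ) : it a h (k + 1) = it a h k * a * (it a h k)⁻¹ := rfl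

theorem jorg_tendsto {a h : G} {R δ : ℝ} (hR : 1 ≤ R) (h1 : ‖M h‖ ≤ R) (h2 : ‖M h⁻¹‖ ≤ R)
    (ha : ‖M a - 1‖ ≤ δ) (hδ : 16 * R * (R + 2) * δ ≤ 1) :
    Tendsto (fun k => M (it a h k)) atTop (𝓝 (M a)) := by
  have hδ0 : 0 ≤ δ := (norm_nonneg _).trans ha
  have hδ1 : 48 * δ ≤ 1 := by
    have : 48 * δ ≤ 16 * R * (R + 2) * δ := by
      apply mul_le_mul_of_nonneg_right _ hδ0
      nlinarith
    linarith
  -- one step
  have step : ∀ x : G, ‖M (x * a * x⁻¹) - M a‖ ≤ 2 * (‖M x - M a‖ * δ) * ‖M x⁻¹‖ := by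
    intro x
    have e1 : M (x * a * x⁻¹) - M a =
        ((M x - M a) * (M a - 1) - (M a - 1) * (M x - M a)) * M x⁻¹ := by
      have h3 : (M x - M a) * (M a - 1) - (M a - 1) * (M x - M a) = M x * M a - M a * M x := by
        noncomm_ring
      rw [h3, sub_mul, mul_assoc (M a), map_mul_inv, mul_one, map_mul, map_mul]
    rw [e1]
    refine (norm_mul_le _ _).trans ?_
    apply mul_le_mul_of_nonneg_right _ (norm_nonneg _)
    refine (norm_sub_le _ _).trans ?_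
    have h3 : ‖(M x - M a) * (M a - 1)‖ ≤ ‖M x - M a‖ * δ :=
      (norm_mul_le _ _).trans (mul_le_mul_of_nonneg_left ha (norm_nonneg _))
    have h4 : ‖(M a - 1) * (M x - M a)‖ ≤ ‖M x - M a‖ * δ := by
      refine (norm_mul_le _ _).trans ?_
      rw [mul_comm]
      exact mul_le_mul_of_nonneg_left ha (norm_nonneg _)
    linarith
  have hMa : ‖M a‖ ≤ 1 + δ := by
    have : M a = 1 + (M a - 1) := by abel
    rw [this]
    refine (norm_add_le _ _).trans ?_
    rw [norm_one]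
    linarith
  -- the first step
  have hb1 : ‖M (it a h 1) - M a‖ ≤ 1 / 4 := by
    have h3 := step (it a h 0)
    have h4 : ‖M (it a h 0) - M a‖ ≤ R + 2 := by
      refine (norm_sub_le _ _).trans ?_
      have : ‖M (it a h 0)‖ ≤ R := h1
      linarith
    have h5 : ‖M (it a h 0)⁻¹‖ ≤ R := h2
    have h6 : 2 * (‖M (it a h 0) - M a‖ * δ) * ‖M (it a h 0)⁻¹‖ ≤ 2 * ((R + 2) * δ) * R := by
      apply mul_le_mul _ h5 (norm_nonneg _) (by positivity)
      have := mul_le_mul_of_nonneg_right h4 hδ0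
      linarith
    have h7 : it a h 1 = it a h 0 * a * (it a h 0)⁻¹ := rfl
    rw [h7]
    nlinarith
  have key : ∀ k : ℕ, ‖M (it a h (k + 1)) - M a‖ ≤ 1 / 4 * (1 / 2) ^ k := by
    intro k
    induction k with
    | zero => simpa using hb1
    | succ k ih =>
      have h3 : ‖M (it a h (k + 1)) - 1‖ ≤ 1 / 2 := by
        have e1 : M (it a h (k + 1)) - 1 = (M (it a h (k + 1)) - M a) + (M a - 1) := by abel
        rw [e1]
        refine (norm_add_le _ _).trans ?_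
        have h4 : (1 / 2 : ℝ) ^ k ≤ 1 := pow_le_one₀ (by norm_num) (by norm_num)
        linarith
      have h4 := inv_le_two M h3
      have h5 := step (it a h (k + 1))
      rw [it_succ a h (k + 1)]
      refine h5.trans ?_
      have h6 : 2 * (‖M (it a h (k + 1)) - M a‖ * δ) * ‖M (it a h (k + 1))⁻¹‖ ≤
          2 * (‖M (it a h (k + 1)) - M a‖ * δ) * 2 :=
        mul_le_mul_of_nonneg_left h4 (by positivity)
      refine h6.trans ?_
      have h7 : ‖M (it a h (k + 1)) - M a‖ * δ ≤ (1 / 4 * (1 / 2) ^ k) * (1 / 48) :=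
        mul_le_mul ih (by linarith) hδ0 (by positivity)
      have h8 : (0 : ℝ) ≤ (1 / 2) ^ k := by positivity
      rw [pow_succ]
      nlinarith
  rw [← tendsto_add_atTop_iff_nat 1, tendsto_iff_norm_sub_tendsto_zero]
  refine squeeze_zero (fun _ => norm_nonneg _) key ?_
  have : Tendsto (fun k : ℕ => 1 / 4 * (1 / 2 : ℝ) ^ k) atTop (𝓝 (1 / 4 * 0)) :=
    (tendsto_pow_atTop_nhds_zero_of_lt_one (by norm_num) (by norm_num)).const_mul _
  simpa using this

/-- the image of the homomorphism is isolated at one -/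
def Iso (M : G →* A) : Prop := ∃ ε > 0, ∀ g : G, ‖M g - 1‖ < ε → M g = 1

omit [NormOneClass A] in
theorem eventually_eq (hM : Iso M) {x : ℕ → G} {a : G}
    (h : Tendsto (fun k => M (x k)) atTop (𝓝 (M a))) : ∃ K, M (x K) = M a := by
  obtain ⟨ε, hε, H⟩ := hM
  have h1 : Tendsto (fun k => M (x k) * M a⁻¹) atTop (𝓝 (M a * M a⁻¹)) := h.mul_const _
  rw [map_mul_inv, tendsto_iff_norm_sub_tendsto_zero] at h1
  obtain ⟨K, hK⟩ := (h1.eventually_lt_const hε).exists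
  refine ⟨K, ?_⟩
  have h2 := H (x K * a⁻¹) (by rw [map_mul]; exact hK)
  rw [map_mul] at h2
  calc M (x K) = M (x K) * M a⁻¹ * M a := by rw [mul_assoc, map_inv_mul, mul_one]
    _ = M a := by rw [h2, one_mul]

theorem jorg (hM : Iso M) {a h : G} {R δ : ℝ} (hR : 1 ≤ R) (h1 : ‖M h‖ ≤ R) (h2 : ‖M h⁻¹‖ ≤ R)
    (ha : ‖M a - 1‖ ≤ δ) (hδ : 16 * R * (R + 2) * δ ≤ 1) : ∃ K, M (it a h K) = M a :=
  eventually_eq M hM (jorg_tendsto M hR h1 h2 ha hδ)

end

section
/-- a bounded uniformly separated set of a proper space is finite -/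
theorem finite_of_sep {α : Type*} [PseudoMetricSpace α] [ProperSpace α] {S : Set α} {x₀ : α} {R ε : ℝ}
    (hε : 0 < ε) (hS : S ⊆ closedBall x₀ R) (hsep : ∀ x ∈ S, ∀ y ∈ S, dist x y < ε → x = y) :
    S.Finite := by
  obtain ⟨t, -, ht, hcov⟩ := (isCompact_closedBall x₀ R).finite_cover_balls (half_pos hε)
  have h1 : S ⊆ ⋃ y ∈ t, (S ∩ ball y (ε / 2)) := by
    intro x hx
    have h2 := hcov (hS hx)
    simp only [mem_iUnion] at h2 ⊢
    obtain ⟨y, hy, hxy⟩ := h2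
    exact ⟨y, hy, hx, hxy⟩
  refine (ht.biUnion fun y _ => ?_).subset h1
  refine Set.Subsingleton.finite fun a ha b hb => hsep a ha.1 b hb.1 ?_
  have h3 := mem_ball.1 ha.2
  have h4 := mem_ball'.1 hb.2
  have := dist_triangle a y b
  linarith

variable {G A : Type*} [Group G] [NormedRing A] [NormOneClass A] [ProperSpace A] (M : G →* A)

omit [NormOneClass A] in
theorem finite_bdd (hM : Iso M) (R : ℝ) : {x | ∃ g, M g = x ∧ ‖M g‖ ≤ R ∧ ‖M g⁻¹‖ ≤ R}.Finite := by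
  obtain ⟨ε, hε, H⟩ := hM
  refine finite_of_sep (x₀ := 0) (R := R) (ε := ε / (|R| + 1)) (by positivity) ?_ ?_
  · rintro x ⟨g, rfl, h1, -⟩
    rw [mem_closedBall, dist_zero_right]
    exact h1
  · rintro x ⟨g, rfl, h1, h2⟩ y ⟨g', rfl, h1', h2'⟩ hd
    rw [dist_eq_norm] at hd
    have e1 : M (g * g'⁻¹) - 1 = (M g - M g') * M g'⁻¹ := by
      rw [sub_mul, map_mul_inv, map_mul]
    have h3 : ‖M (g * g'⁻¹) - 1‖ < ε := by
      rw [e1]
      refine (norm_mul_le _ _).trans_lt ?_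
      rw [lt_div_iff₀ (by positivity)] at hd
      have h4 : ‖M g'⁻¹‖ ≤ |R| + 1 := by
        have := le_abs_self R
        linarith
      exact (mul_le_mul_of_nonneg_left h4 (norm_nonneg _)).trans_lt hd
    have h4 := H _ h3
    rw [map_mul] at h4
    calc M g = M g * M g'⁻¹ * M g' := by rw [mul_assoc, map_inv_mul, mul_one]
      _ = M g' := by rw [h4, one_mul]

/-- a nontrivial element closest to one commutes with all elements close to one -/
theorem exists_central (hM : Iso M) {δ : ℝ} (hδ : δ ≤ 1 / 16)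
    (hne : ∃ g, M g ≠ 1 ∧ ‖M g - 1‖ ≤ δ) :
    ∃ c, M c ≠ 1 ∧ ‖M c - 1‖ ≤ δ ∧ ∀ f, ‖M f - 1‖ ≤ δ → M (f * c) = M (c * f) := by
  have hfin : {x | ∃ g, M g = x ∧ M g ≠ 1 ∧ ‖M g - 1‖ ≤ δ}.Finite := by
    refine (finite_bdd M hM 2).subset ?_
    rintro x ⟨g, rfl, h1, h2⟩
    refine ⟨g, rfl, ?_, inv_le_two M (h2.trans (by linarith))⟩
    have e1 : M g = 1 + (M g - 1) := by abel
    rw [e1]
    refine (norm_add_le _ _).trans ?_
    rw [norm_one]
    linarith
  obtain ⟨g, hg1, hg2⟩ := hne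
  obtain ⟨x, ⟨c, rfl, hc1, hc2⟩, hmin⟩ := hfin.exists_minimalFor (fun x => ‖x - 1‖) _
    ⟨M g, g, rfl, hg1, hg2⟩
  refine ⟨c, hc1, hc2, fun f hf => ?_⟩
  by_contra hne
  have h1 : M (f * c * f⁻¹ * c⁻¹) ≠ 1 := by
    intro h
    apply hne
    have e1 : f * c = (f * c * f⁻¹ * c⁻¹) * (c * f) := by group
    rw [e1, map_mul, h, one_mul]
  have h2 := comm_est M (by linarith) hf (hc2.trans (by linarith))
  have h3 : ‖M (f * c * f⁻¹ * c⁻¹) - 1‖ ≤ 1 / 2 * ‖M c - 1‖ := by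
    refine h2.trans ?_
    apply mul_le_mul_of_nonneg_right _ (norm_nonneg _)
    linarith
  have h4 : 0 < ‖M c - 1‖ := norm_pos_iff.2 (sub_ne_zero.2 hc1)
  have h5 : ‖M (f * c * f⁻¹ * c⁻¹) - 1‖ < ‖M c - 1‖ := by linarith
  have h6 := hmin ⟨f * c * f⁻¹ * c⁻¹, rfl, h1, by linarith⟩ h5.le
  beta_reduce at h6
  linarith

end

end Pool.Agent.P8H83
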