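import Pool.Agent.P8H83.Pd
import Pool.Agent.P8H83.Crd

/-!
Fixed points, hyperplanes met by the developing image, and the finiteness of the projective kernel.
-/

set_option autoImplicit false

open Set Filter Topology Metric
open Pool.Agent.W689.Mk

namespace Pool.Agent.P8H83

section
variable {X Γ E : Type} [NormedAddCommGroup E] [NormedSpace ℝ E] [FiniteDimensional ℝ E]
    [TopologicalSpace X] [T2Space X] [SecondCountableTopology X] [Nonempty X] [Group Γ]
    [MulAction Γ X] {dev : X → E} {hol : Γ →* (E ≃ᵃ[ℝ] E)}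

theorem no_fixed [Nontrivial E] (D : AffData X Γ E dev hol) (p : E) : ¬∀ γ, hol γ p = p := by
  intro hall
  have h3 := star_univ D (C := {p}) (p := p) (mem_singleton p) (starConvex_singleton p)
    (by rintro γ q rfl; exact hall γ)
  obtain ⟨q, hq⟩ := exists_ne p
  have h4 : q ∈ ({p} : Set E) := by rw [h3]; trivial
  exact hq h4

/-- the developing image meets every hyperplane -/
theorem hits [ConnectedSpace X] (D : AffData X Γ E dev hol) {φ : E →L[ℝ] ℝ} (hφ : φ ≠ 0) (a : ℝ) :
    ∃ x, φ (dev x) = a := by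
  by_contra hcon
  push Not at hcon
  have hsurj : Function.Surjective φ := by
    have : (φ : E →ₗ[ℝ] ℝ) ≠ 0 := by
      intro h
      apply hφ
      exact ContinuousLinearMap.ext fun v => congrArg (fun g : E →ₗ[ℝ] ℝ => g v) h
    exact LinearMap.surjective this
  -- the convex hull of the image is everything
  have hhull : convexHull ℝ (range dev) = univ := by
    refine convex_univ' D (convex_convexHull ℝ _) ?_ ?_
    · obtain ⟨x⟩ := ‹Nonempty X›
      exact ⟨dev x, subset_convexHull ℝ _ (mem_range_self x)⟩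
    · intro γ p hp
      have h1 : (hol γ).toAffineMap '' convexHull ℝ (range dev) ⊆ convexHull ℝ (range dev) := by
        rw [AffineMap.image_convexHull]
        refine convexHull_mono ?_
        rintro _ ⟨_, ⟨y, rfl⟩, rfl⟩
        exact ⟨γ • y, D.equi γ y⟩
      exact h1 ⟨p, hp, rfl⟩
  have hc : Continuous fun x => φ (dev x) := φ.continuous.comp D.loc.continuous
  have hpre : IsPreconnected (range fun x => φ (dev x)) := isPreconnected_range hc
  obtain ⟨v, hv⟩ := hsurj a
  have hvh : v ∈ convexHull ℝ (range dev) := by rw [hhull]; trivial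
  obtain ⟨x0⟩ := ‹Nonempty X›
  rcases lt_or_gt_of_ne (hcon x0) with h | h
  · have h1 : range dev ⊆ {p | φ p < a} := by
      rintro _ ⟨y, rfl⟩
      by_contra h2
      have h2' : a < φ (dev y) := lt_of_le_of_ne (not_lt.1 h2) (Ne.symm (hcon y))
      obtain ⟨z, hz⟩ := hpre.Icc_subset (mem_range_self x0) (mem_range_self y) ⟨h.le, h2'.le⟩
      exact hcon z hz
    have h2 := convexHull_min h1 (convex_halfSpace_lt (φ.isLinear) a) hvh
    have h3 : φ v < a := h2
    rw [hv] at h3
    exact lt_irrefl _ h3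
  · have h1 : range dev ⊆ {p | a < φ p} := by
      rintro _ ⟨y, rfl⟩
      by_contra h2
      have h2' : φ (dev y) < a := lt_of_le_of_ne (not_lt.1 h2) (hcon y)
      obtain ⟨z, hz⟩ := hpre.Icc_subset (mem_range_self y) (mem_range_self x0) ⟨h2'.le, h.le⟩
      exact hcon z hz
    have h2 := convexHull_min h1 (convex_halfSpace_gt (φ.isLinear) a) hvh
    have h3 : a < φ v := h2
    rw [hv] at h3
    exact lt_irrefl _ h3

omit [SecondCountableTopology X] [Nonempty X] in
/-- groups of vectors realised as displacements of a point are discrete -/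
theorem orbit_disc (D : AffData X Γ E dev hol) (hinj : Function.Injective dev) {W : Type}
    [NormedAddCommGroup W] [NormedSpace ℝ W] [FiniteDimensional ℝ W] (T : Set W) (ι : W →ₗ[ℝ] E)
    (hι : Function.Injective ι) (x : X) (hT : ∀ t ∈ T, ∃ γ, hol γ (dev x) = dev x + ι t) :
    ∃ r > 0, ∀ t ∈ T, ‖t‖ < r → t = 0 := by
  obtain ⟨r, hr, hF⟩ := near_finite' D hinj x
  have hfin : {t | t ∈ T ∧ ‖ι t‖ < r ∧ t ≠ 0}.Finite := by
    have h1 : (ι '' {t | t ∈ T ∧ ‖ι t‖ < r ∧ t ≠ 0}).Finite := by
      refine (hF.image fun γ => hol γ (dev x) - dev x).subset ?_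
      rintro _ ⟨t, ⟨ht1, ht2, -⟩, rfl⟩
      obtain ⟨γ, hγ⟩ := hT t ht1
      refine ⟨γ, ?_, ?_⟩
      · show dist (hol γ (dev x)) (dev x) < r
        rw [hγ, dist_eq_norm, add_sub_cancel_left]
        exact ht2
      · show hol γ (dev x) - dev x = ι t
        rw [hγ, add_sub_cancel_left]
    exact Finite.of_finite_image h1 hι.injOn
  have ev : ∀ᶠ ε : ℝ in 𝓝[>] 0, ∀ t ∈ {t | t ∈ T ∧ ‖ι t‖ < r ∧ t ≠ 0}, ε < ‖t‖ := by
    rw [eventually_all_finite hfin]
    rintro t ⟨-, -, ht⟩
    have h1 : 0 < ‖t‖ := norm_pos_iff.2 ht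
    have h2 : ∀ᶠ ε : ℝ in 𝓝 0, ε < ‖t‖ := eventually_lt_nhds h1
    exact h2.filter_mono nhdsWithin_le_nhds
  let ι' : W →L[ℝ] E := LinearMap.toContinuousLinearMap ι
  have ev2 : ∀ᶠ ε : ℝ in 𝓝[>] 0, ε * (‖ι'‖ + 1) < r := by
    have h1 : Tendsto (fun ε : ℝ => ε * (‖ι'‖ + 1)) (𝓝 0) (𝓝 (0 * _)) := tendsto_id.mul_const _
    rw [zero_mul] at h1
    exact (h1.eventually_lt_const hr).filter_mono nhdsWithin_le_nhds
  obtain ⟨ε, ⟨h1, h2⟩, h3⟩ := ((ev.and ev2).and self_mem_nhdsWithin).exists
  have h3' : (0 : ℝ) < ε := h3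
  refine ⟨ε, h3, fun t ht htε => ?_⟩
  by_contra hne
  have h4 : ‖ι t‖ < r := by
    have h5 := ι'.le_opNorm t
    have h6 : ‖ι'‖ * ‖t‖ ≤ (‖ι'‖ + 1) * ε :=
      mul_le_mul (by linarith) htε.le (norm_nonneg _) (by positivity)
    have h7 : ‖ι t‖ = ‖ι' t‖ := rfl
    rw [h7]
    linarith
  exact lt_asymm htε (h1 t ⟨ht, h4, hne⟩)

/-- if only the identity acts trivially on the blocks, the projective kernel is finite -/
theorem Rplus_finite [Nontrivial E] (D : AffData X Γ E dev hol) (hinj : Function.Injective dev)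
    (B : Γ →* M2) (χ : Γ →* ℝ)
    (hdet : ∀ γ, |(B γ).det * χ γ| = 1) (hQ : ∀ q, B q = 1 → χ q = 1 → hol q = 1)
    (hinv : ∀ (γ : Γ) (s : ℝ), B γ = s • (1 : M2) → s ≠ 1 → χ γ ≠ 1 → ∀ v, cl hol γ v = v → v = 0) :
    {γ : Γ | nB B γ = 1}.Finite := by
  have hB : ∀ γ, nB B γ = 1 → B γ = Real.sqrt |(B γ).det| • (1 : M2) := by
    intro γ h
    rw [nB_apply] at h
    rw [← h, smul_smul, mul_inv_cancel₀ (sqrt_ne B γ), one_smul]
  -- commutation
  have hcomm : ∀ r r', nB B r = 1 → nB B r' = 1 → hol (r * r') = hol (r' * r) := by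
    intro r r' hr hr'
    have h1 : B (r * r' * (r' * r)⁻¹) = 1 := by
      have h2 : B (r * r') = B (r' * r) := by
        rw [map_mul, map_mul, hB r hr, hB r' hr', smul_mul_smul_comm, smul_mul_smul_comm,
          mul_comm (Real.sqrt _)]
      rw [map_mul, h2, map_mul_inv]
    have h2 : χ (r * r' * (r' * r)⁻¹) = 1 := by
      have h3 : χ (r * r') = χ (r' * r) := by rw [map_mul, map_mul, mul_comm]
      rw [map_mul, h3, map_mul_inv]
    have h3 := hQ _ h1 h2
    rw [map_mul, map_inv] at h3
    exact mul_inv_eq_one.1 h3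
  -- the scalars are one
  have hone : ∀ r, nB B r = 1 → Real.sqrt |(B r).det| = 1 := by
    intro r hr
    by_contra hne
    have hχ : χ r ≠ 1 := by
      intro h
      have h1 := hdet r
      rw [h, mul_one] at h1
      exact hne (by rw [h1, Real.sqrt_one])
    have hinj' := hinv r _ (hB r hr) hne hχ
    have hxinj : Function.Injective ((1 : Module.End ℝ E) - (cl hol r : E →ₗ[ℝ] E)) := by
      rw [← LinearMap.ker_eq_bot, LinearMap.ker_eq_bot']
      intro v hv
      apply hinj'
      have h1 : v - cl hol r v = 0 := hv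
      exact (sub_eq_zero.1 h1).symm
    obtain ⟨p, hp⟩ := LinearMap.injective_iff_surjective.1 hxinj (hol r 0)
    have hp' : p - cl hol r p = hol r 0 := hp
    have hfix : hol r p = p := by rw [hol_eq, ← hp']; abel
    have huniq : ∀ q, hol r q = q → q = p := by
      intro q hq
      have h3 : cl hol r (q - p) = q - p := by
        have := hol_sub (hol := hol) r q p
        rw [hq, hfix] at this
        exact this.symm
      exact sub_eq_zero.1 (hinj' _ h3)
    apply no_fixed D p
    intro g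
    have h1 : nB B (g⁻¹ * r * g) = 1 := by
      rw [map_mul, map_mul, hr, mul_one, map_inv_mul]
    have h5 := hcomm _ _ h1 hr
    have h6 : hol (g⁻¹ * r * g) p = p := by
      apply huniq
      have h7 : hol (r * (g⁻¹ * r * g)) p = hol (g⁻¹ * r * g * r) p := by rw [h5]
      rw [map_mul, map_mul _ _ r] at h7
      have h8 : hol r (hol (g⁻¹ * r * g) p) = hol (g⁻¹ * r * g) (hol r p) := h7
      rw [h8, hfix]
    apply huniq
    rw [map_mul, map_mul] at h6
    have h7 : hol g⁻¹ (hol r (hol g p)) = p := h6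
    have h8 := congrArg (hol g) h7
    rwa [hol_apply_inv] at h8
  have hB1 : ∀ r, nB B r = 1 → B r = 1 := fun r hr => by
    rw [hB r hr, hone r hr, one_smul]
  have hχ1 : ∀ r, nB B r = 1 → χ r = 1 ∨ χ r = -1 := by
    intro r hr
    have h1 := hdet r
    rw [hB1 r hr, Matrix.det_one, one_mul] at h1
    exact eq_or_eq_neg_of_abs_eq h1
  by_cases hex : ∃ r0, nB B r0 = 1 ∧ χ r0 = -1
  · obtain ⟨r0, h1, h2⟩ := hex
    refine (fiber_finite D hinj (S := {1, hol r0}) (by simp)).subset ?_
    intro r hr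
    rcases hχ1 r hr with h3 | h3
    · left
      exact hQ r (hB1 r hr) h3
    · right
      have h4 : hol (r * r0⁻¹) = 1 := by
        have h5 : χ r0⁻¹ = -1 := by
          have := map_mul_inv χ r0
          rw [h2] at this
          linarith
        refine hQ _ ?_ ?_
        · rw [map_mul, hB1 r hr, one_mul]
          have := map_mul_inv B r0
          rwa [hB1 r0 h1, one_mul] at this
        · rw [map_mul, h3, h5]; norm_num
      rw [map_mul, map_inv] at h4
      exact mul_inv_eq_one.1 h4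
  · push Not at hex
    refine (fiber_finite D hinj (S := {1}) (by simp)).subset ?_
    intro r hr
    rcases hχ1 r hr with h3 | h3
    · exact hQ r (hB1 r hr) h3
    · exact absurd h3 (hex r hr)

end

end Pool.Agent.P8H83
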