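import Pool.Agent.P8H83.Blk

/-!
If a line of trace free matrices is preserved by the kernel of the quotient, the group is solvable.
-/

set_option autoImplicit false

open Set Filter Topology Metric
open Pool.Agent.W689.Mk
open scoped commutatorElement

namespace Pool.Agent.P8H83

theorem ulb_one {A : M4t} : ulb A = 1 ↔ A 0 0 = 1 ∧ A 0 1 = 0 ∧ A 1 0 = 0 ∧ A 1 1 = 1 := by
  constructor
  · intro h
    have h0 := congrFun (congrFun h 0) 0
    have h1 := congrFun (congrFun h 0) 1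
    have h2 := congrFun (congrFun h 1) 0
    have h3 := congrFun (congrFun h 1) 1
    simp [ulb] at h0 h1 h2 h3
    exact ⟨h0, h1, h2, h3⟩
  · rintro ⟨h0, h1, h2, h3⟩
    refine M2.ext' ?_ ?_ ?_ ?_ <;> simp [ulb, h0, h1, h2, h3]

theorem lrb_one {A : M4t} : lrb A = 1 ↔ A 2 2 = 1 ∧ A 2 3 = 0 ∧ A 3 2 = 0 ∧ A 3 3 = 1 := by
  constructor
  · intro h
    have h0 := congrFun (congrFun h 0) 0
    have h1 := congrFun (congrFun h 0) 1
    have h2 := congrFun (congrFun h 1) 0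
    have h3 := congrFun (congrFun h 1) 1
    simp [lrb] at h0 h1 h2 h3
    exact ⟨h0, h1, h2, h3⟩
  · rintro ⟨h0, h1, h2, h3⟩
    refine M2.ext' ?_ ?_ ?_ ?_ <;> simp [lrb, h0, h1, h2, h3]

/-- a matrix from its entries -/
theorem M4t.ext {A A' : M4t} (h0 : ∀ j, A 0 j = A' 0 j) (h1 : ∀ j, A 1 j = A' 1 j)
    (h2 : ∀ j, A 2 j = A' 2 j) (h3 : ∀ j, A 3 j = A' 3 j) : A = A' := by
  ext i j
  fin_cases i
  · exact h0 j
  · exact h1 j
  · exact h2 j
  · exact h3 j

section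
variable {G : Type} [Group G] {m : G →* M4t}

/-- linear part -/
noncomputable def LA (ha : Aff4 m) : G →* Matrix (Fin 3) (Fin 3) ℝ where
  toFun g := !![m g 0 0, m g 0 1, m g 0 2; m g 1 0, m g 1 1, m g 1 2; m g 2 0, m g 2 1, m g 2 2]
  map_one' := by
    rw [map_one]
    ext i j; fin_cases i <;> fin_cases j <;> simp
  map_mul' g h := by
    obtain ⟨b1, b2, b3, b4⟩ := ha h
    ext i j
    fin_cases i <;> fin_cases j <;>
      simp [Matrix.mul_apply, Fin.sum_univ_three, Fin.sum_univ_four, b1, b2, b3]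

/-- affine action on the quotient by the line -/
noncomputable def DA (ha : Aff4 m) (hB : LiB m) : G →* Matrix (Fin 3) (Fin 3) ℝ where
  toFun g := !![m g 0 0, m g 0 1, m g 0 3; m g 1 0, m g 1 1, m g 1 3; 0, 0, 1]
  map_one' := by
    rw [map_one]
    ext i j; fin_cases i <;> fin_cases j <;> simp
  map_mul' g h := by
    obtain ⟨a1, a2⟩ := hB g
    obtain ⟨b1, b2, b3, b4⟩ := ha h
    ext i j
    fin_cases i <;> fin_cases j <;>
      simp [Matrix.mul_apply, Fin.sum_univ_three, Fin.sum_univ_four, a1, a2, b1, b2, b4]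

/-- the chain in the case of an invariant plane -/
noncomputable def chainA (ha : Aff4 m) (hA : PlA m) (Y : M2) : ℕ → Subgroup G
  | 0 => ⊤
  | 1 => (chA ha hA).ker
  | 2 => (CA ha hA).ker
  | 3 => (CA ha hA).ker ⊓ cen (BA ha hA) Y
  | 4 => (CA ha hA).ker ⊓ (BA ha hA).ker
  | _ => m.ker

theorem solvA (ha : Aff4 m) (hA : PlA m) (hne : ¬ NE (BA ha hA) (CA ha hA).ker) :
    derivedSeries G 5 ≤ m.ker := by
  unfold NE at hne
  push Not at hne
  obtain ⟨Y, hY, hY0, hcen⟩ := hne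
  refine derived_le (chainA ha hA Y) rfl ?_ 5
  intro i a hia b hib
  match i, hia, hib with
  | 0, _, _ => exact comm_ker _ (mul_comm _ _)
  | 1, h1, h2 =>
    refine comm_ker (CA ha hA) ?_
    have e1 : m a 2 2 = 1 := h1
    have e2 : m b 2 2 = 1 := h2
    obtain ⟨-, -, a3, a4⟩ := ha a
    obtain ⟨-, -, b3, b4⟩ := ha b
    rw [CA_apply, CA_apply]
    refine M2.ext' ?_ ?_ ?_ ?_ <;>
      simp [lrb, Matrix.mul_apply, Fin.sum_univ_two, e1, e2, a3, a4, b3, b4, add_comm]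
  | 2, h1, h2 =>
    refine ⟨?_, comm_cen _ hY0 (hcen a h1) (hcen b h2)⟩
    rw [commutatorElement_def]
    exact Subgroup.mul_mem _ (Subgroup.mul_mem _ (Subgroup.mul_mem _ h1 h2) (Subgroup.inv_mem _ h1))
      (Subgroup.inv_mem _ h2)
  | 3, h1, h2 =>
    refine ⟨?_, comm_ker _ (comm_of_cen hY hY0 h1.2 h2.2)⟩
    rw [commutatorElement_def]
    exact Subgroup.mul_mem _ (Subgroup.mul_mem _ (Subgroup.mul_mem _ h1.1 h2.1)
      (Subgroup.inv_mem _ h1.1)) (Subgroup.inv_mem _ h2.1)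
  | 4, h1, h2 =>
    refine comm_ker m ?_
    obtain ⟨p1, p2, p3, p4⟩ := lrb_one.1 (show lrb (m a) = 1 from h1.1)
    obtain ⟨p5, p6, p7, p8⟩ := ulb_one.1 (show ulb (m a) = 1 from h1.2)
    obtain ⟨q1, q2, q3, q4⟩ := lrb_one.1 (show lrb (m b) = 1 from h2.1)
    obtain ⟨q5, q6, q7, q8⟩ := ulb_one.1 (show ulb (m b) = 1 from h2.2)
    obtain ⟨a1, a2⟩ := hA a
    obtain ⟨b1, b2⟩ := hA b
    obtain ⟨a3, a4, -, -⟩ := ha a
    obtain ⟨b3, b4, -, -⟩ := ha b
    refine M4t.ext ?_ ?_ ?_ ?_ <;> intro j <;> fin_cases j <;>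
      simp [Matrix.mul_apply, Fin.sum_univ_four, p1, p2, p3, p4, p5, p6, p7, p8, q1, q2, q3, q4,
        q5, q6, q7, q8, a1, a2, b1, b2, a3, a4, b3, b4, add_comm]
  | (n + 5), h1, h2 =>
    show _ ∈ m.ker
    have h1' : a ∈ m.ker := h1
    have h2' : b ∈ m.ker := h2
    rw [commutatorElement_def]
    exact Subgroup.mul_mem _ (Subgroup.mul_mem _ (Subgroup.mul_mem _ h1' h2')
      (Subgroup.inv_mem _ h1')) (Subgroup.inv_mem _ h2')

/-- the chain in the case of an invariant line -/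
noncomputable def chainB (ha : Aff4 m) (hB : LiB m) (Y : M2) : ℕ → Subgroup G
  | 0 => ⊤
  | 1 => (chB ha hB).ker
  | 2 => (chB ha hB).ker ⊓ cen (BB ha hB) Y
  | 3 => (chB ha hB).ker ⊓ (BB ha hB).ker
  | 4 => (DA ha hB).ker ⊓ (LA ha).ker
  | _ => m.ker

theorem solvB (ha : Aff4 m) (hB : LiB m) (hne : ¬ NE (BB ha hB) (chB ha hB).ker) :
    derivedSeries G 5 ≤ m.ker := by
  unfold NE at hne
  push Not at hne
  obtain ⟨Y, hY, hY0, hcen⟩ := hne
  refine derived_le (chainB ha hB Y) rfl ?_ 5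
  intro i a hia b hib
  match i, hia, hib with
  | 0, _, _ => exact comm_ker _ (mul_comm _ _)
  | 1, h1, h2 =>
    refine ⟨?_, comm_cen _ hY0 (hcen a h1) (hcen b h2)⟩
    rw [commutatorElement_def]
    exact Subgroup.mul_mem _ (Subgroup.mul_mem _ (Subgroup.mul_mem _ h1 h2) (Subgroup.inv_mem _ h1))
      (Subgroup.inv_mem _ h2)
  | 2, h1, h2 =>
    refine ⟨?_, comm_ker _ (comm_of_cen hY hY0 h1.2 h2.2)⟩
    rw [commutatorElement_def]
    exact Subgroup.mul_mem _ (Subgroup.mul_mem _ (Subgroup.mul_mem _ h1.1 h2.1)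
      (Subgroup.inv_mem _ h1.1)) (Subgroup.inv_mem _ h2.1)
  | 3, h1, h2 =>
    have p1 : m a 2 2 = 1 := h1.1
    have q1 : m b 2 2 = 1 := h2.1
    obtain ⟨p5, p6, p7, p8⟩ := ulb_one.1 (show ulb (m a) = 1 from h1.2)
    obtain ⟨q5, q6, q7, q8⟩ := ulb_one.1 (show ulb (m b) = 1 from h2.2)
    obtain ⟨a1, a2⟩ := hB a
    obtain ⟨b1, b2⟩ := hB b
    refine ⟨comm_ker _ ?_, comm_ker _ ?_⟩
    · show !![m a 0 0, m a 0 1, m a 0 3; m a 1 0, m a 1 1, m a 1 3; 0, 0, 1] *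
        !![m b 0 0, m b 0 1, m b 0 3; m b 1 0, m b 1 1, m b 1 3; 0, 0, 1] =
        !![m b 0 0, m b 0 1, m b 0 3; m b 1 0, m b 1 1, m b 1 3; 0, 0, 1] *
        !![m a 0 0, m a 0 1, m a 0 3; m a 1 0, m a 1 1, m a 1 3; 0, 0, 1]
      ext i j
      fin_cases i <;> fin_cases j <;>
        simp [Matrix.mul_apply, Fin.sum_univ_three, p5, p6, p7, p8, q5, q6, q7, q8, add_comm]
    · show !![m a 0 0, m a 0 1, m a 0 2; m a 1 0, m a 1 1, m a 1 2; m a 2 0, m a 2 1, m a 2 2] *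
        !![m b 0 0, m b 0 1, m b 0 2; m b 1 0, m b 1 1, m b 1 2; m b 2 0, m b 2 1, m b 2 2] =
        !![m b 0 0, m b 0 1, m b 0 2; m b 1 0, m b 1 1, m b 1 2; m b 2 0, m b 2 1, m b 2 2] *
        !![m a 0 0, m a 0 1, m a 0 2; m a 1 0, m a 1 1, m a 1 2; m a 2 0, m a 2 1, m a 2 2]
      ext i j
      fin_cases i <;> fin_cases j <;>
        simp [Matrix.mul_apply, Fin.sum_univ_three, p1, q1, p5, p6, p7, p8, q5, q6, q7, q8, a1, a2,
          b1, b2, add_comm]
  | 4, h1, h2 =>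
    refine comm_ker m ?_
    have key : ∀ a, a ∈ (DA ha hB).ker ⊓ (LA ha).ker → m a 0 0 = 1 ∧ m a 0 1 = 0 ∧ m a 0 2 = 0 ∧
        m a 0 3 = 0 ∧ m a 1 0 = 0 ∧ m a 1 1 = 1 ∧ m a 1 2 = 0 ∧ m a 1 3 = 0 ∧ m a 2 0 = 0 ∧
        m a 2 1 = 0 ∧ m a 2 2 = 1 := by
      intro a ⟨h1, h2⟩
      have h1' : !![m a 0 0, m a 0 1, m a 0 3; m a 1 0, m a 1 1, m a 1 3; 0, 0, 1] =
        (1 : Matrix (Fin 3) (Fin 3) ℝ) := h1
      have h2' : !![m a 0 0, m a 0 1, m a 0 2; m a 1 0, m a 1 1, m a 1 2; m a 2 0, m a 2 1, m a 2 2] =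
        (1 : Matrix (Fin 3) (Fin 3) ℝ) := h2
      have e03 := congrFun (congrFun h1' 0) 2
      have e13 := congrFun (congrFun h1' 1) 2
      have e00 := congrFun (congrFun h2' 0) 0
      have e01 := congrFun (congrFun h2' 0) 1
      have e02 := congrFun (congrFun h2' 0) 2
      have e10 := congrFun (congrFun h2' 1) 0
      have e11 := congrFun (congrFun h2' 1) 1
      have e12 := congrFun (congrFun h2' 1) 2
      have e20 := congrFun (congrFun h2' 2) 0
      have e21 := congrFun (congrFun h2' 2) 1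
      have e22 := congrFun (congrFun h2' 2) 2
      simp at e03 e13 e00 e01 e02 e10 e11 e12 e20 e21 e22
      exact ⟨e00, e01, e02, e03, e10, e11, e12, e13, e20, e21, e22⟩
    obtain ⟨p1, p2, p3, p4, p5, p6, p7, p8, p9, p10, p11⟩ := key a h1
    obtain ⟨q1, q2, q3, q4, q5, q6, q7, q8, q9, q10, q11⟩ := key b h2
    obtain ⟨a1, a2, a3, a4⟩ := ha a
    obtain ⟨b1, b2, b3, b4⟩ := ha b
    refine M4t.ext ?_ ?_ ?_ ?_ <;> intro j <;> fin_cases j <;>
      simp [Matrix.mul_apply, Fin.sum_univ_four, p1, p2, p3, p4, p5, p6, p7, p8, p9, p10, p11,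
        q1, q2, q3, q4, q5, q6, q7, q8, q9, q10, q11, a1, a2, a3, a4, b1, b2, b3, b4, add_comm]
  | (n + 5), h1, h2 =>
    show _ ∈ m.ker
    have h1' : a ∈ m.ker := h1
    have h2' : b ∈ m.ker := h2
    rw [commutatorElement_def]
    exact Subgroup.mul_mem _ (Subgroup.mul_mem _ (Subgroup.mul_mem _ h1' h2')
      (Subgroup.inv_mem _ h1')) (Subgroup.inv_mem _ h2')

/-- no invariant line for a group preserving no line of trace free matrices -/
theorem irr2 {B : G →* M2} {N : Subgroup G} (hNE : NE B N) {u : Fin 2 → ℝ} (hu : u ≠ 0)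
    (h : ∀ n ∈ N, ∃ c : ℝ, (B n).mulVec u = c • u) : False := by
  have hY0 : (!![-(u 0 * u 1), u 0 * u 0; -(u 1 * u 1), u 0 * u 1] : M2) ≠ 0 := by
    intro h0
    have h1 := congrFun (congrFun h0 0) 1
    have h2 := congrFun (congrFun h0 1) 0
    simp at h1 h2
    apply hu
    ext i
    fin_cases i
    · exact h1
    · exact h2
  obtain ⟨n, hn, hne⟩ := hNE !![-(u 0 * u 1), u 0 * u 0; -(u 1 * u 1), u 0 * u 1]
    (by simp [Matrix.trace_fin_two]) hY0
  obtain ⟨c, hc⟩ := h n hn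
  have h0 := congrFun hc 0
  have h1 := congrFun hc 1
  simp [Matrix.mulVec, dotProduct, Fin.sum_univ_two] at h0 h1
  have hdet : (B n).det ≠ 0 := by
    intro h0
    have h1 : (B n).det * (B n⁻¹).det = 1 := by
      rw [← Matrix.det_mul, map_mul_inv, Matrix.det_one]
    rw [h0, zero_mul] at h1
    exact zero_ne_one h1
  set p := B n 0 0
  set q := B n 0 1
  set r := B n 1 0
  set s := B n 1 1
  have hd : (B n).det = p * s - q * r := Matrix.det_fin_two _
  rw [hd] at hdet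
  -- `u^⊥ B = (det / c) u^⊥`
  have k1 : c * (u 0 * r - u 1 * p) = -(p * s - q * r) * u 1 := by
    have e1 : c * (u 0 * r - u 1 * p) = (c * u 0) * r - (c * u 1) * p := by ring
    rw [e1, ← h0, ← h1]; ring
  have k2 : c * (u 0 * s - u 1 * q) = (p * s - q * r) * u 0 := by
    have e1 : c * (u 0 * s - u 1 * q) = (c * u 0) * s - (c * u 1) * q := by ring
    rw [e1, ← h0, ← h1]; ring
  have hc0 : c ≠ 0 := by
    rintro rfl
    rw [zero_mul] at k1 k2
    apply hu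
    ext i
    fin_cases i
    · exact (mul_eq_zero.1 k2.symm).resolve_left hdet
    · exact (mul_eq_zero.1 k1.symm).resolve_left (neg_ne_zero.2 hdet)
  apply hne (c * (c / (p * s - q * r)))
  -- both sides are `u ⊗ u^⊥` up to a factor
  have g1 : u 0 * r - u 1 * p = -((p * s - q * r) / c) * u 1 := by
    field_simp; linarith
  have g2 : u 0 * s - u 1 * q = ((p * s - q * r) / c) * u 0 := by
    field_simp; linarith
  have hY1 : B n * !![-(u 0 * u 1), u 0 * u 0; -(u 1 * u 1), u 0 * u 1] =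
      c • !![-(u 0 * u 1), u 0 * u 0; -(u 1 * u 1), u 0 * u 1] := by
    refine M2.ext' ?_ ?_ ?_ ?_ <;> simp [Matrix.mul_apply, Fin.sum_univ_two]
    · show -(p * (u 0 * u 1)) + -(q * (u 1 * u 1)) = -(c * (u 0 * u 1))
      calc _ = -((p * u 0 + q * u 1) * u 1) := by ring
        _ = _ := by rw [h0]; ring
    · show p * (u 0 * u 0) + q * (u 0 * u 1) = c * (u 0 * u 0)
      calc _ = (p * u 0 + q * u 1) * u 0 := by ring
        _ = _ := by rw [h0]; ring
    · show -(r * (u 0 * u 1)) + -(s * (u 1 * u 1)) = -(c * (u 1 * u 1))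
      calc _ = -((r * u 0 + s * u 1) * u 1) := by ring
        _ = _ := by rw [h1]; ring
    · show r * (u 0 * u 0) + s * (u 0 * u 1) = c * (u 0 * u 1)
      calc _ = (r * u 0 + s * u 1) * u 0 := by ring
        _ = _ := by rw [h1]; ring
  have hY2 : !![-(u 0 * u 1), u 0 * u 0; -(u 1 * u 1), u 0 * u 1] * B n =
      ((p * s - q * r) / c) • !![-(u 0 * u 1), u 0 * u 0; -(u 1 * u 1), u 0 * u 1] := by
    refine M2.ext' ?_ ?_ ?_ ?_ <;> simp [Matrix.mul_apply, Fin.sum_univ_two]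
    · show -(u 0 * u 1 * p) + u 0 * u 0 * r = -((p * s - q * r) / c * (u 0 * u 1))
      calc _ = u 0 * (u 0 * r - u 1 * p) := by ring
        _ = _ := by rw [g1]; ring
    · show -(u 0 * u 1 * q) + u 0 * u 0 * s = (p * s - q * r) / c * (u 0 * u 0)
      calc _ = u 0 * (u 0 * s - u 1 * q) := by ring
        _ = _ := by rw [g2]; ring
    · show -(u 1 * u 1 * p) + u 0 * u 1 * r = -((p * s - q * r) / c * (u 1 * u 1))
      calc _ = u 1 * (u 0 * r - u 1 * p) := by ring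
        _ = _ := by rw [g1]; ring
    · show -(u 1 * u 1 * q) + u 0 * u 1 * s = (p * s - q * r) / c * (u 0 * u 1)
      calc _ = u 1 * (u 0 * s - u 1 * q) := by ring
        _ = _ := by rw [g2]; ring
  rw [hY1, hY2, smul_smul]
  congr 1
  field_simp

end

end Pool.Agent.P8H83
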