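import Pool.Agent.P8H83.Irr
import Pool.Agent.Y449.MK.Good

/-!
The span of the translations in the holonomy: the domain is invariant under it.
-/

set_option autoImplicit false

open Set Filter Topology Metric MeasureTheory
open scoped ENNReal
open Pool.Agent.W689.Mk Pool.Agent.TH94.MK

namespace Pool.Agent.P8H83

section
variable {Γ E : Type} [Group Γ] [NormedAddCommGroup E] [NormedSpace ℝ E]
  {hol : Γ →* (E ≃ᵃ[ℝ] E)}

/-- the span of the translations -/
def Vt (hol : Γ →* (E ≃ᵃ[ℝ] E)) : Submodule ℝ E := Submodule.span ℝ (Tv hol : Set E)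

variable [FiniteDimensional ℝ E]

theorem Vt_inv (γ : Γ) {v : E} (hv : v ∈ Vt hol) : cl hol γ v ∈ Vt hol := by
  have h1 : Vt hol ≤ (Vt hol).comap (cl hol γ : E →ₗ[ℝ] E) := by
    unfold Vt
    rw [Submodule.span_le]
    intro t ht
    exact Submodule.subset_span (Tv_inv hol γ ht)
  exact h1 hv

/-- the linear holonomy on the span of the translations -/
noncomputable def clV (hol : Γ →* (E ≃ᵃ[ℝ] E)) (γ : Γ) : Vt hol →ₗ[ℝ] Vt hol :=
  (cl hol γ : E →ₗ[ℝ] E).restrict fun _ hv => Vt_inv γ hv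

theorem clV_apply (γ : Γ) (v : Vt hol) : (clV hol γ v : E) = cl hol γ v := rfl

theorem clV_mul_inv (γ : Γ) : clV hol γ * clV hol γ⁻¹ = 1 := by
  refine LinearMap.ext fun v => Subtype.ext ?_
  show cl hol γ (cl hol γ⁻¹ v) = v
  have h := map_mul_inv (clh hol) γ
  exact congrArg (fun T : E →L[ℝ] E => T v) h

/-- the translations as a subgroup of their span -/
def TV (hol : Γ →* (E ≃ᵃ[ℝ] E)) : AddSubgroup (Vt hol) :=
  (Tv hol).comap (Vt hol).subtype.toAddMonoidHom

omit [FiniteDimensional ℝ E] in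
theorem mem_TV {t : Vt hol} : t ∈ TV hol ↔ (t : E) ∈ Tv hol := Iff.rfl

omit [FiniteDimensional ℝ E] in
theorem span_TV : Submodule.span ℝ (TV hol : Set (Vt hol)) = ⊤ :=
  Submodule.span_span_coe_preimage

end

section
variable {X Γ E : Type} [NormedAddCommGroup E] [NormedSpace ℝ E] [FiniteDimensional ℝ E]
    [TopologicalSpace X] [T2Space X] [Group Γ] [MulAction Γ X] [Nonempty X]
    {dev : X → E} {hol : Γ →* (E ≃ᵃ[ℝ] E)}

theorem det_clV (D : AffData X Γ E dev hol) (hinj : Function.Injective dev) (γ : Γ) :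
    |LinearMap.det (clV hol γ)| = 1 := by
  obtain ⟨r, hr, hdisc⟩ := Tv_disc D hinj
  have hmul : ∀ γ : Γ, LinearMap.det (clV hol γ) * LinearMap.det (clV hol γ⁻¹) = 1 := by
    intro γ
    rw [← map_mul, clV_mul_inv, map_one]
  have key : ∀ γ : Γ, 1 ≤ |LinearMap.det (clV hol γ)| := by
    intro γ
    refine one_le_det (left_ne_zero_of_mul_eq_one (hmul γ)) (TV hol) span_TV hr ?_ ?_
    · intro t ht htr
      exact Subtype.ext (hdisc t ht htr)
    · intro t ht
      exact Tv_inv hol γ ht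
  have h1 := key γ
  have h2 := key γ⁻¹
  have h3 : |LinearMap.det (clV hol γ)| * |LinearMap.det (clV hol γ⁻¹)| = 1 := by
    rw [← abs_mul, hmul, abs_one]
  nlinarith

end

section
variable {W : Type} [NormedAddCommGroup W] [NormedSpace ℝ W] [FiniteDimensional ℝ W]
  [MeasurableSpace W] [BorelSpace W]

/-- packing in a torus -/
theorem pack (μ : Measure W) [μ.IsAddHaarMeasure] (L : AddSubgroup W)
    (hL : Submodule.span ℝ (L : Set W) = ⊤) {S : ℕ → Set W} (hmeas : ∀ j, MeasurableSet (S j))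
    {c : ℝ≥0∞} (hc : c ≠ 0) (hvol : ∀ j, μ (S j) = c)
    (hself : ∀ j, ∀ x ∈ S j, ∀ y ∈ S j, ∀ t ∈ L, t + x = y → t = 0)
    (hfin : ∀ i, {j | ∃ x ∈ S i, ∃ y ∈ S j, ∃ t ∈ L, t + x = y}.Finite) : False := by
  classical
  obtain ⟨b, hb⟩ := exists_basis_of_span hL
  have hLT : ∀ l ∈ Submodule.span ℤ (range b), l ∈ L := by
    intro l hl
    have h1 : Submodule.span ℤ (range b) ≤ AddSubgroup.toIntSubmodule L :=
      Submodule.span_le.2 (by rintro _ ⟨i, rfl⟩; exact hb i)
    exact h1 hl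
  have hex : ∀ n : ℕ, ∃ s : Finset ℕ, s.card = n ∧ ∀ i ∈ s, ∀ j ∈ s, i ≠ j →
      ∀ x ∈ S i, ∀ y ∈ S j, ∀ t ∈ L, t + x ≠ y := by
    intro n
    induction n with
    | zero => exact ⟨∅, rfl, by simp⟩
    | succ n ih =>
      obtain ⟨s, hs, hsp⟩ := ih
      have hbad : ((s : Set ℕ) ∪ ⋃ i ∈ s, {j | ∃ x ∈ S i, ∃ y ∈ S j, ∃ t ∈ L, t + x = y}).Finite :=
        s.finite_toSet.union (s.finite_toSet.biUnion fun i _ => hfin i)
      obtain ⟨j, hj⟩ := hbad.exists_notMem
      rw [mem_union, not_or] at hj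
      obtain ⟨hj1, hj2⟩ := hj
      have hj3 : ∀ i ∈ s, ∀ x ∈ S i, ∀ y ∈ S j, ∀ t ∈ L, t + x ≠ y := by
        intro i hi x hx y hy t ht he
        exact hj2 (mem_biUnion hi ⟨x, hx, y, hy, t, ht, he⟩)
      refine ⟨insert j s, by rw [Finset.card_insert_of_notMem hj1, hs], ?_⟩
      intro i hi k hk hik x hx y hy t ht he
      rw [Finset.mem_insert] at hi hk
      rcases hi with rfl | hi
      · rcases hk with rfl | hk
        · exact hik rfl
        · exact hj3 k hk y hy x hx (-t) (L.neg_mem ht) (by rw [← he]; abel)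
      · rcases hk with rfl | hk
        · exact hj3 i hi x hx y hy t ht he
        · exact hsp i hi k hk hik x hx y hy t ht he
  have hPfin : μ (ZSpan.fundamentalDomain b) < ∞ :=
    (ZSpan.fundamentalDomain_isBounded b).measure_lt_top
  obtain ⟨n, hn⟩ : ∃ n : ℕ, μ (ZSpan.fundamentalDomain b) < n * c := by
    obtain ⟨n, hn⟩ := ENNReal.exists_nat_mul_gt hc hPfin.ne
    exact ⟨n, hn⟩
  obtain ⟨s, hs, hsp⟩ := hex n
  have hdisj : (s : Set ℕ).PairwiseDisjoint S := by
    intro i hi j hj hij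
    rw [Function.onFun, Set.disjoint_left]
    intro x hx hx'
    exact hsp i hi j hj hij x hx x hx' 0 L.zero_mem (zero_add x)
  have hmu : μ (⋃ i ∈ s, S i) = n * c := by
    rw [measure_biUnion_finset hdisj fun i _ => hmeas i]
    rw [Finset.sum_congr rfl fun i _ => hvol i, Finset.sum_const, hs, nsmul_eq_mul]
  have hinv : VAddInvariantMeasure (Submodule.span ℤ (range b)) W μ :=
    inferInstanceAs <| VAddInvariantMeasure (Submodule.span ℤ (range b)).toAddSubgroup W μ
  obtain ⟨x, hx, y, hy, g, hg, hgxy⟩ := (ZSpan.isAddFundamentalDomain b μ).exists_ne_zero_vadd_eq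
    (Finset.measurableSet_biUnion s fun i _ => hmeas i).nullMeasurableSet (by rw [hmu]; exact hn)
  simp only [mem_iUnion] at hx hy
  obtain ⟨i, hi, hx⟩ := hx
  obtain ⟨j, hj, hy⟩ := hy
  have hgL : (g : W) ∈ L := hLT _ g.2
  have hgx : (g : W) + x = y := hgxy
  by_cases hij : i = j
  · subst hij
    have h0 := hself i x hx y hy _ hgL hgx
    exact hg (Subtype.ext h0)
  · exact hsp i hi j hj hij x hx y hy _ hgL hgx

end

section
variable {X Γ E : Type} [NormedAddCommGroup E] [NormedSpace ℝ E] [FiniteDimensional ℝ E]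
    [TopologicalSpace X] [T2Space X] [Group Γ] [MulAction Γ X] [Nonempty X]
    {dev : X → E} {hol : Γ →* (E ≃ᵃ[ℝ] E)}

/-- the developing image is invariant under the span of the translations -/
theorem sat (D : AffData X Γ E dev hol) (hinj : Function.Injective dev) {p : E}
    (hp : p ∈ range dev) {v : E} (hv : v ∈ Vt hol) : p + v ∈ range dev := by
  classical
  by_contra hcon
  have hopen : IsOpen (range dev) := D.loc.isOpenMap.isOpen_range
  -- the first point outside
  obtain ⟨A, hA⟩ : ∃ A : Set ℝ, A = {s | 0 ≤ s ∧ p + s • v ∉ range dev} := ⟨_, rfl⟩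
  have hcl : IsClosed A := by
    have h1 : A = Ici 0 ∩ ((fun s : ℝ => p + s • v) ⁻¹' range dev)ᶜ := by rw [hA]; rfl
    rw [h1]
    refine isClosed_Ici.inter (hopen.preimage ?_).isClosed_compl
    exact continuous_const.add (continuous_id.smul continuous_const)
  have h1A : (1 : ℝ) ∈ A := by
    rw [hA]
    exact ⟨zero_le_one, by rwa [one_smul]⟩
  have hbd : BddBelow A := ⟨0, fun s hs => by rw [hA] at hs; exact hs.1⟩
  have hs := hcl.csInf_mem ⟨1, h1A⟩ hbd
  obtain ⟨s0, hs0⟩ : ∃ s0, s0 = sInf A := ⟨_, rfl⟩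
  rw [← hs0] at hs
  have hsA : 0 ≤ s0 ∧ p + s0 • v ∉ range dev := by
    rw [hA] at hs
    exact hs
  have hpos : 0 < s0 := by
    rcases hsA.1.lt_or_eq with h | h
    · exact h
    · exfalso
      apply hsA.2
      rw [← h, zero_smul, add_zero]
      exact hp
  have hlt : ∀ s, 0 ≤ s → s < s0 → p + s • v ∈ range dev := by
    intro s h0 h1
    by_contra h2
    have h3 : s ∈ A := by rw [hA]; exact ⟨h0, h2⟩
    have h4 := csInf_le hbd h3
    rw [← hs0] at h4
    linarith
  obtain ⟨y, hy⟩ : ∃ y, y = p + s0 • v := ⟨_, rfl⟩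
  -- the sequence
  obtain ⟨a, ha⟩ : ∃ a : ℕ → ℝ, a = fun j : ℕ => s0 - s0 / ((j : ℝ) + 1) := ⟨_, rfl⟩
  have ha0 : ∀ j, 0 ≤ a j ∧ a j < s0 := by
    intro j
    have h1 : (0 : ℝ) < (j : ℝ) + 1 := by positivity
    rw [ha]
    constructor
    · have : s0 / ((j : ℝ) + 1) ≤ s0 := div_le_self hpos.le (by linarith [(Nat.cast_nonneg j : (0 : ℝ) ≤ j)])
      show 0 ≤ s0 - s0 / ((j : ℝ) + 1)
      linarith
    · have : 0 < s0 / ((j : ℝ) + 1) := by positivity
      show s0 - s0 / ((j : ℝ) + 1) < s0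
      linarith
  have hlim : Tendsto a atTop (𝓝 s0) := by
    rw [ha]
    have h1 : Tendsto (fun j : ℕ => s0 / ((j : ℝ) + 1)) atTop (𝓝 0) := by
      have h2 : Tendsto (fun j : ℕ => (j : ℝ) + 1) atTop atTop :=
        tendsto_atTop_add_const_right _ _ tendsto_natCast_atTop_atTop
      exact h2.const_div_atTop s0
    simpa using tendsto_const_nhds.sub h1
  obtain ⟨xs, hxs⟩ : ∃ xs : ℕ → E, xs = fun j => p + a j • v := ⟨_, rfl⟩
  have hxsΩ : ∀ j, xs j ∈ range dev := by
    intro j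
    rw [hxs]
    exact hlt _ (ha0 j).1 (ha0 j).2
  have hxslim : Tendsto xs atTop (𝓝 y) := by
    rw [hxs, hy]
    exact tendsto_const_nhds.add (hlim.smul_const v)
  obtain ⟨C0, hC0, hC0r, hcc⟩ := range_cc D
  choose γ c hcC hγc using fun j => hcc (xs j) (hxsΩ j)
  -- the compact neighbourhood
  obtain ⟨r1, hr1, hr1s⟩ := hC0.exists_cthickening_subset_open hopen hC0r
  obtain ⟨ρ, hρ, hdisc⟩ := Tv_disc D hinj
  obtain ⟨r, hr⟩ : ∃ r, r = min r1 (ρ / 2) := ⟨_, rfl⟩
  have hr0 : 0 < r := by rw [hr]; exact lt_min hr1 (half_pos hρ)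
  have hrr1 : r ≤ r1 := by rw [hr]; exact min_le_left _ _
  have hrρ : 2 * r ≤ ρ := by
    have : r ≤ ρ / 2 := by rw [hr]; exact min_le_right _ _
    linarith
  have hC1 : IsCompact (cthickening r1 C0) := hC0.cthickening
  have hF := range_pd D hinj _ hC1 hr1s
  have hmem1 : ∀ j, ∀ u : E, ‖u‖ < r → c j + u ∈ cthickening r1 C0 := by
    intro j u hu
    refine mem_cthickening_of_dist_le _ (c j) _ _ (hcC j) ?_
    rw [dist_eq_norm, add_sub_cancel_left]
    linarith
  let : MeasurableSpace (Vt hol) := borel _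
  have : BorelSpace (Vt hol) := ⟨rfl⟩
  let μ : Measure (Vt hol) := Measure.addHaar
  obtain ⟨vV, hvV⟩ : ∃ vV : Vt hol, (vV : E) = v := ⟨⟨v, hv⟩, rfl⟩
  obtain ⟨S, hS⟩ : ∃ S : ℕ → Set (Vt hol), S = fun j =>
      (fun w => a j • vV + w) '' (clV hol (γ j) '' ball 0 r) := ⟨_, rfl⟩
  have hSmem : ∀ j w, w ∈ S j → ∃ u : Vt hol, ‖u‖ < r ∧ w = a j • vV + clV hol (γ j) u ∧
      p + (w : E) = hol (γ j) (c j + u) := by
    intro j w hw
    rw [hS] at hw
    obtain ⟨_, ⟨u, hu, rfl⟩, rfl⟩ := hw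
    refine ⟨u, by simpa using hu, rfl, ?_⟩
    rw [hol_add, hγc, hxs, Submodule.coe_add, Submodule.coe_smul, hvV, clV_apply]
    show p + (a j • v + cl hol (γ j) u) = p + a j • v + cl hol (γ j) u
    abel
  have hinjV : ∀ j, Function.Injective (clV hol (γ j)) := by
    intro j
    have h1 : clV hol (γ j)⁻¹ * clV hol (γ j) = 1 := by
      have := clV_mul_inv (hol := hol) (γ j)⁻¹
      rwa [inv_inv] at this
    intro u u' h
    have h2 : (clV hol (γ j)⁻¹ * clV hol (γ j)) u = (clV hol (γ j)⁻¹ * clV hol (γ j)) u' := by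
      show clV hol (γ j)⁻¹ (clV hol (γ j) u) = clV hol (γ j)⁻¹ (clV hol (γ j) u')
      rw [h]
    rw [h1] at h2
    exact h2
  refine pack μ (TV hol) span_TV (S := S) (c := μ (ball 0 r)) ?_ (measure_ball_pos μ _ hr0).ne' ?_
    ?_ ?_
  · intro j
    rw [hS]
    refine IsOpen.measurableSet ?_
    have h1 : IsOpen (clV hol (γ j) '' ball 0 r) := by
      have h2 : Function.Surjective (clV hol (γ j)) := LinearMap.injective_iff_surjective.1 (hinjV j)
      have h3 := (LinearMap.toContinuousLinearMap (clV hol (γ j))).isOpenMap h2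
      exact h3 _ isOpen_ball
    exact (Homeomorph.addLeft (a j • vV)).isOpenMap _ h1
  · intro j
    rw [hS]
    show μ ((fun w => a j • vV + w) '' (clV hol (γ j) '' ball 0 r)) = _
    rw [image_add_left, measure_preimage_add, Measure.addHaar_image_linearMap, det_clV D hinj,
      ENNReal.ofReal_one, one_mul]
  · intro j x hx z hz t ht he
    obtain ⟨u, hu, hxu, -⟩ := hSmem j x hx
    obtain ⟨u', hu', hzu, -⟩ := hSmem j z hz
    have h1 : (t : Vt hol) = clV hol (γ j) (u' - u) := by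
      rw [map_sub]
      rw [hxu, hzu] at he
      have : t = a j • vV + clV hol (γ j) u' - (a j • vV + clV hol (γ j) u) := by
        rw [← he]; abel
      rw [this]; abel
    have h2 : clV hol (γ j)⁻¹ t = u' - u := by
      rw [h1]
      have h3 : clV hol (γ j)⁻¹ * clV hol (γ j) = 1 := by
        have := clV_mul_inv (hol := hol) (γ j)⁻¹
        rwa [inv_inv] at this
      exact congrArg (fun T : Vt hol →ₗ[ℝ] Vt hol => T (u' - u)) h3
    have h3 : (u' - u : Vt hol) = 0 := by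
      apply Subtype.ext
      apply hdisc
      · rw [← h2]
        exact Tv_inv hol _ ht
      · have h4 : ‖((u' - u : Vt hol) : E)‖ = ‖u' - u‖ := rfl
        rw [h4]
        have := norm_sub_le u' u
        linarith
    rw [h1, h3, map_zero]
  · intro i
    by_contra hinf
    have hinf' : {j | ∃ x ∈ S i, ∃ y ∈ S j, ∃ t ∈ TV hol, t + x = y}.Infinite := hinf
    obtain ⟨φ, hφ, hφm⟩ : ∃ φ : ℕ → ℕ, StrictMono φ ∧ ∀ k, φ k ∈
        {j | ∃ x ∈ S i, ∃ y ∈ S j, ∃ t ∈ TV hol, t + x = y} :=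
      ⟨_, Nat.nth_strictMono hinf', fun k => Nat.nth_mem_of_infinite hinf' k⟩
    -- each index gives an element of the finite set
    have key : ∀ k, ∃ f ∈ {γ : Γ | ∃ c ∈ cthickening r1 C0, hol γ c ∈ cthickening r1 C0},
        ∃ t ∈ Tv hol, ∀ q, hol (γ (φ k)) q = hol (γ i * f) q + t := by
      intro k
      obtain ⟨x, hx, z, hz, t, ht, he⟩ := hφm k
      obtain ⟨u, hu, -, hxu⟩ := hSmem i x hx
      obtain ⟨u', hu', -, hzu⟩ := hSmem (φ k) z hz
      obtain ⟨τ, hτ⟩ := ht
      have hτ' : ∀ q, hol τ q = q + t := hτ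
      refine ⟨(γ i)⁻¹ * (τ⁻¹ * γ (φ k)), ⟨c (φ k) + u', hmem1 _ _ hu', ?_⟩, t, ⟨τ, hτ⟩, ?_⟩
      · have h1 : hol ((γ i)⁻¹ * (τ⁻¹ * γ (φ k))) (c (φ k) + u') = c i + u := by
          rw [map_mul, map_mul]
          show hol (γ i)⁻¹ (hol τ⁻¹ (hol (γ (φ k)) (c (φ k) + u'))) = _
          rw [← hzu]
          have h2 : p + (z : E) = hol τ (p + x) := by
            rw [hτ', ← he, Submodule.coe_add]; abel
          rw [h2, hol_inv_apply, hxu, hol_inv_apply]
        rw [h1]
        exact hmem1 _ _ hu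
      · intro q
        have e1 : γ (φ k) = τ * (γ i * ((γ i)⁻¹ * (τ⁻¹ * γ (φ k)))) := by group
        have e2 : hol (γ (φ k)) q = hol τ (hol (γ i * ((γ i)⁻¹ * (τ⁻¹ * γ (φ k)))) q) := by
          conv_lhs => rw [e1, map_mul]
          rfl
        rw [e2, hτ']
    choose f hfF t ht hft using key
    obtain ⟨d, hdF, ψ, hψ, hψd⟩ := Pool.Agent.Y449.MK.pigeon hF hfF
    obtain ⟨z, hz, θ, hθ, hθz⟩ := hC0.tendsto_subseq fun k => hcC (φ (ψ k))
    obtain ⟨n, hn⟩ : ∃ n : ℕ → ℕ, n = fun k => φ (ψ (θ k)) := ⟨_, rfl⟩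
    have hnt : Tendsto n atTop atTop := by
      rw [hn]
      exact (hφ.comp (hψ.comp hθ)).tendsto_atTop
    have e1 : ∀ k, t (ψ (θ k)) = xs (n k) - hol (γ i * d) (c (n k)) := by
      intro k
      have h1 := hft (ψ (θ k)) (c (n k))
      rw [hψd] at h1
      have h2 : hol (γ (φ (ψ (θ k)))) (c (n k)) = xs (n k) := by
        rw [hn]
        exact hγc _
      rw [h2] at h1
      rw [h1]; abel
    have hcont : Continuous fun q => hol (γ i * d) q := AffineEquiv.continuous_of_finiteDimensional _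
    have hcl : Tendsto (fun k => c (n k)) atTop (𝓝 z) := by
      rw [hn]
      exact hθz
    have htl : Tendsto (fun k => t (ψ (θ k))) atTop (𝓝 (y - hol (γ i * d) z)) := by
      have h1 : Tendsto (fun k => xs (n k) - hol (γ i * d) (c (n k))) atTop
          (𝓝 (y - hol (γ i * d) z)) :=
        (hxslim.comp hnt).sub ((hcont.tendsto z).comp hcl)
      exact h1.congr fun k => (e1 k).symm
    -- translations which converge are eventually constant
    have hev : ∀ᶠ k in atTop, ‖t (ψ (θ k)) - (y - hol (γ i * d) z)‖ < ρ / 2 := by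
      have h1 := tendsto_iff_norm_sub_tendsto_zero.1 htl
      exact h1.eventually_lt_const (half_pos hρ)
    obtain ⟨k0, hk0⟩ := hev.exists_forall_of_atTop
    have hconst : ∀ k ≥ k0, t (ψ (θ k)) = t (ψ (θ k0)) := by
      intro k hk
      have h1 := hk0 k hk
      have h2 := hk0 k0 le_rfl
      have h3 : t (ψ (θ k)) - t (ψ (θ k0)) = 0 := by
        apply hdisc _ ((Tv hol).sub_mem (ht _) (ht _))
        have e2 : t (ψ (θ k)) - t (ψ (θ k0)) = (t (ψ (θ k)) - (y - hol (γ i * d) z)) -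
          (t (ψ (θ k0)) - (y - hol (γ i * d) z)) := by abel
        rw [e2]
        have := norm_sub_le (t (ψ (θ k)) - (y - hol (γ i * d) z))
          (t (ψ (θ k0)) - (y - hol (γ i * d) z))
        linarith
      exact sub_eq_zero.1 h3
    have hlimt : y - hol (γ i * d) z = t (ψ (θ k0)) := by
      have h1 : Tendsto (fun k => t (ψ (θ k))) atTop (𝓝 (t (ψ (θ k0)))) :=
        tendsto_const_nhds.congr' (by
          filter_upwards [eventually_ge_atTop k0] with k hk
          exact (hconst k hk).symm)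
      exact tendsto_nhds_unique htl h1
    obtain ⟨τ, hτ⟩ := ht (ψ (θ k0))
    have hyΩ : y ∈ range dev := by
      have h1 : y = hol τ (hol (γ i * d) z) := by
        rw [hτ, ← hlimt]; abel
      rw [h1]
      exact range_inv D _ _ (range_inv D _ _ (hC0r hz))
    rw [hy] at hyΩ
    exact hsA.2 hyΩ

end

end Pool.Agent.P8H83
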