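import Pool.Agent.P8H83.Pln

/-!
The tower of quotients by translations, with virtual solvability.
-/

set_option autoImplicit false

open Set Filter Topology Metric
open Pool.Agent.W689.Mk Pool.Agent.TH94.MK

namespace Pool.Agent.P8H83

/-- the quotient of the domain by the translations, with virtual solvability -/
def QuoV (X Γ E : Type) [NormedAddCommGroup E] [NormedSpace ℝ E]
    [Group Γ] (dev : X → E) (hol : Γ →* (E ≃ᵃ[ℝ] E)) : Prop :=
  ∃ (Q : Type) (_ : NormedAddCommGroup Q) (_ : NormedSpace ℝ Q) (_ : FiniteDimensional ℝ Q)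
    (π : E →L[ℝ] Q) (holQ : Γ →* (Q ≃ᵃ[ℝ] Q)) (G : Subgroup (Q ≃ᵃ[ℝ] Q)) (U : Set Q),
    Function.Surjective π ∧ (∀ γ p, π (hol γ p) = holQ γ (π p)) ∧ holQ.range = G ∧
    U = π '' range dev ∧ (∀ p, π p ∈ U → p ∈ range dev) ∧
    (∃ _ : MulAction G U, AffData U G Q Subtype.val G.subtype) ∧
    (∀ g ∈ G, g.linear = LinearEquiv.refl ℝ Q → g = 1) ∧ (VSol G.subtype → VSol hol)

theorem quoV_base {X Γ E : Type} [NormedAddCommGroup E] [NormedSpace ℝ E]
    [FiniteDimensional ℝ E] [TopologicalSpace X] [T2Space X] [Nonempty X] [Group Γ]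
    [MulAction Γ X] {dev : X → E} {hol : Γ →* (E ≃ᵃ[ℝ] E)} (D : AffData X Γ E dev hol)
    (hinj : Function.Injective dev) (hV : Vt hol = ⊥) : QuoV X Γ E dev hol := by
  obtain ⟨C, π, σ, h, -⟩ := exists_spl hol
  obtain ⟨hU, act, D'⟩ := quo_data D hinj h
  refine ⟨C, inferInstance, inferInstance, inferInstance, π, qh h, (qh h).range, π '' range dev,
    fun q => ⟨σ q, h.sec q⟩, fun γ p => qh_equi h γ p, rfl, rfl, hU, ⟨act, D'⟩, ?_,
    vsol_step D hinj h⟩
  rintro _ ⟨γ, rfl⟩ hγ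
  have hπ : ∀ v, π v = 0 → v = 0 := by
    intro v hv
    have := (h.ker v).1 hv
    rwa [hV, Submodule.mem_bot] at this
  have hπσ : ∀ p, σ (π p) = p := by
    intro p
    have h1 := hπ (σ (π p) - p) (by rw [map_sub, h.sec, sub_self])
    exact sub_eq_zero.1 h1
  have h1 : ∀ v, cl hol γ v = v := by
    intro v
    have h2 : (qh h γ).linear (π v) = π v := by rw [hγ]; rfl
    rw [qh_linear, hπσ] at h2
    have h3 := hπ (cl hol γ v - v) (by rw [map_sub, h2, sub_self])
    exact sub_eq_zero.1 h3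
  have h2 : ∀ p, hol γ p = p + hol γ 0 := fun p => by
    rw [hol_eq, h1]
  have h3 : hol γ 0 ∈ Vt hol := Submodule.subset_span ⟨γ, h2⟩
  rw [hV, Submodule.mem_bot] at h3
  refine AffineEquiv.ext fun q => ?_
  rw [qh_apply, h2, h3, add_zero, h.sec]
  rfl

theorem quoV_all (n : ℕ) : ∀ (X Γ E : Type) [NormedAddCommGroup E] [NormedSpace ℝ E]
    [FiniteDimensional ℝ E] [TopologicalSpace X] [T2Space X] [Nonempty X] [Group Γ]
    [MulAction Γ X] (dev : X → E) (hol : Γ →* (E ≃ᵃ[ℝ] E)), AffData X Γ E dev hol →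
    Function.Injective dev → Module.finrank ℝ E ≤ n → QuoV X Γ E dev hol := by
  induction n with
  | zero =>
    intro X Γ E _ _ _ _ _ _ _ _ dev hol D hinj hn
    refine quoV_base D hinj ?_
    have h1 : Module.finrank ℝ (Vt hol) ≤ Module.finrank ℝ E := Submodule.finrank_le _
    exact Submodule.finrank_eq_zero.1 (by omega)
  | succ n ih =>
    intro X Γ E _ _ _ _ _ _ _ _ dev hol D hinj hn
    by_cases hV : Vt hol = ⊥
    · exact quoV_base D hinj hV
    obtain ⟨C, π, σ, h, hC⟩ := exists_spl hol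
    obtain ⟨hU, act, D'⟩ := quo_data D hinj h
    have hpos : 0 < Module.finrank ℝ (Vt hol) :=
      Nat.pos_of_ne_zero fun h0 => hV (Submodule.finrank_eq_zero.1 h0)
    have hne : Nonempty (π '' range dev) := by
      obtain ⟨x⟩ := ‹Nonempty X›
      exact ⟨⟨π (dev x), mem_image_of_mem _ ⟨x, rfl⟩⟩⟩
    obtain ⟨Q, i1, i2, i3, π', holQ, G, U, a1, a2, a3, a4, a5, a6, a7, a8⟩ :=
      ih (π '' range dev) (qh h).range C Subtype.val (qh h).range.subtype D'
        Subtype.val_injective (by omega)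
    rw [Subtype.range_coe] at a4
    have hsurj : Function.Surjective π := fun q => ⟨σ q, h.sec q⟩
    refine ⟨Q, i1, i2, i3, π'.comp π, holQ.comp (qh h).rangeRestrict, G, U, a1.comp hsurj, ?_, ?_,
      ?_, ?_, a6, a7, fun hs => vsol_step D hinj h (a8 hs)⟩
    · intro γ p
      have h1 := a2 ((qh h).rangeRestrict γ) (π p)
      have h2 : π' (π (hol γ p)) = π' (qh h γ (π p)) := by rw [qh_equi h]
      exact h2.trans h1
    · rw [← a3]
      ext g
      constructor
      · rintro ⟨γ, rfl⟩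
        exact ⟨_, rfl⟩
      · rintro ⟨g', rfl⟩
        obtain ⟨γ, rfl⟩ := (qh h).rangeRestrict_surjective g'
        exact ⟨γ, rfl⟩
    · rw [a4, image_image]
      rfl
    · intro p hp
      have h1 := a5 (π p) hp
      rw [Subtype.range_coe] at h1
      exact hU p h1

/-- solvable linear part -/
theorem vsol_of_lin {Γ E : Type} [Group Γ] [NormedAddCommGroup E] [NormedSpace ℝ E]
    (hol : Γ →* (E ≃ᵃ[ℝ] E)) (H : Subgroup Γ) (hH : H.FiniteIndex)
    (hs : Group.IsSolvable (H.map (AffineEquiv.linearHom.comp hol))) : VSol hol := by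
  obtain ⟨n, hn⟩ := (Group.isSolvable_def _).1 hs
  let L : Γ →* (E ≃ₗ[ℝ] E) := AffineEquiv.linearHom.comp hol
  refine vsol_lin hol H hH n fun γ hγ v => ?_
  have h1 := map_derivedSeries_le_derivedSeries (L.subgroupMap H) n
  have h2 : L.subgroupMap H γ ∈ derivedSeries (H.map L) n := h1 ⟨γ, hγ, rfl⟩
  have h3 : derivedSeries (H.map L) n = ⊥ := hn
  rw [h3, Subgroup.mem_bot] at h2
  have h4 : L (γ : Γ) = 1 := congrArg Subtype.val h2
  exact congrArg (fun T : E ≃ₗ[ℝ] E => T v) h4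

/-- dimension three -/
theorem vsol_three {X Γ E : Type} [NormedAddCommGroup E] [NormedSpace ℝ E]
    [FiniteDimensional ℝ E] [TopologicalSpace X] [T2Space X] [SecondCountableTopology X]
    [ConnectedSpace X] [Group Γ]
    [MulAction Γ X] {dev : X → E} {hol : Γ →* (E ≃ᵃ[ℝ] E)} (D : AffData X Γ E dev hol)
    (hinj : Function.Injective dev) (h3 : Module.finrank ℝ E = 3) (hirr : ¬ SIrr (lh hol)) :
    IsHomeomorph dev ∧ VSol hol := by
  rcases out_red D hinj h3 hirr with ⟨H, hH, W, hW2, hW⟩ | ⟨H, hH, hs⟩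
  · have hdev := Pool.Agent.N520.RO.plane_case X Γ E dev hol D hinj H hH W hW2 hW
    exact ⟨hdev, VSol.of_sub H hH (vsol_plane (Pool.Agent.Y449.MK.restrict D H hH) hdev W hW2
      fun γ v => hW γ γ.2 v)⟩
  · exact ⟨Pool.Agent.Y449.MS.Wrap.main Pool.Agent.Y449.MS.All.finv X Γ E dev hol D hinj H hH hs,
      vsol_of_lin hol H hH hs⟩

end Pool.Agent.P8H83
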