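import Mathlib

/-!
Open sets of real normed spaces: if two connected open sets cover the space, they have connected
intersection; filling in compact sets.
-/

set_option autoImplicit false

open Set Filter Topology Metric

namespace Pool.Agent.P8H83

/-- integer valued continuous functions on connected sets -/
theorem const_of_int {X : Type*} [TopologicalSpace X] {S : Set X} (hS : IsPreconnected S)
    {f : X → ℝ} (hf : ContinuousOn f S) (hint : ∀ x ∈ S, ∃ m : ℤ, f x = m) {x y : X}
    (hx : x ∈ S) (hy : y ∈ S) : f x = f y := by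
  have key : ∀ a ∈ S, ∀ b ∈ S, ¬ f a < f b := by
    intro a ha b hb hab
    obtain ⟨m, hm⟩ := hint a ha
    obtain ⟨k, hk⟩ := hint b hb
    have h1 : m < k := by
      rw [hm, hk] at hab
      exact_mod_cast hab
    have h1' : (m : ℝ) + 1 ≤ k := by exact_mod_cast h1
    obtain ⟨z, hz, hzc⟩ := hS.intermediate_value ha hb hf
      (show (m : ℝ) + 1 / 2 ∈ Icc (f a) (f b) by rw [hm, hk]; constructor <;> linarith)
    obtain ⟨l, hl⟩ := hint z hz
    rw [hl] at hzc
    have h2 : (2 * l : ℤ) = 2 * m + 1 := by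
      have : (2 * l : ℝ) = 2 * m + 1 := by linarith
      exact_mod_cast this
    omega
  rcases lt_trichotomy (f x) (f y) with h | h | h
  · exact absurd h (key x hx y hy)
  · exact h
  · exact absurd h (key y hy x hx)

section
variable {E : Type*} [NormedAddCommGroup E] [NormedSpace ℝ E]

/-- unicoherence -/
theorem inter_preconnected {U V : Set E} (hU : IsOpen U) (hV : IsOpen V)
    (hUc : IsPreconnected U) (hVc : IsPreconnected V) (huv : U ∪ V = univ) :
    IsPreconnected (U ∩ V) := by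
  classical
  intro u v hu hv hsub hune hvne
  by_contra hne
  rw [not_nonempty_iff_eq_empty] at hne
  obtain ⟨A, hA⟩ : ∃ A : Set E, A = U ∩ V ∩ u := ⟨_, rfl⟩
  obtain ⟨B, hB⟩ : ∃ B : Set E, B = U ∩ V ∩ v := ⟨_, rfl⟩
  have hAo : IsOpen A := by rw [hA]; exact (hU.inter hV).inter hu
  have hBo : IsOpen B := by rw [hB]; exact (hU.inter hV).inter hv
  have hAB : ∀ x ∈ B, x ∉ A := by
    rw [hA, hB]
    intro x hx hx'
    exact notMem_empty x (hne ▸ (⟨hx.1, hx'.2, hx.2⟩ : x ∈ U ∩ V ∩ (u ∩ v)))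
  have hcov : ∀ x, x ∈ U → x ∈ V → x ∈ A ∨ x ∈ B := by
    intro x h1 h2
    rcases hsub ⟨h1, h2⟩ with h | h
    · left; rw [hA]; exact ⟨⟨h1, h2⟩, h⟩
    · right; rw [hB]; exact ⟨⟨h1, h2⟩, h⟩
  obtain ⟨a, ha⟩ : A.Nonempty := by rw [hA]; exact hune
  obtain ⟨b, hb⟩ : B.Nonempty := by rw [hB]; exact hvne
  have hAU : ∀ x ∈ A, x ∈ U ∧ x ∈ V := by rw [hA]; exact fun x hx => ⟨hx.1.1, hx.1.2⟩
  have hBU : ∀ x ∈ B, x ∈ U ∧ x ∈ V := by rw [hB]; exact fun x hx => ⟨hx.1.1, hx.1.2⟩
  obtain ⟨φ, hφ0, hφ1, -⟩ := exists_continuous_zero_one_of_isClosed (s := Vᶜ) (t := Uᶜ)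
    hV.isClosed_compl hU.isClosed_compl (by
      rw [Set.disjoint_left]
      intro x hx hx'
      rcases (huv ▸ mem_univ x : x ∈ U ∪ V) with h | h
      · exact hx' h
      · exact hx h)
  obtain ⟨w, hw⟩ : ∃ w : E → ℝ, w = fun x => if x ∈ A then φ x else 0 := ⟨_, rfl⟩
  obtain ⟨w', hw'⟩ : ∃ w' : E → ℝ, w' = fun x => if x ∈ A then φ x - 1 else 0 := ⟨_, rfl⟩
  have hwA : ∀ x ∈ A, w x = φ x := by intro x hx; rw [hw]; exact if_pos hx
  have hwn : ∀ x, x ∉ A → w x = 0 := by intro x hx; rw [hw]; exact if_neg hx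
  have hwA' : ∀ x ∈ A, w' x = φ x - 1 := by intro x hx; rw [hw']; exact if_pos hx
  have hwn' : ∀ x, x ∉ A → w' x = 0 := by intro x hx; rw [hw']; exact if_neg hx
  have hwU : ∀ x ∈ U, ContinuousAt w x := by
    intro x hx
    by_cases hxV : x ∈ V
    · rcases hcov x hx hxV with h | h
      · refine φ.continuous.continuousAt.congr ?_
        filter_upwards [hAo.mem_nhds h] with y hy
        exact (hwA y hy).symm
      · refine (continuousAt_const (y := (0 : ℝ))).congr ?_
        filter_upwards [hBo.mem_nhds h] with y hy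
        exact (hwn y (hAB y hy)).symm
    · have h0 : φ x = 0 := hφ0 hxV
      have h1 : w x = 0 := hwn x fun h => hxV (hAU x h).2
      have h2 : Tendsto (fun y => |φ y|) (𝓝 x) (𝓝 0) := by
        have := φ.continuous.abs.tendsto x
        rwa [h0, abs_zero] at this
      rw [ContinuousAt, h1]
      refine squeeze_zero_norm (fun y => ?_) h2
      rw [Real.norm_eq_abs]
      by_cases hy : y ∈ A
      · rw [hwA y hy]
      · rw [hwn y hy, abs_zero]; exact abs_nonneg _
  have hwV : ∀ x ∈ V, ContinuousAt w' x := by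
    intro x hx
    by_cases hxU : x ∈ U
    · rcases hcov x hxU hx with h | h
      · refine (φ.continuous.sub (continuous_const (y := (1 : ℝ)))).continuousAt.congr ?_
        filter_upwards [hAo.mem_nhds h] with y hy
        exact (hwA' y hy).symm
      · refine (continuousAt_const (y := (0 : ℝ))).congr ?_
        filter_upwards [hBo.mem_nhds h] with y hy
        exact (hwn' y (hAB y hy)).symm
    · have h0 : φ x = 1 := hφ1 hxU
      have h1 : w' x = 0 := hwn' x fun h => hxU (hAU x h).1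
      have h2 : Tendsto (fun y => |φ y - 1|) (𝓝 x) (𝓝 0) := by
        have h3 : Continuous fun y => |φ y - 1| :=
          (φ.continuous.sub (continuous_const (y := (1 : ℝ)))).abs
        have := h3.tendsto x
        rwa [h0, sub_self, abs_zero] at this
      rw [ContinuousAt, h1]
      refine squeeze_zero_norm (fun y => ?_) h2
      rw [Real.norm_eq_abs]
      by_cases hy : y ∈ A
      · rw [hwA' y hy]
      · rw [hwn' y hy, abs_zero]; exact abs_nonneg _
  have hπ : (0 : ℝ) < 2 * Real.pi := by positivity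
  obtain ⟨g, hg⟩ : ∃ g : E → Circle, g = fun x => Circle.exp (2 * Real.pi * w x) := ⟨_, rfl⟩
  have hg' : g = fun x => Circle.exp (2 * Real.pi * w' x) := by
    rw [hg]
    funext x
    by_cases hx : x ∈ A
    · show Circle.exp (2 * Real.pi * w x) = Circle.exp (2 * Real.pi * w' x)
      rw [hwA x hx, hwA' x hx, mul_sub, mul_one, Circle.exp_sub, Circle.exp_two_pi, div_one]
    · show Circle.exp (2 * Real.pi * w x) = Circle.exp (2 * Real.pi * w' x)
      rw [hwn x hx, hwn' x hx]
  have hgc : Continuous g := by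
    rw [continuous_iff_continuousAt]
    intro x
    rcases (huv ▸ mem_univ x : x ∈ U ∪ V) with h | h
    · rw [hg]
      exact Circle.exp.continuous.continuousAt.comp (continuousAt_const.mul (hwU x h))
    · rw [hg']
      exact Circle.exp.continuous.continuousAt.comp (continuousAt_const.mul (hwV x h))
  obtain ⟨e0, he0⟩ := Circle.exp_surjective (g a)
  obtain ⟨ψ, ⟨-, hψ⟩, -⟩ := Circle.isCoveringMap_exp.existsUnique_continuousMap_lifts
    (⟨g, hgc⟩ : C(E, Circle)) (a₀ := a) (e₀ := e0) he0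
  have hψ' : ∀ x, Circle.exp (ψ x) = g x := fun x => congrFun hψ x
  obtain ⟨f1, hf1⟩ : ∃ f1 : E → ℝ, f1 = fun x => ψ x / (2 * Real.pi) - w x := ⟨_, rfl⟩
  obtain ⟨f2, hf2⟩ : ∃ f2 : E → ℝ, f2 = fun x => ψ x / (2 * Real.pi) - w' x := ⟨_, rfl⟩
  have hi1 : ∀ x, ∃ m : ℤ, f1 x = m := by
    intro x
    have h1 := hψ' x
    rw [hg, Circle.exp_eq_exp] at h1
    obtain ⟨m, hm⟩ := h1
    refine ⟨m, ?_⟩
    rw [hf1]
    show ψ x / (2 * Real.pi) - w x = m
    rw [hm]
    field_simp
    ring
  have hi2 : ∀ x, ∃ m : ℤ, f2 x = m := by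
    intro x
    have h1 := hψ' x
    rw [hg', Circle.exp_eq_exp] at h1
    obtain ⟨m, hm⟩ := h1
    refine ⟨m, ?_⟩
    rw [hf2]
    show ψ x / (2 * Real.pi) - w' x = m
    rw [hm]
    field_simp
    ring
  have e1 : f1 a = f1 b := by
    refine const_of_int hUc ?_ (fun x _ => hi1 x) (hAU a ha).1 (hBU b hb).1
    rw [hf1]
    exact fun x hx => (((map_continuous ψ).continuousAt.div_const _).sub
      (hwU x hx)).continuousWithinAt
  have e2 : f2 a = f2 b := by
    refine const_of_int hVc ?_ (fun x _ => hi2 x) (hAU a ha).2 (hBU b hb).2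
    rw [hf2]
    exact fun x hx => (((map_continuous ψ).continuousAt.div_const _).sub
      (hwV x hx)).continuousWithinAt
  rw [hf1] at e1
  rw [hf2] at e2
  have e1' : ψ a / (2 * Real.pi) - w a = ψ b / (2 * Real.pi) - w b := e1
  have e2' : ψ a / (2 * Real.pi) - w' a = ψ b / (2 * Real.pi) - w' b := e2
  rw [hwA a ha, hwn b (hAB b hb)] at e1'
  rw [hwA' a ha, hwn' b (hAB b hb)] at e2'
  linarith

/-- the complement of a closed ball is connected -/
theorem compl_ball_preconnected (h2 : 1 < Module.rank ℝ E) {R : ℝ} (hR : 0 ≤ R) :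
    IsPreconnected ((closedBall (0 : E) R)ᶜ) := by
  have h1 : IsPreconnected ({(0 : E)}ᶜ) :=
    (isConnected_compl_singleton_of_one_lt_rank h2 0).isPreconnected
  have h3 : (closedBall (0 : E) R)ᶜ = (fun x : E => (1 + R / ‖x‖) • x) '' {(0 : E)}ᶜ := by
    ext y
    constructor
    · intro hy
      rw [mem_compl_iff, mem_closedBall_zero_iff, not_le] at hy
      have hy0 : 0 < ‖y‖ := hR.trans_lt hy
      have hpos : 0 < (‖y‖ - R) / ‖y‖ := div_pos (by linarith) hy0
      have hyn : y ≠ 0 := norm_pos_iff.1 hy0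
      refine ⟨((‖y‖ - R) / ‖y‖) • y, ?_, ?_⟩
      · rw [mem_compl_iff, mem_singleton_iff, smul_eq_zero, not_or]
        exact ⟨hpos.ne', hyn⟩
      · show (1 + R / ‖((‖y‖ - R) / ‖y‖) • y‖) • ((‖y‖ - R) / ‖y‖) • y = y
        rw [norm_smul, Real.norm_eq_abs, abs_of_pos hpos, div_mul_cancel₀ _ hy0.ne', smul_smul]
        have h4 : (1 + R / (‖y‖ - R)) * ((‖y‖ - R) / ‖y‖) = 1 := by
          have : ‖y‖ - R ≠ 0 := by linarith [sub_pos.2 hy]
          field_simp
          ring
        rw [h4, one_smul]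
    · rintro ⟨x, hx, rfl⟩
      rw [mem_compl_iff, mem_singleton_iff] at hx
      have hx0 : 0 < ‖x‖ := norm_pos_iff.2 hx
      rw [mem_compl_iff, mem_closedBall_zero_iff, not_le]
      show R < ‖(1 + R / ‖x‖) • x‖
      rw [norm_smul, Real.norm_eq_abs, abs_of_pos (by positivity), add_mul, one_mul,
        div_mul_cancel₀ _ hx0.ne']
      linarith
  rw [h3]
  refine h1.image _ fun x hx => ?_
  have hx0 : ‖x‖ ≠ 0 := norm_ne_zero_iff.2 hx
  exact ((continuousAt_const.add (continuousAt_const.div continuousAt_id.norm hx0)).smul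
    continuousAt_id).continuousWithinAt

/-- the unbounded component of the complement of a compact set -/
theorem exists_outer (h2 : 1 < Module.rank ℝ E) {Q : Set E} (hQ : IsCompact Q) :
    ∃ U : Set E, IsOpen U ∧ IsPreconnected U ∧ Disjoint U Q ∧ frontier U ⊆ Q ∧
      ∃ R, (closedBall (0 : E) R)ᶜ ⊆ U := by
  obtain ⟨R, hR0, hR⟩ : ∃ R, 0 ≤ R ∧ Q ⊆ closedBall 0 R := by
    obtain ⟨R, hR⟩ := hQ.isBounded.subset_closedBall 0
    exact ⟨max R 0, le_max_right _ _, hR.trans (closedBall_subset_closedBall (le_max_left _ _))⟩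
  have hW := compl_ball_preconnected (E := E) h2 hR0
  have hnt : Nontrivial E := by
    rw [← rank_pos_iff_nontrivial (R := ℝ)]
    exact zero_lt_one.trans h2
  obtain ⟨x0, hx0⟩ : ((closedBall (0 : E) R)ᶜ).Nonempty := by
    obtain ⟨x, hx⟩ := NormedSpace.exists_lt_norm ℝ E R
    exact ⟨x, by rwa [mem_compl_iff, mem_closedBall_zero_iff, not_le]⟩
  have hsub : (closedBall (0 : E) R)ᶜ ⊆ Qᶜ := compl_subset_compl.2 hR
  have hQo : IsOpen Qᶜ := hQ.isClosed.isOpen_compl
  refine ⟨connectedComponentIn Qᶜ x0, hQo.connectedComponentIn, isPreconnected_connectedComponentIn,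
    ?_, ?_, R, hW.subset_connectedComponentIn hx0 hsub⟩
  · exact (disjoint_compl_left (a := Q)).mono_left (connectedComponentIn_subset _ _)
  · intro x hx
    by_contra hxQ
    have hUo : IsOpen (connectedComponentIn Qᶜ x0) := hQo.connectedComponentIn
    rw [hUo.frontier_eq] at hx
    obtain ⟨hx1, hx2⟩ := hx
    apply hx2
    obtain ⟨r, hr, hrb⟩ := Metric.isOpen_iff.1 hQo x hxQ
    obtain ⟨y, hy1, hy2⟩ := mem_closure_iff_nhds.1 hx1 (ball x r) (ball_mem_nhds x hr)
    have h4 : connectedComponentIn Qᶜ y = connectedComponentIn Qᶜ x0 :=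
      connectedComponentIn_eq hy2 |>.symm
    rw [← h4]
    exact (convex_ball x r).isPreconnected.subset_connectedComponentIn hy1 hrb (mem_ball_self hr)

end

end Pool.Agent.P8H83
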