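import Pool.Agent.P8H83.TowerT

/-!
Virtual solvability passes from the quotient by the translations to the group.
-/

set_option autoImplicit false

open Set Filter Topology Metric
open Pool.Agent.W689.Mk Pool.Agent.TH94.MK
open scoped commutatorElement

namespace Pool.Agent.P8H83

/-- the image is virtually solvable -/
def VSol {Γ A : Type} [Group Γ] [Group A] (f : Γ →* A) : Prop :=
  ∃ H : Subgroup Γ, H.FiniteIndex ∧ ∃ j : ℕ, ∀ γ ∈ derivedSeries H j, f (γ : Γ) = 1

section
variable {Γ A : Type} [Group Γ] [Group A]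

theorem derived_sub {H K : Subgroup Γ} (h : H ≤ K) (j : ℕ) {γ : H} (hγ : γ ∈ derivedSeries H j) :
    (⟨(γ : Γ), h γ.2⟩ : K) ∈ derivedSeries K j := by
  have h1 := map_derivedSeries_le_derivedSeries (Subgroup.inclusion h) j
  exact h1 ⟨γ, hγ, rfl⟩

theorem vsol_ext (f : Γ →* A) (N T : Subgroup Γ) [N.Normal] [T.Normal]
    (F : Set Γ) (hF : F.Finite) (hNF : ∀ n ∈ N, ∃ t ∈ T, t * n ∈ F)
    (hT : ∀ a ∈ T, ∀ b ∈ T, f a * f b = f b * f a)
    (hN : ∃ H : Subgroup Γ, H.FiniteIndex ∧ ∃ j : ℕ, ∀ γ ∈ derivedSeries H j, (γ : Γ) ∈ N) :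
    VSol f := by
  obtain ⟨H, hH, j, hj⟩ := hN
  let q := QuotientGroup.mk' T
  have hq : Function.Surjective q := QuotientGroup.mk'_surjective T
  have hq1 : ∀ t ∈ T, q t = 1 := fun t ht => (QuotientGroup.eq_one_iff t).2 ht
  let N' := N.map q
  have hN'n : N'.Normal := Subgroup.Normal.map inferInstance q hq
  have hN'f : Finite N' := by
    refine ((hF.image q).subset ?_).to_subtype
    rintro _ ⟨n, hn, rfl⟩
    obtain ⟨t, ht, htn⟩ := hNF n hn
    refine ⟨t * n, htn, ?_⟩
    rw [map_mul, hq1 t ht, one_mul]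
  let c : (Γ ⧸ T) →* MulAut N' := MulAut.conjNormal
  have hMA : Finite (MulAut N') := by
    refine Finite.of_injective (fun e : MulAut N' => (e : N' → N')) ?_
    intro a b hab
    exact MulEquiv.ext fun x => congrFun hab x
  have hc : c.ker.FiniteIndex := Subgroup.finiteIndex_ker c
  have hC : (c.ker.comap q).FiniteIndex :=
    ⟨by rw [Subgroup.index_comap_of_surjective _ hq]; exact hc.index_ne_zero⟩
  have hHC : (H ⊓ c.ker.comap q).FiniteIndex := inferInstance
  have hcc : ∀ a ∈ c.ker.comap q, ∀ n ∈ N, ⁅a, n⁆ ∈ T := by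
    intro a ha n hn
    have h1 : c (q a) = 1 := ha
    have h2 : c (q a) ⟨q n, n, hn, rfl⟩ = ⟨q n, n, hn, rfl⟩ := by rw [h1]; rfl
    have h3 : q a * q n * (q a)⁻¹ = q n := by
      have h4 := congrArg Subtype.val h2
      rwa [MulAut.conjNormal_apply] at h4
    apply (QuotientGroup.eq_one_iff _).1
    show q ⁅a, n⁆ = 1
    rw [commutatorElement_def, map_mul, map_mul, map_mul, map_inv, map_inv, h3, mul_inv_cancel]
  refine ⟨H ⊓ c.ker.comap q, hHC, j + 2, ?_⟩
  have e0 : ∀ γ ∈ derivedSeries ↥(H ⊓ c.ker.comap q) j, (γ : Γ) ∈ N := fun γ hγ =>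
    hj _ (derived_sub inf_le_left j hγ)
  have e1 : derivedSeries ↥(H ⊓ c.ker.comap q) (j + 1) ≤
      T.comap (H ⊓ c.ker.comap q).subtype := by
    rw [derivedSeries_succ, Subgroup.commutator_le]
    intro a ha b hb
    exact hcc (a : Γ) a.2.2 (b : Γ) (e0 b hb)
  have e2 : derivedSeries ↥(H ⊓ c.ker.comap q) (j + 2) ≤
      (f.comp (H ⊓ c.ker.comap q).subtype).ker := by
    rw [derivedSeries_succ, Subgroup.commutator_le]
    intro a ha b hb
    exact comm_ker _ (hT _ (e1 ha) _ (e1 hb))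
  exact fun γ hγ => e2 hγ

/-- from the linear parts to the affine maps -/
theorem vsol_lin {E : Type} [NormedAddCommGroup E] [NormedSpace ℝ E] (hol : Γ →* (E ≃ᵃ[ℝ] E))
    (H : Subgroup Γ) (hH : H.FiniteIndex) (j : ℕ)
    (h : ∀ γ ∈ derivedSeries H j, ∀ v, (hol (γ : Γ)).linear v = v) : VSol hol := by
  refine ⟨H, hH, j + 1, ?_⟩
  have e2 : derivedSeries H (j + 1) ≤ (hol.comp H.subtype).ker := by
    rw [derivedSeries_succ, Subgroup.commutator_le]
    intro a ha b hb
    refine comm_ker _ (AffineEquiv.ext fun p => ?_)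
    have key : ∀ γ ∈ derivedSeries H j, ∀ v : E, hol (γ : Γ) v = v + hol (γ : Γ) 0 := by
      intro γ hγ v
      have h4 := (hol (γ : Γ)).map_vadd 0 v
      rw [vadd_eq_add, vadd_eq_add, add_zero, h γ hγ] at h4
      exact h4
    show hol (a : Γ) (hol (b : Γ) p) = hol (b : Γ) (hol (a : Γ) p)
    rw [key a ha (hol (b : Γ) p), key b hb (hol (a : Γ) p), key a ha p, key b hb p]
    abel
  exact fun γ hγ => e2 hγ

/-- solvability of the image -/
theorem VSol.solvable {f : Γ →* A} (h : VSol f) :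
    ∃ H : Subgroup Γ, H.FiniteIndex ∧ Group.IsSolvable (H.map f) := by
  obtain ⟨H, hH, j, hj⟩ := h
  refine ⟨H, hH, ?_⟩
  let g : H →* H.map f := f.subgroupMap H
  have hg : Function.Surjective g := f.subgroupMap_surjective H
  refine (Group.isSolvable_def _).2 ⟨j, ?_⟩
  rw [← map_derivedSeries_eq hg, eq_bot_iff]
  rintro _ ⟨γ, hγ, rfl⟩
  rw [Subgroup.mem_bot]
  exact Subtype.ext (hj γ hγ)

/-- pass to a subgroup of finite index -/
theorem VSol.of_sub {f : Γ →* A} (H : Subgroup Γ) (hH : H.FiniteIndex)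
    (h : VSol (f.comp H.subtype)) : VSol f := by
  obtain ⟨K, hK, j, hj⟩ := h
  refine ⟨K.map H.subtype, ?_, j, ?_⟩
  · refine ⟨?_⟩
    rw [Subgroup.index_map_subtype]
    exact mul_ne_zero hK.index_ne_zero hH.index_ne_zero
  · intro γ hγ
    let g : K →* K.map H.subtype := H.subtype.subgroupMap K
    have hg : Function.Surjective g := H.subtype.subgroupMap_surjective K
    rw [← map_derivedSeries_eq hg] at hγ
    obtain ⟨k, hk, rfl⟩ := hγ
    exact hj k hk

theorem VSol.of_range {A' : Type} [Group A'] (f : Γ →* A) (g : Γ →* A')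
    (h : VSol g.range.subtype) :
    ∃ H : Subgroup Γ, H.FiniteIndex ∧ ∃ j : ℕ, ∀ γ ∈ derivedSeries H j, (γ : Γ) ∈ g.ker := by
  obtain ⟨K, hK, j, hj⟩ := h
  refine ⟨K.comap g.rangeRestrict, ⟨by
    rw [Subgroup.index_comap_of_surjective _ g.rangeRestrict_surjective]
    exact hK.index_ne_zero⟩, j, ?_⟩
  intro γ hγ
  have h1 := map_derivedSeries_le_derivedSeries (g.rangeRestrict.subgroupComap K) j
  have h2 := hj _ (h1 ⟨γ, hγ, rfl⟩)
  exact h2

end

section
variable {X Γ E Q : Type} [NormedAddCommGroup E] [NormedSpace ℝ E] [FiniteDimensional ℝ E]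
    [NormedAddCommGroup Q] [NormedSpace ℝ Q]
    [TopologicalSpace X] [T2Space X] [Group Γ] [MulAction Γ X] [Nonempty X]
    {dev : X → E} {hol : Γ →* (E ≃ᵃ[ℝ] E)} {π : E →L[ℝ] Q} {σ : Q →L[ℝ] E}

/-- one step of the tower -/
theorem vsol_step (D : AffData X Γ E dev hol) (hinj : Function.Injective dev) (h : Spl hol π σ)
    (hs : VSol (qh h).range.subtype) : VSol hol := by
  obtain ⟨x0⟩ := ‹Nonempty X›
  obtain ⟨R, hR⟩ := cocpt_T hol
  have hsurj : Function.Surjective π := fun q => ⟨σ q, h.sec q⟩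
  set p0 := dev x0 with hp0
  obtain ⟨Kh, hKh⟩ : ∃ Kh : Set E, Kh = (fun w : E => p0 + w) ''
      (closedBall 0 |R| ∩ (Vt hol : Set E)) := ⟨_, rfl⟩
  have hVc : IsClosed (Vt hol : Set E) := (Vt hol).closed_of_finiteDimensional
  have hKc : IsCompact Kh := by
    rw [hKh]
    have : ProperSpace E := FiniteDimensional.proper ℝ E
    exact ((isCompact_closedBall (0 : E) |R|).inter_right hVc).image
      (continuous_const.add continuous_id)
  have hKr : Kh ⊆ range dev := by
    rw [hKh]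
    rintro _ ⟨w, ⟨-, hw⟩, rfl⟩
    exact sat D hinj ⟨x0, rfl⟩ hw
  have hfin := range_pd D hinj Kh hKc hKr
  have hp0K : p0 ∈ Kh := by
    rw [hKh]
    refine ⟨0, ⟨?_, (Vt hol).zero_mem⟩, add_zero _⟩
    rw [mem_closedBall, dist_self]
    exact abs_nonneg R
  refine vsol_ext hol (qh h).ker (AffineEquiv.linearHom.comp hol).ker _ hfin ?_ ?_
    (VSol.of_range hol (qh h) hs)
  · intro γ hγ
    have hγ1 : qh h γ = 1 := hγ
    have hw : hol γ p0 - p0 ∈ Vt hol := by
      rw [← h.ker, map_sub, qh_equi h, hγ1]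
      exact sub_self _
    obtain ⟨t, ⟨δ, hδ⟩, htR⟩ := hR _ hw
    have htV : t ∈ Vt hol := Submodule.subset_span ⟨δ, hδ⟩
    refine ⟨δ, ?_, p0, hp0K, ?_⟩
    · rw [MonoidHom.mem_ker]
      refine LinearEquiv.ext fun v => ?_
      show (hol δ).linear v = v
      have h4 := (hol δ).map_vadd 0 v
      rw [vadd_eq_add, vadd_eq_add, add_zero, hδ, hδ, zero_add] at h4
      exact (add_right_cancel h4).symm
    · rw [map_mul]
      show hol δ (hol γ p0) ∈ Kh
      rw [hδ, hKh]
      refine ⟨hol γ p0 - p0 + t, ⟨?_, (Vt hol).add_mem hw htV⟩, ?_⟩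
      · rw [mem_closedBall, dist_zero_right]
        exact htR.trans (le_abs_self R)
      · show p0 + (hol γ p0 - p0 + t) = hol γ p0 + t
        abel
  · intro a ha b hb
    have key : ∀ γ ∈ (AffineEquiv.linearHom.comp hol).ker, ∀ v : E, hol γ v = v + hol γ 0 := by
      intro γ hγ v
      have h3 : (hol γ).linear = LinearEquiv.refl ℝ E := hγ
      have h4 := (hol γ).map_vadd 0 v
      rw [h3, vadd_eq_add, vadd_eq_add, add_zero] at h4
      exact h4
    refine AffineEquiv.ext fun p => ?_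
    show hol a (hol b p) = hol b (hol a p)
    rw [key a ha (hol b p), key b hb (hol a p), key a ha p, key b hb p]
    abel

end

end Pool.Agent.P8H83
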